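import Mathlib

set_option autoImplicit false
set_option linter.all false
set_option linter.unusedSectionVars false
set_option linter.style.haveILetI false

namespace Pool.Agent.Helper218

open Subgroup

open scoped commutatorElement

variable {G : Type*} [Group G]

/-! ### elementary facts -/

lemma eq_one_of_pows {G : Type*} [Group G] {d : G} {a b : ℕ} (h : Nat.Coprime a b)
    (ha : d ^ a = 1) (hb : d ^ b = 1) : d = 1 := by
  have h1 : orderOf d ∣ a := orderOf_dvd_of_pow_eq_one ha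
  have h2 : orderOf d ∣ b := orderOf_dvd_of_pow_eq_one hb
  have h3 : orderOf d ∣ 1 := by
    have := Nat.dvd_gcd h1 h2
    rwa [h] at this
  exact orderOf_eq_one_iff.1 (Nat.dvd_one.1 h3)

/-- coprime action, elementwise -/
lemma cc {p q : ℕ} (hpq : Nat.Coprime p q) {z y : G} {n k : ℕ}
    (hy : y ^ (q ^ n) = 1) (hd : (z⁻¹ * (y * z * y⁻¹)) ^ (p ^ k) = 1)
    (hc : y * (z⁻¹ * (y * z * y⁻¹)) = (z⁻¹ * (y * z * y⁻¹)) * y) : y * z = z * y := by
  set d := z⁻¹ * (y * z * y⁻¹) with hdd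
  have h1 : ∀ j : ℕ, y ^ j * z * (y ^ j)⁻¹ = z * d ^ j := by
    intro j
    induction j with
    | zero => simp
    | succ j ih =>
      have e1 : y ^ (j + 1) * z * (y ^ (j + 1))⁻¹ = y * (y ^ j * z * (y ^ j)⁻¹) * y⁻¹ := by
        rw [pow_succ']; group
      have hcj : y * d ^ j = d ^ j * y := (Commute.pow_right (show Commute y d from hc) j)
      rw [e1, ih]
      calc y * (z * d ^ j) * y⁻¹ = y * z * (d ^ j * y⁻¹) := by group
        _ = y * z * (y⁻¹ * (y * d ^ j) * y⁻¹) := by group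
        _ = y * z * (y⁻¹ * (d ^ j * y) * y⁻¹) := by rw [hcj]
        _ = (y * z * y⁻¹) * d ^ j := by group
        _ = z * (z⁻¹ * (y * z * y⁻¹)) * d ^ j := by group
        _ = z * d * d ^ j := by rw [← hdd]
        _ = z * d ^ (j + 1) := by rw [pow_succ']; group
  have h2 := h1 (q ^ n)
  rw [hy] at h2
  have h3 : d ^ (q ^ n) = 1 := by
    have : z = z * d ^ q ^ n := by simpa using h2
    have h4 : z * 1 = z * d ^ q ^ n := by rw [mul_one]; exact this
    exact (mul_left_cancel h4).symm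
  have h5 : d = 1 := eq_one_of_pows (Nat.Coprime.pow k n hpq) hd h3
  have h6 : z = y * z * y⁻¹ := by
    have := hdd.symm.trans h5
    exact inv_mul_eq_one.1 this
  calc y * z = (y * z * y⁻¹) * y := by group
    _ = z * y := by rw [← h6]

/-- transfer lemma -/
theorem av {p q : ℕ} (hpq : Nat.Coprime p q) {K : Type*} [Group K] [Finite K] (P : Subgroup K)
    [P.Normal] (hP : ∀ u ∈ P, ∃ n, u ^ (p ^ n) = 1)
    (hidx : Nat.Coprime p P.index)
    (hgen : Subgroup.closure {g : K | ∃ n, g ^ (q ^ n) = 1} = ⊤)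
    (z : K) (hz : z ∈ P) (hc : ∀ k, k * z = z * k) : z ∈ ⁅P, P⁆ := by
  classical
  let φ : P →* Abelianization P := Abelianization.of
  let τ : K →* Abelianization P := MonoidHom.transfer φ
  have hpA : ∀ a : Abelianization P, ∃ n, a ^ (p ^ n) = 1 := by
    intro a
    obtain ⟨u, rfl⟩ : ∃ u, φ u = a := QuotientGroup.mk_surjective a
    obtain ⟨n, hn⟩ := hP u.1 u.2
    refine ⟨n, ?_⟩
    rw [← map_pow]
    have : u ^ p ^ n = 1 := Subtype.ext (by simpa using hn)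
    rw [this, map_one]
  have hτ : τ = 1 := by
    apply MonoidHom.eq_of_eqOn_dense hgen
    rintro g ⟨n, hn⟩
    obtain ⟨k, hk⟩ := hpA (τ g)
    have h1 : (τ g) ^ (q ^ n) = 1 := by rw [← map_pow, hn, map_one]
    exact eq_one_of_pows (Nat.Coprime.pow k n hpq) hk h1
  have key : ∀ (k : ℕ) (g₀ : K), g₀⁻¹ * z ^ k * g₀ ∈ P → g₀⁻¹ * z ^ k * g₀ = z ^ k := by
    intro k g₀ _
    have : Commute g₀ (z ^ k) := Commute.pow_right (hc g₀) k
    rw [mul_assoc, ← this.eq]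
    group
  have h1 : τ z = φ ⟨z ^ P.index, MonoidHom.transfer_eq_pow_aux z key⟩ :=
    MonoidHom.transfer_eq_pow φ z key
  rw [hτ, MonoidHom.one_apply] at h1
  have h2 : (⟨z ^ P.index, MonoidHom.transfer_eq_pow_aux z key⟩ : P) = (⟨z, hz⟩ : P) ^ P.index :=
    Subtype.ext (by simp)
  rw [h2, map_pow] at h1
  obtain ⟨n, hn⟩ := hpA (φ ⟨z, hz⟩)
  have h3 : φ ⟨z, hz⟩ = 1 := eq_one_of_pows (Nat.Coprime.pow_left n hidx) hn h1.symm
  have h4 : (⟨z, hz⟩ : P) ∈ commutator P := by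
    have : (⟨z, hz⟩ : P) ∈ (Abelianization.of (G := P)).ker := h3
    rwa [Abelianization.ker_of] at this
  have h5 : (commutator P).map P.subtype = ⁅P, P⁆ := by
    rw [_root_.commutator_def, Subgroup.map_commutator, ← MonoidHom.range_eq_map, Subgroup.range_subtype]
  rw [← h5]
  exact ⟨⟨z, hz⟩, h4, rfl⟩

lemma mem_of_pows {H : Subgroup G} {u : G} {a b : ℕ} (h : Nat.Coprime a b)
    (ha : u ^ a ∈ H) (hb : u ^ b ∈ H) : u ∈ H := by
  have h1 : (u : G) = (u ^ a) ^ (Nat.gcdA a b) * (u ^ b) ^ (Nat.gcdB a b) := by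
    rw [← zpow_natCast, ← zpow_natCast, ← zpow_mul, ← zpow_mul, ← zpow_add, ← Nat.gcd_eq_gcd_ab, h]
    simp
  rw [h1]
  exact H.mul_mem (H.zpow_mem ha _) (H.zpow_mem hb _)

lemma commute_of_pows {k u : G} {a b : ℕ} (h : Nat.Coprime a b)
    (ha : u ^ a * k = k * u ^ a) (hb : u ^ b * k = k * u ^ b) : u * k = k * u := by
  have h1 : u ∈ Subgroup.centralizer {k} := by
    apply mem_of_pows h
    · rw [Subgroup.mem_centralizer_singleton_iff]; exact ha
    · rw [Subgroup.mem_centralizer_singleton_iff]; exact hb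
  rwa [Subgroup.mem_centralizer_singleton_iff] at h1

/-- `K` is a finite subgroup generated by its `q`-elements, `P` a `p`-subgroup normalised by `K` with
`K / P` a `q`-group. -/
structure Base (p q : ℕ) (K P : Subgroup G) : Prop where
  fin : Finite K
  le : P ≤ K
  nrm : ∀ k ∈ K, ∀ u ∈ P, k * u * k⁻¹ ∈ P
  pP : ∀ u ∈ P, ∃ n, u ^ (p ^ n) = 1
  qK : ∀ k ∈ K, ∃ n, k ^ (q ^ n) ∈ P
  gen : K ≤ Subgroup.closure {g | g ∈ K ∧ ∃ n, g ^ (q ^ n) = 1}

namespace Base

variable {p q : ℕ} [hp : Fact p.Prime] [hq : Fact q.Prime] {K P : Subgroup G}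

lemma mem_of_p (h : Base p q K P) (hpq : Nat.Coprime p q) {u : G} (hu : u ∈ K) {n : ℕ}
    (hn : u ^ (p ^ n) = 1) : u ∈ P := by
  obtain ⟨m, hm⟩ := h.qK u hu
  exact mem_of_pows (Nat.Coprime.pow n m hpq) (by rw [hn]; exact P.one_mem) hm

lemma normal (h : Base p q K P) : (P.subgroupOf K).Normal := by
  constructor
  rintro ⟨u, huK⟩ hu ⟨k, hk⟩
  rw [Subgroup.mem_subgroupOf] at hu ⊢
  exact h.nrm k hk u hu

lemma isPGroup_quot (h : Base p q K P) :
    haveI := h.normal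
    IsPGroup q (K ⧸ P.subgroupOf K) := by
  haveI := h.normal
  intro x
  induction x using QuotientGroup.induction_on with
  | H x =>
    obtain ⟨n, hn⟩ := h.qK x.1 x.2
    refine ⟨n, ?_⟩
    rw [← QuotientGroup.mk_pow, QuotientGroup.eq_one_iff, Subgroup.mem_subgroupOf]
    exact hn

lemma index_eq (h : Base p q K P) : ∃ n, (P.subgroupOf K).index = q ^ n := by
  haveI := h.normal
  haveI := h.fin
  obtain ⟨n, hn⟩ := (IsPGroup.iff_card (p := q) (G := K ⧸ P.subgroupOf K)).1 h.isPGroup_quot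
  exact ⟨n, hn⟩

lemma gen_top (h : Base p q K P) :
    Subgroup.closure {g : K | ∃ n, g ^ (q ^ n) = 1} = ⊤ := by
  rw [eq_top_iff]
  intro x _
  have hx := h.gen x.2
  have key : ∀ y (_ : y ∈ Subgroup.closure {g | g ∈ K ∧ ∃ n, g ^ (q ^ n) = 1}),
      ∃ hy : y ∈ K, (⟨y, hy⟩ : K) ∈ Subgroup.closure {g : K | ∃ n, g ^ (q ^ n) = 1} := by
    intro y hy
    induction hy using Subgroup.closure_induction with
    | mem x hx =>
      obtain ⟨hxK, n, hn⟩ := hx
      exact ⟨hxK, Subgroup.subset_closure ⟨n, Subtype.ext (by simpa using hn)⟩⟩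
    | one => exact ⟨K.one_mem, Subgroup.one_mem _⟩
    | mul x y _ _ ihx ihy =>
      obtain ⟨hx, hx'⟩ := ihx
      obtain ⟨hy, hy'⟩ := ihy
      exact ⟨K.mul_mem hx hy, Subgroup.mul_mem _ hx' hy'⟩
    | inv x _ ih =>
      obtain ⟨hx, hx'⟩ := ih
      exact ⟨K.inv_mem hx, Subgroup.inv_mem _ hx'⟩
  obtain ⟨_, h2⟩ := key x.1 hx
  exact h2

/-- a Sylow `q`-subgroup of `K` is a complement up to `P` -/
lemma exists_sylow (h : Base p q K P) : ∃ Q : Subgroup G, Q ≤ K ∧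
    (∀ y ∈ Q, ∃ n, y ^ (q ^ n) = 1) ∧ ∀ k ∈ K, ∃ u ∈ P, ∃ y ∈ Q, k = u * y := by
  haveI := h.normal
  haveI := h.fin
  obtain ⟨S⟩ : Nonempty (Sylow q K) := inferInstance
  refine ⟨(S : Subgroup K).map K.subtype, ?_, ?_, ?_⟩
  · rintro _ ⟨x, _, rfl⟩; exact x.2
  · rintro _ ⟨x, hx, rfl⟩
    obtain ⟨n, hn⟩ := S.2 ⟨x, hx⟩
    refine ⟨n, ?_⟩
    have := congrArg Subtype.val hn
    have h3 : x ^ q ^ n = 1 := by simpa using this
    have := congrArg Subtype.val h3
    simpa using this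
  · have htop : P.subgroupOf K ⊔ (S : Subgroup K) = ⊤ := by
      rw [← Subgroup.index_eq_one]
      obtain ⟨n, hn⟩ := h.index_eq
      have h1 : (P.subgroupOf K ⊔ (S : Subgroup K)).index ∣ q ^ n := by
        rw [← hn]; exact Subgroup.index_dvd_of_le le_sup_left
      obtain ⟨a, _, ha⟩ := (Nat.dvd_prime_pow hq.out).1 h1
      have h2 : (P.subgroupOf K ⊔ (S : Subgroup K)).index ∣ (S : Subgroup K).index :=
        Subgroup.index_dvd_of_le le_sup_right
      rcases Nat.eq_zero_or_pos a with h0 | h0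
      · rw [ha, h0, pow_zero]
      · exfalso
        apply S.not_dvd_index
        exact (dvd_trans (dvd_pow_self q h0.ne') (ha ▸ h2))
    intro k hk
    have hk' : (⟨k, hk⟩ : K) ∈ P.subgroupOf K ⊔ (S : Subgroup K) := by rw [htop]; trivial
    rw [Subgroup.mem_sup_of_normal_left] at hk'
    obtain ⟨u, hu, y, hy, huy⟩ := hk'
    refine ⟨u.1, hu, y.1, ⟨y, hy, rfl⟩, ?_⟩
    have := congrArg Subtype.val huy
    simpa using this.symm

lemma av_amb (h : Base p q K P) (hpq : Nat.Coprime p q) {z : G} (hz : z ∈ P)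
    (hc : ∀ k ∈ K, k * z = z * k) : z ∈ ⁅P, P⁆ := by
  haveI := h.normal
  haveI := h.fin
  obtain ⟨n, hn⟩ := h.index_eq
  have h1 := av (p := p) (q := q) hpq (P.subgroupOf K) (by
      intro u hu
      obtain ⟨n, hn⟩ := h.pP u.1 hu
      exact ⟨n, Subtype.ext (by simpa using hn)⟩)
    (by rw [hn]; exact Nat.Coprime.pow_right n hpq) h.gen_top ⟨z, h.le hz⟩ hz
    (by rintro ⟨k, hk⟩; exact Subtype.ext (hc k hk))
  have h2 : (⁅P.subgroupOf K, P.subgroupOf K⁆).map K.subtype = ⁅P, P⁆ := by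
    rw [Subgroup.map_commutator, Subgroup.map_subgroupOf_eq_of_le h.le]
  rw [← h2]
  exact ⟨_, h1, rfl⟩

/-- if `K` acts trivially on `P / N` then `P ≤ N` -/
lemma le_of_comm (h : Base p q K P) (hpq : Nat.Coprime p q) {N : Subgroup G} (hN : N ≤ P)
    (hc : ∀ k ∈ K, ∀ u ∈ P, u⁻¹ * (k * u * k⁻¹) ∈ N) : P ≤ N := by
  haveI := h.normal
  haveI := h.fin
  haveI hNn : (N.subgroupOf K).Normal := by
    constructor
    rintro ⟨u, huK⟩ hu ⟨k, hk⟩
    rw [Subgroup.mem_subgroupOf] at hu ⊢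
    have := N.mul_mem hu (hc k hk u (hN hu))
    simpa [mul_assoc] using this
  intro u hu
  let π := QuotientGroup.mk' (N.subgroupOf K)
  have hsurj : Function.Surjective π := QuotientGroup.mk'_surjective _
  haveI : ((P.subgroupOf K).map π).Normal := Subgroup.Normal.map inferInstance π hsurj
  obtain ⟨n, hn⟩ := h.index_eq
  have hcen : ∀ x ∈ (P.subgroupOf K).map π, ∀ k, k * x = x * k := by
    rintro _ ⟨x, hx, rfl⟩ k
    obtain ⟨k, rfl⟩ := hsurj k
    rw [← map_mul, ← map_mul]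
    change (QuotientGroup.mk (k * x) : K ⧸ N.subgroupOf K) = QuotientGroup.mk (x * k)
    rw [eq_comm, QuotientGroup.eq, Subgroup.mem_subgroupOf]
    have h1 := hc k.1 k.2 x.1 hx
    have h2 := hNn.conj_mem ⟨_, h.le (hN h1)⟩ h1 (k⁻¹)
    rw [Subgroup.mem_subgroupOf] at h2
    simpa [mul_assoc] using h2
  have h1 := av (p := p) (q := q) hpq ((P.subgroupOf K).map π) (by
      rintro _ ⟨x, hx, rfl⟩
      obtain ⟨n, hn⟩ := h.pP x.1 hx
      refine ⟨n, ?_⟩
      rw [← map_pow]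
      have : x ^ p ^ n = 1 := Subtype.ext (by simpa using hn)
      rw [this, map_one])
    (by
      have h3 : ((P.subgroupOf K).map π).index ∣ (P.subgroupOf K).index :=
        Subgroup.index_map_dvd _ hsurj
      rw [hn] at h3
      obtain ⟨a, _, ha⟩ := (Nat.dvd_prime_pow hq.out).1 h3
      rw [ha]; exact Nat.Coprime.pow_right a hpq)
    (by
      rw [eq_top_iff, ← Subgroup.map_top_of_surjective π hsurj, ← h.gen_top,
        MonoidHom.map_closure, Subgroup.closure_le]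
      rintro _ ⟨x, ⟨n, hn⟩, rfl⟩
      exact Subgroup.subset_closure ⟨n, by rw [← map_pow, hn, map_one]⟩)
    (π ⟨u, h.le hu⟩) ⟨⟨u, h.le hu⟩, hu, rfl⟩ (hcen _ ⟨⟨u, h.le hu⟩, hu, rfl⟩)
  have h2 : ⁅(P.subgroupOf K).map π, (P.subgroupOf K).map π⁆ = ⊥ := by
    rw [eq_bot_iff, Subgroup.commutator_le]
    intro a ha b hb
    rw [Subgroup.mem_bot, commutatorElement_eq_one_iff_mul_comm]
    exact hcen b hb a
  rw [h2, Subgroup.mem_bot] at h1
  have h3 : (⟨u, h.le hu⟩ : K) ∈ N.subgroupOf K := (QuotientGroup.eq_one_iff _).1 h1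
  exact h3

end Base

/-- a twisted fixed point lemma for coprime action -/
lemma fixed_in_coset {p q : ℕ} [hp : Fact p.Prime] [hq : Fact q.Prime] (hpq : Nat.Coprime p q)
    (Q N : Subgroup G) [Finite N]
    (hN : ∀ u ∈ N, ∃ n, u ^ (p ^ n) = 1) (hQ : ∀ y ∈ Q, ∃ n, y ^ (q ^ n) = 1)
    (hQN : ∀ y ∈ Q, ∀ u ∈ N, y * u * y⁻¹ ∈ N) (v : G)
    (hv : ∀ y ∈ Q, v⁻¹ * (y * v * y⁻¹) ∈ N) :
    ∃ u ∈ N, ∀ y ∈ Q, y * (v * u) = (v * u) * y := by
  have hmem : ∀ (y : Q) (u : N), v⁻¹ * (y * (v * u) * (y : G)⁻¹) ∈ N := by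
    intro y u
    have := N.mul_mem (hv y.1 y.2) (hQN y.1 y.2 u.1 u.2)
    have e : v⁻¹ * ((y : G) * (v * u) * (y : G)⁻¹) =
        v⁻¹ * ((y : G) * v * (y : G)⁻¹) * ((y : G) * u * (y : G)⁻¹) := by group
    rw [e]; exact this
  letI : MulAction Q N :=
    { smul := fun y u => ⟨v⁻¹ * (y * (v * u) * (y : G)⁻¹), hmem y u⟩
      one_smul := by
        intro u
        apply Subtype.ext
        change v⁻¹ * (((1 : Q) : G) * (v * u) * ((1 : Q) : G)⁻¹) = u
        simp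
      mul_smul := by
        intro x y u
        apply Subtype.ext
        change v⁻¹ * (((x * y : Q) : G) * (v * u) * ((x * y : Q) : G)⁻¹) =
          v⁻¹ * ((x : G) * (v * (v⁻¹ * (y * (v * u) * (y : G)⁻¹))) * (x : G)⁻¹)
        rw [Subgroup.coe_mul]; group }
  have hQ' : IsPGroup q Q := by
    intro y
    obtain ⟨n, hn⟩ := hQ y.1 y.2
    exact ⟨n, Subtype.ext (by simpa using hn)⟩
  have hN' : IsPGroup p N := by
    intro y
    obtain ⟨n, hn⟩ := hN y.1 y.2
    exact ⟨n, Subtype.ext (by simpa using hn)⟩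
  obtain ⟨k, hk⟩ := (IsPGroup.iff_card (p := p) (G := N)).1 hN'
  have hdvd : ¬ q ∣ Nat.card N := by
    rw [hk]
    intro h
    have h1 : q ∣ p := hq.out.dvd_of_dvd_pow h
    have h2 : q ∣ 1 := by
      have := Nat.dvd_gcd h1 (dvd_refl q)
      rwa [hpq] at this
    exact hq.out.one_lt.ne' (Nat.dvd_one.1 h2)
  obtain ⟨u, hu⟩ := hQ'.nonempty_fixed_point_of_prime_not_dvd_card N hdvd
  refine ⟨u.1, u.2, ?_⟩
  intro y hy
  have h1 := hu ⟨y, hy⟩
  have h2 : v⁻¹ * (y * (v * u) * y⁻¹) = u := congrArg Subtype.val h1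
  have h3 : y * (v * u) * y⁻¹ = v * u := by
    calc y * (v * u) * y⁻¹ = v * (v⁻¹ * (y * (v * u) * y⁻¹)) := by group
      _ = v * u := by rw [h2]
  exact mul_inv_eq_iff_eq_mul.1 h3

end Pool.Agent.Helper218
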