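import Pool.Agent.Helper218.Core1

set_option autoImplicit false
set_option linter.all false

namespace Pool.Agent.Helper218

open Subgroup

open scoped commutatorElement

variable {G : Type*} [Group G]

/-- the set of commutators of `v` with the elements of `P` -/
def Br (P : Subgroup G) (v : G) : Set G := {w | ∃ u ∈ P, w = ⁅v, u⁆}

lemma comm_mul_left' (a b c : G) : ⁅a * b, c⁆ = a * ⁅b, c⁆ * a⁻¹ * ⁅a, c⁆ := by
  simp only [commutatorElement_def]; group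

lemma comm_mul_right' (a b c : G) : ⁅a, b * c⁆ = ⁅a, b⁆ * (b * ⁅a, c⁆ * b⁻¹) := by
  simp only [commutatorElement_def]; group

lemma conj_eq_of_comm {a w : G} (h : a * w = w * a) : a * w * a⁻¹ = w := by
  rw [h]; group

lemma comm_mul_left {a b c : G} (h : a * ⁅b, c⁆ = ⁅b, c⁆ * a) : ⁅a * b, c⁆ = ⁅b, c⁆ * ⁅a, c⁆ := by
  rw [comm_mul_left', conj_eq_of_comm h]

lemma comm_mul_right {a b c : G} (h : b * ⁅a, c⁆ = ⁅a, c⁆ * b) : ⁅a, b * c⁆ = ⁅a, b⁆ * ⁅a, c⁆ := by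
  rw [comm_mul_right', conj_eq_of_comm h]

lemma conj_comm (k a b : G) : k * ⁅a, b⁆ * k⁻¹ = ⁅k * a * k⁻¹, k * b * k⁻¹⁆ := by
  simp only [commutatorElement_def]; group

lemma comm_eq_one_iff {a b : G} : ⁅a, b⁆ = 1 ↔ a * b = b * a :=
  commutatorElement_eq_one_iff_mul_comm

/-- replacing a factor by one with the same commutator -/
lemma comm_inv_mul {u u' c : G} (h : ⁅u', c⁆ = ⁅u, c⁆) : (u⁻¹ * u') * c = c * (u⁻¹ * u') := by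
  rw [← comm_eq_one_iff, comm_mul_left', h, ← comm_mul_left', inv_mul_cancel]
  simp [commutatorElement_def]

lemma comm_inv_left {a c : G} (h : a * ⁅a, c⁆ = ⁅a, c⁆ * a) : ⁅a⁻¹, c⁆ = ⁅a, c⁆⁻¹ := by
  have h1 : ⁅a⁻¹ * a, c⁆ = a⁻¹ * ⁅a, c⁆ * a⁻¹⁻¹ * ⁅a⁻¹, c⁆ := comm_mul_left' _ _ _
  have h2 : a⁻¹ * ⁅a, c⁆ * a⁻¹⁻¹ = ⁅a, c⁆ := by
    rw [inv_inv, mul_assoc, ← h]; group
  rw [h2, inv_mul_cancel] at h1
  have h3 : ⁅(1 : G), c⁆ = 1 := by simp [commutatorElement_def]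
  rw [h3] at h1
  exact eq_inv_of_mul_eq_one_right h1.symm

lemma comm_inv_right {a c : G} (h : c * ⁅a, c⁆ = ⁅a, c⁆ * c) : ⁅a, c⁻¹⁆ = ⁅a, c⁆⁻¹ := by
  have h1 : ⁅a, c⁻¹ * c⁆ = ⁅a, c⁻¹⁆ * (c⁻¹ * ⁅a, c⁆ * c⁻¹⁻¹) := comm_mul_right' _ _ _
  have h2 : c⁻¹ * ⁅a, c⁆ * c⁻¹⁻¹ = ⁅a, c⁆ := by
    rw [inv_inv, mul_assoc, ← h]; group
  rw [h2, inv_mul_cancel] at h1
  have h3 : ⁅a, (1 : G)⁆ = 1 := by simp [commutatorElement_def]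
  rw [h3] at h1
  exact eq_inv_of_mul_eq_one_left h1.symm

/-- decomposition for coprime action -/
lemma dec {p q : ℕ} [hp : Fact p.Prime] [hq : Fact q.Prime] (hpq : Nat.Coprime p q)
    {K₁ P₁ : Subgroup G} (h : Base p q K₁ P₁) {P : Subgroup G} (hfin : Finite P) (hP1 : P₁ ≤ P)
    (hc2 : ∀ u ∈ P, ∀ v ∈ P, ∀ x ∈ P, x * ⁅u, v⁆ = ⁅u, v⁆ * x)
    (hcK : ∀ u ∈ P, ∀ v ∈ P, ∀ k ∈ K₁, k * ⁅u, v⁆ = ⁅u, v⁆ * k)
    (hact : ∀ k ∈ K₁, ∀ v ∈ P, v⁻¹ * (k * v * k⁻¹) ∈ P₁)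
    {T : Subgroup G} (hT : T ≤ P) (hTn : ∀ k ∈ K₁, ∀ t ∈ T, k * t * k⁻¹ ∈ T) (t : G) (ht : t ∈ T) :
    ∃ c ∈ T, (∀ k ∈ K₁, k * c = c * k) ∧ c⁻¹ * t ∈ P₁ := by
  obtain ⟨Q, hQK, hQq, hKQ⟩ := h.exists_sylow
  have hfin' : Finite (T ⊓ P₁ : Subgroup G) :=
    Finite.of_injective (Subgroup.inclusion (inf_le_left.trans hT))
      (Subgroup.inclusion_injective _)
  obtain ⟨u, hu, huy⟩ := fixed_in_coset (p := p) (q := q) hpq Q (T ⊓ P₁)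
    (fun u hu => h.pP u hu.2) hQq
    (fun y hy u hu => ⟨hTn y (hQK hy) u hu.1, h.nrm y (hQK hy) u hu.2⟩) t
    (fun y hy => ⟨T.mul_mem (T.inv_mem ht) (hTn y (hQK hy) t ht), hact y (hQK hy) t (hT ht)⟩)
  set c := t * u with hc
  have hcT : c ∈ T := T.mul_mem ht hu.1
  have hcP : c ∈ P := hT hcT
  have hP1c : ∀ a ∈ P₁, a * c = c * a := by
    have h1 : P₁ ≤ P₁ ⊓ Subgroup.centralizer {c} := by
      apply h.le_of_comm hpq inf_le_left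
      intro k hk a ha
      refine ⟨P₁.mul_mem (P₁.inv_mem ha) (h.nrm k hk a ha), ?_⟩
      obtain ⟨b, hb, y, hy, rfl⟩ := hKQ k hk
      refine Subgroup.mem_centralizer_singleton_iff.2 ?_
      have e : a⁻¹ * (b * y * a * (b * y)⁻¹) = (a⁻¹ * (y * a * y⁻¹)) * ⁅(y * a * y⁻¹)⁻¹, b⁆ := by
        simp only [commutatorElement_def]; group
      have e1 : (a⁻¹ * (y * a * y⁻¹)) * c = c * (a⁻¹ * (y * a * y⁻¹)) := by
        apply comm_inv_mul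
        have e2 : y * ⁅a, c⁆ * y⁻¹ = ⁅a, c⁆ :=
          conj_eq_of_comm (hcK a (hP1 ha) c hcP y (hQK hy))
        rw [conj_comm] at e2
        have e3 : y * c * y⁻¹ = c := conj_eq_of_comm (huy y hy)
        rwa [e3] at e2
      have e4 : c * ⁅(y * a * y⁻¹)⁻¹, b⁆ = ⁅(y * a * y⁻¹)⁻¹, b⁆ * c :=
        hc2 _ (P.inv_mem (hP1 (h.nrm y (hQK hy) a ha))) _ (hP1 hb) _ hcP
      rw [e, mul_assoc, ← e4, ← mul_assoc, e1, mul_assoc]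
    intro a ha
    exact Subgroup.mem_centralizer_singleton_iff.1 (h1 ha).2
  refine ⟨c, hcT, ?_, ?_⟩
  · intro k hk
    obtain ⟨b, hb, y, hy, rfl⟩ := hKQ k hk
    rw [mul_assoc, huy y hy, ← mul_assoc, hP1c b hb, mul_assoc]
  · have : c⁻¹ * t = u⁻¹ := by rw [hc]; group
    rw [this]; exact P₁.inv_mem hu.2

/-- the main structural condition -/
structure Core (p q m : ℕ) (K P : Subgroup G) : Prop extends Base p q K P where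
  a1 : ∀ u ∈ P, ∀ v ∈ P, ∀ k ∈ K, k * ⁅u, v⁆ = ⁅u, v⁆ * k
  a2 : ∀ z ∈ P, (∀ u ∈ P, u * z = z * u) → ∀ k ∈ K, k * z = z * k
  b : ∀ v ∈ P, (∃ u ∈ P, u * v ≠ v * u) → p ^ m ≤ (Br P v).ncard
  c : P ≤ Subgroup.closure {v | v ∈ P ∧ ((∀ u ∈ P, u * v = v * u) ∨ (Br P v).ncard = p ^ m)}
  d : ∀ u ∈ P, ∀ v ∈ P, (Br P u).ncard = p ^ m → (Br P v).ncard = p ^ m →
    Br P u = Br P v ∨ u * v = v * u

lemma finite_of_le {K P : Subgroup G} (hK : Finite K) (h : P ≤ K) : Finite P :=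
  Finite.of_injective (Subgroup.inclusion h) (Subgroup.inclusion_injective _)

lemma Br_finite {P : Subgroup G} (hP : Finite P) (v : G) : (Br P v).Finite := by
  have : Br P v = (fun u => ⁅v, u⁆) '' (P : Set G) := by
    ext w; constructor
    · rintro ⟨u, hu, rfl⟩; exact ⟨u, hu, rfl⟩
    · rintro ⟨u, hu, rfl⟩; exact ⟨u, hu, rfl⟩
  rw [this]
  exact Set.Finite.image _ (Set.toFinite _)

lemma comm_of_Br_sub {P : Subgroup G} {v : G} (h : ∀ w ∈ Br P v, w = 1) : ∀ u ∈ P, u * v = v * u := by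
  intro u hu
  have := h _ ⟨u, hu, rfl⟩
  exact (comm_eq_one_iff.1 this).symm

/-- commutators with `v⁻¹ (k v k⁻¹)` are commutators with `v` -/
lemma Br_diff {K P : Subgroup G} (hPK : P ≤ K)
    (nrm : ∀ k ∈ K, ∀ u ∈ P, k * u * k⁻¹ ∈ P)
    (a1 : ∀ u ∈ P, ∀ v ∈ P, ∀ k ∈ K, k * ⁅u, v⁆ = ⁅u, v⁆ * k) {k v : G} (hk : k ∈ K) (hv : v ∈ P) :
    Br P (v⁻¹ * (k * v * k⁻¹)) ⊆ Br P v := by
  rintro _ ⟨x, hx, rfl⟩
  have hx' : k⁻¹ * x * k ∈ P := by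
    have := nrm k⁻¹ (K.inv_mem hk) x hx
    rwa [inv_inv] at this
  refine ⟨(k⁻¹ * x * k) * x⁻¹, P.mul_mem hx' (P.inv_mem hx), ?_⟩
  have hcx : ∀ a ∈ P, ∀ b ∈ P, ∀ y ∈ P, y * ⁅a, b⁆ = ⁅a, b⁆ * y := fun a ha b hb y hy =>
    a1 a ha b hb y (hPK hy)
  have hkv : k * v * k⁻¹ ∈ P := nrm k hk v hv
  rw [comm_mul_left (hcx _ hkv _ hx _ (P.inv_mem hv)), comm_inv_left (hcx _ hv _ hx _ hv),
    comm_mul_right (hcx _ hv _ (P.inv_mem hx) _ hx'), comm_inv_right (hcx _ hv _ hx _ hx)]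
  congr 1
  have e : k * ⁅v, k⁻¹ * x * k⁆ * k⁻¹ = ⁅v, k⁻¹ * x * k⁆ := conj_eq_of_comm (a1 _ hv _ hx' _ hk)
  rw [conj_comm] at e
  rw [← e]
  congr 1
  group

end Pool.Agent.Helper218
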