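import Pool.Agent.Helper218.Core2

set_option autoImplicit false
set_option linter.all false

namespace Pool.Agent.Helper218

open Subgroup

open scoped commutatorElement

variable {G : Type*} [Group G]

lemma comm_closure {S : Set G} {K : Subgroup G} (hK : K ≤ Subgroup.closure S) {x : G}
    (h : ∀ g ∈ S, g * x = x * g) : ∀ k ∈ K, k * x = x * k := by
  have h1 : Subgroup.closure S ≤ Subgroup.centralizer {x} := by
    rw [Subgroup.closure_le]
    intro g hg
    exact Subgroup.mem_centralizer_singleton_iff.2 (h g hg)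
  intro k hk
  exact Subgroup.mem_centralizer_singleton_iff.1 (h1 (hK hk))

/-- comparison of commutator sets -/
lemma Br_eq {K₁ P₁ P : Subgroup G} (hP1K : P₁ ≤ K₁) (hP1 : P₁ ≤ P)
    (hdec : ∀ t ∈ P, ∃ c ∈ P, (∀ k ∈ K₁, k * c = c * k) ∧ c⁻¹ * t ∈ P₁) {v : G} (hv : v ∈ P₁) :
    Br P v = Br P₁ v := by
  ext w
  constructor
  · rintro ⟨t, ht, rfl⟩
    obtain ⟨c, hc, hck, hct⟩ := hdec t ht
    refine ⟨c⁻¹ * t, hct, ?_⟩
    have e : t = c * (c⁻¹ * t) := by group
    have e1 : ⁅v, c⁆ = 1 := comm_eq_one_iff.2 (hck v (hP1K hv))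
    have e2 : c * ⁅v, c⁻¹ * t⁆ * c⁻¹ = ⁅v, c⁻¹ * t⁆ := by
      apply conj_eq_of_comm
      have : ⁅v, c⁻¹ * t⁆ ∈ K₁ := by
        rw [commutatorElement_def]
        exact K₁.mul_mem (K₁.mul_mem (K₁.mul_mem (hP1K hv) (hP1K hct)) (K₁.inv_mem (hP1K hv)))
          (K₁.inv_mem (hP1K hct))
      exact (hck _ this).symm
    conv_lhs => rw [e, comm_mul_right', e1, one_mul, e2]
  · rintro ⟨t, ht, rfl⟩
    exact ⟨t, hP1 ht, rfl⟩

lemma comm_mem {P : Subgroup G} {a b : G} (ha : a ∈ P) (hb : b ∈ P) : ⁅a, b⁆ ∈ P := by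
  rw [commutatorElement_def]
  exact P.mul_mem (P.mul_mem (P.mul_mem ha hb) (P.inv_mem ha)) (P.inv_mem hb)

namespace Core

variable {p q m : ℕ} [hp : Fact p.Prime] [hq : Fact q.Prime] {K P : Subgroup G}

/-- a normal subgroup generated by `q`-elements inherits the condition -/
theorem sub (hpq : Nat.Coprime p q) (h : Core p q m K P) {K' : Subgroup G} (hK' : K' ≤ K)
    (hn : ∀ k ∈ K, ∀ x ∈ K', k * x * k⁻¹ ∈ K')
    (hg : K' ≤ Subgroup.closure {g | g ∈ K' ∧ ∃ n, g ^ (q ^ n) = 1}) :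
    Core p q m K' (P ⊓ K') := by
  have hfinK : Finite K' := finite_of_le h.fin hK'
  have hfinP : Finite P := finite_of_le h.fin h.le
  have hbase : Base p q K' (P ⊓ K') :=
    { fin := hfinK
      le := inf_le_right
      nrm := fun k hk u hu => ⟨h.nrm k (hK' hk) u hu.1, hn k (hK' hk) u hu.2⟩
      pP := fun u hu => h.pP u hu.1
      qK := by
        intro k hk
        obtain ⟨n, hn⟩ := h.qK k (hK' hk)
        exact ⟨n, hn, K'.pow_mem hk _⟩
      gen := hg }
  have hact : ∀ k ∈ K', ∀ v ∈ P, v⁻¹ * (k * v * k⁻¹) ∈ P ⊓ K' := by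
    intro k hk v hv
    refine ⟨P.mul_mem (P.inv_mem hv) (h.nrm k (hK' hk) v hv), ?_⟩
    have h1 := hn v⁻¹ (K.inv_mem (h.le hv)) k hk
    have h2 := K'.mul_mem h1 (K'.inv_mem hk)
    have e : v⁻¹ * (k * v * k⁻¹) = v⁻¹ * k * v⁻¹⁻¹ * k⁻¹ := by group
    rw [e]; exact h2
  have hdec : ∀ t ∈ P, ∃ c ∈ P, (∀ k ∈ K', k * c = c * k) ∧ c⁻¹ * t ∈ P ⊓ K' := by
    intro t ht
    exact dec hpq hbase hfinP inf_le_left (fun u hu v hv x hx => h.a1 u hu v hv x (h.le hx))
      (fun u hu v hv k hk => h.a1 u hu v hv k (hK' hk)) hact le_rfl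
      (fun k hk t ht => h.nrm k (hK' hk) t ht) t ht
  have hBr : ∀ v ∈ P ⊓ K', Br P v = Br (P ⊓ K') v := fun v hv =>
    Br_eq hbase.le inf_le_left hdec hv
  refine { toBase := hbase, a1 := ?_, a2 := ?_, b := ?_, c := ?_, d := ?_ }
  · intro u hu v hv k hk
    exact h.a1 u hu.1 v hv.1 k (hK' hk)
  · intro z hz hc k hk
    refine h.a2 z hz.1 ?_ k (hK' hk)
    intro u hu
    obtain ⟨c, hcP, hck, hcu⟩ := hdec u hu
    have e : u = c * (c⁻¹ * u) := by group
    rw [e]
    have h1 := hck z hz.2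
    have h2 := hc _ hcu
    calc c * (c⁻¹ * u) * z = c * ((c⁻¹ * u) * z) := by group
      _ = c * (z * (c⁻¹ * u)) := by rw [h2]
      _ = (c * z) * (c⁻¹ * u) := by group
      _ = (z * c) * (c⁻¹ * u) := by rw [h1]
      _ = z * (c * (c⁻¹ * u)) := by group
  · rintro v hv ⟨u, hu, huv⟩
    rw [← hBr v hv]
    exact h.b v hv.1 ⟨u, hu.1, huv⟩
  · set S : Set G := {v | v ∈ P ⊓ K' ∧ ((∀ u ∈ P ⊓ K', u * v = v * u) ∨
      (Br (P ⊓ K') v).ncard = p ^ m)} with hS
    have hSle : Subgroup.closure S ≤ P ⊓ K' := by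
      rw [Subgroup.closure_le]; rintro v ⟨hv, _⟩; exact hv
    apply hbase.le_of_comm hpq hSle
    have hcomm : ∀ x ∈ P, ∀ s ∈ Subgroup.closure S, x * s * x⁻¹ ∈ Subgroup.closure S := by
      intro x hx s hs
      have hs' := hSle hs
      have e : x * s * x⁻¹ = ⁅x, s⁆ * s := by rw [commutatorElement_def]; group
      rw [e]
      refine (Subgroup.closure S).mul_mem (Subgroup.subset_closure ⟨⟨comm_mem hx hs'.1, ?_⟩,
        Or.inl ?_⟩) hs
      · have := K'.mul_mem (hn x (h.le hx) s hs'.2) (K'.inv_mem hs'.2)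
        rwa [commutatorElement_def]
      · intro u hu
        exact h.a1 x hx s hs'.1 u (h.le hu.1)
    have key : ∀ u ∈ P, ∀ k ∈ K', u⁻¹ * (k * u * k⁻¹) ∈ Subgroup.closure S := by
      intro u hu
      have hu2 := h.c hu
      have : u ∈ P ∧ ∀ k ∈ K', u⁻¹ * (k * u * k⁻¹) ∈ Subgroup.closure S := by
        clear hu
        induction hu2 using Subgroup.closure_induction with
        | mem v hv =>
          obtain ⟨hvP, hv2⟩ := hv
          refine ⟨hvP, ?_⟩
          intro k hk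
          rcases hv2 with hv2 | hv2
          · have := h.a2 v hvP hv2 k (hK' hk)
            have e : v⁻¹ * (k * v * k⁻¹) = 1 := by rw [conj_eq_of_comm this]; group
            rw [e]; exact Subgroup.one_mem _
          · have hd := hact k hk v hvP
            apply Subgroup.subset_closure
            refine ⟨hd, ?_⟩
            by_cases hcen : ∀ u ∈ P ⊓ K', u * (v⁻¹ * (k * v * k⁻¹)) = (v⁻¹ * (k * v * k⁻¹)) * u
            · exact Or.inl hcen
            · right
              push Not at hcen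
              obtain ⟨u, hu, huv⟩ := hcen
              have h1 := h.b _ hd.1 ⟨u, hu.1, huv⟩
              have h2 : Br P (v⁻¹ * (k * v * k⁻¹)) ⊆ Br P v :=
                Br_diff h.le h.nrm h.a1 (hK' hk) hvP
              have h3 := Set.ncard_le_ncard h2 (Br_finite hfinP v)
              rw [← hBr _ hd]
              omega
        | one =>
          refine ⟨P.one_mem, ?_⟩
          intro k hk
          have e : (1 : G)⁻¹ * (k * 1 * k⁻¹) = 1 := by group
          rw [e]; exact Subgroup.one_mem _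
        | mul x y _ _ ihx ihy =>
          obtain ⟨hx, ihx⟩ := ihx
          obtain ⟨hy, ihy⟩ := ihy
          refine ⟨P.mul_mem hx hy, ?_⟩
          intro k hk
          have e : (x * y)⁻¹ * (k * (x * y) * k⁻¹) =
              (y⁻¹ * (x⁻¹ * (k * x * k⁻¹)) * y⁻¹⁻¹) * (y⁻¹ * (k * y * k⁻¹)) := by group
          rw [e]
          exact Subgroup.mul_mem _ (hcomm _ (P.inv_mem hy) _ (ihx k hk)) (ihy k hk)
        | inv x _ ih =>
          obtain ⟨hx, ih⟩ := ih
          refine ⟨P.inv_mem hx, ?_⟩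
          intro k hk
          have e : x⁻¹⁻¹ * (k * x⁻¹ * k⁻¹) = x * (x⁻¹ * (k * x * k⁻¹))⁻¹ * x⁻¹ := by group
          rw [e]
          exact hcomm _ hx _ (Subgroup.inv_mem _ (ih k hk))
      exact this.2
    intro k hk u hu
    exact key u hu.1 k hk
  · intro u hu v hv h1 h2
    rw [← hBr u hu] at h1 ⊢
    rw [← hBr v hv] at h2 ⊢
    exact h.d u hu.1 v hv.1 h1 h2

end Core

end Pool.Agent.Helper218
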