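import Pool.Agent.Helper218.Core3

set_option autoImplicit false
set_option linter.all false

namespace Pool.Agent.Helper218

open Subgroup

open scoped commutatorElement

variable {G : Type*} [Group G]

/-- two normal subgroups satisfying the condition -/
structure Two (p q m : ℕ) (K₁ P₁ K₂ P₂ : Subgroup G) : Prop where
  h1 : Core p q m K₁ P₁
  h2 : Core p q m K₂ P₂
  nK1 : K₁.Normal
  nP1 : P₁.Normal
  nK2 : K₂.Normal
  nP2 : P₂.Normal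

lemma comm_symm {a b : G} : ⁅a, b⁆⁻¹ = ⁅b, a⁆ := by
  simp only [commutatorElement_def]; group

namespace Two

variable {p q m : ℕ} [hp : Fact p.Prime] [hq : Fact q.Prime] {K₁ P₁ K₂ P₂ : Subgroup G}

lemma swap (h : Two p q m K₁ P₁ K₂ P₂) : Two p q m K₂ P₂ K₁ P₁ :=
  ⟨h.h2, h.h1, h.nK2, h.nP2, h.nK1, h.nP1⟩

/-- `[P₁, K₂] ≤ P₁ ⊓ P₂` -/
lemma L1 (h : Two p q m K₁ P₁ K₂ P₂) (hpq : Nat.Coprime p q) {a k : G} (ha : a ∈ P₁)
    (hk : k ∈ K₂) : a⁻¹ * (k * a * k⁻¹) ∈ P₁ ∧ a⁻¹ * (k * a * k⁻¹) ∈ P₂ := by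
  have h1 : a⁻¹ * (k * a * k⁻¹) ∈ P₁ := P₁.mul_mem (P₁.inv_mem ha) (h.nP1.conj_mem a ha k)
  refine ⟨h1, ?_⟩
  obtain ⟨n, hn⟩ := h.h1.pP _ h1
  refine h.h2.mem_of_p hpq ?_ hn
  have e : a⁻¹ * (k * a * k⁻¹) = (a⁻¹ * k * a⁻¹⁻¹) * k⁻¹ := by group
  rw [e]
  exact K₂.mul_mem (h.nK2.conj_mem k hk a⁻¹) (K₂.inv_mem hk)

/-- commutators of `P₁` with `v` under conjugation -/
lemma Br_conj (hP : P₁.Normal) (g v : G) {w : G} (hw : w ∈ Br P₁ v) :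
    g * w * g⁻¹ ∈ Br P₁ (g * v * g⁻¹) := by
  obtain ⟨u, hu, rfl⟩ := hw
  exact ⟨g * u * g⁻¹, hP.conj_mem u hu g, conj_comm _ _ _⟩

lemma Br_conj_iff (hP : P₁.Normal) (g v : G) {w : G} :
    w ∈ Br P₁ (g * v * g⁻¹) ↔ g⁻¹ * w * g ∈ Br P₁ v := by
  constructor
  · intro hw
    have := Br_conj hP g⁻¹ _ hw
    have e : g⁻¹ * (g * v * g⁻¹) * g⁻¹⁻¹ = v := by group
    rw [e, inv_inv] at this
    exact this
  · intro hw
    have := Br_conj hP g _ hw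
    have e : g * (g⁻¹ * w * g) * g⁻¹ = w := by group
    rwa [e] at this

lemma Br_conj_card (hP : P₁.Normal) (g v : G) :
    (Br P₁ (g * v * g⁻¹)).ncard = (Br P₁ v).ncard := by
  have e : Br P₁ (g * v * g⁻¹) = (fun w => g * w * g⁻¹) '' Br P₁ v := by
    ext w
    rw [Br_conj_iff hP]
    constructor
    · intro hw
      exact ⟨_, hw, by group⟩
    · rintro ⟨x, hx, rfl⟩
      have e : g⁻¹ * (g * x * g⁻¹) * g = x := by group
      simpa [e] using hx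
  rw [e]
  apply Set.ncard_image_of_injective
  intro x y hxy
  have : g * x * g⁻¹ = g * y * g⁻¹ := hxy
  simpa using this

/-- elements `w` of a minimal commutator set `Br P₁ v` are stabilised by `q`-elements of `K₂` -/
lemma L2A (h : Two p q m K₁ P₁ K₂ P₂) (hpq : Nat.Coprime p q) (hq2 : q ≠ 2) {v : G} (hv : v ∈ P₁)
    (hv1 : (Br P₁ v).ncard = p ^ m) {g : G} (hg : g ∈ K₂) {n : ℕ} (hgn : g ^ (q ^ n) = 1)
    {w : G} (hw : w ∈ Br P₁ v) : g * w * g⁻¹ ∈ Br P₁ v := by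
  by_contra hcon
  have hne : Br P₁ (g * v * g⁻¹) ≠ Br P₁ v := by
    intro he
    exact hcon (he ▸ Br_conj h.nP1 g v hw)
  have hPK : P₁ ≤ K₁ := h.h1.le
  have hcx : ∀ a ∈ P₁, ∀ b ∈ P₁, ∀ y ∈ P₁, y * ⁅a, b⁆ = ⁅a, b⁆ * y := fun a ha b hb y hy =>
    h.h1.a1 a ha b hb y (hPK hy)
  set v' := g * v * g⁻¹ with hv'
  have hv'P : v' ∈ P₁ := h.nP1.conj_mem v hv g
  have hv'1 : (Br P₁ v').ncard = p ^ m := by rw [hv', Br_conj_card h.nP1, hv1]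
  have key : ∀ u ∈ P₁, g * ⁅v, u⁆ = ⁅v, u⁆ * g := by
    intro u hu
    have hu2 := h.h1.c hu
    have : u ∈ P₁ ∧ g * ⁅v, u⁆ = ⁅v, u⁆ * g := by
      clear hu
      induction hu2 using Subgroup.closure_induction with
      | mem u hu' =>
        obtain ⟨hu, hu2⟩ := hu'
        refine ⟨hu, ?_⟩
        by_cases huv : u * v = v * u
        · have : ⁅v, u⁆ = 1 := comm_eq_one_iff.2 huv.symm
          rw [this, mul_one, one_mul]
        · have hu1 : (Br P₁ u).ncard = p ^ m := by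
            rcases hu2 with hu2 | hu2
            · exact absurd (hu2 v hv).symm huv
            · exact hu2
          have hBu : Br P₁ u = Br P₁ v := by
            rcases h.h1.d u hu v hv hu1 hv1 with h3 | h3
            · exact h3
            · exact absurd h3 huv
          set u' := g * u * g⁻¹ with hu'
          have hu'P : u' ∈ P₁ := h.nP1.conj_mem u hu g
          have hu'1 : (Br P₁ u').ncard = p ^ m := by rw [hu', Br_conj_card h.nP1, hu1]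
          have hBu' : Br P₁ u' = Br P₁ v' := by
            ext w
            rw [hu', hv', Br_conj_iff h.nP1, Br_conj_iff h.nP1, hBu]
          have h3 : v' * u = u * v' := by
            rcases h.h1.d v' hv'P u hu hv'1 hu1 with h4 | h4
            · exact absurd (h4.trans hBu) hne
            · exact h4
          have h4 : v * u' = u' * v := by
            rcases h.h1.d v hv u' hu'P hv1 hu'1 with h4 | h4
            · exact absurd (h4.trans hBu').symm hne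
            · exact h4
          have h5 := h.L1 hpq hv hg
          have h6 := h.L1 hpq hu hg
          have e1 : ⁅v⁻¹ * v', u⁻¹ * u'⁆ = ⁅v, u⁆ * ⁅v', u'⁆ := by
            have hvi := P₁.inv_mem hv
            have hui := P₁.inv_mem hu
            rw [comm_mul_left (hcx _ hv'P _ (P₁.mul_mem hui hu'P) _ hvi),
              comm_mul_right (hcx _ hv'P _ hu'P _ hui), comm_mul_right (hcx _ hvi _ hu'P _ hui),
              comm_inv_left (hcx _ hv _ hui _ hv), comm_inv_left (hcx _ hv _ hu'P _ hv),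
              comm_inv_right (hcx _ hv _ hu _ hu), comm_inv_right (hcx _ hv'P _ hu _ hu),
              comm_eq_one_iff.2 h3, comm_eq_one_iff.2 h4]
            simp only [inv_one, one_mul, mul_one, inv_inv]
            exact (hcx _ hv'P _ hu'P _ (comm_mem hv hu)).symm
          have e2 : g * ⁅v, u⁆ * g⁻¹ = ⁅v', u'⁆ := conj_comm _ _ _
          have e3 : g * ⁅v⁻¹ * v', u⁻¹ * u'⁆ = ⁅v⁻¹ * v', u⁻¹ * u'⁆ * g :=
            h.h2.a1 _ h5.2 _ h6.2 g hg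
          rw [e1, ← e2] at e3
          set z := ⁅v, u⁆ with hz
          have hzz : z * (g * z * g⁻¹) = (g * z * g⁻¹) * z := by
            rw [e2]
            exact hcx _ hv'P _ hu'P _ (comm_mem hv hu)
          have e4 : g * z * g⁻¹ * (g * (g * z * g⁻¹) * g⁻¹) = z * (g * z * g⁻¹) := by
            have : g * (z * (g * z * g⁻¹)) * g⁻¹ = z * (g * z * g⁻¹) := by rw [e3]; group
            rw [← this]; group
          rw [hzz] at e4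
          have e5 : g * (g * z * g⁻¹) * g⁻¹ = z := mul_left_cancel e4
          have e6 : g ^ 2 * z = z * g ^ 2 := by
            calc g ^ 2 * z = (g * (g * z * g⁻¹) * g⁻¹) * g ^ 2 := by rw [pow_two]; group
              _ = z * g ^ 2 := by rw [e5]
          refine commute_of_pows (a := 2) (b := q ^ n) ?_ e6 ?_
          · apply Nat.Coprime.pow_right
            exact (Nat.coprime_primes Nat.prime_two hq.out).2 (Ne.symm hq2)
          · rw [hgn, one_mul, mul_one]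
      | one =>
        refine ⟨P₁.one_mem, ?_⟩
        have : ⁅v, (1 : G)⁆ = 1 := by simp [commutatorElement_def]
        rw [this, mul_one, one_mul]
      | mul x y _ _ ihx ihy =>
        obtain ⟨hx, ihx⟩ := ihx
        obtain ⟨hy, ihy⟩ := ihy
        refine ⟨P₁.mul_mem hx hy, ?_⟩
        rw [comm_mul_right (hcx _ hv _ hy _ hx), ← mul_assoc, ihx, mul_assoc, ihy, mul_assoc]
      | inv x _ ih =>
        obtain ⟨hx, ih⟩ := ih
        refine ⟨P₁.inv_mem hx, ?_⟩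
        rw [comm_inv_right (hcx _ hv _ hx _ hx)]
        exact (show Commute g ⁅v, x⁆ from ih).inv_right
    exact this.2
  apply hcon
  obtain ⟨u, hu, rfl⟩ := hw
  rw [conj_eq_of_comm (key u hu)]
  exact ⟨u, hu, rfl⟩

/-- elements of a minimal commutator set `Br P₁ v` commute with `K₂` -/
lemma L2 (h : Two p q m K₁ P₁ K₂ P₂) (hpq : Nat.Coprime p q) (hq2 : q ≠ 2) {v : G} (hv : v ∈ P₁)
    (hv1 : (Br P₁ v).ncard = p ^ m) {w : G} (hw : w ∈ Br P₁ v) : ∀ k ∈ K₂, k * w = w * k := by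
  have hPK : P₁ ≤ K₁ := h.h1.le
  have hcx : ∀ a ∈ P₁, ∀ b ∈ P₁, ∀ y ∈ P₁, y * ⁅a, b⁆ = ⁅a, b⁆ * y := fun a ha b hb y hy =>
    h.h1.a1 a ha b hb y (hPK hy)
  have hWP : ∀ w ∈ Br P₁ v, w ∈ P₁ := by
    rintro _ ⟨u, hu, rfl⟩; exact comm_mem hv hu
  have hWmul : ∀ w ∈ Br P₁ v, ∀ w' ∈ Br P₁ v, w * w' ∈ Br P₁ v := by
    rintro _ ⟨u, hu, rfl⟩ _ ⟨u', hu', rfl⟩
    exact ⟨u * u', P₁.mul_mem hu hu', (comm_mul_right (hcx _ hv _ hu' _ hu)).symm⟩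
  have hWinv : ∀ w ∈ Br P₁ v, w⁻¹ ∈ Br P₁ v := by
    rintro _ ⟨u, hu, rfl⟩
    exact ⟨u⁻¹, P₁.inv_mem hu, (comm_inv_right (hcx _ hv _ hu _ hu)).symm⟩
  have hA : ∀ k ∈ K₂, ∀ w ∈ Br P₁ v, k * w * k⁻¹ ∈ Br P₁ v := by
    intro k hk
    have hk2 := h.h2.gen hk
    have : (∀ w ∈ Br P₁ v, k * w * k⁻¹ ∈ Br P₁ v) ∧ (∀ w ∈ Br P₁ v, k⁻¹ * w * k ∈ Br P₁ v) := by
      clear hk
      induction hk2 using Subgroup.closure_induction with
      | mem g hg =>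
        obtain ⟨hg, n, hn⟩ := hg
        refine ⟨fun w hw => h.L2A hpq hq2 hv hv1 hg hn hw, fun w hw => ?_⟩
        have := h.L2A hpq hq2 hv hv1 (K₂.inv_mem hg) (n := n) (by rw [inv_pow, hn, inv_one]) hw
        rwa [inv_inv] at this
      | one => simp
      | mul x y _ _ ihx ihy =>
        refine ⟨fun w hw => ?_, fun w hw => ?_⟩
        · have := ihx.1 _ (ihy.1 w hw)
          have e : x * (y * w * y⁻¹) * x⁻¹ = x * y * w * (x * y)⁻¹ := by group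
          rwa [e] at this
        · have := ihy.2 _ (ihx.2 w hw)
          have e : y⁻¹ * (x⁻¹ * w * x) * y = (x * y)⁻¹ * w * (x * y) := by group
          rwa [e] at this
      | inv x _ ih =>
        refine ⟨fun w hw => ?_, fun w hw => ?_⟩
        · have := ih.2 w hw; rwa [inv_inv]
        · have := ih.1 w hw; rwa [inv_inv]
    exact this.1
  have hfinP : Finite P₁ := finite_of_le h.h1.fin h.h1.le
  have hB : ∀ w ∈ Br P₁ v, w ∈ P₂ → ∀ k ∈ K₂, k * w = w * k := by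
    intro w hw hw2
    by_cases hc : ∀ u ∈ P₂, u * w = w * u
    · exact h.h2.a2 w hw2 hc
    · push Not at hc
      have h1 := h.h2.b w hw2 hc
      have h2 : Br P₂ w ⊆ Br P₁ v := by
        rintro _ ⟨u, hu, rfl⟩
        have e : ⁅w, u⁆ = w * (u * w⁻¹ * u⁻¹) := by rw [commutatorElement_def]; group
        rw [e]
        exact hWmul _ hw _ (hA u (h.h2.le hu) _ (hWinv _ hw))
      have h3 : Br P₂ w = Br P₁ v :=
        Set.eq_of_subset_of_ncard_le h2 (by rw [hv1]; exact h1) (Br_finite hfinP v)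
      rw [← h3] at hw
      obtain ⟨u, hu, hwu⟩ := hw
      intro k hk
      have := h.h2.a1 w hw2 u hu k hk
      rwa [← hwu] at this
  apply comm_closure h.h2.gen
  rintro g ⟨hg, n, hn⟩
  set d := w⁻¹ * (g * w * g⁻¹) with hd
  have hdW : d ∈ Br P₁ v := hWmul _ (hWinv _ hw) _ (hA g hg w hw)
  have hd2 := (h.L1 hpq (hWP w hw) hg).2
  obtain ⟨k, hk⟩ := h.h1.pP d (hWP _ hdW)
  exact cc hpq hn hk (hB d hdW hd2 g hg)

lemma L3' (h : Two p q m K₁ P₁ K₂ P₂) (hpq : Nat.Coprime p q) (hq2 : q ≠ 2) {u v : G}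
    (hu : u ∈ P₁) (hv : v ∈ P₁) : ∀ k ∈ K₂, k * ⁅u, v⁆ = ⁅u, v⁆ * k := by
  have hPK : P₁ ≤ K₁ := h.h1.le
  have hcx : ∀ a ∈ P₁, ∀ b ∈ P₁, ∀ y ∈ P₁, y * ⁅a, b⁆ = ⁅a, b⁆ * y := fun a ha b hb y hy =>
    h.h1.a1 a ha b hb y (hPK hy)
  intro k hk
  have hu2 := h.h1.c hu
  have : u ∈ P₁ ∧ k * ⁅u, v⁆ = ⁅u, v⁆ * k := by
    clear hu
    induction hu2 using Subgroup.closure_induction with
    | mem x hx =>
      obtain ⟨hx, hx2⟩ := hx
      refine ⟨hx, ?_⟩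
      rcases hx2 with hx2 | hx2
      · have : ⁅x, v⁆ = 1 := comm_eq_one_iff.2 (hx2 v hv).symm
        rw [this, one_mul, mul_one]
      · exact h.L2 hpq hq2 hx hx2 ⟨v, hv, rfl⟩ k hk
    | one =>
      refine ⟨P₁.one_mem, ?_⟩
      have : ⁅(1 : G), v⁆ = 1 := by simp [commutatorElement_def]
      rw [this, mul_one, one_mul]
    | mul x y _ _ ihx ihy =>
      obtain ⟨hx, ihx⟩ := ihx
      obtain ⟨hy, ihy⟩ := ihy
      refine ⟨P₁.mul_mem hx hy, ?_⟩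
      rw [comm_mul_left (hcx _ hy _ hv _ hx), ← mul_assoc, ihy, mul_assoc, ihx, mul_assoc]
    | inv x _ ih =>
      obtain ⟨hx, ih⟩ := ih
      refine ⟨P₁.inv_mem hx, ?_⟩
      rw [comm_inv_left (hcx _ hx _ hv _ hx)]
      exact (show Commute k ⁅x, v⁆ from ih).inv_right
  exact this.2

/-- `⁅P₁, P₁⁆` commutes with `K₂` -/
lemma L3 (h : Two p q m K₁ P₁ K₂ P₂) (hpq : Nat.Coprime p q) (hq2 : q ≠ 2) {z : G}
    (hz : z ∈ ⁅P₁, P₁⁆) : ∀ k ∈ K₂, k * z = z * k := by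
  intro k hk
  have h1 : ⁅P₁, P₁⁆ ≤ Subgroup.centralizer {k} := by
    rw [Subgroup.commutator_le]
    intro a ha b hb
    exact Subgroup.mem_centralizer_singleton_iff.2 (h.L3' hpq hq2 ha hb k hk).symm
  exact (Subgroup.mem_centralizer_singleton_iff.1 (h1 hz)).symm

/-- central elements of `P₁` commute with `K₂` -/
lemma L4 (h : Two p q m K₁ P₁ K₂ P₂) (hpq : Nat.Coprime p q) (hq2 : q ≠ 2) {z : G}
    (hz : z ∈ P₁) (hc : ∀ u ∈ P₁, u * z = z * u) : ∀ k ∈ K₂, k * z = z * k :=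
  h.L3 hpq hq2 (h.h1.av_amb hpq hz (h.h1.a2 z hz hc))

/-- commutators of `P₁` and `P₂` commute with `P₁ ⊓ P₂` -/
lemma L5a (h : Two p q m K₁ P₁ K₂ P₂) (hpq : Nat.Coprime p q) (hq2 : q ≠ 2) {a b c : G}
    (ha : a ∈ P₁) (hb : b ∈ P₂) (hc1 : c ∈ P₁) (hc2 : c ∈ P₂) : c * ⁅a, b⁆ = ⁅a, b⁆ * c := by
  have e1 : c * a * c⁻¹ = ⁅c, a⁆ * a := by rw [commutatorElement_def]; group
  have e2 : c * b * c⁻¹ = ⁅c, b⁆ * b := by rw [commutatorElement_def]; group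
  have h1 : c * ⁅a, b⁆ * c⁻¹ = ⁅a, b⁆ := by
    rw [conj_comm, e1, e2]
    have c1 : ∀ k ∈ P₂, k * ⁅c, a⁆ = ⁅c, a⁆ * k := fun k hk =>
      h.L3' hpq hq2 hc1 ha k (h.h2.le hk)
    have c2 : ∀ k ∈ P₁, k * ⁅c, b⁆ = ⁅c, b⁆ * k := fun k hk =>
      h.swap.L3' hpq hq2 hc2 hb k (h.h1.le hk)
    have hab : ⁅a, b⁆ ∈ P₂ := by
      rw [commutatorElement_def]
      exact P₂.mul_mem (h.nP2.conj_mem b hb a) (P₂.inv_mem hb)
    have hcb : ⁅c, b⁆ ∈ P₂ := comm_mem hc2 hb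
    have e3 : ⁅⁅c, a⁆ * a, ⁅c, b⁆ * b⁆ = ⁅a, ⁅c, b⁆ * b⁆ := by
      have hx : ⁅a, ⁅c, b⁆ * b⁆ ∈ P₂ := by
        rw [commutatorElement_def]
        exact P₂.mul_mem (h.nP2.conj_mem _ (P₂.mul_mem hcb hb) a) (P₂.inv_mem (P₂.mul_mem hcb hb))
      rw [comm_mul_left (c1 _ hx).symm, comm_eq_one_iff.2 (c1 _ (P₂.mul_mem hcb hb)).symm, mul_one]
    have hab1 : ⁅a, b⁆ ∈ P₁ := by
      have : ⁅a, b⁆ = a * (b * a⁻¹ * b⁻¹) := by rw [commutatorElement_def]; group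
      rw [this]
      exact P₁.mul_mem ha (h.nP1.conj_mem _ (P₁.inv_mem ha) b)
    rw [e3, comm_mul_right (c2 _ hab1).symm, comm_eq_one_iff.2 (c2 _ ha), one_mul]
  exact mul_inv_eq_iff_eq_mul.1 h1

lemma L5b (h : Two p q m K₁ P₁ K₂ P₂) (hpq : Nat.Coprime p q) (hq2 : q ≠ 2) {a b : G}
    (ha : a ∈ P₁) (hb : b ∈ P₂) : ∀ k ∈ K₁, k * ⁅a, b⁆ = ⁅a, b⁆ * k := by
  have hx2 : ⁅a, b⁆ ∈ P₂ := by
    rw [commutatorElement_def]
    exact P₂.mul_mem (h.nP2.conj_mem b hb a) (P₂.inv_mem hb)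
  have hx1 : ⁅a, b⁆ ∈ P₁ := by
    have : ⁅a, b⁆ = a * (b * a⁻¹ * b⁻¹) := by rw [commutatorElement_def]; group
    rw [this]
    exact P₁.mul_mem ha (h.nP1.conj_mem _ (P₁.inv_mem ha) b)
  have hD : ∀ c, c ∈ P₁ → c ∈ P₂ → c * ⁅a, b⁆ = ⁅a, b⁆ * c := fun c h1 h2 =>
    h.L5a hpq hq2 ha hb h1 h2
  generalize ⁅a, b⁆ = x at hx2 hx1 hD ⊢
  have hcx2 : ∀ a ∈ P₂, ∀ b ∈ P₂, ∀ y ∈ P₂, y * ⁅a, b⁆ = ⁅a, b⁆ * y := fun a ha b hb y hy =>
    h.h2.a1 a ha b hb y (h.h2.le hy)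
  apply comm_closure h.h1.gen
  rintro g ⟨hg, n, hn⟩
  set d := x⁻¹ * (g * x * g⁻¹) with hd
  have hdP2 : d ∈ P₂ := P₂.mul_mem (P₂.inv_mem hx2) (h.nP2.conj_mem x hx2 g)
  have hdc : ∀ y ∈ P₂, y * d = d * y := by
    intro y hy
    have hgy : g⁻¹ * y * g⁻¹⁻¹ ∈ P₂ := h.nP2.conj_mem y hy g⁻¹
    have e1 : ⁅g * x * g⁻¹, y⁆ = ⁅x, y⁆ := by
      have e2 : ⁅g * x * g⁻¹, y⁆ = g * ⁅x, g⁻¹ * y * g⁻¹⁻¹⁆ * g⁻¹ := by
        rw [conj_comm]; congr 1; group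
      rw [e2, conj_eq_of_comm (h.swap.L3' hpq hq2 hx2 hgy g hg)]
      have e3 : g⁻¹ * y * g⁻¹⁻¹ = y * (y⁻¹ * (g⁻¹ * y * g⁻¹⁻¹)) := by group
      have hy1 := h.swap.L1 hpq hy (K₁.inv_mem hg)
      rw [e3, comm_mul_right (hcx2 _ hx2 _ hy1.1 _ hy), comm_eq_one_iff.2 (hD _ hy1.2 hy1.1).symm,
        mul_one]
    have e4 := comm_inv_mul (u := x) (u' := g * x * g⁻¹) (c := y) e1
    exact e4.symm
  obtain ⟨k, hk⟩ := h.h2.pP d hdP2
  exact cc hpq hn hk (h.swap.L4 hpq hq2 hdP2 hdc g hg)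

lemma mem_sup {K₁ K₂ : Subgroup G} (hK : K₁.Normal) {x : G} (hx : x ∈ K₁ ⊔ K₂) :
    ∃ a ∈ K₁, ∃ b ∈ K₂, x = a * b := by
  rw [Subgroup.mem_sup_of_normal_left] at hx
  obtain ⟨a, ha, b, hb, h⟩ := hx
  exact ⟨a, ha, b, hb, h.symm⟩

lemma comm_sup {K₁ K₂ : Subgroup G} {x : G} (h1 : ∀ k ∈ K₁, k * x = x * k)
    (h2 : ∀ k ∈ K₂, k * x = x * k) : ∀ k ∈ K₁ ⊔ K₂, k * x = x * k := by
  have : K₁ ⊔ K₂ ≤ Subgroup.centralizer {x} := by
    rw [sup_le_iff]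
    exact ⟨fun k hk => Subgroup.mem_centralizer_singleton_iff.2 (h1 k hk),
      fun k hk => Subgroup.mem_centralizer_singleton_iff.2 (h2 k hk)⟩
  intro k hk
  exact Subgroup.mem_centralizer_singleton_iff.1 (this hk)

/-- `⁅P₁ P₂, P₁ P₂⁆` commutes with `K₁ K₂` -/
lemma L6 (h : Two p q m K₁ P₁ K₂ P₂) (hpq : Nat.Coprime p q) (hq2 : q ≠ 2) {u v : G}
    (hu : u ∈ P₁ ⊔ P₂) (hv : v ∈ P₁ ⊔ P₂) : ∀ k ∈ K₁ ⊔ K₂, k * ⁅u, v⁆ = ⁅u, v⁆ * k := by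
  obtain ⟨u₁, hu1, u₂, hu2, rfl⟩ := mem_sup h.nP1 hu
  obtain ⟨v₁, hv1, v₂, hv2, rfl⟩ := mem_sup h.nP1 hv
  have c11 : ∀ k ∈ K₁ ⊔ K₂, k * ⁅u₁, v₁⁆ = ⁅u₁, v₁⁆ * k :=
    comm_sup (h.h1.a1 _ hu1 _ hv1) (h.L3' hpq hq2 hu1 hv1)
  have c22 : ∀ k ∈ K₁ ⊔ K₂, k * ⁅u₂, v₂⁆ = ⁅u₂, v₂⁆ * k :=
    comm_sup (h.swap.L3' hpq hq2 hu2 hv2) (h.h2.a1 _ hu2 _ hv2)
  have c12' : ∀ a ∈ P₁, ∀ b ∈ P₂, ∀ k ∈ K₁ ⊔ K₂, k * ⁅a, b⁆ = ⁅a, b⁆ * k := by
    intro a ha b hb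
    refine comm_sup (h.L5b hpq hq2 ha hb) ?_
    intro k hk
    rw [← comm_symm]
    have := h.swap.L5b hpq hq2 hb ha k hk
    exact (show Commute k ⁅b, a⁆ from this).inv_right
  have c21' : ∀ a ∈ P₁, ∀ b ∈ P₂, ∀ k ∈ K₁ ⊔ K₂, k * ⁅b, a⁆ = ⁅b, a⁆ * k := by
    intro a ha b hb k hk
    rw [← comm_symm]
    exact (show Commute k ⁅a, b⁆ from c12' a ha b hb k hk).inv_right
  have c12 := c12' u₁ hu1 v₂ hv2
  have c21 := c21' v₁ hv1 u₂ hu2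
  have m1 : u₁ ∈ K₁ ⊔ K₂ := Subgroup.mem_sup_left (h.h1.le hu1)
  have m2 : v₁ ∈ K₁ ⊔ K₂ := Subgroup.mem_sup_left (h.h1.le hv1)
  have e1 : ⁅u₁, v₁ * v₂⁆ = ⁅u₁, v₁⁆ * ⁅u₁, v₂⁆ := comm_mul_right (c12 _ m2)
  have e2 : ⁅u₂, v₁ * v₂⁆ = ⁅u₂, v₁⁆ * ⁅u₂, v₂⁆ := comm_mul_right (c22 _ m2)
  have c2 : ∀ k ∈ K₁ ⊔ K₂, k * ⁅u₂, v₁ * v₂⁆ = ⁅u₂, v₁ * v₂⁆ * k := by
    intro k hk
    rw [e2]
    exact (show Commute k _ from c21 k hk).mul_right (c22 k hk)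
  intro k hk
  rw [comm_mul_left (c2 _ m1), e1, e2]
  exact ((show Commute k _ from c21 k hk).mul_right (c22 k hk)).mul_right
    ((show Commute k _ from c11 k hk).mul_right (c12 k hk))

end Two

end Pool.Agent.Helper218
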