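import Pool.Agent.Helper218.Core4

set_option autoImplicit false
set_option linter.all false

namespace Pool.Agent.Helper218

open Subgroup

open scoped commutatorElement

variable {G : Type*} [Group G]

lemma ppow_sup {p : ℕ} [hp : Fact p.Prime] {P₁ P₂ : Subgroup G} (n1 : P₁.Normal)
    (h1 : ∀ u ∈ P₁, ∃ n, u ^ (p ^ n) = 1) (h2 : ∀ u ∈ P₂, ∃ n, u ^ (p ^ n) = 1) :
    ∀ u ∈ P₁ ⊔ P₂, ∃ n, u ^ (p ^ n) = 1 := by
  intro u hu
  obtain ⟨a, ha, b, hb, rfl⟩ := Two.mem_sup n1 hu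
  obtain ⟨n, hn⟩ := h2 b hb
  have h3 : ((QuotientGroup.mk' P₁) (a * b)) ^ (p ^ n) = 1 := by
    have : (QuotientGroup.mk' P₁) a = 1 := (QuotientGroup.eq_one_iff a).2 ha
    rw [map_mul, this, one_mul, ← map_pow, hn, map_one]
  rw [← map_pow] at h3
  have h4 : (a * b) ^ (p ^ n) ∈ P₁ := (QuotientGroup.eq_one_iff _).1 h3
  obtain ⟨k, hk⟩ := h1 _ h4
  exact ⟨n + k, by rw [pow_add, pow_mul, hk]⟩

/-- if `N / A` and `M / B` are `p`-groups then so is `N M / A B` -/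
lemma pquot_sup {p : ℕ} [hp : Fact p.Prime] {N A M B : Subgroup G}
    (nN : N.Normal) (nA : A.Normal) (nB : B.Normal)
    (h1 : ∀ u ∈ N, ∃ n, u ^ (p ^ n) ∈ A) (h2 : ∀ u ∈ M, ∃ n, u ^ (p ^ n) ∈ B) :
    ∀ u ∈ N ⊔ M, ∃ n, u ^ (p ^ n) ∈ A ⊔ B := by
  haveI : (A ⊔ B).Normal := inferInstance
  let π := QuotientGroup.mk' (A ⊔ B)
  have hker : ∀ x, π x = 1 ↔ x ∈ A ⊔ B := fun x => QuotientGroup.eq_one_iff x
  have h3 := ppow_sup (p := p) (P₁ := N.map π) (P₂ := M.map π)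
    (Subgroup.Normal.map nN π (QuotientGroup.mk'_surjective _))
    (by
      rintro _ ⟨x, hx, rfl⟩
      obtain ⟨n, hn⟩ := h1 x hx
      exact ⟨n, by rw [← map_pow, hker]; exact Subgroup.mem_sup_left hn⟩)
    (by
      rintro _ ⟨x, hx, rfl⟩
      obtain ⟨n, hn⟩ := h2 x hx
      exact ⟨n, by rw [← map_pow, hker]; exact Subgroup.mem_sup_right hn⟩)
  intro u hu
  have hu' : π u ∈ N.map π ⊔ M.map π := by
    rw [← Subgroup.map_sup]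
    exact ⟨u, hu, rfl⟩
  obtain ⟨n, hn⟩ := h3 _ hu'
  rw [← map_pow, hker] at hn
  exact ⟨n, hn⟩

lemma finite_sup {K₁ K₂ : Subgroup G} (n1 : K₁.Normal) (h1 : Finite K₁) (h2 : Finite K₂) :
    Finite (K₁ ⊔ K₂ : Subgroup G) := by
  have hsub : ((K₁ ⊔ K₂ : Subgroup G) : Set G) ⊆ (fun x : G × G => x.1 * x.2) ''
      ((K₁ : Set G) ×ˢ (K₂ : Set G)) := by
    intro x hx
    obtain ⟨a, ha, b, hb, rfl⟩ := Two.mem_sup n1 hx
    exact ⟨(a, b), ⟨ha, hb⟩, rfl⟩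
  have h3 : ((K₁ : Set G) ×ˢ (K₂ : Set G)).Finite := Set.Finite.prod (Set.toFinite _) (Set.toFinite _)
  exact ((h3.image _).subset hsub).to_subtype

namespace Core

variable {p q m : ℕ} [hp : Fact p.Prime] [hq : Fact q.Prime] {K₁ P₁ K₂ P₂ : Subgroup G}

/-- products of two normal subgroups inherit the condition -/
theorem sup (hpq : Nat.Coprime p q) (hq2 : q ≠ 2) (h : Two p q m K₁ P₁ K₂ P₂) :
    Core p q m (K₁ ⊔ K₂) (P₁ ⊔ P₂) := by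
  haveI := h.nK1
  haveI := h.nP1
  haveI := h.nK2
  haveI := h.nP2
  have hle : P₁ ⊔ P₂ ≤ K₁ ⊔ K₂ := sup_le_sup h.h1.le h.h2.le
  have hnP : (P₁ ⊔ P₂).Normal := inferInstance
  have hPp := ppow_sup h.nP1 h.h1.pP h.h2.pP
  have hgen : K₁ ⊔ K₂ ≤ Subgroup.closure {g | g ∈ K₁ ⊔ K₂ ∧ ∃ n, g ^ (q ^ n) = 1} := by
    rw [sup_le_iff]
    constructor
    · refine h.h1.gen.trans (Subgroup.closure_mono ?_)
      rintro g ⟨hg, hn⟩; exact ⟨Subgroup.mem_sup_left hg, hn⟩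
    · refine h.h2.gen.trans (Subgroup.closure_mono ?_)
      rintro g ⟨hg, hn⟩; exact ⟨Subgroup.mem_sup_right hg, hn⟩
  have hbase : Base p q (K₁ ⊔ K₂) (P₁ ⊔ P₂) :=
    { fin := finite_sup h.nK1 h.h1.fin h.h2.fin
      le := hle
      nrm := fun k _ u hu => hnP.conj_mem u hu k
      pP := hPp
      qK := pquot_sup h.nK1 h.nP1 h.nP2 h.h1.qK h.h2.qK
      gen := hgen }
  have hfinP : Finite (P₁ ⊔ P₂ : Subgroup G) := finite_of_le hbase.fin hle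
  have ha1 : ∀ u ∈ P₁ ⊔ P₂, ∀ v ∈ P₁ ⊔ P₂, ∀ k ∈ K₁ ⊔ K₂, k * ⁅u, v⁆ = ⁅u, v⁆ * k :=
    fun u hu v hv => h.L6 hpq hq2 hu hv
  have hact1 : ∀ k ∈ K₁, ∀ v ∈ P₁ ⊔ P₂, v⁻¹ * (k * v * k⁻¹) ∈ P₁ := by
    intro k hk v hv
    have h1 : v⁻¹ * (k * v * k⁻¹) ∈ P₁ ⊔ P₂ :=
      Subgroup.mul_mem _ (Subgroup.inv_mem _ hv) (hnP.conj_mem v hv k)
    obtain ⟨n, hn⟩ := hPp _ h1
    refine h.h1.mem_of_p hpq ?_ hn
    have e : v⁻¹ * (k * v * k⁻¹) = (v⁻¹ * k * v⁻¹⁻¹) * k⁻¹ := by group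
    rw [e]
    exact K₁.mul_mem (h.nK1.conj_mem k hk v⁻¹) (K₁.inv_mem hk)
  have hact2 : ∀ k ∈ K₂, ∀ v ∈ P₁ ⊔ P₂, v⁻¹ * (k * v * k⁻¹) ∈ P₂ := by
    intro k hk v hv
    have h1 : v⁻¹ * (k * v * k⁻¹) ∈ P₁ ⊔ P₂ :=
      Subgroup.mul_mem _ (Subgroup.inv_mem _ hv) (hnP.conj_mem v hv k)
    obtain ⟨n, hn⟩ := hPp _ h1
    refine h.h2.mem_of_p hpq ?_ hn
    have e : v⁻¹ * (k * v * k⁻¹) = (v⁻¹ * k * v⁻¹⁻¹) * k⁻¹ := by group
    rw [e]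
    exact K₂.mul_mem (h.nK2.conj_mem k hk v⁻¹) (K₂.inv_mem hk)
  have hcx : ∀ a ∈ P₁ ⊔ P₂, ∀ b ∈ P₁ ⊔ P₂, ∀ y ∈ P₁ ⊔ P₂, y * ⁅a, b⁆ = ⁅a, b⁆ * y :=
    fun a ha b hb y hy => ha1 a ha b hb y (hle hy)
  have hdec1 : ∀ T : Subgroup G, T ≤ P₁ ⊔ P₂ → (∀ k ∈ K₁, ∀ t ∈ T, k * t * k⁻¹ ∈ T) → ∀ t ∈ T,
      ∃ c ∈ T, (∀ k ∈ K₁, k * c = c * k) ∧ c⁻¹ * t ∈ P₁ := by
    intro T hT hTn t ht
    exact dec hpq h.h1.toBase hfinP le_sup_left hcx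
      (fun u hu v hv k hk => ha1 u hu v hv k (Subgroup.mem_sup_left hk)) hact1 hT hTn t ht
  have hdec2 : ∀ T : Subgroup G, T ≤ P₁ ⊔ P₂ → (∀ k ∈ K₂, ∀ t ∈ T, k * t * k⁻¹ ∈ T) → ∀ t ∈ T,
      ∃ c ∈ T, (∀ k ∈ K₂, k * c = c * k) ∧ c⁻¹ * t ∈ P₂ := by
    intro T hT hTn t ht
    exact dec hpq h.h2.toBase hfinP le_sup_right hcx
      (fun u hu v hv k hk => ha1 u hu v hv k (Subgroup.mem_sup_right hk)) hact2 hT hTn t ht
  have hBr1 : ∀ v ∈ P₁, Br (P₁ ⊔ P₂) v = Br P₁ v := fun v hv =>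
    Br_eq h.h1.le le_sup_left (hdec1 _ le_rfl (fun k _ t ht => hnP.conj_mem t ht k)) hv
  have hBr2 : ∀ v ∈ P₂, Br (P₁ ⊔ P₂) v = Br P₂ v := fun v hv =>
    Br_eq h.h2.le le_sup_right (hdec2 _ le_rfl (fun k _ t ht => hnP.conj_mem t ht k)) hv
  -- elements commuting with all `q`-elements
  have hq1 : ∀ v ∈ P₁ ⊔ P₂, (∀ k ∈ K₁, (∀ u ∈ P₁, u * (v⁻¹ * (k * v * k⁻¹)) =
      (v⁻¹ * (k * v * k⁻¹)) * u)) → ∀ k ∈ K₁, k * v = v * k := by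
    intro v hv hc
    apply comm_closure h.h1.gen
    rintro g ⟨hg, n, hn⟩
    have hd := hact1 g hg v hv
    obtain ⟨k, hk⟩ := h.h1.pP _ hd
    exact cc hpq hn hk (h.h1.a2 _ hd (hc g hg) g hg)
  have hq2' : ∀ v ∈ P₁ ⊔ P₂, (∀ k ∈ K₂, (∀ u ∈ P₂, u * (v⁻¹ * (k * v * k⁻¹)) =
      (v⁻¹ * (k * v * k⁻¹)) * u)) → ∀ k ∈ K₂, k * v = v * k := by
    intro v hv hc
    apply comm_closure h.h2.gen
    rintro g ⟨hg, n, hn⟩
    have hd := hact2 g hg v hv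
    obtain ⟨k, hk⟩ := h.h2.pP _ hd
    exact cc hpq hn hk (h.h2.a2 _ hd (hc g hg) g hg)
  refine { toBase := hbase, a1 := ha1, a2 := ?_, b := ?_, c := ?_, d := ?_ }
  · intro z hz hc
    apply Two.comm_sup
    · apply hq1 z hz
      intro k hk u hu
      have e1 := hc u (Subgroup.mem_sup_left hu)
      have e2 := hc (k⁻¹ * u * k⁻¹⁻¹) (hnP.conj_mem u (Subgroup.mem_sup_left hu) k⁻¹)
      have e3 : u * (k * z * k⁻¹) = (k * z * k⁻¹) * u := by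
        have : k * ((k⁻¹ * u * k⁻¹⁻¹) * z) * k⁻¹ = k * (z * (k⁻¹ * u * k⁻¹⁻¹)) * k⁻¹ := by rw [e2]
        calc u * (k * z * k⁻¹) = k * ((k⁻¹ * u * k⁻¹⁻¹) * z) * k⁻¹ := by group
          _ = k * (z * (k⁻¹ * u * k⁻¹⁻¹)) * k⁻¹ := this
          _ = (k * z * k⁻¹) * u := by group
      exact (show Commute u z from e1).inv_right.mul_right e3
    · apply hq2' z hz
      intro k hk u hu
      have e1 := hc u (Subgroup.mem_sup_right hu)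
      have e2 := hc (k⁻¹ * u * k⁻¹⁻¹) (hnP.conj_mem u (Subgroup.mem_sup_right hu) k⁻¹)
      have e3 : u * (k * z * k⁻¹) = (k * z * k⁻¹) * u := by
        have : k * ((k⁻¹ * u * k⁻¹⁻¹) * z) * k⁻¹ = k * (z * (k⁻¹ * u * k⁻¹⁻¹)) * k⁻¹ := by rw [e2]
        calc u * (k * z * k⁻¹) = k * ((k⁻¹ * u * k⁻¹⁻¹) * z) * k⁻¹ := by group
          _ = k * (z * (k⁻¹ * u * k⁻¹⁻¹)) * k⁻¹ := this
          _ = (k * z * k⁻¹) * u := by group
      exact (show Commute u z from e1).inv_right.mul_right e3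
  · rintro v hv ⟨x, hx, hxv⟩
    by_contra hcon
    apply hxv
    refine Two.comm_sup ?_ ?_ x (hle hx)
    · apply hq1 v hv
      intro k hk
      by_contra hcen
      push Not at hcen
      have h1 := h.h1.b _ (hact1 k hk v hv) hcen
      rw [← hBr1 _ (hact1 k hk v hv)] at h1
      have h2 : Br (P₁ ⊔ P₂) (v⁻¹ * (k * v * k⁻¹)) ⊆ Br (P₁ ⊔ P₂) v :=
        Br_diff hle hbase.nrm ha1 (Subgroup.mem_sup_left hk) hv
      have h3 := Set.ncard_le_ncard h2 (Br_finite hfinP v)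
      omega
    · apply hq2' v hv
      intro k hk
      by_contra hcen
      push Not at hcen
      have h1 := h.h2.b _ (hact2 k hk v hv) hcen
      rw [← hBr2 _ (hact2 k hk v hv)] at h1
      have h2 : Br (P₁ ⊔ P₂) (v⁻¹ * (k * v * k⁻¹)) ⊆ Br (P₁ ⊔ P₂) v :=
        Br_diff hle hbase.nrm ha1 (Subgroup.mem_sup_right hk) hv
      have h3 := Set.ncard_le_ncard h2 (Br_finite hfinP v)
      omega
  · rw [sup_le_iff]
    constructor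
    · refine h.h1.c.trans (Subgroup.closure_mono ?_)
      rintro v ⟨hv, hv2⟩
      refine ⟨Subgroup.mem_sup_left hv, ?_⟩
      rcases hv2 with hv2 | hv2
      · left
        intro u hu
        exact Two.comm_sup (h.h1.a2 v hv hv2) (h.L4 hpq hq2 hv hv2) u (hle hu)
      · right
        rw [hBr1 v hv]; exact hv2
    · refine h.h2.c.trans (Subgroup.closure_mono ?_)
      rintro v ⟨hv, hv2⟩
      refine ⟨Subgroup.mem_sup_right hv, ?_⟩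
      rcases hv2 with hv2 | hv2
      · left
        intro u hu
        exact Two.comm_sup (h.swap.L4 hpq hq2 hv hv2) (h.h2.a2 v hv hv2) u (hle hu)
      · right
        rw [hBr2 v hv]; exact hv2
  · -- decomposition
    have hD : ∀ u ∈ P₁ ⊔ P₂, ∃ c ∈ P₁ ⊔ P₂, ∃ u₂ ∈ P₂, ∃ u₁ ∈ P₁,
        (∀ k ∈ K₁ ⊔ K₂, k * c = c * k) ∧ (∀ k ∈ K₁, k * u₂ = u₂ * k) ∧ u = c * (u₂ * u₁) := by
      intro u hu
      obtain ⟨c₁, hc1, hc1k, hcu⟩ := hdec1 _ le_rfl (fun k _ t ht => hnP.conj_mem t ht k) u hu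
      obtain ⟨c, hc, hck, hcc⟩ := hdec2 ((P₁ ⊔ P₂) ⊓ Subgroup.centralizer (K₁ : Set G)) inf_le_left
        (by
          rintro k hk t ⟨ht1, ht2⟩
          exact ⟨hnP.conj_mem t ht1 k, (inferInstance : (Subgroup.centralizer (K₁ : Set G)).Normal).conj_mem t ht2 k⟩)
        c₁ ⟨hc1, fun k hk => hc1k k hk⟩
      have hcK1 : ∀ k ∈ K₁, k * c = c * k := fun k hk => hc.2 k hk
      refine ⟨c, hc.1, c⁻¹ * c₁, hcc, c₁⁻¹ * u, hcu, Two.comm_sup hcK1 hck, ?_, by group⟩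
      intro k hk
      exact (show Commute k c from hcK1 k hk).inv_right.mul_right (hc1k k hk)
    intro u hu v hv hu1 hv1
    obtain ⟨c, hc, u₂, hu2, u₁, hu1', hck, hu2k, rfl⟩ := hD u hu
    obtain ⟨c', hc', v₂, hv2, v₁, hv1', hck', hv2k, rfl⟩ := hD v hv
    -- commutator with the central factor removed
    have hcen : ∀ c ∈ P₁ ⊔ P₂, (∀ k ∈ K₁ ⊔ K₂, k * c = c * k) → ∀ a b : G, b ∈ K₁ ⊔ K₂ →
        a ∈ K₁ ⊔ K₂ → ⁅c * a, b⁆ = ⁅a, b⁆ := by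
      intro c hc hck a b hb ha
      rw [comm_mul_left (hck _ (comm_mem ha hb)).symm, comm_eq_one_iff.2 (hck b hb).symm, mul_one]
    have hBrc : ∀ c ∈ P₁ ⊔ P₂, (∀ k ∈ K₁ ⊔ K₂, k * c = c * k) → ∀ a, a ∈ P₁ ⊔ P₂ →
        Br (P₁ ⊔ P₂) (c * a) = Br (P₁ ⊔ P₂) a := by
      intro c hc hck a ha
      ext w; constructor
      · rintro ⟨x, hx, rfl⟩; exact ⟨x, hx, hcen c hc hck a x (hle hx) (hle ha)⟩
      · rintro ⟨x, hx, rfl⟩; exact ⟨x, hx, (hcen c hc hck a x (hle hx) (hle ha)).symm⟩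
    -- the two halves
    have hhalf1 : ∀ u₂ ∈ P₂, ∀ u₁ ∈ P₁, (∀ k ∈ K₁, k * u₂ = u₂ * k) →
        (Br (P₁ ⊔ P₂) (u₂ * u₁)).ncard = p ^ m → (∃ x ∈ P₁, x * u₁ ≠ u₁ * x) →
        Br (P₁ ⊔ P₂) (u₂ * u₁) = Br P₁ u₁ := by
      intro u₂ hu2 u₁ hu1 hu2k hcard hnc
      have h1 := h.h1.b u₁ hu1 hnc
      have h2 : Br P₁ u₁ ⊆ Br (P₁ ⊔ P₂) (u₂ * u₁) := by
        rintro _ ⟨x, hx, rfl⟩
        refine ⟨x, Subgroup.mem_sup_left hx, ?_⟩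
        rw [comm_mul_left (hu2k _ (h.h1.le (comm_mem hu1 hx))).symm,
          comm_eq_one_iff.2 (hu2k x (h.h1.le hx)).symm, mul_one]
      exact (Set.eq_of_subset_of_ncard_le h2 (by rw [hcard]; exact h1) (Br_finite hfinP _)).symm
    have hhalf2 : ∀ u₂ ∈ P₂, ∀ u₁ ∈ P₁, (∀ k ∈ K₁, k * u₂ = u₂ * k) →
        (Br (P₁ ⊔ P₂) (u₂ * u₁)).ncard = p ^ m → (∃ x ∈ P₂, x * u₂ ≠ u₂ * x) →
        Br (P₁ ⊔ P₂) (u₂ * u₁) = Br P₂ u₂ := by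
      intro u₂ hu2 u₁ hu1 hu2k hcard hnc
      have h1 := h.h2.b u₂ hu2 hnc
      have h2 : Br P₂ u₂ ⊆ Br (P₁ ⊔ P₂) (u₂ * u₁) := by
        rintro _ ⟨x, hx, rfl⟩
        obtain ⟨c, hc, hck, hcx⟩ := hdec1 P₂ le_sup_right
          (fun k _ t ht => h.nP2.conj_mem t ht k) x hx
        refine ⟨c, Subgroup.mem_sup_right hc, ?_⟩
        have e1 : ⁅u₂ * u₁, c⁆ = ⁅u₂, c⁆ := by
          rw [comm_mul_left', comm_eq_one_iff.2 (hck u₁ (h.h1.le hu1)), mul_one, mul_inv_cancel,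
            one_mul]
        have e2 : ⁅u₂, x⁆ = ⁅u₂, c⁆ := by
          have e3 : x = c * (c⁻¹ * x) := by group
          conv_lhs => rw [e3, comm_mul_right',
            comm_eq_one_iff.2 (hu2k (c⁻¹ * x) (h.h1.le hcx)).symm, mul_one, mul_inv_cancel, mul_one]
        rw [e1, e2]
      exact (Set.eq_of_subset_of_ncard_le h2 (by rw [hcard]; exact h1) (Br_finite hfinP _)).symm
    have mu : u₂ * u₁ ∈ P₁ ⊔ P₂ :=
      Subgroup.mul_mem _ (Subgroup.mem_sup_right hu2) (Subgroup.mem_sup_left hu1')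
    have mv : v₂ * v₁ ∈ P₁ ⊔ P₂ :=
      Subgroup.mul_mem _ (Subgroup.mem_sup_right hv2) (Subgroup.mem_sup_left hv1')
    rw [hBrc c hc hck _ mu] at hu1 ⊢
    rw [hBrc c' hc' hck' _ mv] at hv1 ⊢
    have hcomm : (u₂ * u₁) * (v₂ * v₁) = (v₂ * v₁) * (u₂ * u₁) →
        (c * (u₂ * u₁)) * (c' * (v₂ * v₁)) = (c' * (v₂ * v₁)) * (c * (u₂ * u₁)) := by
      intro hh
      have g1 : Commute (u₂ * u₁) c' := hck' _ (hle mu)
      have g2 : Commute c (v₂ * v₁) := (show Commute (v₂ * v₁) c from hck _ (hle mv)).symm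
      have g3 : Commute c c' := hck' c (hle hc)
      have g4 : Commute (u₂ * u₁) (v₂ * v₁) := hh
      exact (g3.mul_right g2).mul_left (g1.mul_right g4)
    by_cases h11 : u₁ * v₁ = v₁ * u₁
    · by_cases h22 : u₂ * v₂ = v₂ * u₂
      · right
        apply hcomm
        have g1 : Commute u₂ v₁ := (hu2k v₁ (h.h1.le hv1')).symm
        have g2 : Commute u₁ v₂ := hv2k u₁ (h.h1.le hu1')
        have g3 : Commute u₁ v₁ := h11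
        have g4 : Commute u₂ v₂ := h22
        exact (g4.mul_right g1).mul_left (g2.mul_right g3)
      · left
        have hu3 := hhalf2 u₂ hu2 u₁ hu1' hu2k hu1 ⟨v₂, hv2, fun e => h22 e.symm⟩
        have hv3 := hhalf2 v₂ hv2 v₁ hv1' hv2k hv1 ⟨u₂, hu2, h22⟩
        rw [hu3] at hu1 ⊢
        rw [hv3] at hv1 ⊢
        rcases h.h2.d u₂ hu2 v₂ hv2 hu1 hv1 with h5 | h5
        · exact h5
        · exact absurd h5 h22
    · left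
      have hu3 := hhalf1 u₂ hu2 u₁ hu1' hu2k hu1 ⟨v₁, hv1', fun e => h11 e.symm⟩
      have hv3 := hhalf1 v₂ hv2 v₁ hv1' hv2k hv1 ⟨u₁, hu1', h11⟩
      rw [hu3] at hu1 ⊢
      rw [hv3] at hv1 ⊢
      rcases h.h1.d u₁ hu1' v₁ hv1' hu1 hv1 with h5 | h5
      · exact h5
      · exact absurd h5 h11

end Core

end Pool.Agent.Helper218
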