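import Pool.Agent.Helper218.Core5

set_option autoImplicit false
set_option linter.all false

namespace Pool.Agent.Helper218

open Subgroup

open scoped commutatorElement

variable {G : Type*} [Group G]

section maps

variable {H : Type*} [Group H] (f : H →* G) (hf : Function.Injective f)
include hf

lemma mem_map_inj {K : Subgroup H} {x : H} : f x ∈ K.map f ↔ x ∈ K :=
  Subgroup.mem_map_iff_mem hf

lemma Br_map (P : Subgroup H) (v : H) : Br (P.map f) (f v) = f '' Br P v := by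
  ext w
  constructor
  · rintro ⟨_, ⟨u, hu, rfl⟩, rfl⟩
    exact ⟨⁅v, u⁆, ⟨u, hu, rfl⟩, by rw [map_commutatorElement]⟩
  · rintro ⟨_, ⟨u, hu, rfl⟩, rfl⟩
    exact ⟨f u, ⟨u, hu, rfl⟩, by rw [map_commutatorElement]⟩

lemma Br_map_ncard (P : Subgroup H) (v : H) : (Br (P.map f) (f v)).ncard = (Br P v).ncard := by
  rw [Br_map f hf, Set.ncard_image_of_injective _ hf]

lemma Br_map_inj {P : Subgroup H} {u v : H} : Br (P.map f) (f u) = Br (P.map f) (f v) ↔
    Br P u = Br P v := by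
  rw [Br_map f hf, Br_map f hf]
  exact hf.image_injective.eq_iff

lemma qset_map (q : ℕ) (N : Subgroup H) :
    {g | g ∈ N.map f ∧ ∃ n, g ^ (q ^ n) = 1} = f '' {g | g ∈ N ∧ ∃ n, g ^ (q ^ n) = 1} := by
  ext g
  constructor
  · rintro ⟨⟨x, hx, rfl⟩, n, hn⟩
    refine ⟨x, ⟨hx, n, ?_⟩, rfl⟩
    apply hf
    rw [map_pow, hn, map_one]
  · rintro ⟨x, ⟨hx, n, hn⟩, rfl⟩
    exact ⟨⟨x, hx, rfl⟩, n, by rw [← map_pow, hn, map_one]⟩

lemma Base_map {p q : ℕ} {K P : Subgroup H} : Base p q (K.map f) (P.map f) ↔ Base p q K P := by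
  constructor
  · intro h
    refine { fin := ?_, le := ?_, nrm := ?_, pP := ?_, qK := ?_, gen := ?_ }
    · haveI := h.fin
      exact Finite.of_injective (fun x : K => (⟨f x.1, ⟨x.1, x.2, rfl⟩⟩ : K.map f)) (by
        intro x y hxy
        exact Subtype.ext (hf (congrArg Subtype.val hxy)))
    · intro x hx
      exact (mem_map_inj f hf).1 (h.le ⟨x, hx, rfl⟩)
    · intro k hk u hu
      apply (mem_map_inj f hf).1
      have := h.nrm (f k) ⟨k, hk, rfl⟩ (f u) ⟨u, hu, rfl⟩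
      simpa using this
    · intro u hu
      obtain ⟨n, hn⟩ := h.pP (f u) ⟨u, hu, rfl⟩
      exact ⟨n, hf (by rw [map_pow, hn, map_one])⟩
    · intro k hk
      obtain ⟨n, hn⟩ := h.qK (f k) ⟨k, hk, rfl⟩
      rw [← map_pow] at hn
      exact ⟨n, (mem_map_inj f hf).1 hn⟩
    · have h1 := h.gen
      rw [qset_map f hf, ← MonoidHom.map_closure] at h1
      exact (Subgroup.map_le_map_iff_of_injective hf).1 h1
  · intro h
    refine { fin := ?_, le := ?_, nrm := ?_, pP := ?_, qK := ?_, gen := ?_ }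
    · haveI := h.fin
      exact ((Set.toFinite (K : Set H)).image f).to_subtype
    · exact Subgroup.map_mono h.le
    · rintro _ ⟨k, hk, rfl⟩ _ ⟨u, hu, rfl⟩
      exact ⟨k * u * k⁻¹, h.nrm k hk u hu, by simp⟩
    · rintro _ ⟨u, hu, rfl⟩
      obtain ⟨n, hn⟩ := h.pP u hu
      exact ⟨n, by rw [← map_pow, hn, map_one]⟩
    · rintro _ ⟨k, hk, rfl⟩
      obtain ⟨n, hn⟩ := h.qK k hk
      exact ⟨n, by rw [← map_pow]; exact ⟨_, hn, rfl⟩⟩
    · rw [qset_map f hf, ← MonoidHom.map_closure]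
      exact Subgroup.map_mono h.gen

lemma gens_map {p m : ℕ} {P : Subgroup H} :
    {v | v ∈ P.map f ∧ ((∀ u ∈ P.map f, u * v = v * u) ∨ (Br (P.map f) v).ncard = p ^ m)} =
    f '' {v | v ∈ P ∧ ((∀ u ∈ P, u * v = v * u) ∨ (Br P v).ncard = p ^ m)} := by
  ext v
  constructor
  · rintro ⟨⟨x, hx, rfl⟩, hv⟩
    refine ⟨x, ⟨hx, ?_⟩, rfl⟩
    rcases hv with hv | hv
    · left
      intro u hu
      have := hv (f u) ⟨u, hu, rfl⟩
      rw [← map_mul, ← map_mul] at this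
      exact hf this
    · right
      rwa [Br_map_ncard f hf] at hv
  · rintro ⟨x, ⟨hx, hv⟩, rfl⟩
    refine ⟨⟨x, hx, rfl⟩, ?_⟩
    rcases hv with hv | hv
    · left
      rintro _ ⟨u, hu, rfl⟩
      rw [← map_mul, ← map_mul, hv u hu]
    · right
      rwa [Br_map_ncard f hf]

theorem Core_map {p q m : ℕ} {K P : Subgroup H} :
    Core p q m (K.map f) (P.map f) ↔ Core p q m K P := by
  constructor
  · intro h
    refine { toBase := (Base_map f hf).1 h.toBase, a1 := ?_, a2 := ?_, b := ?_, c := ?_, d := ?_ }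
    · intro u hu v hv k hk
      have := h.a1 (f u) ⟨u, hu, rfl⟩ (f v) ⟨v, hv, rfl⟩ (f k) ⟨k, hk, rfl⟩
      rw [← map_commutatorElement, ← map_mul, ← map_mul] at this
      exact hf this
    · intro z hz hc k hk
      have := h.a2 (f z) ⟨z, hz, rfl⟩ (by
        rintro _ ⟨u, hu, rfl⟩
        rw [← map_mul, ← map_mul, hc u hu]) (f k) ⟨k, hk, rfl⟩
      rw [← map_mul, ← map_mul] at this
      exact hf this
    · rintro v hv ⟨u, hu, huv⟩
      have := h.b (f v) ⟨v, hv, rfl⟩ ⟨f u, ⟨u, hu, rfl⟩, by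
        rw [← map_mul, ← map_mul]
        intro e; exact huv (hf e)⟩
      rwa [Br_map_ncard f hf] at this
    · have h1 := h.c
      rw [gens_map f hf, ← MonoidHom.map_closure] at h1
      exact (Subgroup.map_le_map_iff_of_injective hf).1 h1
    · intro u hu v hv h1 h2
      have := h.d (f u) ⟨u, hu, rfl⟩ (f v) ⟨v, hv, rfl⟩ (by rwa [Br_map_ncard f hf])
        (by rwa [Br_map_ncard f hf])
      rcases this with h3 | h3
      · left; exact (Br_map_inj f hf).1 h3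
      · right
        rw [← map_mul, ← map_mul] at h3
        exact hf h3
  · intro h
    refine { toBase := (Base_map f hf).2 h.toBase, a1 := ?_, a2 := ?_, b := ?_, c := ?_, d := ?_ }
    · rintro _ ⟨u, hu, rfl⟩ _ ⟨v, hv, rfl⟩ _ ⟨k, hk, rfl⟩
      rw [← map_commutatorElement, ← map_mul, ← map_mul, h.a1 u hu v hv k hk]
    · rintro _ ⟨z, hz, rfl⟩ hc _ ⟨k, hk, rfl⟩
      rw [← map_mul, ← map_mul, h.a2 z hz (fun u hu => by
        have := hc (f u) ⟨u, hu, rfl⟩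
        rw [← map_mul, ← map_mul] at this
        exact hf this) k hk]
    · rintro _ ⟨v, hv, rfl⟩ ⟨_, ⟨u, hu, rfl⟩, huv⟩
      rw [Br_map_ncard f hf]
      refine h.b v hv ⟨u, hu, ?_⟩
      intro e
      apply huv
      rw [← map_mul, ← map_mul, e]
    · rw [gens_map f hf, ← MonoidHom.map_closure]
      exact Subgroup.map_mono h.c
    · rintro _ ⟨u, hu, rfl⟩ _ ⟨v, hv, rfl⟩ h1 h2
      rw [Br_map_ncard f hf] at h1 h2
      rcases h.d u hu v hv h1 h2 with h3 | h3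
      · left; rwa [Br_map_inj f hf]
      · right
        rw [← map_mul, ← map_mul, h3]

end maps

/-- the subgroup generated by the `q`-elements of `N` -/
def Kq (q : ℕ) (N : Subgroup G) : Subgroup G := Subgroup.closure {g | g ∈ N ∧ ∃ n, g ^ (q ^ n) = 1}

lemma Kq_le (q : ℕ) (N : Subgroup G) : Kq q N ≤ N := by
  rw [Kq, Subgroup.closure_le]
  rintro g ⟨hg, _⟩; exact hg

lemma Kq_mono (q : ℕ) {N M : Subgroup G} (h : N ≤ M) : Kq q N ≤ Kq q M := by
  apply Subgroup.closure_mono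
  rintro g ⟨hg, hn⟩; exact ⟨h hg, hn⟩

lemma Kq_map {H : Type*} [Group H] (f : H →* G) (hf : Function.Injective f) (q : ℕ)
    (N : Subgroup H) : Kq q (N.map f) = (Kq q N).map f := by
  rw [Kq, Kq, qset_map f hf, MonoidHom.map_closure]

lemma Kq_gen (q : ℕ) (N : Subgroup G) :
    Kq q N ≤ Subgroup.closure {g | g ∈ Kq q N ∧ ∃ n, g ^ (q ^ n) = 1} := by
  conv_lhs => rw [Kq]
  apply Subgroup.closure_mono
  rintro g ⟨hg, hn⟩
  exact ⟨Subgroup.subset_closure ⟨hg, hn⟩, hn⟩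

/-- closure of an invariant set is invariant -/
lemma closure_conj {S : Set G} {g : G} (h : ∀ s ∈ S, g * s * g⁻¹ ∈ S) {x : G}
    (hx : x ∈ Subgroup.closure S) : g * x * g⁻¹ ∈ Subgroup.closure S := by
  have h1 : (Subgroup.closure S).map (MulAut.conj g).toMonoidHom ≤ Subgroup.closure S := by
    rw [MonoidHom.map_closure]
    apply Subgroup.closure_mono
    rintro _ ⟨s, hs, rfl⟩
    exact h s hs
  exact h1 ⟨x, hx, rfl⟩

lemma pow_conj {g s : G} {n : ℕ} : (g * s * g⁻¹) ^ n = g * s ^ n * g⁻¹ := conj_pow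

lemma Kq_conj (q : ℕ) {N : Subgroup G} {g : G} (h : ∀ s ∈ N, g * s * g⁻¹ ∈ N) {x : G}
    (hx : x ∈ Kq q N) : g * x * g⁻¹ ∈ Kq q N := by
  apply closure_conj _ hx
  rintro s ⟨hs, n, hn⟩
  exact ⟨h s hs, n, by rw [conj_pow, hn]; group⟩

/-- the property defining the class, for a subgroup of an ambient group -/
structure SCls (p q m : ℕ) (N : Subgroup G) : Prop where
  fin : Finite N
  rad : ∃ R : Subgroup G, R ≤ N ∧ (∀ g ∈ N, ∀ u ∈ R, g * u * g⁻¹ ∈ R) ∧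
    (∀ u ∈ R, ∃ n, u ^ (p ^ n) = 1) ∧ ∀ g ∈ N, ∃ n, g ^ (q ^ n) ∈ R
  core : ∃ P : Subgroup G, Core p q m (Kq q N) P

theorem SCls_map {H : Type*} [Group H] (f : H →* G) (hf : Function.Injective f) {p q m : ℕ}
    {N : Subgroup H} : SCls p q m (N.map f) ↔ SCls p q m N := by
  constructor
  · rintro ⟨hfin, ⟨R, hR1, hR2, hR3, hR4⟩, ⟨P, hP⟩⟩
    have hR : R = (R.comap f).map f := by
      rw [Subgroup.map_comap_eq, inf_eq_right.2]
      exact hR1.trans (Subgroup.map_le_range f N)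
    have hPe : P = (P.comap f).map f := by
      rw [Subgroup.map_comap_eq, inf_eq_right.2]
      exact (hP.le.trans (Kq_le q _)).trans (Subgroup.map_le_range f N)
    refine ⟨?_, ⟨R.comap f, ?_, ?_, ?_, ?_⟩, ⟨P.comap f, ?_⟩⟩
    · exact Finite.of_injective (fun x : N => (⟨f x.1, ⟨x.1, x.2, rfl⟩⟩ : N.map f)) (by
        intro x y hxy
        exact Subtype.ext (hf (congrArg Subtype.val hxy)))
    · intro x hx
      exact (mem_map_inj f hf).1 (hR1 hx)
    · intro g hg u hu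
      have := hR2 (f g) ⟨g, hg, rfl⟩ (f u) hu
      rw [Subgroup.mem_comap]
      simpa using this
    · intro u hu
      obtain ⟨n, hn⟩ := hR3 (f u) hu
      exact ⟨n, hf (by rw [map_pow, hn, map_one])⟩
    · intro g hg
      obtain ⟨n, hn⟩ := hR4 (f g) ⟨g, hg, rfl⟩
      exact ⟨n, by rw [Subgroup.mem_comap, map_pow]; exact hn⟩
    · rw [← Core_map f hf, ← Kq_map f hf, ← hPe]
      exact hP
  · rintro ⟨hfin, ⟨R, hR1, hR2, hR3, hR4⟩, ⟨P, hP⟩⟩
    refine ⟨?_, ⟨R.map f, ?_, ?_, ?_, ?_⟩, ⟨P.map f, ?_⟩⟩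
    · exact ((Set.toFinite (N : Set H)).image f).to_subtype
    · exact Subgroup.map_mono hR1
    · rintro _ ⟨g, hg, rfl⟩ _ ⟨u, hu, rfl⟩
      exact ⟨g * u * g⁻¹, hR2 g hg u hu, by simp⟩
    · rintro _ ⟨u, hu, rfl⟩
      obtain ⟨n, hn⟩ := hR3 u hu
      exact ⟨n, by rw [← map_pow, hn, map_one]⟩
    · rintro _ ⟨g, hg, rfl⟩
      obtain ⟨n, hn⟩ := hR4 g hg
      exact ⟨n, by rw [← map_pow]; exact ⟨_, hn, rfl⟩⟩
    · rw [Kq_map f hf, Core_map f hf]
      exact hP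

namespace SCls

variable {p q m : ℕ} [hp : Fact p.Prime] [hq : Fact q.Prime]

theorem sub (hpq : Nat.Coprime p q) {M N : Subgroup G} (h : SCls p q m M) (hNM : N ≤ M)
    (hn : ∀ g ∈ M, ∀ x ∈ N, g * x * g⁻¹ ∈ N) : SCls p q m N := by
  obtain ⟨hfin, ⟨R, hR1, hR2, hR3, hR4⟩, ⟨P, hP⟩⟩ := h
  refine ⟨finite_of_le hfin hNM, ⟨R ⊓ N, inf_le_right, ?_, ?_, ?_⟩, ⟨P ⊓ Kq q N, ?_⟩⟩
  · intro g hg u hu
    exact ⟨hR2 g (hNM hg) u hu.1, hn g (hNM hg) u hu.2⟩
  · intro u hu; exact hR3 u hu.1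
  · intro g hg
    obtain ⟨n, hn⟩ := hR4 g (hNM hg)
    exact ⟨n, hn, N.pow_mem hg _⟩
  · apply hP.sub hpq (Kq_mono q hNM)
    · intro k hk x hx
      exact Kq_conj q (hn k (Kq_le q M hk)) hx
    · exact Kq_gen q N

lemma ppow {N : Subgroup G} (h : SCls p q m N) : ∀ g ∈ N, ∃ n, g ^ (p ^ n) ∈ Kq q N := by
  intro g hg
  obtain ⟨R, hR1, hR2, hR3, hR4⟩ := h.rad
  obtain ⟨n, hn⟩ := hR4 g hg
  obtain ⟨k, hk⟩ := hR3 _ hn
  refine ⟨k, Subgroup.subset_closure ⟨N.pow_mem hg _, n, ?_⟩⟩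
  rw [← pow_mul, mul_comm, pow_mul, hk]

lemma mem_iff {K P : Subgroup G} (h : Core p q m K P) (hpq : Nat.Coprime p q) {x : G} :
    x ∈ P ↔ x ∈ K ∧ ∃ n, x ^ (p ^ n) = 1 := by
  constructor
  · intro hx; exact ⟨h.le hx, h.pP x hx⟩
  · rintro ⟨hx, n, hn⟩; exact h.mem_of_p hpq hx hn

theorem sup (hpq : Nat.Coprime p q) (hq2 : q ≠ 2) {M N : Subgroup G} (hM : M.Normal)
    (hN : N.Normal) (h1 : SCls p q m M) (h2 : SCls p q m N) : SCls p q m (M ⊔ N) := by
  obtain ⟨R₁, hR1, hR2, hR3, hR4⟩ := h1.rad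
  obtain ⟨R₂, hS1, hS2, hS3, hS4⟩ := h2.rad
  obtain ⟨P₁, hP1⟩ := h1.core
  obtain ⟨P₂, hP2⟩ := h2.core
  -- `p`-elements of `M` lie in `R₁`
  have hR : ∀ x, x ∈ R₁ ↔ x ∈ M ∧ ∃ n, x ^ (p ^ n) = 1 := by
    intro x
    constructor
    · intro hx; exact ⟨hR1 hx, hR3 x hx⟩
    · rintro ⟨hx, n, hn⟩
      obtain ⟨k, hk⟩ := hR4 x hx
      exact mem_of_pows (Nat.Coprime.pow n k hpq) (by rw [hn]; exact R₁.one_mem) hk
  have hS : ∀ x, x ∈ R₂ ↔ x ∈ N ∧ ∃ n, x ^ (p ^ n) = 1 := by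
    intro x
    constructor
    · intro hx; exact ⟨hS1 hx, hS3 x hx⟩
    · rintro ⟨hx, n, hn⟩
      obtain ⟨k, hk⟩ := hS4 x hx
      exact mem_of_pows (Nat.Coprime.pow n k hpq) (by rw [hn]; exact R₂.one_mem) hk
  have nR1 : R₁.Normal := by
    constructor
    intro x hx g
    rw [hR] at hx ⊢
    obtain ⟨hx, n, hn⟩ := hx
    exact ⟨hM.conj_mem x hx g, n, by rw [conj_pow, hn]; group⟩
  have nR2 : R₂.Normal := by
    constructor
    intro x hx g
    rw [hS] at hx ⊢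
    obtain ⟨hx, n, hn⟩ := hx
    exact ⟨hN.conj_mem x hx g, n, by rw [conj_pow, hn]; group⟩
  have nK1 : (Kq q M).Normal := ⟨fun x hx g => Kq_conj q (fun s hs => hM.conj_mem s hs g) hx⟩
  have nK2 : (Kq q N).Normal := ⟨fun x hx g => Kq_conj q (fun s hs => hN.conj_mem s hs g) hx⟩
  have nP1 : P₁.Normal := by
    constructor
    intro x hx g
    rw [mem_iff hP1 hpq] at hx ⊢
    obtain ⟨hx, n, hn⟩ := hx
    exact ⟨nK1.conj_mem x hx g, n, by rw [conj_pow, hn]; group⟩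
  have nP2 : P₂.Normal := by
    constructor
    intro x hx g
    rw [mem_iff hP2 hpq] at hx ⊢
    obtain ⟨hx, n, hn⟩ := hx
    exact ⟨nK2.conj_mem x hx g, n, by rw [conj_pow, hn]; group⟩
  have hK : Kq q (M ⊔ N) = Kq q M ⊔ Kq q N := by
    apply le_antisymm
    · rw [Kq, Subgroup.closure_le]
      rintro g ⟨hg, n, hn⟩
      obtain ⟨k, hk⟩ := pquot_sup (p := p) hM nK1 nK2 h1.ppow h2.ppow g hg
      exact mem_of_pows (Nat.Coprime.pow k n hpq) hk (by rw [hn]; exact Subgroup.one_mem _)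
    · exact sup_le (Kq_mono q le_sup_left) (Kq_mono q le_sup_right)
  refine ⟨finite_sup hM h1.fin h2.fin, ⟨R₁ ⊔ R₂, sup_le_sup hR1 hS1, ?_, ?_, ?_⟩,
    ⟨P₁ ⊔ P₂, ?_⟩⟩
  · intro g _ u hu
    haveI := nR1
    haveI := nR2
    exact (inferInstance : (R₁ ⊔ R₂).Normal).conj_mem u hu g
  · exact ppow_sup nR1 hR3 hS3
  · exact pquot_sup hM nR1 nR2 hR4 hS4
  · rw [hK]
    exact Core.sup hpq hq2 ⟨hP1, hP2, nK1, nP1, nK2, nP2⟩

end SCls

/-- the class -/
def Cls (p q m : ℕ) (H : Type) [Group H] : Prop := SCls p q m (⊤ : Subgroup H)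

lemma Cls_sub_iff {p q m : ℕ} {H : Type} [Group H] (N : Subgroup H) :
    Cls p q m N ↔ SCls p q m N := by
  unfold Cls
  rw [← SCls_map N.subtype N.subtype_injective, ← MonoidHom.range_eq_map, Subgroup.range_subtype]

lemma Cls_fin {p q m : ℕ} {H : Type} [Group H] (h : Cls p q m H) : Finite H := by
  haveI := h.fin
  exact Finite.of_injective (fun x : H => (⟨x, trivial⟩ : (⊤ : Subgroup H))) (by
    intro x y hxy; exact congrArg Subtype.val hxy)

lemma Cls_iso {p q m : ℕ} {H K : Type} [Group H] [Group K] (e : H ≃* K) (h : Cls p q m H) :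
    Cls p q m K := by
  unfold Cls at h ⊢
  rw [← Subgroup.map_top_of_surjective e.toMonoidHom e.surjective,
    SCls_map e.toMonoidHom e.injective]
  exact h

section
variable {p q m : ℕ} [hp : Fact p.Prime] [hq : Fact q.Prime]

lemma Cls_normal (hpq : Nat.Coprime p q) {H : Type} [Group H] (N : Subgroup H) (hN : N.Normal)
    (h : Cls p q m H) : Cls p q m N := by
  rw [Cls_sub_iff]
  exact SCls.sub hpq h le_top (fun g _ x hx => hN.conj_mem x hx g)

lemma Cls_sup (hpq : Nat.Coprime p q) (hq2 : q ≠ 2) {H : Type} [Group H] (N M : Subgroup H)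
    (hN : N.Normal) (hM : M.Normal) (h1 : Cls p q m N) (h2 : Cls p q m M) :
    Cls p q m (N ⊔ M : Subgroup H) := by
  rw [Cls_sub_iff] at h1 h2 ⊢
  exact SCls.sup hpq hq2 hN hM h1 h2

end

end Pool.Agent.Helper218
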