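import Pool.Agent.Helper218.Core6

set_option autoImplicit false
set_option linter.all false

namespace Pool.Agent.Helper218

open Subgroup

open scoped commutatorElement

/-- cube roots of unity modulo seven -/
abbrev T7 : Type := ↥(rootsOfUnity 3 (ZMod 7))

/-- the inclusion of the cube roots of unity -/
def chi : T7 →* ZMod 7 := (Units.coeHom (ZMod 7)).comp (Subgroup.subtype _)

lemma chi_inj : Function.Injective chi := by
  intro x y h
  exact Subtype.ext (Units.ext h)

lemma chi_inv (t : T7) : chi t * chi t⁻¹ = 1 := by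
  rw [← map_mul, mul_inv_cancel, map_one]

lemma chi_inv' (t : T7) : chi t⁻¹ * chi t = 1 := by
  rw [← map_mul, inv_mul_cancel, map_one]

/-- the element `2` -/
def om : T7 := ⟨⟨2, 4, by decide, by decide⟩, by
  rw [mem_rootsOfUnity]
  apply Units.ext
  decide⟩

lemma chi_om : chi om = 2 := rfl

lemma t_cube (t : T7) : t ^ 3 = 1 := by
  have := t.2
  rw [mem_rootsOfUnity] at this
  exact Subtype.ext this

instance finT7 : Finite T7 := inferInstance

/-- the group `V ⋊ T` -/
@[ext] structure E (V : Type) where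
  t : T7
  v : V

section E

variable {V : Type} [AddCommGroup V] [Module (ZMod 7) V]

instance : Mul (E V) := ⟨fun x y => ⟨x.t * y.t, x.v + chi x.t • y.v⟩⟩
instance : One (E V) := ⟨⟨1, 0⟩⟩
instance : Inv (E V) := ⟨fun x => ⟨x.t⁻¹, -(chi x.t⁻¹ • x.v)⟩⟩

@[simp] lemma E_mul_t (x y : E V) : (x * y).t = x.t * y.t := rfl
@[simp] lemma E_mul_v (x y : E V) : (x * y).v = x.v + chi x.t • y.v := rfl
@[simp] lemma E_one_t : (1 : E V).t = 1 := rfl
@[simp] lemma E_one_v : (1 : E V).v = 0 := rfl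
@[simp] lemma E_inv_t (x : E V) : (x⁻¹).t = x.t⁻¹ := rfl
@[simp] lemma E_inv_v (x : E V) : (x⁻¹).v = -(chi x.t⁻¹ • x.v) := rfl

instance : Group (E V) := Group.ofLeftAxioms
  (by intro x y z; ext
      · simp [mul_assoc]
      · simp [mul_smul, add_assoc])
  (by intro x; ext <;> simp)
  (by intro x; ext <;> simp)

/-- the projection to `T` -/
def E.proj : E V →* T7 where
  toFun := E.t
  map_one' := rfl
  map_mul' _ _ := rfl

instance [Finite V] : Finite (E V) :=
  Finite.of_injective (fun x : E V => (x.t, x.v)) (by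
    intro x y h
    rw [Prod.mk.injEq] at h
    exact E.ext h.1 h.2)

/-- functoriality in `V` -/
def E.congr {W : Type} [AddCommGroup W] [Module (ZMod 7) W] (e : V ≃ₗ[ZMod 7] W) : E V ≃* E W where
  toFun x := ⟨x.t, e x.v⟩
  invFun x := ⟨x.t, e.symm x.v⟩
  left_inv x := by ext <;> simp
  right_inv x := by ext <;> simp
  map_mul' x y := by ext <;> simp

instance E.solvable : Group.IsSolvable (E V) := by
  have h1 : Group.IsSolvable (E.proj (V := V)).ker := Group.isSolvable_of_comm (by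
    rintro ⟨x, hx⟩ ⟨y, hy⟩
    have hx' : x.t = 1 := hx
    have hy' : y.t = 1 := hy
    apply Subtype.ext
    ext
    · simp [hx', hy']
    · simp [hx', hy', add_comm])
  exact Group.isSolvable_of_ker_le_range (E.proj (V := V)).ker.subtype E.proj (by simp)

end E

/-- the big group: `F ⋊ T` and `F ⋊ T` combined with a centre -/
@[ext] structure Big (F : Type) where
  s : T7
  t : T7
  a : F
  b : F
  c : F

section Big

variable {F : Type} [CommRing F] [Algebra (ZMod 7) F]

instance : Mul (Big F) := ⟨fun x y => ⟨x.s * y.s, x.t * y.t, x.a + chi x.s • y.a,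
  x.b + chi x.t • y.b, x.c + (chi x.s * chi x.t) • y.c + x.a * (chi x.t • y.b)⟩⟩
instance : One (Big F) := ⟨⟨1, 1, 0, 0, 0⟩⟩
instance : Inv (Big F) := ⟨fun x => ⟨x.s⁻¹, x.t⁻¹, -(chi x.s⁻¹ • x.a), -(chi x.t⁻¹ • x.b),
  -((chi x.s⁻¹ * chi x.t⁻¹) • x.c) + (chi x.s⁻¹ * chi x.t⁻¹) • (x.a * x.b)⟩⟩

@[simp] lemma Big_mul_s (x y : Big F) : (x * y).s = x.s * y.s := rfl
@[simp] lemma Big_mul_t (x y : Big F) : (x * y).t = x.t * y.t := rfl
@[simp] lemma Big_mul_a (x y : Big F) : (x * y).a = x.a + chi x.s • y.a := rfl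
@[simp] lemma Big_mul_b (x y : Big F) : (x * y).b = x.b + chi x.t • y.b := rfl
@[simp] lemma Big_mul_c (x y : Big F) : (x * y).c =
  x.c + (chi x.s * chi x.t) • y.c + x.a * (chi x.t • y.b) := rfl
@[simp] lemma Big_one_s : (1 : Big F).s = 1 := rfl
@[simp] lemma Big_one_t : (1 : Big F).t = 1 := rfl
@[simp] lemma Big_one_a : (1 : Big F).a = 0 := rfl
@[simp] lemma Big_one_b : (1 : Big F).b = 0 := rfl
@[simp] lemma Big_one_c : (1 : Big F).c = 0 := rfl
@[simp] lemma Big_inv_s (x : Big F) : (x⁻¹).s = x.s⁻¹ := rfl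
@[simp] lemma Big_inv_t (x : Big F) : (x⁻¹).t = x.t⁻¹ := rfl
@[simp] lemma Big_inv_a (x : Big F) : (x⁻¹).a = -(chi x.s⁻¹ • x.a) := rfl
@[simp] lemma Big_inv_b (x : Big F) : (x⁻¹).b = -(chi x.t⁻¹ • x.b) := rfl
@[simp] lemma Big_inv_c (x : Big F) : (x⁻¹).c =
  -((chi x.s⁻¹ * chi x.t⁻¹) • x.c) + (chi x.s⁻¹ * chi x.t⁻¹) • (x.a * x.b) := rfl

instance : Group (Big F) := Group.ofLeftAxioms
  (by
    intro x y z; ext
    · simp [mul_assoc]
    · simp [mul_assoc]
    · simp [mul_smul, add_assoc]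
    · simp [mul_smul, add_assoc]
    · simp only [Big_mul_s, Big_mul_t, Big_mul_a, Big_mul_b, Big_mul_c, map_mul, Algebra.smul_def]
      ring)
  (by intro x; ext <;> simp)
  (by
    intro x; ext
    · simp
    · simp
    · simp
    · simp
    · simp only [Big_mul_s, Big_mul_t, Big_mul_a, Big_mul_b, Big_mul_c, Algebra.smul_def,
        Big_inv_a, Big_inv_b, Big_inv_s, Big_inv_t, Big_inv_c, Big_one_c, map_mul]
      ring)

/-- first projection -/
def Big.p1 : Big F →* E F where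
  toFun x := ⟨x.s, x.a⟩
  map_one' := rfl
  map_mul' _ _ := rfl

/-- second projection -/
def Big.p2 : Big F →* E F where
  toFun x := ⟨x.t, x.b⟩
  map_one' := rfl
  map_mul' _ _ := rfl

/-- the product of the torus coordinates -/
def Big.det : Big F →* T7 where
  toFun x := x.s * x.t
  map_one' := by simp
  map_mul' x y := by simp [mul_mul_mul_comm]

/-- kernel of the second projection -/
def Big.k2 : E (F × F) ≃* (Big.p2 (F := F)).ker where
  toFun x := ⟨⟨x.t, 1, x.v.1, 0, x.v.2⟩, rfl⟩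
  invFun x := ⟨x.1.s, (x.1.a, x.1.c)⟩
  left_inv x := by ext <;> rfl
  right_inv := by
    rintro ⟨x, hx⟩
    have h1 : x.t = 1 := congrArg E.t hx
    have h2 : x.b = 0 := congrArg E.v hx
    apply Subtype.ext
    ext <;> simp [h1, h2]
  map_mul' x y := by
    apply Subtype.ext
    ext <;> simp

/-- kernel of the first projection -/
def Big.k1 : E (F × F) ≃* (Big.p1 (F := F)).ker where
  toFun x := ⟨⟨1, x.t, 0, x.v.1, x.v.2⟩, rfl⟩
  invFun x := ⟨x.1.t, (x.1.b, x.1.c)⟩
  left_inv x := by ext <;> rfl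
  right_inv := by
    rintro ⟨x, hx⟩
    have h1 : x.s = 1 := congrArg E.t hx
    have h2 : x.a = 0 := congrArg E.v hx
    apply Subtype.ext
    ext <;> simp [h1, h2]
  map_mul' x y := by
    apply Subtype.ext
    ext <;> simp

lemma Big.sup : (Big.p1 (F := F)).ker ⊔ (Big.p2 (F := F)).ker = ⊤ := by
  rw [eq_top_iff]
  intro x _
  rw [Subgroup.mem_sup_of_normal_left]
  refine ⟨⟨1, x.t, 0, x.b, x.c⟩, rfl, ⟨x.s, 1, chi 1 • x.a, 0, 0⟩, rfl, ?_⟩
  ext <;> simp

end Big

end Pool.Agent.Helper218
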