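import Pool.Agent.Helper218.Ex1

set_option autoImplicit false
set_option linter.all false

namespace Pool.Agent.Helper218

open Subgroup

open scoped commutatorElement

/-- the group `B(F, C, lam)` -/
@[ext] structure B {F C : Type} [CommRing F] [Algebra (ZMod 7) F] [AddCommGroup C]
    [Module (ZMod 7) C] (lam : F →ₗ[ZMod 7] C) where
  t : T7
  a : F
  b : F
  c : C

section B

variable {F C : Type} [CommRing F] [Algebra (ZMod 7) F] [AddCommGroup C]
    [Module (ZMod 7) C] {lam : F →ₗ[ZMod 7] C}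

instance : Mul (B lam) := ⟨fun x y => ⟨x.t * y.t, x.a + chi x.t • y.a,
  x.b + chi x.t⁻¹ • y.b, x.c + y.c + chi x.t⁻¹ • lam (x.a * y.b)⟩⟩
instance : One (B lam) := ⟨⟨1, 0, 0, 0⟩⟩
instance : Inv (B lam) := ⟨fun x => ⟨x.t⁻¹, -(chi x.t⁻¹ • x.a), -(chi x.t • x.b),
  -x.c + lam (x.a * x.b)⟩⟩

@[simp] lemma B_mul_t (x y : B lam) : (x * y).t = x.t * y.t := rfl
@[simp] lemma B_mul_a (x y : B lam) : (x * y).a = x.a + chi x.t • y.a := rfl
@[simp] lemma B_mul_b (x y : B lam) : (x * y).b = x.b + chi x.t⁻¹ • y.b := rfl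
@[simp] lemma B_mul_c (x y : B lam) : (x * y).c = x.c + y.c + chi x.t⁻¹ • lam (x.a * y.b) := rfl
@[simp] lemma B_one_t : (1 : B lam).t = 1 := rfl
@[simp] lemma B_one_a : (1 : B lam).a = 0 := rfl
@[simp] lemma B_one_b : (1 : B lam).b = 0 := rfl
@[simp] lemma B_one_c : (1 : B lam).c = 0 := rfl
@[simp] lemma B_inv_t (x : B lam) : (x⁻¹).t = x.t⁻¹ := rfl
@[simp] lemma B_inv_a (x : B lam) : (x⁻¹).a = -(chi x.t⁻¹ • x.a) := rfl
@[simp] lemma B_inv_b (x : B lam) : (x⁻¹).b = -(chi x.t • x.b) := rfl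
@[simp] lemma B_inv_c (x : B lam) : (x⁻¹).c = -x.c + lam (x.a * x.b) := rfl

lemma smul_cancel1 {M : Type} [AddCommGroup M] [Module (ZMod 7) M] (t : T7) (x : M) :
    chi t • chi t⁻¹ • x = x := by
  rw [smul_smul, chi_inv, one_smul]

lemma smul_cancel2 {M : Type} [AddCommGroup M] [Module (ZMod 7) M] (t : T7) (x : M) :
    chi t⁻¹ • chi t • x = x := by
  rw [smul_smul, chi_inv', one_smul]

instance : Group (B lam) := Group.ofLeftAxioms
  (by
    intro x y z; ext
    · simp [mul_assoc]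
    · simp [mul_smul, add_assoc]
    · simp only [B_mul_t, B_mul_b, mul_inv_rev, map_mul, mul_smul, smul_add, add_assoc]
      rw [smul_comm]
    · simp only [B_mul_t, B_mul_a, B_mul_b, B_mul_c, map_mul, mul_inv_rev, mul_add, add_mul,
        smul_mul_assoc, mul_smul_comm, map_add, map_smul, smul_add, mul_smul]
      rw [smul_comm (chi y.t⁻¹) (chi x.t⁻¹) (lam (x.a * z.b)), smul_cancel2]
      abel)
  (by intro x; ext <;> simp)
  (by
    intro x; ext
    · simp
    · simp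
    · simp
    · simp only [B_mul_c, B_inv_c, B_inv_a, B_inv_t, inv_inv, B_one_c, neg_mul, smul_mul_assoc,
        map_neg, map_smul, smul_neg, smul_cancel1]
      abel)

instance [Finite F] [Finite C] : Finite (B lam) :=
  Finite.of_injective (fun x : B lam => (x.t, x.a, x.b, x.c)) (by
    intro x y h
    simp only [Prod.mk.injEq] at h
    exact B.ext h.1 h.2.1 h.2.2.1 h.2.2.2)

/-- the projection to `T` -/
def B.proj : B lam →* T7 where
  toFun := B.t
  map_one' := rfl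
  map_mul' _ _ := rfl

/-- the projection to the class two quotient by the centre -/
def B.proj2 : B lam →* E F × E F where
  toFun x := (⟨x.t, x.a⟩, ⟨x.t⁻¹, x.b⟩)
  map_one' := by
    apply Prod.ext
    · rfl
    · apply E.ext
      · simp
      · rfl
  map_mul' x y := by
    apply Prod.ext
    · rfl
    · apply E.ext
      · simp [mul_comm]
      · simp

instance B.solvable : Group.IsSolvable (B lam) := by
  have h1 : Group.IsSolvable (B.proj2 (lam := lam)).ker := Group.isSolvable_of_comm (by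
    rintro ⟨x, hx⟩ ⟨y, hy⟩
    have hx1 : x.t = 1 := congrArg (fun z => E.t (Prod.fst z)) hx
    have hx2 : x.a = 0 := congrArg (fun z => E.v (Prod.fst z)) hx
    have hx3 : x.b = 0 := congrArg (fun z => E.v (Prod.snd z)) hx
    have hy1 : y.t = 1 := congrArg (fun z => E.t (Prod.fst z)) hy
    have hy2 : y.a = 0 := congrArg (fun z => E.v (Prod.fst z)) hy
    have hy3 : y.b = 0 := congrArg (fun z => E.v (Prod.snd z)) hy
    apply Subtype.ext
    ext
    · simp [hx1, hy1]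
    · simp [hx2, hy2]
    · simp [hx3, hy3]
    · simp [hx2, hy2, add_comm])
  exact Group.isSolvable_of_ker_le_range (B.proj2 (lam := lam)).ker.subtype B.proj2 (by simp)

/-- the normal Sylow `7`-subgroup -/
def B.P (lam : F →ₗ[ZMod 7] C) : Subgroup (B lam) := B.proj.ker

lemma B.mem_P {x : B lam} : x ∈ B.P lam ↔ x.t = 1 := Iff.rfl

lemma B.comm_P {u v : B lam} (hu : u ∈ B.P lam) (hv : v ∈ B.P lam) :
    ⁅u, v⁆ = ⟨1, 0, 0, lam (u.a * v.b) - lam (v.a * u.b)⟩ := by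
  rw [B.mem_P] at hu hv
  have h1 : u * v = ⟨1, 0, 0, lam (u.a * v.b) - lam (v.a * u.b)⟩ * (v * u) := by
    ext
    · simp [hu, hv]
    · simp [hu, hv, add_comm]
    · simp [hu, hv, add_comm]
    · simp [hu, hv]; abel
  rw [commutatorElement_def, mul_assoc, h1]
  group

lemma B.cen (c : C) (k : B lam) : k * ⟨1, 0, 0, c⟩ = ⟨1, 0, 0, c⟩ * k := by
  ext
  · simp
  · simp
  · simp
  · simp [add_comm]

lemma B.seven {M : Type} [AddCommGroup M] [Module (ZMod 7) M] (x : M) : (7 : ℕ) • x = 0 := by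
  rw [← Nat.cast_smul_eq_nsmul (ZMod 7)]
  have : ((7 : ℕ) : ZMod 7) = 0 := rfl
  rw [this, zero_smul]

lemma B.pow_P {u : B lam} (hu : u.t = 1) (n : ℕ) : (u ^ n).t = 1 ∧ (u ^ n).a = n • u.a ∧
    (u ^ n).b = n • u.b := by
  induction n with
  | zero => simp
  | succ n ih =>
    rw [pow_succ]
    refine ⟨?_, ?_, ?_⟩
    · simp [ih.1, hu]
    · rw [B_mul_a, ih.2.1, ih.1, map_one, one_smul, succ_nsmul]
    · rw [B_mul_b, ih.2.2, ih.1, inv_one, map_one, one_smul, succ_nsmul]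

lemma B.pow_Z (c : C) (n : ℕ) : (⟨1, 0, 0, c⟩ : B lam) ^ n = ⟨1, 0, 0, n • c⟩ := by
  induction n with
  | zero => rw [pow_zero, zero_nsmul]; rfl
  | succ n ih =>
    rw [pow_succ, ih]
    ext
    · simp
    · simp
    · simp
    · simp [succ_nsmul, add_smul]

lemma B.exp {u : B lam} (hu : u.t = 1) : u ^ (7 ^ 2) = 1 := by
  obtain ⟨h1, h2, h3⟩ := B.pow_P hu 7
  rw [B.seven] at h2 h3
  have h4 : u ^ 7 = ⟨1, 0, 0, (u ^ 7).c⟩ := B.ext h1 h2 h3 rfl
  rw [pow_two, pow_mul, h4, B.pow_Z, B.seven]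
  rfl

lemma B.gen (hlam : Function.Surjective lam) : Kq 3 (⊤ : Subgroup (B lam)) = ⊤ := by
  rw [eq_top_iff]
  have hnor : ∀ g x : B lam, x ∈ Kq 3 (⊤ : Subgroup (B lam)) →
      g * x * g⁻¹ ∈ Kq 3 (⊤ : Subgroup (B lam)) := by
    intro g x hx
    exact Kq_conj 3 (fun s _ => Subgroup.mem_top _) hx
  -- the torus
  have hT : ∀ t : T7, (⟨t, 0, 0, 0⟩ : B lam) ∈ Kq 3 (⊤ : Subgroup (B lam)) := by
    intro t
    apply Subgroup.subset_closure
    refine ⟨Subgroup.mem_top _, 1, ?_⟩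
    have h2 : (⟨t, 0, 0, 0⟩ : B lam) ^ 3 = ⟨t ^ 3, 0, 0, 0⟩ := by
      rw [pow_succ, pow_two]
      ext <;> simp [pow_succ]
    rw [pow_one, h2, t_cube]
    rfl
  have hA : ∀ a : F, (⟨1, a, 0, 0⟩ : B lam) ∈ Kq 3 (⊤ : Subgroup (B lam)) := by
    intro a
    -- `[t, u]` with `t = 2` and `u = (-, a, 0, 0)`; `(2 - 1) a = a`
    have h1 : (⟨1, a, 0, 0⟩ : B lam) = ⟨om, 0, 0, 0⟩ *
        (⟨1, a, 0, 0⟩ * (⟨om, 0, 0, 0⟩ : B lam)⁻¹ * (⟨1, a, 0, 0⟩ : B lam)⁻¹) := by
      ext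
      · simp
      · simp [smul_cancel1]
        rw [chi_om, two_smul]; abel
      · simp
      · simp
    rw [h1]
    exact Subgroup.mul_mem _ (hT om) (hnor _ _ (Subgroup.inv_mem _ (hT om)))
  have hB : ∀ b : F, (⟨1, 0, b, 0⟩ : B lam) ∈ Kq 3 (⊤ : Subgroup (B lam)) := by
    intro b
    have h1 : (⟨1, 0, b, 0⟩ : B lam) = ⟨om⁻¹, 0, 0, 0⟩ *
        (⟨1, 0, b, 0⟩ * (⟨om⁻¹, 0, 0, 0⟩ : B lam)⁻¹ * (⟨1, 0, b, 0⟩ : B lam)⁻¹) := by
      ext
      · simp
      · simp
      · simp [smul_cancel1]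
        rw [chi_om, two_smul]; abel
      · simp
    rw [h1]
    exact Subgroup.mul_mem _ (hT _) (hnor _ _ (Subgroup.inv_mem _ (hT _)))
  have hC : ∀ c : C, (⟨1, 0, 0, c⟩ : B lam) ∈ Kq 3 (⊤ : Subgroup (B lam)) := by
    intro c
    obtain ⟨b, rfl⟩ := hlam c
    have h1 : (⟨1, 0, 0, lam b⟩ : B lam) = ⁅(⟨1, 1, 0, 0⟩ : B lam), ⟨1, 0, b, 0⟩⁆ := by
      rw [B.comm_P rfl rfl]
      simp
    rw [h1]
    exact comm_mem (hA 1) (hB b)
  intro x _
  have h1 : x = ⟨1, 0, 0, x.c⟩ * (⟨1, 0, x.b, 0⟩ * (⟨1, x.a, 0, 0⟩ * ⟨x.t, 0, 0, 0⟩)) := by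
    ext <;> simp
  rw [h1]
  exact Subgroup.mul_mem _ (hC _) (Subgroup.mul_mem _ (hB _) (Subgroup.mul_mem _ (hA _) (hT _)))

end B

section field

variable {F C : Type} [Field F] [Algebra (ZMod 7) F] [AddCommGroup C]
    [Module (ZMod 7) C] {lam : F →ₗ[ZMod 7] C}

lemma B.central_of (hC : Nontrivial C) (hlam : Function.Surjective lam) {v : B lam}
    (h : ∀ u ∈ B.P lam, u * v = v * u) (hv : v ∈ B.P lam) : v = ⟨1, 0, 0, v.c⟩ := by
  obtain ⟨c, hc⟩ := exists_ne (0 : C)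
  obtain ⟨f, hf⟩ := hlam c
  have key : ∀ a b : F, lam (a * v.b) - lam (v.a * b) = 0 := by
    intro a b
    have h1 := h ⟨1, a, b, 0⟩ rfl
    rw [← comm_eq_one_iff, B.comm_P rfl hv] at h1
    exact congrArg B.c h1
  apply B.ext
  · exact hv
  · by_contra hne
    have hne' : v.a ≠ 0 := hne
    have := key 0 (v.a⁻¹ * f)
    rw [← mul_assoc, mul_inv_cancel₀ hne', one_mul, hf, zero_mul, map_zero, zero_sub,
      neg_eq_zero] at this
    exact hc this
  · by_contra hne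
    have hne' : v.b ≠ 0 := hne
    have := key (f * v.b⁻¹) 0
    rw [mul_assoc, inv_mul_cancel₀ hne', mul_one, hf, mul_zero, map_zero, sub_zero] at this
    exact hc this
  · rfl

lemma B.Br_eq' (hlam : Function.Surjective lam) {v : B lam}
    (h : ∃ u ∈ B.P lam, u * v ≠ v * u) (hv : v ∈ B.P lam) :
    Br (B.P lam) v = Set.range (fun c : C => (⟨1, 0, 0, c⟩ : B lam)) := by
  ext w
  constructor
  · rintro ⟨u, hu, rfl⟩
    rw [B.comm_P hv hu]
    exact ⟨_, rfl⟩
  · rintro ⟨c, rfl⟩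
    obtain ⟨f, hf⟩ := hlam c
    by_cases ha : v.a = 0
    · by_cases hb : v.b = 0
      · exfalso
        obtain ⟨u, hu, huv⟩ := h
        apply huv
        have : v = ⟨1, 0, 0, v.c⟩ := B.ext hv ha hb rfl
        rw [this]
        exact B.cen _ _
      · refine ⟨⟨1, -(f * v.b⁻¹), 0, 0⟩, rfl, ?_⟩
        rw [B.comm_P hv rfl]
        ext
        · rfl
        · rfl
        · rfl
        · simp [mul_assoc, inv_mul_cancel₀ hb, hf]
    · refine ⟨⟨1, 0, v.a⁻¹ * f, 0⟩, rfl, ?_⟩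
      rw [B.comm_P hv rfl]
      ext
      · rfl
      · rfl
      · rfl
      · have : v.a * (v.a⁻¹ * f) = f := by rw [← mul_assoc, mul_inv_cancel₀ ha, one_mul]
        simp [this, hf]

lemma B.Br_card [Finite C] (hlam : Function.Surjective lam) {v : B lam}
    (h : ∃ u ∈ B.P lam, u * v ≠ v * u) (hv : v ∈ B.P lam) :
    (Br (B.P lam) v).ncard = Nat.card C := by
  rw [B.Br_eq' hlam h hv, ← Set.image_univ, Set.ncard_image_of_injective]
  · exact Set.ncard_univ C
  · intro x y hxy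
    exact congrArg B.c hxy

lemma B.base [Finite F] [Finite C] (hlam : Function.Surjective lam) :
    Base 7 3 (Kq 3 (⊤ : Subgroup (B lam))) (B.P lam) := by
  refine { fin := inferInstance, le := ?_, nrm := ?_, pP := ?_, qK := ?_, gen := Kq_gen 3 _ }
  · rw [B.gen hlam]; exact le_top
  · intro k _ u hu
    exact (inferInstance : (B.proj (lam := lam)).ker.Normal).conj_mem u hu k
  · intro u hu
    exact ⟨2, B.exp hu⟩
  · intro k _
    refine ⟨1, ?_⟩
    change B.proj (k ^ 3 ^ 1) = 1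
    rw [map_pow, pow_one]
    exact t_cube _

theorem B.core [Finite F] [Finite C] (hC : Nontrivial C) (hlam : Function.Surjective lam) {m : ℕ}
    (hm : Nat.card C = 7 ^ m) : Core 7 3 m (Kq 3 (⊤ : Subgroup (B lam))) (B.P lam) := by
  refine { toBase := B.base hlam, a1 := ?_, a2 := ?_, b := ?_, c := ?_, d := ?_ }
  · intro u hu v hv k _
    rw [B.comm_P hu hv]
    exact B.cen _ _
  · intro z hz hc k _
    rw [B.central_of hC hlam hc hz]
    exact B.cen _ _
  · intro v hv h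
    rw [B.Br_card hlam h hv, hm]
  · intro v hv
    apply Subgroup.subset_closure
    refine ⟨hv, ?_⟩
    by_cases h : ∀ u ∈ B.P lam, u * v = v * u
    · exact Or.inl h
    · right
      push Not at h
      rw [B.Br_card hlam h hv, hm]
  · intro u hu v hv _ _
    by_cases h : ∀ x ∈ B.P lam, x * u = u * x
    · right; exact (h v hv).symm
    · by_cases h' : ∀ x ∈ B.P lam, x * v = v * x
      · right; exact h' u hu
      · left
        push Not at h h'
        rw [B.Br_eq' hlam h hu, B.Br_eq' hlam h' hv]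

theorem B.cls [Finite F] [Finite C] (hC : Nontrivial C) (hlam : Function.Surjective lam) {m : ℕ}
    (hm : Nat.card C = 7 ^ m) : Cls 7 3 m (B lam) := by
  refine ⟨inferInstance, ⟨B.P lam, le_top, ?_, ?_, ?_⟩, ⟨B.P lam, B.core hC hlam hm⟩⟩
  · intro k _ u hu
    exact (inferInstance : (B.proj (lam := lam)).ker.Normal).conj_mem u hu k
  · intro u hu
    exact ⟨2, B.exp hu⟩
  · intro k _
    refine ⟨1, ?_⟩
    change B.proj (k ^ 3 ^ 1) = 1
    rw [map_pow, pow_one]
    exact t_cube _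

theorem B.not_cls [Finite F] [Finite C] (hC : Nontrivial C) (hlam : Function.Surjective lam)
    {m : ℕ} (hm : Nat.card C ≠ 7 ^ m) : ¬ Cls 7 3 m (B lam) := by
  haveI : Fact (Nat.Prime 7) := ⟨by norm_num⟩
  haveI : Fact (Nat.Prime 3) := ⟨by norm_num⟩
  rintro ⟨_, _, ⟨P, hP⟩⟩
  have hPe : P = B.P lam := by
    ext x
    constructor
    · intro hx
      obtain ⟨n, hn⟩ := hP.pP x hx
      exact (B.base hlam).mem_of_p (by norm_num) (hP.le hx) hn
    · intro hx
      obtain ⟨n, hn⟩ := (B.base hlam).pP x hx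
      exact hP.mem_of_p (by norm_num) ((B.base hlam).le hx) hn
  subst hPe
  have h1 : B.P lam ≤ Subgroup.centralizer (B.P lam : Set (B lam)) := by
    refine hP.c.trans ?_
    rw [Subgroup.closure_le]
    rintro v ⟨hv, hv2⟩
    rcases hv2 with hv2 | hv2
    · exact fun u hu => hv2 u hu
    · by_cases h : ∀ u ∈ B.P lam, u * v = v * u
      · exact fun u hu => h u hu
      · push Not at h
        rw [B.Br_card hlam h hv] at hv2
        exact absurd hv2 hm
  have h2 : (⟨1, 1, 0, 0⟩ : B lam) ∈ B.P lam := rfl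
  have h3 := B.central_of hC hlam (v := (⟨1, 1, 0, 0⟩ : B lam)) (fun u hu => h1 h2 u hu) h2
  have h4 : (1 : F) = 0 := congrArg B.a h3
  exact one_ne_zero h4

end field

end Pool.Agent.Helper218
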