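import Pool.Agent.Helper218.Ex2

set_option autoImplicit false
set_option linter.all false

namespace Pool.Agent.Helper218

open Subgroup

open scoped commutatorElement

instance fact7 : Fact (Nat.Prime 7) := ⟨by norm_num⟩
instance fact3 : Fact (Nat.Prime 3) := ⟨by norm_num⟩

/-- closure properties -/
structure FitCls (Q : (H : Type) → [Group H] → Prop) : Prop where
  iso : ∀ (H K : Type) [Group H] [Group K], Nonempty (H ≃* K) → Q H → Q K
  sn : ∀ (H : Type) [Group H] (N : Subgroup H), N.Normal → Q H → Q ↥N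
  n0 : ∀ (H : Type) [Group H] (N M : Subgroup H), N.Normal → M.Normal →
            Q ↥N → Q ↥M → Q ↥(N ⊔ M)

namespace FitCls

variable {Q : (H : Type) → [Group H] → Prop} (h : FitCls Q)
include h

lemma of_sup_top {H : Type} [Group H] {N M : Subgroup H} (hN : N.Normal) (hM : M.Normal)
    (h1 : Q N) (h2 : Q M) (htop : N ⊔ M = ⊤) : Q H := by
  have h3 := h.n0 H N M hN hM h1 h2
  rw [htop] at h3
  exact h.iso _ _ ⟨Subgroup.topEquiv⟩ h3

lemma prod {H K : Type} [Group H] [Group K] (h1 : Q H) (h2 : Q K) : Q (H × K) := by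
  refine h.of_sup_top (N := (MonoidHom.inl H K).range) (M := (MonoidHom.inr H K).range)
    ?_ ?_ (h.iso _ _ ⟨MonoidHom.ofInjective (f := MonoidHom.inl H K) ?_⟩ h1)
    (h.iso _ _ ⟨MonoidHom.ofInjective (f := MonoidHom.inr H K) ?_⟩ h2) ?_
  · constructor
    rintro _ ⟨x, rfl⟩ g
    exact ⟨g.1 * x * g.1⁻¹, by ext <;> simp⟩
  · constructor
    rintro _ ⟨x, rfl⟩ g
    exact ⟨g.2 * x * g.2⁻¹, by ext <;> simp⟩
  · intro x y hxy
    exact congrArg Prod.fst hxy
  · intro x y hxy
    exact congrArg Prod.snd hxy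
  · rw [eq_top_iff]
    rintro ⟨x, y⟩ _
    have e : ((x, y) : H × K) = MonoidHom.inl H K x * MonoidHom.inr H K y := by
      ext <;> simp
    rw [e]
    exact Subgroup.mul_mem _ (Subgroup.mem_sup_left ⟨x, rfl⟩) (Subgroup.mem_sup_right ⟨y, rfl⟩)

end FitCls

/-- the difference of torus coordinates -/
def E.diff (V W : Type) [AddCommGroup V] [Module (ZMod 7) V] [AddCommGroup W] [Module (ZMod 7) W] :
    E V × E W →* T7 where
  toFun x := x.1.t * x.2.t⁻¹
  map_one' := by simp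
  map_mul' x y := by
    simp only [Prod.fst_mul, Prod.snd_mul, E_mul_t, mul_inv_rev]
    rw [mul_comm y.2.t⁻¹ x.2.t⁻¹, mul_mul_mul_comm]

/-- the fibre product -/
def E.fib (V W : Type) [AddCommGroup V] [Module (ZMod 7) V] [AddCommGroup W] [Module (ZMod 7) W] :
    E (V × W) ≃* (E.diff V W).ker where
  toFun x := ⟨(⟨x.t, x.v.1⟩, ⟨x.t, x.v.2⟩), mul_inv_cancel x.t⟩
  invFun x := ⟨x.1.1.t, (x.1.1.v, x.1.2.v)⟩
  left_inv x := rfl
  right_inv := by
    rintro ⟨x, hx⟩
    have h1 : x.1.t = x.2.t := mul_inv_eq_one.1 hx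
    apply Subtype.ext
    apply Prod.ext
    · rfl
    · exact E.ext h1 rfl
  map_mul' x y := by
    apply Subtype.ext
    apply Prod.ext
    · ext <;> simp
    · ext <;> simp

namespace FitCls

variable {Q : (H : Type) → [Group H] → Prop} (h : FitCls Q) (hE : Q (E (ZMod 7)))
include h hE

lemma mem_E_fin (n : ℕ) : Q (E (Fin (n + 1) → ZMod 7)) := by
  induction n with
  | zero => exact h.iso _ _ ⟨E.congr (LinearEquiv.funUnique (Fin 1) (ZMod 7) (ZMod 7)).symm⟩ hE
  | succ n ih =>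
    have h1 := h.prod hE ih
    have h2 := h.sn _ (E.diff (ZMod 7) (Fin (n + 1) → ZMod 7)).ker inferInstance h1
    have h3 := h.iso _ _ ⟨(E.fib (ZMod 7) (Fin (n + 1) → ZMod 7)).symm⟩ h2
    exact h.iso _ _ ⟨E.congr (Fin.consLinearEquiv (ZMod 7) (fun _ : Fin (n + 2) => ZMod 7))⟩ h3

lemma mem_E {V : Type} [AddCommGroup V] [Module (ZMod 7) V] [Module.Finite (ZMod 7) V]
    [Nontrivial V] : Q (E V) := by
  have h1 : 0 < Module.finrank (ZMod 7) V := Module.finrank_pos
  obtain ⟨n, hn⟩ : ∃ n, Module.finrank (ZMod 7) V = n + 1 := ⟨_, (Nat.succ_pred_eq_of_pos h1).symm⟩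
  have e : V ≃ₗ[ZMod 7] (Fin (n + 1) → ZMod 7) := (Module.finBasisOfFinrankEq (ZMod 7) V hn).equivFun
  exact h.iso _ _ ⟨E.congr e.symm⟩ (h.mem_E_fin hE n)

end FitCls

/-- embedding of `B(F, F, id)` in the big group -/
def B.toBig (F : Type) [CommRing F] [Algebra (ZMod 7) F] :
    B (LinearMap.id : F →ₗ[ZMod 7] F) →* Big F where
  toFun x := ⟨x.t, x.t⁻¹, x.a, x.b, x.c⟩
  map_one' := by
    apply Big.ext
    · rfl
    · simp
    · rfl
    · rfl
    · rfl
  map_mul' x y := by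
    apply Big.ext
    · rfl
    · simp [mul_comm]
    · rfl
    · rfl
    · simp only [B_mul_c, Big_mul_c, LinearMap.id_coe, id_eq, mul_smul_comm, chi_inv, one_smul]

lemma B.toBig_inj (F : Type) [CommRing F] [Algebra (ZMod 7) F] :
    Function.Injective (B.toBig F) := by
  intro x y hxy
  exact B.ext (congrArg Big.s hxy) (congrArg Big.a hxy) (congrArg Big.b hxy) (congrArg Big.c hxy)

lemma B.toBig_range (F : Type) [CommRing F] [Algebra (ZMod 7) F] :
    (B.toBig F).range = (Big.det (F := F)).ker := by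
  ext x
  constructor
  · rintro ⟨y, rfl⟩
    exact mul_inv_cancel y.t
  · intro hx
    have h1 : x.s * x.t = 1 := hx
    refine ⟨⟨x.s, x.a, x.b, x.c⟩, ?_⟩
    apply Big.ext
    · rfl
    · exact (eq_inv_of_mul_eq_one_right h1).symm
    · rfl
    · rfl
    · rfl

namespace FitCls

variable {Q : (H : Type) → [Group H] → Prop} (h : FitCls Q) (hE : Q (E (ZMod 7)))
include h hE

lemma mem_Big {F : Type} [Field F] [Algebra (ZMod 7) F] [Module.Finite (ZMod 7) F] :
    Q (Big F) := by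
  have h1 : Q (E (F × F)) := h.mem_E hE
  exact h.of_sup_top (N := (Big.p1 (F := F)).ker) (M := (Big.p2 (F := F)).ker) inferInstance
    inferInstance (h.iso _ _ ⟨Big.k1⟩ h1) (h.iso _ _ ⟨Big.k2⟩ h1) Big.sup

theorem mem_B {F : Type} [Field F] [Algebra (ZMod 7) F] [Module.Finite (ZMod 7) F] :
    Q (B (LinearMap.id : F →ₗ[ZMod 7] F)) := by
  have h1 := h.sn _ (Big.det (F := F)).ker inferInstance (h.mem_Big hE)
  rw [← B.toBig_range] at h1
  exact h.iso _ _ ⟨(MonoidHom.ofInjective (B.toBig_inj F)).symm⟩ h1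

end FitCls

end Pool.Agent.Helper218
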