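import Pool.Agent.Helper218.Lock

set_option autoImplicit false
set_option linter.all false

namespace Pool.Agent.Helper218

open Subgroup

open scoped commutatorElement

/-- groups in the class are soluble -/
lemma Cls_solvable {p q m : ℕ} [hp : Fact p.Prime] [hq : Fact q.Prime] {G : Type} [Group G]
    (h : Cls p q m G) : Group.IsSolvable G := by
  haveI := Cls_fin h
  obtain ⟨R, _, hR2, hR3, hR4⟩ := h.rad
  haveI hRn : R.Normal := ⟨fun x hx g => hR2 g (Subgroup.mem_top _) x hx⟩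
  have hRp : IsPGroup p R := by
    intro x
    obtain ⟨n, hn⟩ := hR3 x.1 x.2
    exact ⟨n, Subtype.ext (by simpa using hn)⟩
  have hQ : IsPGroup q (G ⧸ R) := by
    intro x
    induction x using QuotientGroup.induction_on with
    | H x =>
      obtain ⟨n, hn⟩ := hR4 x (Subgroup.mem_top _)
      exact ⟨n, by rw [← QuotientGroup.mk_pow, QuotientGroup.eq_one_iff]; exact hn⟩
  haveI h1 : Group.IsNilpotent R := hRp.isNilpotent
  haveI h2 : Group.IsNilpotent (G ⧸ R) := hQ.isNilpotent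
  haveI h3 : Group.IsSolvable R := inferInstance
  haveI h4 : Group.IsSolvable (G ⧸ R) := inferInstance
  exact Group.isSolvable_of_ker_le_range R.subtype (QuotientGroup.mk' R) (by simp)

section prod

variable {p q m : ℕ} [hp : Fact p.Prime] [hq : Fact q.Prime]

lemma Cls_fst (hpq : Nat.Coprime p q) {G H : Type} [Group G] [Group H] {K : Subgroup (G × H)}
    (hK : K.Normal) (h : Cls p q m K) : Cls p q m (K.map (MonoidHom.fst G H)) := by
  rw [Cls_sub_iff] at h ⊢
  refine lock hpq (MonoidHom.fst G H) (MonoidHom.inl G H) (fun g => rfl) ?_ hK h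
  intro n u
  ext <;> simp

lemma Cls_snd (hpq : Nat.Coprime p q) {G H : Type} [Group G] [Group H] {K : Subgroup (G × H)}
    (hK : K.Normal) (h : Cls p q m K) : Cls p q m (K.map (MonoidHom.snd G H)) := by
  rw [Cls_sub_iff] at h ⊢
  refine lock hpq (MonoidHom.snd G H) (MonoidHom.inr G H) (fun g => rfl) ?_ hK h
  intro n u
  ext <;> simp

/-- the radical of a direct product -/
theorem Cls_lockett (hpq : Nat.Coprime p q) (G H : Type) [Group G] [Group H] :
    (⨆ (K : Subgroup (G × H)) (_ : K.Normal ∧ Cls p q m ↥K), K) =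
            (⨆ (A : Subgroup G) (_ : A.Normal ∧ Cls p q m ↥A), A).prod
              (⨆ (B : Subgroup H) (_ : B.Normal ∧ Cls p q m ↥B), B) := by
  apply le_antisymm
  · apply iSup₂_le
    rintro K ⟨hK, hc⟩
    have h1 : K.map (MonoidHom.fst G H) ≤ ⨆ (A : Subgroup G) (_ : A.Normal ∧ Cls p q m ↥A), A :=
      le_iSup₂_of_le _ ⟨Subgroup.Normal.map hK _ (fun g => ⟨(g, 1), rfl⟩), Cls_fst hpq hK hc⟩ le_rfl
    have h2 : K.map (MonoidHom.snd G H) ≤ ⨆ (A : Subgroup H) (_ : A.Normal ∧ Cls p q m ↥A), A :=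
      le_iSup₂_of_le _ ⟨Subgroup.Normal.map hK _ (fun g => ⟨(1, g), rfl⟩), Cls_snd hpq hK hc⟩ le_rfl
    intro x hx
    exact ⟨h1 ⟨x, hx, rfl⟩, h2 ⟨x, hx, rfl⟩⟩
  · rw [Subgroup.prod_le_iff]
    constructor
    · rw [Subgroup.map_iSup]
      apply iSup_le
      intro A
      rw [Subgroup.map_iSup]
      apply iSup_le
      rintro ⟨hA, hc⟩
      refine le_iSup₂_of_le (A.map (MonoidHom.inl G H)) ⟨?_, ?_⟩ le_rfl
      · constructor
        rintro _ ⟨x, hx, rfl⟩ g
        exact ⟨g.1 * x * g.1⁻¹, hA.conj_mem x hx g.1, by ext <;> simp⟩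
      · rw [Cls_sub_iff] at hc ⊢
        exact (SCls_map _ (fun x y h => congrArg Prod.fst h)).2 hc
    · rw [Subgroup.map_iSup]
      apply iSup_le
      intro A
      rw [Subgroup.map_iSup]
      apply iSup_le
      rintro ⟨hA, hc⟩
      refine le_iSup₂_of_le (A.map (MonoidHom.inr G H)) ⟨?_, ?_⟩ le_rfl
      · constructor
        rintro _ ⟨x, hx, rfl⟩ g
        exact ⟨g.2 * x * g.2⁻¹, hA.conj_mem x hx g.2, by ext <;> simp⟩
      · rw [Cls_sub_iff] at hc ⊢
        exact (SCls_map _ (fun x y h => congrArg Prod.snd h)).2 hc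

end prod

/-- change of the centre -/
def B.mapC {F C C' : Type} [CommRing F] [Algebra (ZMod 7) F] [AddCommGroup C]
    [Module (ZMod 7) C] [AddCommGroup C'] [Module (ZMod 7) C'] (lam : F →ₗ[ZMod 7] C)
    (mu : C →ₗ[ZMod 7] C') : B lam →* B (mu.comp lam) where
  toFun x := ⟨x.t, x.a, x.b, mu x.c⟩
  map_one' := by
    apply B.ext
    · rfl
    · rfl
    · rfl
    · exact map_zero mu
  map_mul' x y := by
    apply B.ext
    · rfl
    · rfl
    · rfl
    · simp

lemma B.mapC_surj {F C C' : Type} [CommRing F] [Algebra (ZMod 7) F] [AddCommGroup C]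
    [Module (ZMod 7) C] [AddCommGroup C'] [Module (ZMod 7) C'] (lam : F →ₗ[ZMod 7] C)
    (mu : C →ₗ[ZMod 7] C') (h : Function.Surjective mu) : Function.Surjective (B.mapC lam mu) := by
  rintro ⟨t, a, b, c⟩
  obtain ⟨c', rfl⟩ := h c
  exact ⟨⟨t, a, b, c'⟩, rfl⟩

lemma B.mem_mapC_ker {F C C' : Type} [CommRing F] [Algebra (ZMod 7) F] [AddCommGroup C]
    [Module (ZMod 7) C] [AddCommGroup C'] [Module (ZMod 7) C'] (lam : F →ₗ[ZMod 7] C)
    (mu : C →ₗ[ZMod 7] C') {x : B lam} :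
    x ∈ (B.mapC lam mu).ker ↔ x.t = 1 ∧ x.a = 0 ∧ x.b = 0 ∧ mu x.c = 0 := by
  constructor
  · intro h
    exact ⟨congrArg B.t h, congrArg B.a h, congrArg B.b h, congrArg B.c h⟩
  · rintro ⟨h1, h2, h3, h4⟩
    exact B.ext h1 h2 h3 h4

/-- the field with 49 elements -/
abbrev F49 : Type := GaloisField 7 2

/-- a basis -/
noncomputable def bas : Module.Basis (Fin 2) (ZMod 7) F49 :=
  Module.finBasisOfFinrankEq (ZMod 7) F49 (GaloisField.finrank 7 (by norm_num))

/-- coordinates -/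
noncomputable def crd (i : Fin 2) : F49 →ₗ[ZMod 7] ZMod 7 := bas.coord i

lemma crd_surj (i : Fin 2) : Function.Surjective (crd i) := by
  intro c
  refine ⟨c • bas i, ?_⟩
  rw [crd, map_smul, Module.Basis.coord_apply, Module.Basis.repr_self, Finsupp.single_eq_same,
    smul_eq_mul, mul_one]

lemma crd_inj {x : F49} (h0 : crd 0 x = 0) (h1 : crd 1 x = 0) : x = 0 := by
  apply bas.ext_elem
  intro i
  rw [map_zero, Finsupp.zero_apply]
  fin_cases i
  · exact h0
  · exact h1

lemma card_F49 : Nat.card F49 = 7 ^ 2 := GaloisField.card 7 2 (by norm_num)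

/-- the group of order `3 · 7^6` -/
abbrev BigB : Type := B (LinearMap.id : F49 →ₗ[ZMod 7] F49)

/-- the quotients of order `3 · 7^5` -/
abbrev QuoB (i : Fin 2) : Type := B ((crd i).comp (LinearMap.id : F49 →ₗ[ZMod 7] F49))

/-- the projection -/
noncomputable def quo (i : Fin 2) : BigB →* QuoB i := B.mapC LinearMap.id (crd i)

lemma quo_surj (i : Fin 2) : Function.Surjective (quo i) := B.mapC_surj _ _ (crd_surj i)

lemma QuoB_cls (i : Fin 2) : Cls 7 3 1 (QuoB i) := by
  refine B.cls (lam := (crd i).comp (LinearMap.id : F49 →ₗ[ZMod 7] F49)) inferInstance ?_ ?_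
  · intro c
    obtain ⟨x, hx⟩ := crd_surj i c
    exact ⟨x, hx⟩
  · rw [Nat.card_zmod, pow_one]

lemma BigB_not_cls : ¬ Cls 7 3 1 BigB := by
  refine B.not_cls (lam := (LinearMap.id : F49 →ₗ[ZMod 7] F49)) inferInstance
    Function.surjective_id ?_
  rw [card_F49]
  norm_num

lemma quo_ker_inf : (quo 0).ker ⊓ (quo 1).ker = ⊥ := by
  rw [eq_bot_iff]
  rintro x ⟨h0, h1⟩
  have h0' := (B.mem_mapC_ker _ _).1 h0
  have h1' := (B.mem_mapC_ker _ _).1 h1
  rw [Subgroup.mem_bot]
  exact B.ext h0'.1 h0'.2.1 h0'.2.2.1 (crd_inj h0'.2.2.2 h1'.2.2.2)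

end Pool.Agent.Helper218
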