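import Pool.Agent.Helper218.PG
import Pool.Agent.Helper218.Core5

set_option autoImplicit false
set_option linter.all false

namespace Pool.Agent.Helper218.LF

open Subgroup Pool.Agent.Helper218 Pool.Agent.Helper218.PG

open scoped commutatorElement

instance fact2 : Fact (Nat.Prime 2) := ⟨by norm_num⟩
instance fact3 : Fact (Nat.Prime 3) := ⟨by norm_num⟩

/-- Fitting product -/
def ProdP (C D : (G : Type) → [Group G] → Prop) (G : Type) [Group G] : Prop :=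
  ∀ (N : Subgroup G) [N.Normal],
        (C ↥N ∧ ∀ K : Subgroup G, K.Normal → C ↥K → K ≤ N) → D (G ⧸ N)

/-- normal `p`-subgroup of index prime to `p` -/
def NpE (p : ℕ) (Q : Type) [Group Q] : Prop :=
  ∃ P : Subgroup Q, P.Normal ∧ IsPGroup p ↥P ∧ Nat.Coprime P.index p

/-- local classes -/
def LocP (C : (G : Type) → [Group G] → Prop) : Prop :=
      ∃ f : ℕ → ((G : Type) → [Group G] → Prop), (∀ p, FitP (f p)) ∧
        ∀ (G : Type) [Group G] [Finite G], C G ↔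
          ((∀ p : ℕ, p.Prime → p ∣ Nat.card G →
              ∃ (K : Type) (_ : Group K) (_ : Finite K), f p K) ∧
           ∀ p : ℕ, p.Prime → (∃ (K : Type) (_ : Group K) (_ : Finite K), f p K) →
             ProdP (f p)
               (fun (Q : Type) [Group Q] =>
                 ∃ P : Subgroup Q, P.Normal ∧ IsPGroup p ↥P ∧ Nat.Coprime P.index p) G)

/-- `P` is a normal `3`-subgroup with quotient a `2`-group -/
structure Str {G : Type} [Group G] (P : Subgroup G) : Prop where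
  nrm : P.Normal
  p3 : ∀ u ∈ P, ∃ n, u ^ (3 ^ n) = 1
  q2 : ∀ g : G, ∃ n, g ^ (2 ^ n) ∈ P

/-- the class of extensions of `3`-groups by `2`-groups -/
def FC (G : Type) [Group G] : Prop := ∃ P : Subgroup G, Str P

/-- `3`-groups -/
def MC (G : Type) [Group G] : Prop := ∀ g : G, ∃ n, g ^ (3 ^ n) = 1

/-- the subclass with central centre -/
def HC (G : Type) [Group G] : Prop :=
  ∃ P : Subgroup G, Str P ∧ ∀ z ∈ P, (∀ u ∈ P, u * z = z * u) → ∀ g : G, g * z = z * g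

lemma cop23 : Nat.Coprime 3 2 := by norm_num

lemma Str.mem_iff {G : Type} [Group G] {P : Subgroup G} (h : Str P) {x : G} :
    x ∈ P ↔ ∃ n, x ^ (3 ^ n) = 1 := by
  constructor
  · exact h.p3 x
  · rintro ⟨n, hn⟩
    obtain ⟨k, hk⟩ := h.q2 x
    exact mem_of_pows (Nat.Coprime.pow n k cop23) (by rw [hn]; exact P.one_mem) hk

lemma Str.sub {G : Type} [Group G] {P : Subgroup G} (h : Str P) (N : Subgroup G) :
    Str (P.subgroupOf N) := by
  haveI := h.nrm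
  refine ⟨inferInstance, ?_, ?_⟩
  · rintro ⟨u, huN⟩ hu
    obtain ⟨n, hn⟩ := h.p3 u hu
    exact ⟨n, Subtype.ext (by simpa using hn)⟩
  · rintro ⟨g, hg⟩
    obtain ⟨n, hn⟩ := h.q2 g
    exact ⟨n, by rw [Subgroup.mem_subgroupOf]; simpa using hn⟩

lemma Str.iso {G K : Type} [Group G] [Group K] (e : G ≃* K) {P : Subgroup G} (h : Str P) :
    Str (P.map e.toMonoidHom) := by
  refine ⟨Subgroup.Normal.map h.nrm _ e.surjective, ?_, ?_⟩
  · rintro _ ⟨u, hu, rfl⟩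
    obtain ⟨n, hn⟩ := h.p3 u hu
    exact ⟨n, by rw [← map_pow, hn, map_one]⟩
  · intro g
    obtain ⟨x, rfl⟩ := e.surjective g
    obtain ⟨n, hn⟩ := h.q2 x
    exact ⟨n, by rw [← map_pow]; exact ⟨_, hn, rfl⟩⟩

/-! ### the three classes -/

lemma fit_MC : FitP MC := by
  refine ⟨?_, ?_, ?_⟩
  · rintro G K _ _ ⟨e⟩ h g
    obtain ⟨x, rfl⟩ := e.surjective g
    obtain ⟨n, hn⟩ := h x
    exact ⟨n, by rw [← map_pow, hn, map_one]⟩
  · rintro G _ _ N _ h ⟨g, hg⟩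
    obtain ⟨n, hn⟩ := h g
    exact ⟨n, Subtype.ext (by simpa using hn)⟩
  · rintro G _ _ N K hN hK h1 h2 ⟨g, hg⟩
    have h3 := ppow_sup (p := 3) hN (P₂ := K)
      (by
        intro u hu
        obtain ⟨n, hn⟩ := h1 ⟨u, hu⟩
        exact ⟨n, by simpa using congrArg Subtype.val hn⟩)
      (by
        intro u hu
        obtain ⟨n, hn⟩ := h2 ⟨u, hu⟩
        exact ⟨n, by simpa using congrArg Subtype.val hn⟩) g hg
    obtain ⟨n, hn⟩ := h3
    exact ⟨n, Subtype.ext (by simpa using hn)⟩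

lemma HC_iso {G K : Type} [Group G] [Group K] (e : G ≃* K) (h : HC G) : HC K := by
  obtain ⟨P, hP, hc⟩ := h
  refine ⟨P.map e.toMonoidHom, hP.iso e, ?_⟩
  rintro _ ⟨z, hz, rfl⟩ hz2 g
  obtain ⟨x, rfl⟩ := e.surjective g
  have h1 := hc z hz (by
    intro u hu
    have := hz2 (e u) ⟨u, hu, rfl⟩
    apply e.injective
    rw [map_mul, map_mul]
    exact this) x
  change e x * e z = e z * e x
  rw [← map_mul, ← map_mul, h1]

lemma conj_pow_aux {G : Type} [Group G] {y g w : G} (h : g * y * g⁻¹ = y * w) (hgw : g * w = w * g)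
    (j : ℕ) : g ^ j * y * (g ^ j)⁻¹ = y * w ^ j := by
  induction j with
  | zero => simp
  | succ j ih =>
    have hc : g * w ^ j = w ^ j * g := (Commute.pow_right (show Commute g w from hgw) j)
    calc g ^ (j + 1) * y * (g ^ (j + 1))⁻¹ = g * (g ^ j * y * (g ^ j)⁻¹) * g⁻¹ := by
          rw [pow_succ']; group
      _ = g * (y * w ^ j) * g⁻¹ := by rw [ih]
      _ = (g * y * g⁻¹) * (g * w ^ j * g⁻¹) := by group
      _ = (y * w) * (w ^ j * g * g⁻¹) := by rw [h, hc]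
      _ = y * w ^ (j + 1) := by rw [pow_succ']; group

/-- normal subgroups -/
lemma HC_sub {G : Type} [Group G] [Finite G] (N : Subgroup G) (hN : N.Normal) (h : HC G) : HC N := by
  obtain ⟨P, hP, hc⟩ := h
  refine ⟨P.subgroupOf N, hP.sub N, ?_⟩
  rintro ⟨y, hyN⟩ hy hycen ⟨g, hg⟩
  have hyP : y ∈ P := hy
  apply Subtype.ext
  change g * y = y * g
  have hy2 : ∀ u ∈ P ⊓ N, u * y = y * u := by
    rintro u ⟨hu1, hu2⟩
    exact congrArg Subtype.val (hycen ⟨u, hu2⟩ hu1)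
  by_contra hne
  haveI := hP.nrm
  -- the abelian group `A = Z(P ⊓ N)`
  let A : Subgroup G := (P ⊓ N) ⊓ Subgroup.centralizer ((P ⊓ N : Subgroup G) : Set G)
  haveI hAn : A.Normal := inferInstance
  have hAcen : ∀ a ∈ A, ∀ u ∈ P ⊓ N, u * a = a * u := fun a ha u hu => ha.2 u hu
  have hAA : ∀ a ∈ A, ∀ b ∈ A, a * b = b * a := fun a ha b hb => hAcen b hb a ha.1
  have hyA : y ∈ A := ⟨⟨hyP, hyN⟩, hy2⟩
  -- the subgroup `W = [A, g]`
  let φ : A →* A :=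
    { toFun := fun a => ⟨a.1⁻¹ * (g * a.1 * g⁻¹),
        A.mul_mem (A.inv_mem a.2) (hAn.conj_mem a.1 a.2 g)⟩
      map_one' := Subtype.ext (by simp)
      map_mul' := by
        rintro ⟨a, ha⟩ ⟨b, hb⟩
        apply Subtype.ext
        change (a * b)⁻¹ * (g * (a * b) * g⁻¹) = (a⁻¹ * (g * a * g⁻¹)) * (b⁻¹ * (g * b * g⁻¹))
        have e1 : b⁻¹ * (a⁻¹ * (g * a * g⁻¹)) = (a⁻¹ * (g * a * g⁻¹)) * b⁻¹ :=
          hAA _ (A.inv_mem hb) _ (A.mul_mem (A.inv_mem ha) (hAn.conj_mem a ha g))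
        calc (a * b)⁻¹ * (g * (a * b) * g⁻¹) = b⁻¹ * (a⁻¹ * (g * a * g⁻¹)) * (g * b * g⁻¹) := by group
          _ = (a⁻¹ * (g * a * g⁻¹)) * b⁻¹ * (g * b * g⁻¹) := by rw [e1]
          _ = _ := by group }
  let W : Subgroup G := φ.range.map A.subtype
  have hWmem : ∀ w, w ∈ W ↔ ∃ a ∈ A, w = a⁻¹ * (g * a * g⁻¹) := by
    intro w
    constructor
    · rintro ⟨_, ⟨⟨a, ha⟩, rfl⟩, rfl⟩
      exact ⟨a, ha, rfl⟩
    · rintro ⟨a, ha, rfl⟩
      exact ⟨_, ⟨⟨a, ha⟩, rfl⟩, rfl⟩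
  have hWA : W ≤ A := by
    rintro w hw
    obtain ⟨a, ha, rfl⟩ := (hWmem w).1 hw
    exact A.mul_mem (A.inv_mem ha) (hAn.conj_mem a ha g)
  -- `P` normalises `W`
  have hPW : ∀ u ∈ P, ∀ w ∈ W, u * w * u⁻¹ ∈ W := by
    intro u hu w hw
    obtain ⟨a, ha, rfl⟩ := (hWmem w).1 hw
    rw [hWmem]
    refine ⟨u * a * u⁻¹, hAn.conj_mem a ha u, ?_⟩
    have hs : g⁻¹ * (u * g * u⁻¹) ∈ P ⊓ N := by
      constructor
      · have e : g⁻¹ * (u * g * u⁻¹) = (g⁻¹ * u * g⁻¹⁻¹) * u⁻¹ := by group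
        rw [e]
        exact P.mul_mem (hP.nrm.conj_mem u hu g⁻¹) (P.inv_mem hu)
      · exact N.mul_mem (N.inv_mem hg) (hN.conj_mem g hg u)
    have hb := hAn.conj_mem a ha u
    have e2 := hAcen _ hb _ hs
    -- `u g u⁻¹ = g s`
    have e3 : u * (a⁻¹ * (g * a * g⁻¹)) * u⁻¹ = (u * a * u⁻¹)⁻¹ *
        ((g * (g⁻¹ * (u * g * u⁻¹))) * (u * a * u⁻¹) * (g * (g⁻¹ * (u * g * u⁻¹)))⁻¹) := by group
    rw [e3]
    congr 1
    have e4 : (g⁻¹ * (u * g * u⁻¹)) * (u * a * u⁻¹) * (g⁻¹ * (u * g * u⁻¹))⁻¹ = u * a * u⁻¹ :=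
      mul_inv_eq_iff_eq_mul.2 e2
    calc (g * (g⁻¹ * (u * g * u⁻¹))) * (u * a * u⁻¹) * (g * (g⁻¹ * (u * g * u⁻¹)))⁻¹
        = g * ((g⁻¹ * (u * g * u⁻¹)) * (u * a * u⁻¹) * (g⁻¹ * (u * g * u⁻¹))⁻¹) * g⁻¹ := by group
      _ = g * (u * a * u⁻¹) * g⁻¹ := by rw [e4]
  -- `W` is nontrivial
  have hWne : ∃ w ∈ W, w ≠ 1 := by
    refine ⟨y⁻¹ * (g * y * g⁻¹), (hWmem _).2 ⟨y, hyA, rfl⟩, ?_⟩
    intro h1
    apply hne
    have h2 : y = g * y * g⁻¹ := inv_mul_eq_one.1 h1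
    calc g * y = (g * y * g⁻¹) * g := by group
      _ = y * g := by rw [← h2]
  -- fixed point
  letI : MulAction P W :=
    { smul := fun u w => ⟨u * w * (u : G)⁻¹, hPW u u.2 w w.2⟩
      one_smul := by
        intro w
        apply Subtype.ext
        change ((1 : P) : G) * w * ((1 : P) : G)⁻¹ = w
        simp
      mul_smul := by
        intro a b w
        apply Subtype.ext
        change ((a * b : P) : G) * w * ((a * b : P) : G)⁻¹ = (a : G) * ((b : G) * w * (b : G)⁻¹) * (a : G)⁻¹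
        rw [Subgroup.coe_mul]; group }
  have hPp : IsPGroup 3 P := by
    rintro ⟨u, hu⟩
    obtain ⟨n, hn⟩ := hP.p3 u hu
    exact ⟨n, Subtype.ext (by simpa using hn)⟩
  have hWp : IsPGroup 3 W := by
    rintro ⟨u, hu⟩
    obtain ⟨n, hn⟩ := hP.p3 u (hWA hu).1.1
    exact ⟨n, Subtype.ext (by simpa using hn)⟩
  have hdvd : 3 ∣ Nat.card W := by
    obtain ⟨k, hk⟩ := (IsPGroup.iff_card (p := 3) (G := W)).1 hWp
    rcases Nat.eq_zero_or_pos k with h0 | h0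
    · exfalso
      rw [h0, pow_zero] at hk
      have hbot := Subgroup.eq_bot_of_card_eq W hk
      obtain ⟨w, hw, hw1⟩ := hWne
      rw [hbot, Subgroup.mem_bot] at hw
      exact hw1 hw
    · rw [hk]; exact dvd_pow_self 3 h0.ne'
  obtain ⟨w, hw1, hw2⟩ := hPp.exists_fixed_point_of_prime_dvd_card_of_fixed_point (α := W) hdvd
    (a := (1 : W)) (by
      intro u
      apply Subtype.ext
      change (u : G) * ((1 : W) : G) * (u : G)⁻¹ = ((1 : W) : G)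
      simp)
  have hwP : (w : G) ∈ P := (hWA w.2).1.1
  have hwcen := hc w hwP (by
    intro u hu
    have h1 := hw1 ⟨u, hu⟩
    have h2 : u * (w : G) * u⁻¹ = w := congrArg Subtype.val h1
    exact mul_inv_eq_iff_eq_mul.1 h2)
  obtain ⟨a, ha, hwa⟩ := (hWmem w).1 w.2
  have h1 : g * a * g⁻¹ = a * w := by rw [hwa]; group
  obtain ⟨n, hn⟩ := hP.q2 g
  have h2 := conj_pow_aux h1 (hwcen g) (2 ^ n)
  have h3 : g ^ 2 ^ n * a = a * g ^ 2 ^ n :=
    hAcen a ha _ ⟨hn, N.pow_mem hg _⟩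
  rw [conj_eq_of_comm h3] at h2
  have h4 : (w : G) ^ 2 ^ n = 1 := by
    have : a * 1 = a * (w : G) ^ 2 ^ n := by rw [mul_one]; exact h2
    exact (mul_left_cancel this).symm
  obtain ⟨k, hk⟩ := hP.p3 w hwP
  have h5 := eq_one_of_pows (Nat.Coprime.pow k n cop23) hk h4
  exact hw2 (Subtype.ext h5.symm)

lemma Str_sup {G : Type} [Group G] {N K : Subgroup G} (hN : N.Normal) (hK : K.Normal)
    {P₁ : Subgroup N} {P₂ : Subgroup K} (h1 : Str P₁) (h2 : Str P₂) :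
    ((P₁.map N.subtype).Normal ∧ (P₂.map K.subtype).Normal) ∧
    (∀ u ∈ P₁.map N.subtype ⊔ P₂.map K.subtype, ∃ n, u ^ (3 ^ n) = 1) ∧
    (∀ g ∈ N ⊔ K, ∃ n, g ^ (2 ^ n) ∈ P₁.map N.subtype ⊔ P₂.map K.subtype) := by
  have n1 : (P₁.map N.subtype).Normal := by
    constructor
    rintro _ ⟨⟨u, huN⟩, hu, rfl⟩ g
    refine ⟨⟨g * u * g⁻¹, hN.conj_mem u huN g⟩, ?_, rfl⟩
    obtain ⟨n, hn⟩ := h1.p3 _ hu
    have hn' : u ^ 3 ^ n = 1 := by simpa using congrArg Subtype.val hn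
    refine (h1.mem_iff).2 ⟨n, Subtype.ext ?_⟩
    simp [conj_pow, hn']
  have n2 : (P₂.map K.subtype).Normal := by
    constructor
    rintro _ ⟨⟨u, huN⟩, hu, rfl⟩ g
    refine ⟨⟨g * u * g⁻¹, hK.conj_mem u huN g⟩, ?_, rfl⟩
    obtain ⟨n, hn⟩ := h2.p3 _ hu
    have hn' : u ^ 3 ^ n = 1 := by simpa using congrArg Subtype.val hn
    refine (h2.mem_iff).2 ⟨n, Subtype.ext ?_⟩
    simp [conj_pow, hn']
  refine ⟨⟨n1, n2⟩, ?_, ?_⟩
  · apply ppow_sup n1
    · rintro _ ⟨⟨u, huN⟩, hu, rfl⟩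
      obtain ⟨n, hn⟩ := h1.p3 _ hu
      exact ⟨n, by simpa using congrArg Subtype.val hn⟩
    · rintro _ ⟨⟨u, huN⟩, hu, rfl⟩
      obtain ⟨n, hn⟩ := h2.p3 _ hu
      exact ⟨n, by simpa using congrArg Subtype.val hn⟩
  · apply pquot_sup hN n1 n2
    · intro u hu
      obtain ⟨n, hn⟩ := h1.q2 ⟨u, hu⟩
      exact ⟨n, ⟨_, hn, by simp⟩⟩
    · intro u hu
      obtain ⟨n, hn⟩ := h2.q2 ⟨u, hu⟩
      exact ⟨n, ⟨_, hn, by simp⟩⟩

lemma HC_sup {G : Type} [Group G] [Finite G] (N K : Subgroup G) (hN : N.Normal) (hK : K.Normal)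
    (h1 : HC N) (h2 : HC K) : HC (N ⊔ K : Subgroup G) := by
  obtain ⟨P₁, hP1, hc1⟩ := h1
  obtain ⟨P₂, hP2, hc2⟩ := h2
  obtain ⟨⟨n1, n2⟩, hp, hq⟩ := Str_sup hN hK hP1 hP2
  haveI := n1
  haveI := n2
  set P := P₁.map N.subtype ⊔ P₂.map K.subtype with hPdef
  have hPn : P.Normal := inferInstance
  have hstr : Str (P.subgroupOf (N ⊔ K)) := by
    refine ⟨inferInstance, ?_, ?_⟩
    · rintro ⟨u, huN⟩ hu
      obtain ⟨n, hn⟩ := hp u hu
      exact ⟨n, Subtype.ext (by simpa using hn)⟩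
    · rintro ⟨g, hg⟩
      obtain ⟨n, hn⟩ := hq g hg
      exact ⟨n, by rw [Subgroup.mem_subgroupOf]; simpa using hn⟩
  have hPle : P ≤ N ⊔ K := by
    apply sup_le_sup
    · rintro _ ⟨u, _, rfl⟩; exact u.2
    · rintro _ ⟨u, _, rfl⟩; exact u.2
  refine ⟨P.subgroupOf (N ⊔ K), hstr, ?_⟩
  rintro ⟨z, hzNK⟩ hz hcz ⟨g, hg⟩
  have hzP : z ∈ P := hz
  have hcz' : ∀ u ∈ P, u * z = z * u := fun u hu =>
    congrArg Subtype.val (hcz ⟨u, hPle hu⟩ hu)
  apply Subtype.ext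
  change g * z = z * g
  -- general statement
  have key : ∀ (L : Subgroup G) (hL : L.Normal) (PL : Subgroup L) (hPL : Str PL)
      (hcL : ∀ z ∈ PL, (∀ u ∈ PL, u * z = z * u) → ∀ g : L, g * z = z * g)
      (hle : PL.map L.subtype ≤ P), ∀ g ∈ L, g * z = z * g := by
    intro L hL PL hPL hcL hle g hg
    set d := z⁻¹ * (g * z * g⁻¹) with hd
    have hdP : d ∈ P := P.mul_mem (P.inv_mem hzP) (hPn.conj_mem z hzP g)
    have hdL : d ∈ L := by
      have e : d = (z⁻¹ * g * z⁻¹⁻¹) * g⁻¹ := by rw [hd]; group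
      rw [e]
      exact L.mul_mem (hL.conj_mem g hg z⁻¹) (L.inv_mem hg)
    obtain ⟨k, hk⟩ := hp d hdP
    have hdPL : (⟨d, hdL⟩ : L) ∈ PL := hPL.mem_iff.2 ⟨k, Subtype.ext (by simpa using hk)⟩
    have hdc : ∀ u ∈ PL, u * ⟨d, hdL⟩ = ⟨d, hdL⟩ * u := by
      rintro ⟨u, huL⟩ hu
      apply Subtype.ext
      change u * d = d * u
      have huP : u ∈ P := hle ⟨⟨u, huL⟩, hu, rfl⟩
      have c1 : Commute u z := hcz' u huP
      have c2 : Commute u (g * z * g⁻¹) := by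
        have h3 := hcz' (g⁻¹ * u * g⁻¹⁻¹) (hPn.conj_mem u huP g⁻¹)
        have h4 : g * ((g⁻¹ * u * g⁻¹⁻¹) * z) * g⁻¹ = g * (z * (g⁻¹ * u * g⁻¹⁻¹)) * g⁻¹ := by rw [h3]
        calc u * (g * z * g⁻¹) = g * ((g⁻¹ * u * g⁻¹⁻¹) * z) * g⁻¹ := by group
          _ = g * (z * (g⁻¹ * u * g⁻¹⁻¹)) * g⁻¹ := h4
          _ = (g * z * g⁻¹) * u := by group
      exact c1.inv_right.mul_right c2
    have hgd : g * d = d * g := congrArg Subtype.val (hcL _ hdPL hdc ⟨g, hg⟩)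
    have h1 : g * z * g⁻¹ = z * d := by rw [hd]; group
    obtain ⟨n, hn⟩ := hPL.q2 ⟨g, hg⟩
    have hgP : g ^ 2 ^ n ∈ P := hle ⟨_, hn, by simp⟩
    have h2 := conj_pow_aux h1 hgd (2 ^ n)
    rw [conj_eq_of_comm (hcz' _ hgP)] at h2
    have h4 : d ^ 2 ^ n = 1 := by
      have : z * 1 = z * d ^ 2 ^ n := by rw [mul_one]; exact h2
      exact (mul_left_cancel this).symm
    have h5 := eq_one_of_pows (Nat.Coprime.pow k n cop23) hk h4
    have h6 : z = g * z * g⁻¹ := inv_mul_eq_one.1 h5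
    calc g * z = (g * z * g⁻¹) * g := by group
      _ = z * g := by rw [← h6]
  exact Two.comm_sup (key N hN P₁ hP1 hc1 le_sup_left) (key K hK P₂ hP2 hc2 le_sup_right) g hg

lemma fit_HC : FitP HC :=
  ⟨fun _ _ _ _ ⟨e⟩ h => HC_iso e h, fun _ _ _ N hN h => HC_sub N hN h,
    fun _ _ _ N K hN hK h1 h2 => HC_sup N K hN hK h1 h2⟩

/-! ### solubility -/

lemma FC_solvable {G : Type} [Group G] [Finite G] (h : FC G) : Group.IsSolvable G := by
  obtain ⟨R, hR⟩ := h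
  haveI hRn : R.Normal := hR.nrm
  have hRp : IsPGroup 3 R := by
    intro x
    obtain ⟨n, hn⟩ := hR.p3 x.1 x.2
    exact ⟨n, Subtype.ext (by simpa using hn)⟩
  have hQ : IsPGroup 2 (G ⧸ R) := by
    intro x
    induction x using QuotientGroup.induction_on with
    | H x =>
      obtain ⟨n, hn⟩ := hR.q2 x
      exact ⟨n, by rw [← QuotientGroup.mk_pow, QuotientGroup.eq_one_iff]; exact hn⟩
  haveI h1 : Group.IsNilpotent R := hRp.isNilpotent
  haveI h2 : Group.IsNilpotent (G ⧸ R) := hQ.isNilpotent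
  haveI h3 : Group.IsSolvable R := inferInstance
  haveI h4 : Group.IsSolvable (G ⧸ R) := inferInstance
  exact Group.isSolvable_of_ker_le_range R.subtype (QuotientGroup.mk' R) (by simp)

end Pool.Agent.Helper218.LF
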