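import Pool.Agent.Helper218.LF

set_option autoImplicit false
set_option linter.all false

namespace Pool.Agent.Helper218.LF

open Subgroup Pool.Agent.Helper218 Pool.Agent.Helper218.PG

open scoped commutatorElement

/-! ### the product -/

lemma FC_iff_Prod (G : Type) [Group G] [Finite G] : FC G ↔ ProdP MC HC G := by
  constructor
  · rintro ⟨P, hP⟩ N hN ⟨hN1, hN2⟩
    have hPN : P ≤ N := hN2 P hP.nrm (by
      rintro ⟨u, hu⟩
      obtain ⟨n, hn⟩ := hP.p3 u hu
      exact ⟨n, Subtype.ext (by simpa using hn)⟩)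
    have h2 : ∀ g : G ⧸ N, ∃ n, g ^ (2 ^ n) ∈ (⊥ : Subgroup (G ⧸ N)) := by
      intro g
      induction g using QuotientGroup.induction_on with
      | H x =>
        obtain ⟨n, hn⟩ := hP.q2 x
        refine ⟨n, ?_⟩
        rw [Subgroup.mem_bot, ← QuotientGroup.mk_pow, QuotientGroup.eq_one_iff]
        exact hPN hn
    refine ⟨⊥, ⟨inferInstance, ?_, h2⟩, ?_⟩
    · intro u hu
      exact ⟨0, by rw [Subgroup.mem_bot.1 hu, one_pow]⟩
    · intro z hz _ g
      rw [Subgroup.mem_bot.1 hz, mul_one, one_mul]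
  · intro h
    obtain ⟨N, hN, hXN, hmax⟩ := radical_exists fit_MC
      (K := (⊥ : Subgroup G)) (fun g => ⟨0, Subtype.ext (by
        have := Subgroup.mem_bot.1 g.2
        simpa using this)⟩) G
    haveI := hN
    obtain ⟨P, hP, _⟩ := h N ⟨hXN, hmax⟩
    refine ⟨P.comap (QuotientGroup.mk' N), ⟨hP.nrm.comap _, ?_, ?_⟩⟩
    · intro u hu
      obtain ⟨n, hn⟩ := hP.p3 _ hu
      rw [← map_pow] at hn
      have h1 : u ^ 3 ^ n ∈ N := (QuotientGroup.eq_one_iff _).1 hn
      obtain ⟨k, hk⟩ := hXN ⟨_, h1⟩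
      have hk' : (u ^ 3 ^ n) ^ 3 ^ k = 1 := by simpa using congrArg Subtype.val hk
      exact ⟨n + k, by rw [pow_add, pow_mul, hk']⟩
    · intro g
      obtain ⟨n, hn⟩ := hP.q2 (QuotientGroup.mk' N g)
      exact ⟨n, by rw [Subgroup.mem_comap, map_pow]; exact hn⟩

/-! ### numerical facts -/

lemma FC_quot {G : Type} [Group G] {P : Subgroup G} (hP : Str P) (N : Subgroup G) [N.Normal] :
    Str (P.map (QuotientGroup.mk' N)) := by
  refine ⟨Subgroup.Normal.map hP.nrm _ (QuotientGroup.mk'_surjective _), ?_, ?_⟩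
  · rintro _ ⟨u, hu, rfl⟩
    obtain ⟨n, hn⟩ := hP.p3 u hu
    exact ⟨n, by rw [← map_pow, hn, map_one]⟩
  · intro g
    obtain ⟨x, rfl⟩ := QuotientGroup.mk'_surjective N g
    obtain ⟨n, hn⟩ := hP.q2 x
    exact ⟨n, ⟨_, hn, by rw [map_pow]⟩⟩

/-- the index of a normal subgroup with quotient a `2`-group -/
lemma index_two {Q : Type} [Group Q] [Finite Q] {P : Subgroup Q} (hn : P.Normal)
    (h : ∀ g : Q, ∃ n, g ^ (2 ^ n) ∈ P) : ∃ n, P.index = 2 ^ n := by
  have hQ : IsPGroup 2 (Q ⧸ P) := by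
    intro x
    induction x using QuotientGroup.induction_on with
    | H x =>
      obtain ⟨n, hn⟩ := h x
      exact ⟨n, by rw [← QuotientGroup.mk_pow, QuotientGroup.eq_one_iff]; exact hn⟩
  exact (IsPGroup.iff_card (p := 2) (G := Q ⧸ P)).1 hQ

lemma Str.card {G : Type} [Group G] [Finite G] {P : Subgroup G} (hP : Str P) :
    ∃ a b, Nat.card G = 3 ^ a * 2 ^ b := by
  obtain ⟨b, hb⟩ := index_two hP.nrm hP.q2
  have hPp : IsPGroup 3 P := by
    rintro ⟨u, hu⟩
    obtain ⟨n, hn⟩ := hP.p3 u hu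
    exact ⟨n, Subtype.ext (by simpa using hn)⟩
  obtain ⟨a, ha⟩ := (IsPGroup.iff_card (p := 3) (G := P)).1 hPp
  exact ⟨a, b, by rw [← P.card_mul_index, ha, hb]⟩

lemma Str.prime {G : Type} [Group G] [Finite G] {P : Subgroup G} (hP : Str P) {r : ℕ}
    (hr : r.Prime) (hd : r ∣ Nat.card G) : r = 2 ∨ r = 3 := by
  obtain ⟨a, b, hab⟩ := hP.card
  rw [hab] at hd
  rcases (Nat.Prime.dvd_mul hr).1 hd with h | h
  · right
    exact (Nat.prime_dvd_prime_iff_eq hr (by norm_num)).1 (hr.dvd_of_dvd_pow h)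
  · left
    exact (Nat.prime_dvd_prime_iff_eq hr (by norm_num)).1 (hr.dvd_of_dvd_pow h)

/-- quotients of groups in the class satisfy the local condition at every prime, except perhaps `2` -/
lemma NpE_of_Str {Q : Type} [Group Q] [Finite Q] {P : Subgroup Q} (hP : Str P) {r : ℕ}
    (hr : r.Prime) (h2 : r ≠ 2) : NpE r Q := by
  by_cases h3 : r = 3
  · subst h3
    refine ⟨P, hP.nrm, ?_, ?_⟩
    · rintro ⟨u, hu⟩
      obtain ⟨n, hn⟩ := hP.p3 u hu
      exact ⟨n, Subtype.ext (by simpa using hn)⟩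
    · obtain ⟨b, hb⟩ := index_two hP.nrm hP.q2
      rw [hb]
      exact Nat.Coprime.pow_left b (by norm_num)
  · refine ⟨⊥, inferInstance, IsPGroup.of_bot, ?_⟩
    rw [Subgroup.index_bot, Nat.coprime_comm, (Nat.Prime.coprime_iff_not_dvd hr)]
    intro hd
    rcases hP.prime hr hd with h | h
    · exact h2 h
    · exact h3 h

/-! ### the class is local -/

/-- the local function -/
def fF : ℕ → ((G : Type) → [Group G] → Prop) := fun p G _ =>
  p = 2 ∨ (p = 3 ∧ ∀ g : G, g = 1)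

lemma fit_fF (p : ℕ) : FitP (fF p) := by
  refine ⟨?_, ?_, ?_⟩
  · rintro G K _ _ ⟨e⟩ h
    rcases h with h | ⟨h, h'⟩
    · exact Or.inl h
    · refine Or.inr ⟨h, ?_⟩
      intro g
      obtain ⟨x, rfl⟩ := e.surjective g
      rw [h' x, map_one]
  · rintro G _ _ N _ h
    rcases h with h | ⟨h, h'⟩
    · exact Or.inl h
    · exact Or.inr ⟨h, fun g => Subtype.ext (h' g.1)⟩
  · rintro G _ _ N K _ _ h1 h2
    rcases h1 with h | ⟨h, h'⟩
    · exact Or.inl h
    · rcases h2 with h2 | ⟨h2, h2'⟩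
      · exact Or.inl h2
      · refine Or.inr ⟨h, ?_⟩
        have e1 : N = ⊥ := by
          rw [eq_bot_iff]; intro x hx
          exact Subgroup.mem_bot.2 (congrArg Subtype.val (h' ⟨x, hx⟩))
        have e2 : K = ⊥ := by
          rw [eq_bot_iff]; intro x hx
          exact Subgroup.mem_bot.2 (congrArg Subtype.val (h2' ⟨x, hx⟩))
        rintro ⟨g, hg⟩
        rw [e1, e2, bot_sup_eq, Subgroup.mem_bot] at hg
        exact Subtype.ext hg

lemma loc_FC : LocP FC := by
  refine ⟨fF, fit_fF, ?_⟩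
  intro G _ _
  constructor
  · rintro ⟨P, hP⟩
    refine ⟨?_, ?_⟩
    · intro p hp hd
      rcases hP.prime hp hd with h | h
      · exact ⟨PUnit, inferInstance, inferInstance, Or.inl h⟩
      · exact ⟨PUnit, inferInstance, inferInstance, Or.inr ⟨h, fun g => rfl⟩⟩
    · rintro p hp ⟨K, _, _, hK⟩ N hN ⟨hN1, hN2⟩
      by_cases h2 : p = 2
      · subst h2
        have htop : N = ⊤ := top_le_iff.1 (hN2 ⊤ inferInstance (Or.inl rfl))
        refine ⟨⊥, inferInstance, IsPGroup.of_bot, ?_⟩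
        rw [Subgroup.index_bot]
        have : Nat.card (G ⧸ N) = 1 := by
          have h1 : N.index = 1 := Subgroup.index_eq_one.2 htop
          exact h1
        rw [this]
        norm_num
      · exact NpE_of_Str (FC_quot hP N) hp h2
  · rintro ⟨h1, h2⟩
    have hp : ∀ p : ℕ, p.Prime → p ∣ Nat.card G → p = 2 ∨ p = 3 := by
      intro p hp hd
      obtain ⟨K, _, _, hK⟩ := h1 p hp hd
      rcases hK with h | ⟨h, _⟩
      · exact Or.inl h
      · exact Or.inr h
    obtain ⟨P, hPn, hP3, hPi⟩ := h2 3 (by norm_num)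
      ⟨PUnit, inferInstance, inferInstance, Or.inr ⟨rfl, fun g => rfl⟩⟩ (⊥ : Subgroup G)
      ⟨Or.inr ⟨rfl, fun g => Subtype.ext (Subgroup.mem_bot.1 g.2)⟩, by
        rintro K _ hK
        rcases hK with h | ⟨_, h⟩
        · exact absurd h (by norm_num)
        · intro x hx
          exact Subgroup.mem_bot.2 (congrArg Subtype.val (h ⟨x, hx⟩))⟩
    have hidx : ∃ n, P.index = 2 ^ n := by
      have hne : P.index ≠ 0 := Subgroup.index_ne_zero_of_finite
      refine ⟨_, Nat.eq_prime_pow_of_unique_prime_dvd hne ?_⟩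
      intro d hd hdi
      have h3 : P.index ∣ Nat.card (G ⧸ (⊥ : Subgroup G)) := P.index_dvd_card
      have h4 : Nat.card (G ⧸ (⊥ : Subgroup G)) = Nat.card G := by
        have : (⊥ : Subgroup G).index = Nat.card G := Subgroup.index_bot
        exact this
      rw [h4] at h3
      rcases hp d hd (hdi.trans h3) with h | h
      · exact h
      · exfalso
        subst h
        have h5 := Nat.dvd_gcd hdi (dvd_refl 3)
        rw [hPi] at h5
        exact absurd h5 (by norm_num)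
    obtain ⟨n, hn⟩ := hidx
    refine ⟨P.comap (QuotientGroup.mk' ⊥), ⟨hPn.comap _, ?_, ?_⟩⟩
    · intro u hu
      obtain ⟨k, hk⟩ := hP3 ⟨_, hu⟩
      have hk' : (QuotientGroup.mk' (⊥ : Subgroup G) u) ^ 3 ^ k = 1 := by
        simpa using congrArg Subtype.val hk
      rw [← map_pow] at hk'
      have := (QuotientGroup.eq_one_iff _).1 hk'
      exact ⟨k, Subgroup.mem_bot.1 this⟩
    · intro g
      refine ⟨n, ?_⟩
      rw [Subgroup.mem_comap, map_pow, ← hn]
      exact P.pow_index_mem _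

/-! ### local classes containing a non-nilpotent group of the class -/

/-- key step: the value at `2` contains all finite `3`-groups -/
lemma key_two {X : (G : Type) → [Group G] → Prop} (hX : FitP X) {K : Type} [Group K] [Finite K]
    (hK : X K) {Y : Type} [Group Y] [Finite Y] {P : Subgroup Y} (hP : Str P)
    (h : ProdP X (NpE 2) Y) {u g : Y} (hu : u ∈ P) {n : ℕ} (hg : g ^ (2 ^ n) = 1)
    (hne : ⁅u, g⁆ ≠ 1) : ∀ (T : Type) [Group T] [Finite T], IsPGroup 3 T → X T := by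
  obtain ⟨R, hR, hXR, hmax⟩ := radical_exists hX hK Y
  haveI := hR
  haveI := hP.nrm
  obtain ⟨S, hS, hS2, hSi⟩ := h R ⟨hXR, hmax⟩
  have h1 : ⁅u, g⁆ ∈ P := by
    have e : ⁅u, g⁆ = u * (g * u⁻¹ * g⁻¹) := by rw [commutatorElement_def]; group
    rw [e]
    exact P.mul_mem hu (hP.nrm.conj_mem _ (P.inv_mem hu) g)
  -- image of `g` in `S`
  have h2 : QuotientGroup.mk' R g ∈ S := by
    apply mem_of_pows (a := 2 ^ n) (b := S.index)
    · exact (Nat.Coprime.pow_right n hSi).symm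
    · rw [← map_pow, hg, map_one]; exact S.one_mem
    · exact S.pow_index_mem _
  have h3 : QuotientGroup.mk' R ⁅u, g⁆ ∈ S := by
    rw [map_commutatorElement, commutatorElement_def]
    exact S.mul_mem (hS.conj_mem _ h2 _) (S.inv_mem h2)
  obtain ⟨k, hk⟩ := hS2 ⟨_, h3⟩
  have hk' : (QuotientGroup.mk' R ⁅u, g⁆) ^ 2 ^ k = 1 := by simpa using congrArg Subtype.val hk
  obtain ⟨j, hj⟩ := hP.p3 _ h1
  have hj' : (QuotientGroup.mk' R ⁅u, g⁆) ^ 3 ^ j = 1 := by rw [← map_pow, hj, map_one]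
  have h4 : QuotientGroup.mk' R ⁅u, g⁆ = 1 := eq_one_of_pows (Nat.Coprime.pow j k cop23) hj' hk'
  have h5 : ⁅u, g⁆ ∈ R := (QuotientGroup.eq_one_iff _).1 h4
  -- `R ⊓ P` is a `3`-group in `X`
  have hXI : X (R ⊓ P : Subgroup Y) := by
    apply of_sub hX (inf_le_left : R ⊓ P ≤ R)
    haveI : (R ⊓ P).Normal := inferInstance
    exact hX.2.1 R _ inferInstance hXR
  have hI3 : IsPGroup 3 (R ⊓ P : Subgroup Y) := by
    rintro ⟨x, hx⟩
    obtain ⟨n, hn⟩ := hP.p3 x hx.2
    exact ⟨n, Subtype.ext (by simpa using hn)⟩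
  -- an element of order three
  have hdvd : 3 ∣ Nat.card (R ⊓ P : Subgroup Y) := by
    obtain ⟨k, hk⟩ := (IsPGroup.iff_card (p := 3) (G := (R ⊓ P : Subgroup Y))).1 hI3
    rcases Nat.eq_zero_or_pos k with h0 | h0
    · exfalso
      rw [h0, pow_zero] at hk
      have hbot := Subgroup.eq_bot_of_card_eq _ hk
      have h6 : ⁅u, g⁆ ∈ R ⊓ P := ⟨h5, h1⟩
      rw [hbot, Subgroup.mem_bot] at h6
      exact hne h6
    · rw [hk]; exact dvd_pow_self 3 h0.ne'
  obtain ⟨x, hx⟩ := exists_prime_orderOf_dvd_card' 3 hdvd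
  have hXC : X (Subgroup.zpowers x) := sub_p hX _ (R ⊓ P : Subgroup Y) rfl hI3 hXI _
  have hC : Nat.card (Subgroup.zpowers x) = 3 := by rw [Nat.card_zpowers, hx]
  intro T _ _ hT
  exact all_p hX hC hXC T hT

/-- a local class containing a non-nilpotent group of the class contains the whole class -/
theorem loc_contains {C : (G : Type) → [Group G] → Prop} (hC : LocP C) {Y : Type} [Group Y]
    [Finite Y] (hCY : C Y) {P : Subgroup Y} (hP : Str P) {u g : Y} (hu : u ∈ P) {n : ℕ}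
    (hg : g ^ (2 ^ n) = 1) (hne : ⁅u, g⁆ ≠ 1) (h2 : 2 ∣ Nat.card Y) (h3 : 3 ∣ Nat.card Y) :
    ∀ (G : Type) [Group G] [Finite G], FC G → C G := by
  obtain ⟨f, hf, hiff⟩ := hC
  obtain ⟨hp, hprod⟩ := (hiff Y).1 hCY
  obtain ⟨K₂, _, _, hK2⟩ := hp 2 (by norm_num) h2
  obtain ⟨K₃, _, _, hK3⟩ := hp 3 (by norm_num) h3
  have hall := key_two (hf 2) hK2 hP (hprod 2 (by norm_num) ⟨K₂, _, inferInstance, hK2⟩) hu hg hne
  rintro G _ _ ⟨R, hR⟩
  rw [hiff G]
  refine ⟨?_, ?_⟩
  · intro p hp' hd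
    rcases hR.prime hp' hd with h | h
    · subst h; exact ⟨K₂, _, inferInstance, hK2⟩
    · subst h; exact ⟨K₃, _, inferInstance, hK3⟩
  · rintro p hp' _ N hN ⟨hN1, hN2⟩
    by_cases hp2 : p = 2
    · subst hp2
      have hR3 : IsPGroup 3 R := by
        rintro ⟨x, hx⟩
        obtain ⟨n, hn⟩ := hR.p3 x hx
        exact ⟨n, Subtype.ext (by simpa using hn)⟩
      have hRN : R ≤ N := hN2 R hR.nrm (hall R hR3)
      refine ⟨⊤, inferInstance, ?_, ?_⟩
      · rintro ⟨x, _⟩
        induction x using QuotientGroup.induction_on with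
        | H x =>
          obtain ⟨n, hn⟩ := hR.q2 x
          refine ⟨n, Subtype.ext ?_⟩
          change (QuotientGroup.mk x : G ⧸ N) ^ 2 ^ n = 1
          rw [← QuotientGroup.mk_pow, QuotientGroup.eq_one_iff]
          exact hRN hn
      · rw [Subgroup.index_top]; norm_num
    · exact NpE_of_Str (FC_quot hR N) hp' hp2

end Pool.Agent.Helper218.LF
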