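import Pool.Agent.Helper218.LF2

set_option autoImplicit false
set_option linter.all false

namespace Pool.Agent.Helper218.LF

open Subgroup Pool.Agent.Helper218 Pool.Agent.Helper218.PG

open scoped commutatorElement

/-- the sign as an element of the field with three elements -/
def sg : ℤˣ →* ZMod 3 := (Int.castRingHom (ZMod 3)).toMonoidHom.comp (Units.coeHom ℤ)

lemma sg_inv (t : ℤˣ) : sg t⁻¹ = sg t := by rw [Int.units_inv_eq_self]

lemma sg_sq (t : ℤˣ) : sg t * sg t = 1 := by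
  rw [← map_mul, Int.units_mul_self, map_one]

/-- the symmetric group of degree three -/
@[ext] structure S3 where
  t : ℤˣ
  a : ZMod 3

instance : Mul S3 := ⟨fun x y => ⟨x.t * y.t, x.a + sg x.t * y.a⟩⟩
instance : One S3 := ⟨⟨1, 0⟩⟩
instance : Inv S3 := ⟨fun x => ⟨x.t⁻¹, -(sg x.t * x.a)⟩⟩

@[simp] lemma S3_mul_t (x y : S3) : (x * y).t = x.t * y.t := rfl
@[simp] lemma S3_mul_a (x y : S3) : (x * y).a = x.a + sg x.t * y.a := rfl
@[simp] lemma S3_one_t : (1 : S3).t = 1 := rfl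
@[simp] lemma S3_one_a : (1 : S3).a = 0 := rfl
@[simp] lemma S3_inv_t (x : S3) : (x⁻¹).t = x.t⁻¹ := rfl
@[simp] lemma S3_inv_a (x : S3) : (x⁻¹).a = -(sg x.t * x.a) := rfl

instance : Group S3 := Group.ofLeftAxioms
  (by
    intro x y z; ext
    · simp [mul_assoc]
    · simp only [S3_mul_a, S3_mul_t, map_mul]; ring)
  (by intro x; ext <;> simp)
  (by
    intro x; ext
    · simp
    · simp only [S3_mul_a, S3_inv_a, S3_inv_t, sg_inv, S3_one_a]; ring)

instance : Finite S3 := Finite.of_injective (fun x : S3 => (x.t, x.a)) (by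
    intro x y h
    simp only [Prod.mk.injEq] at h
    exact S3.ext h.1 h.2)

/-- the sign map -/
def S3.proj : S3 →* ℤˣ where
  toFun := S3.t
  map_one' := rfl
  map_mul' _ _ := rfl

lemma S3_pow {u : S3} (hu : u.t = 1) (n : ℕ) : (u ^ n).t = 1 ∧ (u ^ n).a = n * u.a := by
  induction n with
  | zero => simp
  | succ n ih =>
    rw [pow_succ]
    refine ⟨by simp [ih.1, hu], ?_⟩
    rw [S3_mul_a, ih.2, ih.1, map_one]
    push_cast
    ring

lemma S3_str : Str S3.proj.ker := by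
  refine ⟨inferInstance, ?_, ?_⟩
  · intro u hu
    refine ⟨1, ?_⟩
    obtain ⟨h1, h2⟩ := S3_pow (u := u) hu (3 ^ 1)
    refine S3.ext h1 ?_
    rw [h2]
    have : ((3 ^ 1 : ℕ) : ZMod 3) = 0 := by decide
    rw [this, zero_mul]
    rfl
  · intro g
    refine ⟨1, ?_⟩
    rw [MonoidHom.mem_ker, map_pow, pow_one, Int.units_sq]

/-- the generators -/
def S3.u : S3 := ⟨1, 1⟩
/-- the generators -/
def S3.g : S3 := ⟨-1, 0⟩

lemma sg_neg : sg (-1) = -1 := by decide

lemma S3_comm : ⁅S3.u, S3.g⁆ ≠ 1 := by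
  intro h
  have h1 := congrArg S3.a h
  simp only [commutatorElement_def, S3_mul_a, S3_inv_a, S3_mul_t, S3_inv_t, S3.u, S3.g, map_one,
    S3_one_a, sg_neg, mul_one, one_mul] at h1
  revert h1
  decide

lemma S3_gpow : S3.g ^ (2 ^ 1) = 1 := by
  rw [pow_one, pow_two]
  apply S3.ext
  · simp [S3.g]
  · simp [S3.g]

lemma S3_card : Nat.card S3 = 6 := by
  have e : S3 ≃ ℤˣ × ZMod 3 :=
    { toFun := fun x => (x.t, x.a)
      invFun := fun x => ⟨x.1, x.2⟩
      left_inv := fun x => rfl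
      right_inv := fun x => rfl }
  rw [Nat.card_congr e, Nat.card_prod, Nat.card_zmod, Nat.card_eq_fintype_card,
    Fintype.card_units_int]

/-- the extraspecial group of order `27` extended by an involution -/
@[ext] structure X3 where
  t : ℤˣ
  a : ZMod 3
  b : ZMod 3
  c : ZMod 3

instance : Mul X3 := ⟨fun x y => ⟨x.t * y.t, x.a + sg x.t * y.a, x.b + sg x.t * y.b,
  x.c + y.c + x.a * (sg x.t * y.b)⟩⟩
instance : One X3 := ⟨⟨1, 0, 0, 0⟩⟩
instance : Inv X3 := ⟨fun x => ⟨x.t⁻¹, -(sg x.t * x.a), -(sg x.t * x.b), -x.c + x.a * x.b⟩⟩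

@[simp] lemma X3_mul_t (x y : X3) : (x * y).t = x.t * y.t := rfl
@[simp] lemma X3_mul_a (x y : X3) : (x * y).a = x.a + sg x.t * y.a := rfl
@[simp] lemma X3_mul_b (x y : X3) : (x * y).b = x.b + sg x.t * y.b := rfl
@[simp] lemma X3_mul_c (x y : X3) : (x * y).c = x.c + y.c + x.a * (sg x.t * y.b) := rfl
@[simp] lemma X3_one_t : (1 : X3).t = 1 := rfl
@[simp] lemma X3_one_a : (1 : X3).a = 0 := rfl
@[simp] lemma X3_one_b : (1 : X3).b = 0 := rfl
@[simp] lemma X3_one_c : (1 : X3).c = 0 := rfl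
@[simp] lemma X3_inv_t (x : X3) : (x⁻¹).t = x.t⁻¹ := rfl
@[simp] lemma X3_inv_a (x : X3) : (x⁻¹).a = -(sg x.t * x.a) := rfl
@[simp] lemma X3_inv_b (x : X3) : (x⁻¹).b = -(sg x.t * x.b) := rfl
@[simp] lemma X3_inv_c (x : X3) : (x⁻¹).c = -x.c + x.a * x.b := rfl

instance : Group X3 := Group.ofLeftAxioms
  (by
    intro x y z; ext
    · simp [mul_assoc]
    · simp only [X3_mul_a, X3_mul_t, map_mul]; ring
    · simp only [X3_mul_b, X3_mul_t, map_mul]; ring
    · simp only [X3_mul_c, X3_mul_b, X3_mul_a, X3_mul_t, map_mul]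
      linear_combination (y.a * sg y.t * z.b) * sg_sq x.t)
  (by intro x; ext <;> simp)
  (by
    intro x; ext
    · simp
    · simp only [X3_mul_a, X3_inv_a, X3_inv_t, sg_inv, X3_one_a]; ring
    · simp only [X3_mul_b, X3_inv_b, X3_inv_t, sg_inv, X3_one_b]; ring
    · simp only [X3_mul_c, X3_inv_c, X3_inv_a, X3_inv_t, sg_inv, X3_one_c]
      linear_combination (-(x.a * x.b)) * sg_sq x.t)

instance : Finite X3 := Finite.of_injective (fun x : X3 => (x.t, x.a, x.b, x.c)) (by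
    intro x y h
    simp only [Prod.mk.injEq] at h
    exact X3.ext h.1 h.2.1 h.2.2.1 h.2.2.2)

/-- the sign map -/
def X3.proj : X3 →* ℤˣ where
  toFun := X3.t
  map_one' := rfl
  map_mul' _ _ := rfl

lemma X3_pow {u : X3} (hu : u.t = 1) (n : ℕ) : (u ^ n).t = 1 ∧ (u ^ n).a = n * u.a ∧
    (u ^ n).b = n * u.b := by
  induction n with
  | zero => simp
  | succ n ih =>
    rw [pow_succ]
    refine ⟨by simp [ih.1, hu], ?_, ?_⟩
    · rw [X3_mul_a, ih.2.1, ih.1, map_one]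
      push_cast
      ring
    · rw [X3_mul_b, ih.2.2, ih.1, map_one]
      push_cast
      ring

lemma X3_powZ (c : ZMod 3) (n : ℕ) : (⟨1, 0, 0, c⟩ : X3) ^ n = ⟨1, 0, 0, n * c⟩ := by
  induction n with
  | zero => simp; rfl
  | succ n ih =>
    rw [pow_succ, ih]
    ext
    · simp
    · simp
    · simp
    · simp; ring

lemma X3_str : Str X3.proj.ker := by
  refine ⟨inferInstance, ?_, ?_⟩
  · intro u hu
    refine ⟨2, ?_⟩
    have h0 : ((3 : ℕ) : ZMod 3) = 0 := by decide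
    obtain ⟨h1, h2, h3⟩ := X3_pow (u := u) hu 3
    rw [h0, zero_mul] at h2 h3
    have h4 : u ^ 3 = ⟨1, 0, 0, (u ^ 3).c⟩ := X3.ext h1 h2 h3 rfl
    rw [pow_two, pow_mul, h4, X3_powZ, h0, zero_mul]
    rfl
  · intro g
    refine ⟨1, ?_⟩
    rw [MonoidHom.mem_ker, map_pow, pow_one, Int.units_sq]

/-- the generators -/
def X3.u : X3 := ⟨1, 1, 0, 0⟩
/-- the generators -/
def X3.g : X3 := ⟨-1, 0, 0, 0⟩

lemma X3_comm : ⁅X3.u, X3.g⁆ ≠ 1 := by
  intro h
  have h1 := congrArg X3.a h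
  simp only [commutatorElement_def, X3_mul_a, X3_inv_a, X3_mul_t, X3_inv_t, X3.u, X3.g, map_one,
    X3_one_a, sg_neg, mul_one, one_mul] at h1
  revert h1
  decide

lemma X3_gpow : X3.g ^ (2 ^ 1) = 1 := by
  rw [pow_one, pow_two]
  apply X3.ext <;> simp [X3.g]

lemma X3_card : Nat.card X3 = 54 := by
  have e : X3 ≃ ℤˣ × ZMod 3 × ZMod 3 × ZMod 3 :=
    { toFun := fun x => (x.t, x.a, x.b, x.c)
      invFun := fun x => ⟨x.1, x.2.1, x.2.2.1, x.2.2.2⟩
      left_inv := fun x => rfl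
      right_inv := fun x => rfl }
  rw [Nat.card_congr e, Nat.card_prod, Nat.card_prod, Nat.card_prod, Nat.card_zmod,
    Nat.card_eq_fintype_card, Fintype.card_units_int]

lemma X3_HC : HC X3 := by
  refine ⟨X3.proj.ker, X3_str, ?_⟩
  intro z hz hc g
  have hz1 : z.t = 1 := hz
  have h1 := congrArg X3.c (hc ⟨1, 1, 0, 0⟩ rfl)
  have h2 := congrArg X3.c (hc ⟨1, 0, 1, 0⟩ rfl)
  simp only [X3_mul_c, hz1, map_one, one_mul, zero_add, add_zero, zero_mul, mul_zero, mul_one]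
    at h1 h2
  have hb : z.b = 0 := by linear_combination h1
  have ha : z.a = 0 := by linear_combination -h2
  ext
  · simp [hz1]
  · simp [ha, hz1]
  · simp [hb, hz1]
  · simp [ha, hb, hz1, add_comm]

lemma S3_not_HC : ¬ HC S3 := by
  rintro ⟨P, hP, hc⟩
  have hPeq : ∀ x, x ∈ P ↔ x ∈ S3.proj.ker := fun x => by rw [hP.mem_iff, S3_str.mem_iff]
  have hu : S3.u ∈ P := (hPeq _).2 rfl
  have h1 := hc S3.u hu (by
    intro x hx
    have hx1 : x.t = 1 := (hPeq x).1 hx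
    ext
    · simp [hx1, S3.u]
    · simp [hx1, S3.u, add_comm]) S3.g
  exact S3_comm (comm_eq_one_iff.2 h1.symm)

lemma S3_not_MC : ¬ MC S3 := by
  intro h
  obtain ⟨n, hn⟩ := h S3.g
  have h1 : S3.g = 1 := eq_one_of_pows (a := 2 ^ 1) (b := 3 ^ n)
    (Nat.Coprime.pow 1 n (by norm_num)) S3_gpow hn
  have h2 := congrArg S3.t h1
  exact absurd h2 (by decide)

end Pool.Agent.Helper218.LF
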