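import Pool.Agent.Helper218.Mod4

set_option autoImplicit false
set_option linter.all false

namespace Pool.Agent.Helper218.Lk

/-- classes of groups -/
abbrev Cls := (G : Type) → [Group G] → Prop

/-- Fitting classes of finite soluble groups -/
structure Fit (F : Cls) : Prop where
  sol : ∀ (G : Type) [Group G], F G → Finite G ∧ Group.IsSolvable G
  one : F Unit
  iso : ∀ (G H : Type) [Group G] [Group H], (G ≃* H) → F G → F H
  nrm : ∀ (G : Type) [Group G] (N : Subgroup G), N.Normal → F G → F N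
  prod : ∀ (G : Type) [Group G] [Finite G] (N M : Subgroup G),
    N.Normal → M.Normal → F N → F M → F ↥(N ⊔ M)

/-- the radical -/
def rad (F : Cls) (G : Type) [Group G] : Subgroup G := sSup {N : Subgroup G | N.Normal ∧ F N}

/-- compatibility of the radical with direct products -/
def Lock (F : Cls) : Prop :=
  ∀ (G H : Type) [Group G] [Group H], Finite G → Group.IsSolvable G → Finite H →
    Group.IsSolvable H → rad F (G × H) = (rad F G).prod (rad F H)

/-- the smallest Fitting class containing `F` whose radical is compatible with direct products -/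
def star (F : Cls) : Cls := fun G _ =>
  ∀ Y : Cls, Fit Y → Lock Y → (∀ (H : Type) [Group H], F H → Y H) → Y G

/-- the intersection of all Fitting classes with the same upper star as `F` -/
def lower (F : Cls) : Cls := fun G _ =>
  ∀ Y : Cls, Fit Y → (∀ (H : Type) [Group H], star Y H ↔ star F H) → Y G

/-- all finite soluble groups -/
def Sol : Cls := fun G _ => Finite G ∧ Group.IsSolvable G

/-- intersection of classes -/
def inter (F H : Cls) : Cls := fun G _ => F G ∧ H G

/-- the Lockett condition -/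
def LC (F : Cls) : Prop := ∀ (G : Type) [Group G], (F G ∧ lower Sol G) ↔ lower F G

section basic

variable {F : Cls}

lemma Fit.rad_spec (hF : Fit F) (G : Type) [Group G] [Finite G] :
    (rad F G).Normal ∧ F (rad F G) := by
  let S : Set (Subgroup G) := {N | N.Normal ∧ F N}
  have key : ∀ A : Set (Subgroup G), A.Finite → A ⊆ S → (sSup A).Normal ∧ F ↥(sSup A) := by
    intro A hA
    induction A, hA using Set.Finite.induction_on with
    | empty =>
      intro _
      rw [sSup_empty]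
      refine ⟨inferInstance, hF.iso Unit _ ?_ hF.one⟩
      exact MulEquiv.ofUnique
    | @insert J A _ _ ih =>
      intro hsub
      obtain ⟨h1, h2⟩ := ih (fun s hs => hsub (Set.mem_insert_of_mem _ hs))
      obtain ⟨h3, h4⟩ := hsub (Set.mem_insert J A)
      rw [sSup_insert]
      haveI := h1
      haveI := h3
      exact ⟨inferInstance, hF.prod G J (sSup A) h3 h1 h4 h2⟩
  exact key S (Set.toFinite S) (Set.Subset.refl S)

lemma le_rad {G : Type} [Group G] {N : Subgroup G} (h1 : N.Normal) (h2 : F N) : N ≤ rad F G :=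
  le_sSup ⟨h1, h2⟩

/-- a normal subgroup of `G` inside a member -/
lemma Fit.of_le (hF : Fit F) {G : Type} [Group G] {N M : Subgroup G} (hN : N.Normal)
    (h : N ≤ M) (hM : F M) : F N :=
  hF.iso _ _ (Subgroup.subgroupOfEquivOfLe h) (hF.nrm M (N.subgroupOf M) inferInstance hM)

lemma Fit.mem_of_top (hF : Fit F) {G : Type} [Group G] (h : F (⊤ : Subgroup G)) : F G :=
  hF.iso _ _ Subgroup.topEquiv h

lemma Fit.top (hF : Fit F) {G : Type} [Group G] (h : F G) : F (⊤ : Subgroup G) :=
  hF.iso _ _ Subgroup.topEquiv.symm h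

lemma Fit.rad_top (hF : Fit F) {G : Type} [Group G] (h : F G) : rad F G = ⊤ :=
  top_le_iff.1 (le_rad inferInstance (hF.top h))

lemma Fit.rad_eq_top (hF : Fit F) {G : Type} [Group G] [Finite G] (h : rad F G = ⊤) : F G := by
  have := (hF.rad_spec G).2
  rw [h] at this
  exact hF.mem_of_top this

lemma Fit.rad_iso (hF : Fit F) {G H : Type} [Group G] [Group H] [Finite G] (e : G ≃* H) :
    (rad F G).map e.toMonoidHom ≤ rad F H := by
  obtain ⟨h1, h2⟩ := hF.rad_spec G
  exact le_rad (h1.map e.toMonoidHom e.surjective) (hF.iso _ _ (e.subgroupMap _) h2)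

lemma Fit.rad_aut (hF : Fit F) {G : Type} [Group G] [Finite G] (e : G ≃* G) {x : G}
    (hx : x ∈ rad F G) : e x ∈ rad F G :=
  hF.rad_iso e ⟨x, hx, rfl⟩

/-- radical of a group embedded as a normal subgroup -/
lemma Fit.rad_emb (hF : Fit F) {G H : Type} [Group G] [Group H] [Finite G] [Finite H] (f : H →* G)
    (hf : Function.Injective f) (hn : f.range.Normal) {x : H} : x ∈ rad F H ↔ f x ∈ rad F G := by
  constructor
  · intro hx
    obtain ⟨h1, h2⟩ := hF.rad_spec H
    have h3 : ((rad F H).map f).Normal := by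
      constructor
      rintro _ ⟨y, hy, rfl⟩ g
      let e : H ≃* f.range := MonoidHom.ofInjective hf
      let θ : H ≃* H := (e.trans (MulAut.conjNormal g : MulAut f.range)).trans e.symm
      refine ⟨θ y, hF.rad_aut θ hy, ?_⟩
      have h4 : e (θ y) = (MulAut.conjNormal g : MulAut f.range) (e y) := by
        simp [θ]
      have h5 : ((e (θ y) : f.range) : G) = f (θ y) := rfl
      rw [← h5, h4, MulAut.conjNormal_apply]
      rfl
    exact le_rad h3 (hF.iso _ _ ((rad F H).equivMapOfInjective f hf) h2) ⟨x, hx, rfl⟩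
  · intro hx
    obtain ⟨h1, h2⟩ := hF.rad_spec G
    have h3 : ((rad F G).comap f).Normal := h1.comap f
    have h4 : F (((rad F G).comap f).map f) := by
      rw [Subgroup.map_comap_eq]
      haveI := h1
      haveI := hn
      exact hF.of_le (M := rad F G) inferInstance inf_le_right h2
    exact le_rad h3 (hF.iso _ _ (((rad F G).comap f).equivMapOfInjective f hf).symm h4) hx

end basic

lemma Fit_Sol : Fit Sol := by
  refine ⟨fun G _ h => h, ⟨inferInstance, inferInstance⟩, ?_, ?_, ?_⟩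
  · rintro G H _ _ e ⟨h1, h2⟩
    haveI := h1
    haveI := h2
    exact ⟨Finite.of_equiv G e.toEquiv, Group.isSolvable_of_surjective (f := e.toMonoidHom) e.surjective⟩
  · rintro G _ N hN ⟨h1, h2⟩
    haveI := h1
    haveI := h2
    exact ⟨inferInstance, inferInstance⟩
  · rintro G _ _ N M hN hM ⟨h1, h2⟩ ⟨h3, h4⟩
    exact ⟨inferInstance, Modu.solv_sup hN h2 h4⟩

lemma Fit.inter {F H : Cls} (hF : Fit F) (hH : Fit H) : Fit (inter F H) := by
  refine ⟨fun G _ h => hF.sol G h.1, ⟨hF.one, hH.one⟩, ?_, ?_, ?_⟩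
  · rintro G K _ _ e ⟨h1, h2⟩
    exact ⟨hF.iso _ _ e h1, hH.iso _ _ e h2⟩
  · rintro G _ N hN ⟨h1, h2⟩
    exact ⟨hF.nrm _ _ hN h1, hH.nrm _ _ hN h2⟩
  · rintro G _ _ N M hN hM ⟨h1, h2⟩ ⟨h3, h4⟩
    exact ⟨hF.prod _ _ _ hN hM h1 h3, hH.prod _ _ _ hN hM h2 h4⟩

/-! ### the class `dag F`, which turns out to be `star F` -/

/-- the class of groups with `(g, g⁻¹)` in the radical of `G × G` -/
def dag (F : Cls) : Cls := fun G _ =>
  Finite G ∧ Group.IsSolvable G ∧ ∀ g : G, ((g, g⁻¹) : G × G) ∈ rad F (G × G)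

lemma solv_prod {G H : Type} [Group G] [Group H] (h1 : Group.IsSolvable G)
    (h2 : Group.IsSolvable H) : Group.IsSolvable (G × H) := by
  haveI := h1; haveI := h2; infer_instance

lemma prodMap_range_normal {G : Type} [Group G] (N : Subgroup G) (hN : N.Normal) :
    (MonoidHom.prodMap N.subtype N.subtype).range.Normal := by
  constructor
  rintro _ ⟨⟨x, y⟩, rfl⟩ ⟨g, h⟩
  exact ⟨(⟨g * x * g⁻¹, hN.conj_mem x x.2 g⟩, ⟨h * y * h⁻¹, hN.conj_mem y y.2 h⟩), rfl⟩

lemma prodMap_inj {G : Type} [Group G] (N : Subgroup G) :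
    Function.Injective (MonoidHom.prodMap N.subtype N.subtype) := by
  rintro ⟨x, y⟩ ⟨x', y'⟩ h
  have h1 := congrArg Prod.fst h
  have h2 := congrArg Prod.snd h
  exact Prod.ext (Subtype.ext h1) (Subtype.ext h2)

/-- for a normal subgroup `N`, membership in `dag F` can be tested in `G × G` -/
lemma dag_normal {F : Cls} (hF : Fit F) {G : Type} [Group G] [Finite G] (hs : Group.IsSolvable G)
    (N : Subgroup G) (hN : N.Normal) :
    dag F N ↔ ∀ g ∈ N, ((g, g⁻¹) : G × G) ∈ rad F (G × G) := by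
  haveI := hs
  constructor
  · rintro ⟨_, _, h⟩ g hg
    exact (hF.rad_emb _ (prodMap_inj N) (prodMap_range_normal N hN)).1 (h ⟨g, hg⟩)
  · intro h
    refine ⟨inferInstance, inferInstance, ?_⟩
    rintro ⟨g, hg⟩
    exact (hF.rad_emb _ (prodMap_inj N) (prodMap_range_normal N hN)).2 (h g hg)

lemma dag_mul {F : Cls} (hF : Fit F) {G : Type} [Group G] [Finite G] {a b : G}
    (ha : ((a, a⁻¹) : G × G) ∈ rad F (G × G)) (hb : ((b, b⁻¹) : G × G) ∈ rad F (G × G)) :
    ((a * b, (a * b)⁻¹) : G × G) ∈ rad F (G × G) := by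
  have hn := (hF.rad_spec (G × G)).1
  have h1 := Subgroup.mul_mem _ (hn.conj_mem _ hb (1, a⁻¹)) ha
  have h2 : ((1, a⁻¹) * (b, b⁻¹) * (1, a⁻¹)⁻¹ * (a, a⁻¹) : G × G) = (b * a, a⁻¹ * b⁻¹) := by
    ext <;> simp
  rw [h2] at h1
  have h3 := hn.conj_mem _ h1 (a, 1)
  have h4 : ((a, 1) * (b * a, a⁻¹ * b⁻¹) * (a, 1)⁻¹ : G × G) = (a * b, a⁻¹ * b⁻¹) := by
    ext <;> simp [mul_assoc]
  rw [h4] at h3
  have h5 := hn.conj_mem _ h3 (1, a)
  have h6 : ((1, a) * (a * b, a⁻¹ * b⁻¹) * (1, a)⁻¹ : G × G) = (a * b, (a * b)⁻¹) := by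
    ext <;> simp [mul_assoc]
  rw [h6] at h5
  exact h5

lemma dag_iso {F : Cls} (hF : Fit F) {G H : Type} [Group G] [Group H] (e : G ≃* H)
    (h : dag F G) : dag F H := by
  obtain ⟨h1, h2, h3⟩ := h
  haveI := h1
  haveI := h2
  refine ⟨Finite.of_equiv G e.toEquiv, Group.isSolvable_of_surjective (f := e.toMonoidHom) e.surjective,
    ?_⟩
  intro h
  have h4 := h3 (e.symm h)
  have h5 := hF.rad_iso (MulEquiv.prodCongr e e) ⟨_, h4, rfl⟩
  have h6 : (MulEquiv.prodCongr e e).toMonoidHom (e.symm h, (e.symm h)⁻¹) = (h, h⁻¹) := by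
    apply Prod.ext
    · exact e.apply_symm_apply h
    · change e (e.symm h)⁻¹ = h⁻¹
      rw [map_inv, e.apply_symm_apply]
  rw [h6] at h5
  exact h5

theorem dag_fit {F : Cls} (hF : Fit F) : Fit (dag F) := by
  refine ⟨fun G _ h => ⟨h.1, h.2.1⟩, ⟨inferInstance, inferInstance, ?_⟩, ?_, ?_, ?_⟩
  · intro g
    have : ((g, g⁻¹) : Unit × Unit) = 1 := rfl
    rw [this]; exact Subgroup.one_mem _
  · rintro G H _ _ e h
    exact dag_iso hF e h
  · rintro G _ N hN ⟨h1, h2, h3⟩
    haveI := h1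
    exact (dag_normal hF h2 N hN).2 (fun g _ => h3 g)
  · rintro G _ _ N M hN hM h1 h2
    -- work inside `N ⊔ M`
    have hs : Group.IsSolvable ↥(N ⊔ M) := Modu.solv_sup hN h1.2.1 h2.2.1
    refine ⟨inferInstance, hs, ?_⟩
    have e1 := (Subgroup.subgroupOfEquivOfLe (le_sup_left : N ≤ N ⊔ M))
    have e2 := (Subgroup.subgroupOfEquivOfLe (le_sup_right : M ≤ N ⊔ M))
    have h3 := (dag_normal hF hs (N.subgroupOf (N ⊔ M)) inferInstance).1 (dag_iso hF e1.symm h1)
    have h4 := (dag_normal hF hs (M.subgroupOf (N ⊔ M)) inferInstance).1 (dag_iso hF e2.symm h2)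
    rintro ⟨g, hg⟩
    obtain ⟨a, ha, b, hb, rfl⟩ := Subgroup.mem_sup_of_normal_right.1 hg
    exact dag_mul hF (h3 ⟨a, le_sup_left (b := M) ha⟩ ha) (h4 ⟨b, le_sup_right (a := N) hb⟩ hb)

/-- the radical of `dag F` -/
lemma mem_rad_dag {F : Cls} (hF : Fit F) {G : Type} [Group G] [Finite G] (hs : Group.IsSolvable G)
    {g : G} : g ∈ rad (dag F) G ↔ ((g, g⁻¹) : G × G) ∈ rad F (G × G) := by
  constructor
  · intro hg
    obtain ⟨h1, h2⟩ := (dag_fit hF).rad_spec G
    exact (dag_normal hF hs _ h1).1 h2 g hg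
  · intro hg
    let S : Subgroup G :=
      { carrier := {g | ((g, g⁻¹) : G × G) ∈ rad F (G × G)}
        one_mem' := by
          change ((1, 1⁻¹) : G × G) ∈ rad F (G × G)
          rw [inv_one]; exact Subgroup.one_mem _
        mul_mem' := fun ha hb => dag_mul hF ha hb
        inv_mem' := by
          intro a ha
          have ha' : ((a, a⁻¹) : G × G) ∈ rad F (G × G) := ha
          exact Subgroup.inv_mem _ ha' }
    have hS : S.Normal := by
      constructor
      intro a ha g
      have := (hF.rad_spec (G × G)).1.conj_mem _ ha (g, g)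
      have h2 : ((g, g) * (a, a⁻¹) * (g, g)⁻¹ : G × G) = (g * a * g⁻¹, (g * a * g⁻¹)⁻¹) := by
        ext <;> simp [mul_assoc]
      rw [h2] at this
      exact this
    exact le_rad hS ((dag_normal hF hs S hS).2 (fun g hg => hg)) hg

end Pool.Agent.Helper218.Lk
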