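import Pool.Agent.Helper218.Lk9

set_option autoImplicit false
set_option linter.all false

namespace Pool.Agent.Helper218.Lk

/-! ### the extraspecial group -/

/-- a group of order 125 and exponent 5 -/
@[ext] structure EE where
  a : ZMod 5
  b : ZMod 5
  c : ZMod 5
  deriving DecidableEq

namespace EE

instance : Mul EE := ⟨fun x y => ⟨x.a + y.a, x.b + y.b, x.c + y.c - x.a * y.b⟩⟩
instance : One EE := ⟨⟨0, 0, 0⟩⟩
instance : Inv EE := ⟨fun x => ⟨-x.a, -x.b, -x.c - x.a * x.b⟩⟩

@[simp] lemma mul_a (x y : EE) : (x * y).a = x.a + y.a := rfl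
@[simp] lemma mul_b (x y : EE) : (x * y).b = x.b + y.b := rfl
@[simp] lemma mul_c (x y : EE) : (x * y).c = x.c + y.c - x.a * y.b := rfl
@[simp] lemma one_a : (1 : EE).a = 0 := rfl
@[simp] lemma one_b : (1 : EE).b = 0 := rfl
@[simp] lemma one_c : (1 : EE).c = 0 := rfl
@[simp] lemma inv_a (x : EE) : (x⁻¹).a = -x.a := rfl
@[simp] lemma inv_b (x : EE) : (x⁻¹).b = -x.b := rfl
@[simp] lemma inv_c (x : EE) : (x⁻¹).c = -x.c - x.a * x.b := rfl

instance : Group EE where
  mul_assoc x y z := by
    ext <;> simp <;> ring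
  one_mul x := by ext <;> simp
  mul_one x := by ext <;> simp
  inv_mul_cancel x := by
    ext
    · simp
    · simp
    · simp; ring

instance : Finite EE := by
  let f : EE → ZMod 5 × ZMod 5 × ZMod 5 := fun x => (x.a, x.b, x.c)
  apply Finite.of_injective f
  rintro ⟨a, b, c⟩ ⟨a', b', c'⟩ h
  simp only [f, Prod.mk.injEq] at h
  obtain ⟨rfl, rfl, rfl⟩ := h
  rfl

lemma pow_a (x : EE) (n : ℕ) : (x ^ n).a = n * x.a := by
  induction n with
  | zero => simp
  | succ n ih => rw [pow_succ, mul_a, ih]; push_cast; ring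

lemma pow_b (x : EE) (n : ℕ) : (x ^ n).b = n * x.b := by
  induction n with
  | zero => simp
  | succ n ih => rw [pow_succ, mul_b, ih]; push_cast; ring

lemma pow5 (x : EE) : x ^ 5 = 1 := by
  obtain ⟨a, b, c⟩ := x
  simp only [pow_succ, pow_zero, one_mul]
  ext
  · simp; ring_nf
    have : (5 : ZMod 5) = 0 := rfl
    rw [this, mul_zero]
  · simp; ring_nf
    have : (5 : ZMod 5) = 0 := rfl
    rw [this, mul_zero]
  · simp; ring_nf
    have h5 : (5 : ZMod 5) = 0 := rfl
    have h10 : (10 : ZMod 5) = 0 := rfl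
    rw [h5, h10]; ring

lemma E5 (x : EE) : Lk.E5 x := ⟨1, by rw [pow_one]; exact pow5 x⟩

end EE

/-! ### the weights -/

/-- the additive-to-multiplicative character -/
def chi (n : ZMod 5) : ZMod 11 := 3 ^ n.val

lemma chi_add : ∀ m n : ZMod 5, chi (m + n) = chi m * chi n := by decide

lemma chi_zero : chi 0 = 1 := rfl

lemma chi_one : chi 1 = 3 := rfl

lemma chi_inj : ∀ n : ZMod 5, chi n = 1 → n = 0 := by decide

lemma chi_three : ∀ n : ZMod 5, chi n = 3 → n = 1 := by decide

lemma chi_ne : ∀ n : ZMod 5, chi n ≠ 0 := by decide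

/-- thirteen indices -/
inductive Ix where
  | p (j : ZMod 5)
  | q (j : (ZMod 5)ˣ)
  | r (j : (ZMod 5)ˣ)
  deriving DecidableEq

/-- the weight -/
def wt (e : EE) : Ix → ZMod 5
  | .p j => e.c + e.b * j
  | .q j => e.a * j
  | .r j => e.b * j

/-- the shift -/
def sh (e : EE) : Ix → Ix
  | .p j => .p (j - e.a)
  | .q j => .q j
  | .r j => .r j

lemma wt_mul (e e' : EE) (i : Ix) : wt (e * e') i = wt e i + wt e' (sh e i) := by
  cases i <;> simp [wt, sh] <;> ring

lemma sh_mul (e e' : EE) (i : Ix) : sh (e * e') i = sh e' (sh e i) := by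
  cases i <;> simp [sh]
  ring

lemma wt_one (i : Ix) : wt 1 i = 0 := by
  cases i <;> simp [wt]

lemma sh_one (i : Ix) : sh 1 i = i := by
  cases i <;> simp [sh]

/-- the module -/
abbrev UU := Ix → ZMod 11

/-- the monomial action -/
def act (e : EE) (u : UU) : UU := fun i => chi (wt e i) * u (sh e i)

lemma act_one (u : UU) : act 1 u = u := by
  funext i; simp [act, wt_one, sh_one, chi_zero]

lemma act_mul (e e' : EE) (u : UU) : act (e * e') u = act e (act e' u) := by
  funext i
  simp only [act, wt_mul, sh_mul, chi_add]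
  ring

lemma act_add (e : EE) (u v : UU) : act e (u + v) = act e u + act e v := by
  funext i
  simp only [act, Pi.add_apply]
  ring

lemma act_zero (e : EE) : act e 0 = 0 := by
  funext i; simp [act]

lemma act_neg (e : EE) (u : UU) : act e (-u) = -act e u := by
  funext i; simp [act]

/-- the block group -/
@[ext] structure JJ where
  u : UU
  e : EE

namespace JJ

instance : Mul JJ := ⟨fun x y => ⟨x.u + act x.e y.u, x.e * y.e⟩⟩
instance : One JJ := ⟨⟨0, 1⟩⟩
instance : Inv JJ := ⟨fun x => ⟨-act x.e⁻¹ x.u, x.e⁻¹⟩⟩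

@[simp] lemma mul_u (x y : JJ) : (x * y).u = x.u + act x.e y.u := rfl
@[simp] lemma mul_e (x y : JJ) : (x * y).e = x.e * y.e := rfl
@[simp] lemma one_u : (1 : JJ).u = 0 := rfl
@[simp] lemma one_e : (1 : JJ).e = 1 := rfl
@[simp] lemma inv_u (x : JJ) : (x⁻¹).u = -act x.e⁻¹ x.u := rfl
@[simp] lemma inv_e (x : JJ) : (x⁻¹).e = x.e⁻¹ := rfl

instance : Group JJ where
  mul_assoc x y z := by
    apply JJ.ext
    · simp only [mul_u, mul_e, act_mul, act_add, add_assoc]
    · simp only [mul_e, mul_assoc]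
  one_mul x := by
    apply JJ.ext
    · simp [act_one]
    · simp
  mul_one x := by
    apply JJ.ext
    · simp [act_zero]
    · simp
  inv_mul_cancel x := by
    apply JJ.ext
    · simp
    · simp

/-- the projection -/
def pr : JJ →* EE where
  toFun x := x.e
  map_one' := rfl
  map_mul' _ _ := rfl

@[simp] lemma pow_e (x : JJ) (n : ℕ) : (x ^ n).e = x.e ^ n := map_pow pr x n

/-- the embedding of the module -/
def io (v : UU) : JJ := ⟨v, 1⟩

/-- the complement -/
def co : EE →* JJ where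
  toFun e := ⟨0, e⟩
  map_one' := rfl
  map_mul' x y := by
    apply JJ.ext
    · simp [act_zero]
    · rfl

@[simp] lemma io_u (v : UU) : (io v).u = v := rfl
@[simp] lemma io_e (v : UU) : (io v).e = 1 := rfl
@[simp] lemma co_u (e : EE) : (co e).u = 0 := rfl
@[simp] lemma co_e (e : EE) : (co e).e = e := rfl

lemma io_add (v w : UU) : io (v + w) = io v * io w := by
  apply JJ.ext
  · simp [act_one]
  · simp

lemma io_zero : io 0 = 1 := rfl

lemma io_inv (v : UU) : (io v)⁻¹ = io (-v) := by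
  rw [inv_eq_iff_mul_eq_one, ← io_add, add_neg_cancel, io_zero]

lemma io_pow (v : UU) (n : ℕ) : (io v) ^ n = io ((n : ZMod 11) • v) := by
  induction n with
  | zero => simp [io_zero]
  | succ n ih =>
    rw [pow_succ, ih, ← io_add]
    congr 1
    push_cast
    rw [add_smul, one_smul]

lemma io_inj {v w : UU} (h : io v = io w) : v = w := congrArg JJ.u h

lemma eq_io {x : JJ} (h : x.e = 1) : x = io x.u := JJ.ext rfl h

lemma eq_mul (x : JJ) : x = io x.u * co x.e := by
  apply JJ.ext
  · simp [act_zero]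
  · simp

/-- conjugation on the module -/
lemma conj_io (x : JJ) (v : UU) : x * io v * x⁻¹ = io (act x.e v) := by
  rw [mul_inv_eq_iff_eq_mul]
  apply JJ.ext
  · simp [act_one, add_comm]
  · simp

lemma P5_iff (x : JJ) : P5 x ↔ x.e = 1 := by
  constructor
  · intro h
    have h1 : P5 x.e := h.map pr
    exact (EE.E5 x.e).eq_one h1
  · intro h
    rw [eq_io h]
    refine ⟨11, by norm_num, ?_⟩
    rw [io_pow]
    have : ((11 : ℕ) : ZMod 11) = 0 := rfl
    rw [this, zero_smul, io_zero]

lemma E5_ne {x : JJ} (h : E5 x) (h1 : x ≠ 1) : x.e ≠ 1 := by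
  intro h2
  exact h1 (h.eq_one ((P5_iff x).2 h2))

instance : Finite Ix := by
  let f : Ix → ZMod 5 ⊕ ((ZMod 5)ˣ ⊕ (ZMod 5)ˣ) := fun x => match x with
    | .p j => Sum.inl j
    | .q j => Sum.inr (Sum.inl j)
    | .r j => Sum.inr (Sum.inr j)
  apply Finite.of_injective f
  intro x y h
  cases x <;> cases y <;> simp_all [f]

instance : Finite JJ := by
  let f : JJ → UU × EE := fun x => (x.u, x.e)
  apply Finite.of_injective f
  rintro ⟨a, b⟩ ⟨a', b'⟩ h
  simp only [f, Prod.mk.injEq] at h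
  obtain ⟨rfl, rfl⟩ := h
  rfl

end JJ

end Pool.Agent.Helper218.Lk
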