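import Pool.Agent.Helper218.Lk10

set_option autoImplicit false
set_option linter.all false

namespace Pool.Agent.Helper218.Lk

open scoped commutatorElement

/-- assembling a vector -/
def mkU (f : ZMod 5 → ZMod 11) (g h : (ZMod 5)ˣ → ZMod 11) : UU
  | .p j => f j
  | .q j => g j
  | .r j => h j

lemma mkU_add (f f' : ZMod 5 → ZMod 11) (g g' h h' : (ZMod 5)ˣ → ZMod 11) :
    mkU f g h + mkU f' g' h' = mkU (f + f') (g + g') (h + h') := by
  funext i; cases i <;> rfl

lemma mkU_eq (u : UU) : u = mkU (fun j => u (.p j)) 0 0 + mkU 0 (fun j => u (.q j)) 0 +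
    mkU 0 0 (fun j => u (.r j)) := by
  funext i; cases i <;> simp [mkU]

/-- three elements -/
def eX : EE := ⟨1, 0, 0⟩
def eY : EE := ⟨0, 1, 0⟩
def eZ : EE := ⟨0, 0, 1⟩

namespace JJ

lemma comm_io (x : JJ) (v : UU) : io v * x * (io v)⁻¹ * x⁻¹ = io (v - act x.e v) := by
  have h1 := conj_io x (-v)
  rw [← io_inv] at h1
  have : io v * x * (io v)⁻¹ * x⁻¹ = io v * (x * (io v)⁻¹ * x⁻¹) := by group
  rw [this, h1, ← io_add, act_neg, sub_eq_add_neg]

instance : Fact (Nat.Prime 11) := ⟨by norm_num⟩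
instance : Fact (Nat.Prime 5) := ⟨by norm_num⟩

lemma unit_chi (j : (ZMod 5)ˣ) : (1 - chi (j : ZMod 5)) ≠ 0 := by
  intro h
  have h1 := chi_inj j (sub_eq_zero.1 h).symm
  exact j.ne_zero h1

lemma io_mem_p {N : Subgroup JJ} (h : ∀ v, io (v - act eZ v) ∈ N) (f : ZMod 5 → ZMod 11) :
    io (mkU f 0 0) ∈ N := by
  have h1 := h (mkU (fun j => 5 * f j) 0 0)
  have e : mkU (fun j => 5 * f j) 0 0 - act eZ (mkU (fun j => 5 * f j) 0 0) = mkU f 0 0 := by
    funext i
    cases i with
    | p j =>
      simp only [Pi.sub_apply, act, wt, sh, mkU, eZ, zero_mul, add_zero, sub_zero, chi_one]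
      have : 5 * f j - 3 * (5 * f j) = f j - 11 * f j := by ring
      rw [this]
      have h11 : (11 : ZMod 11) = 0 := rfl
      rw [h11, zero_mul, sub_zero]
    | q j => simp [act, wt, sh, mkU]
    | r j => simp [act, wt, sh, mkU]
  rwa [e] at h1

lemma io_mem_q {N : Subgroup JJ} {e : EE} (he : e.a = 1) (h : ∀ v, io (v - act e v) ∈ N)
    (g : (ZMod 5)ˣ → ZMod 11) : io (mkU 0 g 0) ∈ N := by
  have h1 := h (mkU 0 (fun j => (1 - chi (j : ZMod 5))⁻¹ * g j) 0)
  have e : mkU 0 (fun j => (1 - chi (j : ZMod 5))⁻¹ * g j) 0 -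
      act e (mkU 0 (fun j => (1 - chi (j : ZMod 5))⁻¹ * g j) 0) = mkU 0 g 0 := by
    funext i
    cases i with
    | p j => simp [act, wt, sh, mkU]
    | q j =>
      simp only [Pi.sub_apply, act, wt, sh, mkU, he, one_mul]
      have h2 := unit_chi j
      field_simp
    | r j => simp [act, wt, sh, mkU]
  rwa [e] at h1

lemma io_mem_r {N : Subgroup JJ} {e : EE} (he : e.b = 1) (h : ∀ v, io (v - act e v) ∈ N)
    (g : (ZMod 5)ˣ → ZMod 11) : io (mkU 0 0 g) ∈ N := by
  have h1 := h (mkU 0 0 (fun j => (1 - chi (j : ZMod 5))⁻¹ * g j))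
  have e : mkU 0 0 (fun j => (1 - chi (j : ZMod 5))⁻¹ * g j) -
      act e (mkU 0 0 (fun j => (1 - chi (j : ZMod 5))⁻¹ * g j)) = mkU 0 0 g := by
    funext i
    cases i with
    | p j => simp [act, wt, sh, mkU]
    | q j => simp [act, wt, sh, mkU]
    | r j =>
      simp only [Pi.sub_apply, act, wt, sh, mkU, he, one_mul]
      have h2 := unit_chi j
      field_simp
  rwa [e] at h1

lemma io_mem {N : Subgroup JJ} {e e' : EE} (he : e.a = 1) (he' : e'.b = 1)
    (hz : ∀ v, io (v - act eZ v) ∈ N) (h : ∀ v, io (v - act e v) ∈ N)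
    (h' : ∀ v, io (v - act e' v) ∈ N) (v : UU) : io v ∈ N := by
  rw [mkU_eq v, io_add, io_add]
  exact N.mul_mem (N.mul_mem (io_mem_p hz _) (io_mem_q he h _)) (io_mem_r he' h' _)

lemma E5_co (e : EE) : E5 (co e) := (EE.E5 e).map co

theorem gen (N : Subgroup JJ) (h : ∀ x, E5 x → x ∈ N) : N = ⊤ := by
  have h1 : ∀ (e : EE) (v : UU), io (v - act e v) ∈ N := by
    intro e v
    have := comm_io (co e) v
    rw [co_e] at this
    rw [← this]
    exact N.mul_mem (h _ ((E5_co e).conj (io v))) (N.inv_mem (h _ (E5_co e)))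
  rw [eq_top_iff]
  intro x _
  rw [eq_mul x]
  exact N.mul_mem (io_mem (e := eX) (e' := eY) rfl rfl (h1 eZ) (h1 eX) (h1 eY) _) (h _ (E5_co _))

theorem cen (c : JJ) (h : ∀ x, c * x = x * c) : c = 1 := by
  have h1 : ∀ v, act c.e v = v := by
    intro v
    apply io_inj
    rw [← conj_io, h, mul_inv_cancel_right]
  have h2 : ∀ x : JJ, act x.e c.u = c.u := by
    have he : c.e = 1 := by
      have a1 := congrFun (h1 (mkU (fun _ => 1) 0 0)) (.p 0)
      have a2 := congrFun (h1 (mkU (fun _ => 1) 0 0)) (.p 1)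
      have a3 := congrFun (h1 (mkU (fun j => if j = 0 then 1 else 0) 0 0)) (.p 0)
      simp only [act, wt, sh, mkU, mul_zero, add_zero, mul_one, zero_sub] at a1 a2 a3
      have b1 := chi_inj _ a1
      rw [b1, zero_add] at a2
      have b2 := chi_inj _ a2
      have b3 : c.e.a = 0 := by
        by_contra hne
        rw [if_neg (by simpa using hne)] at a3
        simp at a3
      ext
      · exact b3
      · exact b2
      · exact b1
    intro x
    apply io_inj
    rw [← conj_io, ← eq_io he, ← h x, mul_inv_cancel_right]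
  have he : c.e = 1 := by
    have a1 := congrFun (h1 (mkU (fun _ => 1) 0 0)) (.p 0)
    have a2 := congrFun (h1 (mkU (fun _ => 1) 0 0)) (.p 1)
    have a3 := congrFun (h1 (mkU (fun j => if j = 0 then 1 else 0) 0 0)) (.p 0)
    simp only [act, wt, sh, mkU, mul_zero, add_zero, mul_one, zero_sub] at a1 a2 a3
    have b1 := chi_inj _ a1
    rw [b1, zero_add] at a2
    have b2 := chi_inj _ a2
    have b3 : c.e.a = 0 := by
      by_contra hne
      rw [if_neg (by simpa using hne)] at a3
      simp at a3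
    ext
    · exact b3
    · exact b2
    · exact b1
  have hu : c.u = 0 := by
    funext i
    cases i with
    | p j =>
      have := congrFun (h2 (co eZ)) (.p j)
      simp only [act, wt, sh, co_e, eZ, zero_mul, add_zero, sub_zero, chi_one] at this
      have h3 : (2 : ZMod 11) * c.u (.p j) = 0 := by linear_combination this
      rcases mul_eq_zero.1 h3 with h4 | h4
      · exact absurd h4 (by decide)
      · exact h4
    | q j =>
      have := congrFun (h2 (co eX)) (.q j)
      simp only [act, wt, sh, co_e, eX, one_mul] at this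
      have h3 : (1 - chi (j : ZMod 5)) * c.u (.q j) = 0 := by linear_combination -this
      rcases mul_eq_zero.1 h3 with h4 | h4
      · exact absurd h4 (unit_chi j)
      · exact h4
    | r j =>
      have := congrFun (h2 (co eY)) (.r j)
      simp only [act, wt, sh, co_e, eY, one_mul] at this
      have h3 : (1 - chi (j : ZMod 5)) * c.u (.r j) = 0 := by linear_combination -this
      rcases mul_eq_zero.1 h3 with h4 | h4
      · exact absurd h4 (unit_chi j)
      · exact h4
  rw [eq_io he, hu, io_zero]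

theorem com : ∃ a b : JJ, E5 (a⁻¹ * b * a * b⁻¹) ∧ a⁻¹ * b * a * b⁻¹ ≠ 1 := by
  refine ⟨co eX, co eY, ?_, ?_⟩
  · rw [← map_inv, ← map_inv, ← map_mul, ← map_mul, ← map_mul]
    exact E5_co _
  · intro h
    have := congrArg (fun x : JJ => x.e.c) h
    simp [eX, eY] at this

theorem usub : ∃ U : Subgroup JJ, ∀ x, x ∈ U ↔ P5 x :=
  ⟨pr.ker, fun x => by rw [P5_iff]; exact Iff.rfl⟩

/-- the linear operator -/
def LE (e : EE) : Module.End (ZMod 11) UU where
  toFun := act e
  map_add' := act_add e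
  map_smul' := by
    intro c v
    funext i
    simp only [act, Pi.smul_apply, smul_eq_mul, RingHom.id_apply]
    ring

lemma LE_pow (e : EE) (n : ℕ) (v : UU) : ((LE e) ^ n) v = act (e ^ n) v := by
  induction n generalizing v with
  | zero => simp [act_one]
  | succ n ih =>
    rw [pow_succ, Module.End.mul_apply, ih, pow_succ, act_mul]
    rfl

/-- the norm -/
def NE (e : EE) (v : UU) : UU := v + act e v + act (e ^ 2) v + act (e ^ 3) v + act (e ^ 4) v

lemma NE_add (e : EE) (v w : UU) : NE e (v + w) = NE e v + NE e w := by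
  simp only [NE, act_add]; abel

lemma act_NE (e : EE) (v : UU) : act e (NE e v) = NE e v := by
  simp only [NE, act_add, ← act_mul]
  have h1 : e * e = e ^ 2 := (pow_two e).symm
  have h2 : e * e ^ 2 = e ^ 3 := by group
  have h3 : e * e ^ 3 = e ^ 4 := by group
  have h4 : e * e ^ 4 = 1 := by rw [← pow_succ', EE.pow5]
  rw [h1, h2, h3, h4, act_one]
  abel

lemma act_smul (e : EE) (c : ZMod 11) (v : UU) : act e (c • v) = c • act e v := (LE e).map_smul c v

lemma norm_zero {e : EE} {v : UU} (h : NE e v = 0) : ∃ w, NE e w = 0 ∧ v = w - act e w := by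
  refine ⟨(9 : ZMod 11) • ((4 : ZMod 11) • v + (3 : ZMod 11) • act e v +
    (2 : ZMod 11) • act (e ^ 2) v + act (e ^ 3) v), ?_, ?_⟩
  · have h0 : ∀ n, NE e (act (e ^ n) v) = 0 := by
      intro n
      have : NE e (act (e ^ n) v) = act (e ^ n) (NE e v) := by
        simp only [NE, act_add, ← act_mul]
        have h1 : e * e ^ n = e ^ n * e := by rw [← pow_succ', pow_succ]
        have h2 : ∀ m, e ^ m * e ^ n = e ^ n * e ^ m := fun m => by rw [← pow_add, ← pow_add, add_comm]
        rw [h1, h2, h2, h2]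
      rw [this, h, act_zero]
    have hs : ∀ (c : ZMod 11) (w : UU), NE e (c • w) = c • NE e w := by
      intro c w
      simp only [NE, act_smul, smul_add]
    rw [hs, NE_add, NE_add, NE_add, hs, hs, hs, h, h0 2, h0 3]
    have h1 := h0 1
    rw [pow_one] at h1
    rw [h1]; simp
  · have h4 : act (e ^ 4) v = -(v + act e v + act (e ^ 2) v + act (e ^ 3) v) := by
      rw [eq_neg_iff_add_eq_zero, ← h, NE]; abel
    rw [act_smul, act_add, act_add, act_add, act_smul, act_smul, act_smul, ← act_mul, ← act_mul,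
      ← act_mul]
    have h1 : e * e = e ^ 2 := (pow_two e).symm
    have h2 : e * e ^ 2 = e ^ 3 := by group
    have h3 : e * e ^ 3 = e ^ 4 := by group
    rw [h1, h2, h3, h4]
    have : (45 : ZMod 11) = 1 := rfl
    calc v = (45 : ZMod 11) • v := by rw [this, one_smul]
      _ = _ := by module

lemma NE_test {e : EE} (he : e ≠ 1) : ∃ j₀ : ZMod 5, ∀ f : ZMod 5 → ZMod 11,
    NE e (mkU f 0 0) (.p j₀) = 0 → NE e (mkU f 0 0) = 0 := by
  have key : ∀ f : ZMod 5 → ZMod 11, ∀ j, NE e (mkU f 0 0) (.p j) =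
      chi (e.c + e.b * j) * NE e (mkU f 0 0) (.p (j - e.a)) := by
    intro f j
    have := congrFun (act_NE e (mkU f 0 0)) (.p j)
    rw [← this]; rfl
  have hq : ∀ f : ZMod 5 → ZMod 11, (∀ j, NE e (mkU f 0 0) (.p j) = 0) → NE e (mkU f 0 0) = 0 := by
    intro f h
    funext i
    cases i with
    | p j => exact h j
    | q j => simp [NE, act, sh, mkU]
    | r j => simp [NE, act, sh, mkU]
  by_cases ha : e.a = 0
  · by_cases hb : e.b = 0
    · refine ⟨0, fun f _ => hq f ?_⟩
      intro j
      have hc : e.c ≠ 0 := by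
        intro hc
        apply he
        ext
        · exact ha
        · exact hb
        · exact hc
      have := key f j
      rw [ha, hb, zero_mul, add_zero, sub_zero] at this
      by_contra hne
      apply hc
      apply chi_inj
      have h3 : chi e.c * NE e (mkU f 0 0) (.p j) = 1 * NE e (mkU f 0 0) (.p j) := by
        rw [← this, one_mul]
      exact mul_right_cancel₀ hne h3
    · refine ⟨-e.c / e.b, fun f h => hq f ?_⟩
      intro j
      by_cases hj : e.c + e.b * j = 0
      · have : j = -e.c / e.b := by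
          field_simp
          linear_combination hj
        rw [this]; exact h
      · have := key f j
        rw [ha, sub_zero] at this
        by_contra hne
        apply hj
        apply chi_inj
        have h3 : chi (e.c + e.b * j) * NE e (mkU f 0 0) (.p j) = 1 * NE e (mkU f 0 0) (.p j) := by
          rw [← this, one_mul]
        exact mul_right_cancel₀ hne h3
  · refine ⟨0, fun f h => hq f ?_⟩
    have h1 : ∀ n : ℕ, NE e (mkU f 0 0) (.p (n * e.a)) = 0 := by
      intro n
      induction n with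
      | zero => simpa using h
      | succ n ih =>
        rw [key]
        have : ((n + 1 : ℕ) : ZMod 5) * e.a - e.a = n * e.a := by push_cast; ring
        rw [this, ih, mul_zero]
    intro j
    have h2 := h1 (j / e.a).val
    rw [ZMod.natCast_zmod_val, div_mul_cancel₀ _ ha] at h2
    exact h2

theorem ax (g g' : JJ) (h1 : E5 g) (h2 : g ≠ 1) (h3 : E5 g') (h4 : g' ≠ 1) :
    ∃ u u' : JJ, ⁅⁅u, g⁆, g⁆ = ⁅⁅u', g'⁆, g'⁆ ∧ ⁅⁅u, g⁆, g⁆ ≠ 1 := by
  obtain ⟨j, hj⟩ := NE_test (E5_ne h1 h2)
  obtain ⟨j', hj'⟩ := NE_test (E5_ne h3 h4)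
  let Φ : (ZMod 5 → ZMod 11) → ZMod 11 × ZMod 11 := fun f =>
    (NE g.e (mkU f 0 0) (.p j), NE g'.e (mkU f 0 0) (.p j'))
  obtain ⟨f, f', hne, hf⟩ := Fintype.exists_ne_map_eq_of_card_lt Φ (by
    rw [Fintype.card_prod, Fintype.card_fun, ZMod.card, ZMod.card]; norm_num)
  have hsub : ∀ e : EE, NE e (mkU (f - f') 0 0) + NE e (mkU f' 0 0) = NE e (mkU f 0 0) := by
    intro e
    rw [← NE_add, mkU_add]
    simp
  have n1 : NE g.e (mkU (f - f') 0 0) = 0 := by
    apply hj
    have h5 := congrFun (hsub g.e) (.p j)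
    have h6 := congrArg Prod.fst hf
    simp only [Φ] at h6
    rw [Pi.add_apply, h6] at h5
    exact add_eq_right.1 h5
  have n2 : NE g'.e (mkU (f - f') 0 0) = 0 := by
    apply hj'
    have h5 := congrFun (hsub g'.e) (.p j')
    have h6 := congrArg Prod.snd hf
    simp only [Φ] at h6
    rw [Pi.add_apply, h6] at h5
    exact add_eq_right.1 h5
  have key : ∀ (x : JJ) (v : UU), NE x.e v = 0 → ∃ u : JJ, ⁅⁅u, x⁆, x⁆ = io v := by
    intro x v hv
    obtain ⟨w, hw, rfl⟩ := norm_zero hv
    obtain ⟨w', hw', rfl⟩ := norm_zero hw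
    refine ⟨io w', ?_⟩
    rw [commutatorElement_def, commutatorElement_def, comm_io, comm_io]
  obtain ⟨u, hu⟩ := key g _ n1
  obtain ⟨u', hu'⟩ := key g' _ n2
  refine ⟨u, u', by rw [hu, hu'], ?_⟩
  rw [hu]
  intro h
  apply hne
  have h5 := io_inj (h.trans io_zero.symm)
  funext i
  have h6 := congrFun h5 (.p i)
  simp only [mkU, Pi.sub_apply, Pi.zero_apply] at h6
  exact sub_eq_zero.1 h6

end JJ

end Pool.Agent.Helper218.Lk
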