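import Pool.Agent.Helper218.Lk11

set_option autoImplicit false
set_option linter.all false

namespace Pool.Agent.Helper218.Lk

open scoped commutatorElement

lemma EE.add_hom (F : EE → ZMod 5) (hF : ∀ x y, F (x * y) = F x + F y) (e : EE) :
    F e = e.a * F eX + e.b * F eY := by
  have h1 : F 1 = 0 := by
    have := hF 1 1
    rw [one_mul] at this
    exact (add_eq_left.1 this.symm)
  have hpow : ∀ (x : EE) (n : ℕ), F (x ^ n) = n * F x := by
    intro x n
    induction n with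
    | zero => simp [h1]
    | succ n ih => rw [pow_succ, hF, ih]; push_cast; ring
  have ha : ∀ a : ZMod 5, F ⟨a, 0, 0⟩ = a * F eX := by
    intro a
    have h2 : (⟨a, 0, 0⟩ : EE) = eX ^ a.val := by
      ext
      · rw [EE.pow_a, ZMod.natCast_zmod_val]; simp [eX]
      · rw [EE.pow_b]; simp [eX]
      · have : ∀ n : ℕ, (eX ^ n).c = 0 := by
          intro n
          induction n with
          | zero => rfl
          | succ n ih => rw [pow_succ, EE.mul_c, ih]; simp [eX]
        rw [this]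
    rw [h2, hpow, ZMod.natCast_zmod_val]
  have hb : ∀ a : ZMod 5, F ⟨0, a, 0⟩ = a * F eY := by
    intro a
    have h2 : (⟨0, a, 0⟩ : EE) = eY ^ a.val := by
      ext
      · rw [EE.pow_a]; simp [eY]
      · rw [EE.pow_b, ZMod.natCast_zmod_val]; simp [eY]
      · have : ∀ n : ℕ, (eY ^ n).c = 0 ∧ (eY ^ n).a = 0 := by
          intro n
          induction n with
          | zero => exact ⟨rfl, rfl⟩
          | succ n ih => rw [pow_succ, EE.mul_c, EE.mul_a, ih.1, ih.2]; simp [eY]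
        rw [(this _).1]
    rw [h2, hpow, ZMod.natCast_zmod_val]
  have hc : ∀ c : ZMod 5, F ⟨0, 0, c⟩ = 0 := by
    intro c
    have h2 : (⟨-c, 0, 0⟩ : EE) * ⟨0, 1, 0⟩ = ⟨0, 1, 0⟩ * ⟨-c, 0, 0⟩ * ⟨0, 0, c⟩ := by
      ext <;> simp
    have h3 := congrArg F h2
    rw [hF, hF, hF] at h3
    linear_combination -h3
  have h4 : e = ⟨e.a, 0, 0⟩ * ⟨0, e.b, 0⟩ * ⟨0, 0, e.c + e.a * e.b⟩ := by
    ext <;> simp
  rw [h4, hF, hF, ha, hb, hc]
  simp

lemma EE.hom_a (β : EE →* EE) (e : EE) : (β e).a = e.a * (β eX).a + e.b * (β eY).a :=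
  EE.add_hom (fun e => (β e).a) (fun x y => by simp) e

lemma EE.hom_b (β : EE →* EE) (e : EE) : (β e).b = e.a * (β eX).b + e.b * (β eY).b :=
  EE.add_hom (fun e => (β e).b) (fun x y => by simp) e

lemma EE.hom_c (β : EE →* EE) (c : ZMod 5) :
    β ⟨0, 0, c⟩ = ⟨0, 0, c * ((β eX).a * (β eY).b - (β eX).b * (β eY).a)⟩ := by
  have h2 : (⟨0, 0, c⟩ : EE) = (⟨0, 1, 0⟩ * ⟨-c, 0, 0⟩)⁻¹ * (⟨-c, 0, 0⟩ * ⟨0, 1, 0⟩) := by
    ext <;> simp
  have ha := EE.hom_a β ⟨-c, 0, 0⟩
  have hb := EE.hom_b β ⟨-c, 0, 0⟩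
  have ha' : (β ⟨0, 1, 0⟩) = β eY := rfl
  rw [h2, map_mul, map_inv, map_mul, map_mul, ha']
  ext
  · simp
    ring
  · simp
    ring
  · simp [ha, hb]
    ring

namespace JJ

lemma aut_one (α : MulAut JJ) {x : JJ} (h : x.e = 1) : (α x).e = 1 :=
  (P5_iff _).1 (((P5_iff x).2 h).map α.toMonoidHom)

lemma aut_e (α : MulAut JJ) {x y : JJ} (h : x.e = y.e) : (α x).e = (α y).e := by
  have h1 := aut_one α (x := x * y⁻¹) (by rw [mul_e, inv_e, h, mul_inv_cancel])
  rw [map_mul, map_inv, mul_e, inv_e, mul_inv_eq_one] at h1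
  exact h1

/-- the induced endomorphism -/
def bar (α : MulAut JJ) : EE →* EE := pr.comp (α.toMonoidHom.comp co)

lemma bar_e (α : MulAut JJ) (x : JJ) : (α x).e = bar α x.e := aut_e α rfl

lemma bar_mul (α β : MulAut JJ) (e : EE) : bar (α * β) e = bar α (bar β e) := by
  have : bar (α * β) e = (α (β (co e))).e := rfl
  rw [this, bar_e, bar_e]; rfl

lemma bar_one (e : EE) : bar 1 e = e := rfl

/-- the linear map induced on the module -/
def lin (α : MulAut JJ) (v : UU) : UU := (α (io v)).u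

lemma aut_io (α : MulAut JJ) (v : UU) : α (io v) = io (lin α v) :=
  eq_io (aut_one α rfl)

lemma lin_add (α : MulAut JJ) (v w : UU) : lin α (v + w) = lin α v + lin α w := by
  apply io_inj
  rw [← aut_io, io_add, map_mul, aut_io, aut_io, io_add]

lemma lin_smul (α : MulAut JJ) (c : ZMod 11) (v : UU) : lin α (c • v) = c • lin α v := by
  apply io_inj
  have h : (c : ZMod 11) = ((c.val : ℕ) : ZMod 11) := (ZMod.natCast_zmod_val c).symm
  rw [← aut_io, h, ← io_pow, map_pow, aut_io, io_pow]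

lemma lin_act (α : MulAut JJ) (e : EE) (v : UU) : lin α (act e v) = act (bar α e) (lin α v) := by
  apply io_inj
  have h1 := conj_io (co e) v
  rw [co_e] at h1
  rw [← aut_io, ← h1, map_mul, map_mul, map_inv, aut_io, conj_io]
  rfl

lemma lin_ne (α : MulAut JJ) {v : UU} (hv : v ≠ 0) : lin α v ≠ 0 := by
  intro h
  have h1 := aut_io α v
  rw [h, io_zero] at h1
  apply hv
  apply io_inj
  rw [io_zero]
  exact (map_eq_one_iff α α.injective).1 h1

/-! ### the determinant is one -/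

lemma bar_Z (α : MulAut JJ) : bar α eZ = eZ := by
  have h0 : bar α eZ = ⟨0, 0, 1 * ((bar α eX).a * (bar α eY).b - (bar α eX).b * (bar α eY).a)⟩ :=
    EE.hom_c (bar α) 1
  rw [one_mul] at h0
  set d := (bar α eX).a * (bar α eY).b - (bar α eX).b * (bar α eY).a with hd
  -- an eigenvector
  let v : UU := mkU (fun j => 1) 0 0
  have hv : v ≠ 0 := by
    intro h
    have := congrFun h (.p 0)
    simp [v, mkU] at this
  have h1 : act eZ v = (3 : ZMod 11) • v := by
    funext i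
    cases i <;> simp [act, wt, sh, mkU, v, eZ, chi_one]
  have h2 := lin_act α eZ v
  rw [h1, lin_smul, h0] at h2
  have hw := lin_ne α hv
  have hq : ∀ j, lin α v (.q j) = 0 := by
    intro j
    have := congrFun h2 (.q j)
    simp only [act, wt, sh, zero_mul, chi_zero, one_mul, Pi.smul_apply, smul_eq_mul] at this
    have h3 : (2 : ZMod 11) * lin α v (.q j) = 0 := by linear_combination this
    rcases mul_eq_zero.1 h3 with h4 | h4
    · exact absurd h4 (by decide)
    · exact h4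
  have hr : ∀ j, lin α v (.r j) = 0 := by
    intro j
    have := congrFun h2 (.r j)
    simp only [act, wt, sh, zero_mul, chi_zero, one_mul, Pi.smul_apply, smul_eq_mul] at this
    have h3 : (2 : ZMod 11) * lin α v (.r j) = 0 := by linear_combination this
    rcases mul_eq_zero.1 h3 with h4 | h4
    · exact absurd h4 (by decide)
    · exact h4
  obtain ⟨i, hi⟩ := Function.ne_iff.1 hw
  cases i with
  | p j =>
    have := congrFun h2 (.p j)
    simp only [act, wt, sh, zero_mul, add_zero, sub_zero, Pi.smul_apply, smul_eq_mul] at this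
    have h3 := mul_right_cancel₀ hi this
    rw [h0, chi_three _ h3.symm]
    rfl
  | q j => exact absurd (hq j) hi
  | r j => exact absurd (hr j) hi

lemma bar_c (α : MulAut JJ) (c : ZMod 5) : bar α ⟨0, 0, c⟩ = ⟨0, 0, c⟩ := by
  have h1 := bar_Z α
  have h2 : bar α eZ = ⟨0, 0, 1 * ((bar α eX).a * (bar α eY).b - (bar α eX).b * (bar α eY).a)⟩ :=
    EE.hom_c (bar α) 1
  rw [h1] at h2
  have h3 := congrArg EE.c h2
  simp only [eZ, one_mul] at h3
  rw [EE.hom_c, ← h3, mul_one]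

lemma det_one (α : MulAut JJ) :
    (bar α eX).a * (bar α eY).b - (bar α eX).b * (bar α eY).a = 1 := by
  have h1 := bar_Z α
  have h2 : bar α eZ = ⟨0, 0, 1 * ((bar α eX).a * (bar α eY).b - (bar α eX).b * (bar α eY).a)⟩ :=
    EE.hom_c (bar α) 1
  rw [h1] at h2
  have h3 := congrArg EE.c h2
  simp only [eZ, one_mul] at h3
  exact h3.symm

/-! ### the axes are preserved -/

lemma fixZ {w : UU} (h : act eZ w = w) (j : ZMod 5) : w (.p j) = 0 := by
  have := congrFun h (.p j)
  simp only [act, wt, sh, eZ, zero_mul, add_zero, sub_zero, chi_one] at this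
  have h3 : (2 : ZMod 11) * w (.p j) = 0 := by linear_combination this
  rcases mul_eq_zero.1 h3 with h4 | h4
  · exact absurd h4 (by decide)
  · exact h4

lemma axis {e : EE} {w : UU} (hw : w ≠ 0) (h : act eZ w = w) (he : act e w = w) :
    e.a * e.b = 0 := by
  obtain ⟨i, hi⟩ := Function.ne_iff.1 hw
  have h1 := congrFun he i
  cases i with
  | p j => exact absurd (fixZ h j) hi
  | q j =>
    simp only [act, wt, sh] at h1
    have h3 : chi (e.a * j) * w (.q j) = 1 * w (.q j) := by rw [h1, one_mul]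
    have h2 := chi_inj _ (mul_right_cancel₀ hi h3)
    rcases mul_eq_zero.1 h2 with h4 | h4
    · rw [h4, zero_mul]
    · exact absurd h4 j.ne_zero
  | r j =>
    simp only [act, wt, sh] at h1
    have h3 : chi (e.b * j) * w (.r j) = 1 * w (.r j) := by rw [h1, one_mul]
    have h2 := chi_inj _ (mul_right_cancel₀ hi h3)
    rcases mul_eq_zero.1 h2 with h4 | h4
    · rw [h4, mul_zero]
    · exact absurd h4 j.ne_zero

lemma axis_aut (α : MulAut JJ) {e : EE} {v : UU} (hv : v ≠ 0) (h : act eZ v = v)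
    (he : act e v = v) : (bar α e).a * (bar α e).b = 0 := by
  apply axis (lin_ne α hv)
  · have := lin_act α eZ v
    rw [h, bar_Z] at this
    exact this.symm
  · have := lin_act α e v
    rw [he] at this
    exact this.symm

lemma axisX (α : MulAut JJ) : (bar α eX).a * (bar α eX).b = 0 := by
  apply axis_aut α (v := mkU 0 0 (fun _ => 1))
  · intro h
    have := congrFun h (.r 1)
    simp [mkU] at this
  · funext i; cases i <;> simp [act, wt, sh, mkU, eZ, chi_zero]
  · funext i; cases i <;> simp [act, wt, sh, mkU, eX, chi_zero]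

lemma axisY (α : MulAut JJ) : (bar α eY).a * (bar α eY).b = 0 := by
  apply axis_aut α (v := mkU 0 (fun _ => 1) 0)
  · intro h
    have := congrFun h (.q 1)
    simp [mkU] at this
  · funext i; cases i <;> simp [act, wt, sh, mkU, eZ, chi_zero]
  · funext i; cases i <;> simp [act, wt, sh, mkU, eY, chi_zero]

/-! ### matrices -/

/-- the matrix of the action on the top factor -/
def mt (α : MulAut JJ) : ZMod 5 × ZMod 5 × ZMod 5 × ZMod 5 :=
  ((bar α eX).a, (bar α eX).b, (bar α eY).a, (bar α eY).b)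

/-- matrix multiplication -/
def mm (m n : ZMod 5 × ZMod 5 × ZMod 5 × ZMod 5) : ZMod 5 × ZMod 5 × ZMod 5 × ZMod 5 :=
  (n.1 * m.1 + n.2.1 * m.2.2.1, n.1 * m.2.1 + n.2.1 * m.2.2.2,
    n.2.2.1 * m.1 + n.2.2.2 * m.2.2.1, n.2.2.1 * m.2.1 + n.2.2.2 * m.2.2.2)

/-- the eight possible matrices -/
def q8 : List (ZMod 5 × ZMod 5 × ZMod 5 × ZMod 5) :=
  [(1, 0, 0, 1), (2, 0, 0, 3), (3, 0, 0, 2), (4, 0, 0, 4), (0, 1, 4, 0), (0, 2, 2, 0), (0, 3, 3, 0),
    (0, 4, 1, 0)]

lemma mt_mul (α β : MulAut JJ) : mt (α * β) = mm (mt α) (mt β) := by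
  simp only [mt, mm, bar_mul]
  rw [EE.hom_a (bar α) (bar β eX), EE.hom_b (bar α) (bar β eX), EE.hom_a (bar α) (bar β eY),
    EE.hom_b (bar α) (bar β eY)]

lemma mt_one : mt 1 = (1, 0, 0, 1) := rfl

lemma q8_mem1 : ∀ p s : ZMod 5, p * s = 1 → (p, 0, 0, s) ∈ q8 := by decide

lemma q8_mem2 : ∀ q r : ZMod 5, q * r = -1 → (0, q, r, 0) ∈ q8 := by decide

lemma q8_mem (p q r s : ZMod 5) (h1 : p * q = 0) (h2 : r * s = 0) (h3 : p * s - q * r = 1) :
    (p, q, r, s) ∈ q8 := by
  rcases mul_eq_zero.1 h1 with h | h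
  · subst h
    have h4 : q * r = -1 := by linear_combination -h3
    have h5 : r ≠ 0 := by
      rintro rfl
      rw [mul_zero] at h4
      exact absurd h4 (by decide)
    have h6 := (mul_eq_zero.1 h2).resolve_left h5
    subst h6
    exact q8_mem2 q r h4
  · subst h
    have h4 : p * s = 1 := by linear_combination h3
    have h5 : s ≠ 0 := by
      rintro rfl
      rw [mul_zero] at h4
      exact absurd h4 (by decide)
    have h6 := (mul_eq_zero.1 h2).resolve_right h5
    subst h6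
    exact q8_mem1 p s h4

lemma mt_mem (α : MulAut JJ) : mt α ∈ q8 :=
  q8_mem _ _ _ _ (axisX α) (axisY α) (det_one α)

lemma q8_det : ∀ m ∈ q8, m ≠ (1, 0, 0, 1) → (m.1 - 1) * (m.2.2.2 - 1) - m.2.1 * m.2.2.1 ≠ 0 := by
  intro m hm
  simp only [q8, List.mem_cons, List.not_mem_nil, or_false] at hm
  rcases hm with rfl | rfl | rfl | rfl | rfl | rfl | rfl | rfl <;> decide

lemma Tr_iff (α : MulAut JJ) : Tr α ↔ ∀ e, bar α e = e := by
  constructor
  · intro h e
    have h1 := (P5_iff _).1 (h (co e))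
    rw [mul_e, inv_e, co_e, bar_e, co_e, inv_mul_eq_one] at h1
    exact h1.symm
  · intro h x
    rw [P5_iff, mul_e, inv_e, bar_e, h, inv_mul_cancel]

lemma Tr_of_mt {α : MulAut JJ} (hp : P5 α) (h : mt α = (1, 0, 0, 1)) : Tr α := by
  rw [Tr_iff]
  intro e
  simp only [mt, Prod.mk.injEq] at h
  obtain ⟨h1, h2, h3, h4⟩ := h
  set ζ := (bar α e).c - e.c with hζ
  have hb : bar α e = e * ⟨0, 0, ζ⟩ := by
    ext
    · rw [EE.hom_a, h1, h3]; simp
    · rw [EE.hom_b, h2, h4]; simp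
    · simp [hζ]
  have hn : ∀ n : ℕ, bar (α ^ n) e = e * ⟨0, 0, n * ζ⟩ := by
    intro n
    induction n with
    | zero =>
      simp only [pow_zero, Nat.cast_zero, zero_mul]
      have : (⟨0, 0, 0⟩ : EE) = 1 := rfl
      rw [this, mul_one]; rfl
    | succ n ih =>
      rw [pow_succ, bar_mul, hb, map_mul, bar_c, ih, mul_assoc]
      congr 1
      ext <;> simp
      ring
  obtain ⟨m, hm, hα⟩ := hp
  have h5 := hn m
  rw [hα, bar_one] at h5
  have h6 := mul_eq_left.1 h5.symm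
  have h7 : (m : ZMod 5) * ζ = 0 := congrArg EE.c h6
  have h8 : (m : ZMod 5) ≠ 0 := by
    intro h
    rw [ZMod.natCast_eq_zero_iff] at h
    have := Nat.Coprime.eq_one_of_dvd hm h
    norm_num at this
  have h9 := (mul_eq_zero.1 h7).resolve_left h8
  rw [hb, h9]
  exact mul_one e

lemma mt_of_Tr {α : MulAut JJ} (h : Tr α) : mt α = (1, 0, 0, 1) := by
  rw [Tr_iff] at h
  simp only [mt, h]
  rfl

lemma mt_conj (g : JJ) : mt (MulAut.conj g) = (1, 0, 0, 1) := by
  have : ∀ e : EE, bar (MulAut.conj g) e = g.e * e * g.e⁻¹ := fun e => rfl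
  simp only [mt, this]
  simp [eX, eY]

/-! ### normal subgroups -/

theorem full {N : Subgroup JJ} (hN : N.Normal) {x y : JJ} (hx : x ∈ N) (hy : y ∈ N)
    (h : x.e.a * y.e.b - x.e.b * y.e.a ≠ 0) : N = ⊤ := by
  set D := x.e.a * y.e.b - x.e.b * y.e.a with hD
  have s1 : ∀ c : ZMod 5, ∃ w ∈ N, w.e = ⟨0, 0, c⟩ := by
    intro c
    have hp : ∀ n : ℕ, ((x * y * x⁻¹ * y⁻¹) ^ n).e = ⟨0, 0, n * (-D)⟩ := by
      intro n
      induction n with
      | zero => simp; rfl
      | succ n ih =>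
        rw [pow_succ, mul_e, ih]
        ext
        · simp
        · simp
        · simp [hD]; ring
    refine ⟨(x * y * x⁻¹ * y⁻¹) ^ (c / (-D)).val, N.pow_mem (N.mul_mem (N.mul_mem (N.mul_mem hx hy)
      (N.inv_mem hx)) (N.inv_mem hy)) _, ?_⟩
    rw [hp, ZMod.natCast_zmod_val, div_mul_cancel₀ _ (neg_ne_zero.2 h)]
  have s2 : ∀ a b : ZMod 5, ∃ w ∈ N, w.e.a = a ∧ w.e.b = b := by
    intro a b
    refine ⟨x ^ ((a * y.e.b - b * y.e.a) / D).val * y ^ ((x.e.a * b - x.e.b * a) / D).val,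
      N.mul_mem (N.pow_mem hx _) (N.pow_mem hy _), ?_, ?_⟩
    · rw [mul_e, pow_e, pow_e, EE.mul_a, EE.pow_a, EE.pow_a, ZMod.natCast_zmod_val,
        ZMod.natCast_zmod_val]
      field_simp
      rw [hD]; ring
    · rw [mul_e, pow_e, pow_e, EE.mul_b, EE.pow_b, EE.pow_b, ZMod.natCast_zmod_val,
        ZMod.natCast_zmod_val]
      field_simp
      rw [hD]; ring
  have s3 : ∀ e : EE, ∃ w ∈ N, w.e = e := by
    intro e
    obtain ⟨w, hw, ha, hb⟩ := s2 e.a e.b
    obtain ⟨w', hw', hc⟩ := s1 (e.c - w.e.c)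
    refine ⟨w * w', N.mul_mem hw hw', ?_⟩
    rw [mul_e, hc]
    ext
    · simp [ha]
    · simp [hb]
    · simp
  have s4 : ∀ (e : EE) (v : UU), io (v - act e v) ∈ N := by
    intro e v
    obtain ⟨w, hw, he⟩ := s3 e
    rw [← he, ← comm_io]
    exact N.mul_mem (hN.conj_mem w hw _) (N.inv_mem hw)
  have s5 : ∀ v, io v ∈ N := io_mem (e := eX) (e' := eY) rfl rfl (s4 eZ) (s4 eX) (s4 eY)
  rw [eq_top_iff]
  intro g _
  obtain ⟨w, hw, he⟩ := s3 g.e
  have h1 : g * w⁻¹ ∈ N := by
    rw [eq_io (x := g * w⁻¹) (by rw [mul_e, inv_e, he, mul_inv_cancel])]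
    exact s5 _
  have := N.mul_mem h1 hw
  rwa [inv_mul_cancel_right] at this

theorem tight (α : MulAut JJ) (hp : P5 α) :
    Tr α ∨ ∀ N : Subgroup JJ, N.Normal → (∀ x, x⁻¹ * α x ∈ N) → N = ⊤ := by
  by_cases h : mt α = (1, 0, 0, 1)
  · exact Or.inl (Tr_of_mt hp h)
  · right
    intro N hN hx
    have hd := q8_det _ (mt_mem α) h
    apply full hN (hx (co eX)) (hx (co eY))
    simp only [mul_e, inv_e, co_e, bar_e, EE.mul_a, EE.mul_b, EE.inv_a, EE.inv_b]
    intro h0
    apply hd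
    simp only [mt]
    simp only [eX, eY] at h0 ⊢
    linear_combination h0

end JJ

end Pool.Agent.Helper218.Lk
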