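import Pool.Agent.Helper218.Lk12

set_option autoImplicit false
set_option linter.all false

namespace Pool.Agent.Helper218.Lk

open scoped commutatorElement

namespace JJ

/-! ### automorphisms trivial modulo the module -/

lemma sh_inj (e : EE) : Function.Injective (sh e) := by
  intro i k h
  have h1 := congrArg (sh e⁻¹) h
  rw [← sh_mul, ← sh_mul, mul_inv_cancel, sh_one, sh_one] at h1
  exact h1

lemma act_single (e : EE) (i : Ix) (h : sh e i = i) :
    act e (Pi.single i 1) = chi (wt e i) • (Pi.single i 1 : UU) := by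
  funext k
  simp only [act, Pi.smul_apply, smul_eq_mul]
  by_cases hk : k = i
  · subst hk
    rw [h]
  · have h2 : sh e k ≠ i := by
      intro h3
      apply hk
      apply sh_inj e
      rw [h3, h]
    rw [Pi.single_eq_of_ne h2, Pi.single_eq_of_ne hk, mul_zero, mul_zero]

lemma separate (i k : Ix) (h : i ≠ k) : ∃ e : EE, sh e i = i ∧ sh e k = k ∧ wt e i ≠ wt e k := by
  cases i with
  | p j =>
    cases k with
    | p j' =>
      refine ⟨eY, by simp [sh, eY], by simp [sh, eY], ?_⟩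
      simp only [wt, eY, zero_add, one_mul]
      intro h'
      exact h (by rw [h'])
    | q j' =>
      refine ⟨eZ, by simp [sh, eZ], by simp [sh], ?_⟩
      simp [wt, eZ]
    | r j' =>
      refine ⟨eZ, by simp [sh, eZ], by simp [sh], ?_⟩
      simp [wt, eZ]
  | q j =>
    cases k with
    | p j' =>
      refine ⟨eZ, by simp [sh], by simp [sh, eZ], ?_⟩
      simp [wt, eZ]
    | q j' =>
      refine ⟨eX, by simp [sh], by simp [sh], ?_⟩
      simp only [wt, eX, one_mul]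
      intro h'
      exact h (by rw [Units.ext h'])
    | r j' =>
      refine ⟨eX, by simp [sh], by simp [sh], ?_⟩
      simp [wt, eX]
  | r j =>
    cases k with
    | p j' =>
      refine ⟨eZ, by simp [sh], by simp [sh, eZ], ?_⟩
      simp [wt, eZ]
    | q j' =>
      refine ⟨eX, by simp [sh], by simp [sh], ?_⟩
      simp only [wt, eX, zero_mul, one_mul]
      exact fun h' => j'.ne_zero h'.symm
    | r j' =>
      refine ⟨eY, by simp [sh], by simp [sh], ?_⟩
      simp only [wt, eY, one_mul]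
      intro h'
      exact h (by rw [Units.ext h'])

lemma chi_inj' : ∀ m n : ZMod 5, chi m = chi n → m = n := by decide

/-- automorphisms trivial modulo the module act diagonally on it -/
lemma diag (α : MulAut JJ) (h : Tr α) : ∃ l : Ix → ZMod 11, ∀ u, lin α u = l * u := by
  classical
  haveI : Fintype Ix := Fintype.ofFinite Ix
  rw [Tr_iff] at h
  let f : UU →ₗ[ZMod 11] UU :=
    { toFun := lin α
      map_add' := lin_add α
      map_smul' := lin_smul α }
  have hs : ∀ i k, k ≠ i → lin α (Pi.single i 1) k = 0 := by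
    intro i k hk
    obtain ⟨e, h1, h2, h3⟩ := separate k i hk
    have h4 := lin_act α e (Pi.single i 1)
    rw [act_single e i h2, lin_smul, h] at h4
    have h5 := congrFun h4 k
    simp only [act, Pi.smul_apply, smul_eq_mul, h1] at h5
    by_contra hne
    exact h3 (chi_inj' _ _ (mul_right_cancel₀ hne h5).symm)
  refine ⟨fun i => lin α (Pi.single i 1) i, ?_⟩
  intro u
  have h6 : lin α u = ∑ i, u i • lin α (Pi.single i 1) := by
    have h7 : u = ∑ i, u i • (Pi.single i 1 : UU) := by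
      funext k
      rw [Finset.sum_apply]
      simp [Pi.single_apply]
    have h8 : f u = ∑ i, u i • f (Pi.single i 1) := by
      conv_lhs => rw [h7]
      rw [map_sum]
      apply Finset.sum_congr rfl
      intro i _
      rw [map_smul]
    exact h8
  rw [h6]
  funext k
  rw [Finset.sum_apply, Pi.mul_apply, Finset.sum_eq_single k]
  · simp only [Pi.smul_apply, smul_eq_mul]; ring
  · intro i _ hik
    simp only [Pi.smul_apply, smul_eq_mul]
    rw [hs i k (Ne.symm hik), mul_zero]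
  · intro hk
    exact absurd (Finset.mem_univ k) hk

/-- acting by signs -/
def Sg (α : MulAut JJ) : Prop :=
  Tr α ∧ ∃ l : Ix → ZMod 11, (∀ i, l i * l i = 1) ∧ ∀ u, lin α u = l * u

lemma lin_mul (α β : MulAut JJ) (u : UU) : lin (α * β) u = lin α (lin β u) := by
  apply io_inj
  rw [← aut_io, ← aut_io, ← aut_io]; rfl

lemma lin_one (u : UU) : lin 1 u = u := rfl

lemma Sg_one : Sg 1 := by
  refine ⟨?_, 1, by simp, ?_⟩
  · rw [Tr_iff]; intro e; rfl
  · intro u; rw [one_mul]; rfl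

lemma Sg_mul {α β : MulAut JJ} (h : Sg α) (h' : Sg β) : Sg (α * β) := by
  obtain ⟨h1, l, h2, h3⟩ := h
  obtain ⟨h1', l', h2', h3'⟩ := h'
  refine ⟨?_, l * l', ?_, ?_⟩
  · rw [Tr_iff] at h1 h1' ⊢
    intro e
    rw [bar_mul, h1', h1]
  · intro i
    rw [Pi.mul_apply]
    linear_combination (l' i * l' i) * h2 i + h2' i
  · intro u
    rw [lin_mul, h3', h3, mul_assoc]

lemma Sg_inv {α : MulAut JJ} (h : Sg α) : Sg α⁻¹ := by
  obtain ⟨h1, l, h2, h3⟩ := h
  refine ⟨?_, l, h2, ?_⟩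
  · rw [Tr_iff] at h1 ⊢
    intro e
    have h4 := h1 (bar α⁻¹ e)
    rw [← bar_mul, mul_inv_cancel, bar_one] at h4
    exact h4.symm
  · intro u
    have h4 := lin_mul α α⁻¹ u
    rw [mul_inv_cancel, lin_one, h3] at h4
    conv_rhs => rw [h4]
    funext i
    simp only [Pi.mul_apply]
    rw [← mul_assoc, h2, one_mul]

lemma Sg_P5 {α : MulAut JJ} (h : Sg α) : P5 α := by
  obtain ⟨h1, l, h2, h3⟩ := h
  set β := α * α with hβ
  have b1 : ∀ u, β (io u) = io u := by
    intro u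
    rw [aut_io, hβ, lin_mul, h3, h3, ← mul_assoc]
    congr 1
    funext i
    simp only [Pi.mul_apply]
    rw [h2, one_mul]
  rw [Tr_iff] at h1
  have b2 : ∀ x : JJ, ∃ d : UU, β x = io d * x := by
    intro x
    refine ⟨(β x * x⁻¹).u, ?_⟩
    have : (β x * x⁻¹).e = 1 := by
      rw [mul_e, inv_e, bar_e, hβ, bar_mul, h1, h1, mul_inv_cancel]
    rw [← eq_io this, inv_mul_cancel_right]
  have b3 : β ^ 11 = 1 := by
    apply MulEquiv.ext
    intro x
    obtain ⟨d, hd⟩ := b2 x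
    have b4 : ∀ n : ℕ, (β ^ n) x = io ((n : ZMod 11) • d) * x := by
      intro n
      induction n with
      | zero => simp [io_zero]
      | succ n ih =>
        rw [pow_succ', MulAut.mul_apply, ih, map_mul, b1, hd, ← mul_assoc, ← io_add]
        congr 2
        push_cast
        rw [add_smul, one_smul]
    rw [b4]
    have : ((11 : ℕ) : ZMod 11) = 0 := rfl
    rw [this, zero_smul, io_zero, one_mul, MulAut.one_apply]
  refine ⟨22, by norm_num, ?_⟩
  have : (22 : ℕ) = 2 * 11 := by norm_num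
  rw [this, pow_mul, pow_two, ← hβ, b3]

lemma Sg_of {α : MulAut JJ} (hp : P5 α) (ht : Tr α) : Sg α := by
  obtain ⟨l, hl⟩ := diag α ht
  refine ⟨ht, l, ?_, hl⟩
  intro i
  obtain ⟨m, hm, hα⟩ := hp
  have hn : ∀ n : ℕ, ∀ u, lin (α ^ n) u = l ^ n * u := by
    intro n
    induction n with
    | zero => intro u; rw [pow_zero, pow_zero, one_mul]; rfl
    | succ n ih => intro u; rw [pow_succ, lin_mul, hl, ih, pow_succ, mul_assoc]
  have h1 : l i ^ m = 1 := by
    have := hn m 1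
    rw [hα, lin_one, mul_one] at this
    have h2 := congrFun this i
    rw [Pi.pow_apply] at h2
    exact h2.symm
  have hm0 : m ≠ 0 := by
    rintro rfl
    simp at hm
  have hne : l i ≠ 0 := by
    intro h0
    rw [h0, zero_pow hm0] at h1
    exact zero_ne_one h1
  have h2 : l i ^ 10 = 1 := ZMod.pow_card_sub_one_eq_one hne
  have h3 : l i ^ Nat.gcd m 10 = 1 := pow_gcd_eq_one.2 ⟨h1, h2⟩
  have h4 : Nat.gcd m 10 ∣ 2 := by
    have h5 : Nat.gcd m 10 ∣ 5 * 2 := Nat.gcd_dvd_right m 10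
    apply Nat.Coprime.dvd_of_dvd_mul_left _ h5
    exact Nat.Coprime.coprime_dvd_left (Nat.gcd_dvd_left m 10) hm.symm
  obtain ⟨k, hk⟩ := h4
  have h5 : l i ^ 2 = 1 := by rw [hk, pow_mul, h3, one_pow]
  rw [← pow_two]; exact h5

theorem trc (α : MulAut JJ) (h : α ∈ Subgroup.closure {α : MulAut JJ | P5 α ∧ Tr α}) : P5 α := by
  apply Sg_P5
  refine Subgroup.closure_induction (p := fun α _ => Sg α) ?_ Sg_one ?_ ?_ h
  · rintro x ⟨hp, ht⟩
    exact Sg_of hp ht
  · intro a b _ _ ha hb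
    exact Sg_mul ha hb
  · intro a _ ha
    exact Sg_inv ha

theorem f6 (α : MulAut JJ) (hp : P5 α) (ht : ¬ Tr α) (Q : Subgroup JJ) (hQ : Q.Normal)
    (hα : ∀ x ∈ Q, α x ∈ Q)
    (hN : ∀ N ≤ Q, (∀ x ∈ Q, ∀ y ∈ N, x * y * x⁻¹ ∈ N) → (∀ x ∈ Q, x⁻¹ * α x ∈ N) → Q ≤ N) :
    (∀ x ∈ Q, E5 x → x = 1) ∨ Q = ⊤ := by
  have hm : mt α ≠ (1, 0, 0, 1) := fun h => ht (Tr_of_mt hp h)
  have hd := q8_det _ (mt_mem α) hm
  by_cases hQ2 : ∃ x ∈ Q, ∃ y ∈ Q, x.e.a * y.e.b - x.e.b * y.e.a ≠ 0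
  · obtain ⟨x, hx, y, hy, h⟩ := hQ2
    exact Or.inr (full hQ hx hy h)
  left
  push Not at hQ2
  have hcom : ∀ x ∈ Q, ∀ y ∈ Q, x.e * y.e = y.e * x.e := by
    intro x hx y hy
    have := hQ2 x hx y hy
    ext
    · simp [add_comm]
    · simp [add_comm]
    · simp only [EE.mul_c]
      linear_combination -this
  by_contra hcon
  push Not at hcon
  obtain ⟨g, hg, hg5, hg1⟩ := hcon
  have hge := E5_ne hg5 hg1
  -- an element above `eZ`
  have hz : ∃ y ∈ Q, y.e = eZ := by
    by_cases ha : g.e.a = 0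
    · by_cases hb : g.e.b = 0
      · have hc : g.e.c ≠ 0 := by
          intro hc
          apply hge
          ext
          · exact ha
          · exact hb
          · exact hc
        refine ⟨g ^ (g.e.c⁻¹).val, Q.pow_mem hg _, ?_⟩
        have hn : ∀ n : ℕ, (g ^ n).e = ⟨0, 0, n * g.e.c⟩ := by
          intro n
          induction n with
          | zero => simp; rfl
          | succ n ih =>
            rw [pow_succ, mul_e, ih]
            ext
            · simp [ha]
            · simp [hb]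
            · simp; ring
        rw [hn, ZMod.natCast_zmod_val, inv_mul_cancel₀ hc]
        rfl
      · refine ⟨g * co ⟨1 / g.e.b, 0, 0⟩ * g⁻¹ * (co ⟨1 / g.e.b, 0, 0⟩)⁻¹, ?_, ?_⟩
        · have : g * co ⟨1 / g.e.b, 0, 0⟩ * g⁻¹ * (co ⟨1 / g.e.b, 0, 0⟩)⁻¹ =
            g * (co ⟨1 / g.e.b, 0, 0⟩ * g⁻¹ * (co ⟨1 / g.e.b, 0, 0⟩)⁻¹) := by group
          rw [this]
          exact Q.mul_mem hg (hQ.conj_mem _ (Q.inv_mem hg) _)
        · ext
          · simp [eZ]
          · simp [eZ]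
          · simp [eZ, ha]
            field_simp
    · refine ⟨g * co ⟨0, -1 / g.e.a, 0⟩ * g⁻¹ * (co ⟨0, -1 / g.e.a, 0⟩)⁻¹, ?_, ?_⟩
      · have : g * co ⟨0, -1 / g.e.a, 0⟩ * g⁻¹ * (co ⟨0, -1 / g.e.a, 0⟩)⁻¹ =
            g * (co ⟨0, -1 / g.e.a, 0⟩ * g⁻¹ * (co ⟨0, -1 / g.e.a, 0⟩)⁻¹) := by group
        rw [this]
        exact Q.mul_mem hg (hQ.conj_mem _ (Q.inv_mem hg) _)
      · ext
        · simp [eZ]
        · simp [eZ]
        · simp [eZ]
          field_simp
          ring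
  obtain ⟨y, hy, hye⟩ := hz
  have hdQ : ∀ x ∈ Q, x⁻¹ * α x ∈ Q := fun x hx => Q.mul_mem (Q.inv_mem hx) (hα x hx)
  let N : Subgroup JJ :=
    { carrier := {y | y ∈ Q ∧ ∃ x ∈ Q, y.e = (x⁻¹ * α x).e}
      one_mem' := ⟨Q.one_mem, 1, Q.one_mem, by simp⟩
      mul_mem' := by
        rintro y₁ y₂ ⟨h1, x₁, hx₁, he₁⟩ ⟨h2, x₂, hx₂, he₂⟩
        refine ⟨Q.mul_mem h1 h2, x₁ * x₂, Q.mul_mem hx₁ hx₂, ?_⟩
        rw [mul_e, he₁, he₂]
        have h3 := hcom _ (hdQ x₁ hx₁) _ (Q.inv_mem hx₂)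
        have e1 : (x₁ * x₂)⁻¹ * α (x₁ * x₂) = x₂⁻¹ * (x₁⁻¹ * α x₁) * α x₂ := by
          rw [map_mul]; group
        rw [e1, mul_e (x₂⁻¹ * (x₁⁻¹ * α x₁)) (α x₂), mul_e x₂⁻¹ (x₁⁻¹ * α x₁), ← h3,
          mul_e x₂⁻¹ (α x₂), mul_assoc]
      inv_mem' := by
        rintro y₁ ⟨h1, x₁, hx₁, he₁⟩
        refine ⟨Q.inv_mem h1, x₁⁻¹, Q.inv_mem hx₁, ?_⟩
        rw [inv_e, he₁, map_inv, inv_inv, mul_e, inv_e, mul_inv_rev, inv_inv, mul_e, inv_e]
        have h3 := hcom _ hx₁ _ (Q.inv_mem (hα _ hx₁))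
        rw [inv_e] at h3
        exact h3.symm }
  have h1 := hN N (fun x hx => hx.1) (by
    rintro x hx y' ⟨hy', x', hx', he'⟩
    refine ⟨hQ.conj_mem _ hy' x, x', hx', ?_⟩
    rw [← he', mul_e, mul_e, inv_e, hcom x hx y' hy', mul_inv_cancel_right]) (by
    intro x hx
    exact ⟨hdQ x hx, x, hx, rfl⟩)
  obtain ⟨_, x, hx, he⟩ := h1 hy
  rw [hye, mul_e, inv_e, bar_e] at he
  have ha := congrArg EE.a he
  have hb := congrArg EE.b he
  simp only [EE.mul_a, EE.inv_a, EE.mul_b, EE.inv_b, EE.hom_a (bar α) x.e, EE.hom_b (bar α) x.e] at ha hb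
  simp only [mt] at hd
  have ha' : (0 : ZMod 5) = -x.e.a + (x.e.a * (bar α eX).a + x.e.b * (bar α eY).a) := ha
  have hb' : (0 : ZMod 5) = -x.e.b + (x.e.a * (bar α eX).b + x.e.b * (bar α eY).b) := hb
  have x1 : x.e.a = 0 := by
    have : (((bar α eX).a - 1) * ((bar α eY).b - 1) - (bar α eX).b * (bar α eY).a) * x.e.a = 0 := by
      linear_combination (bar α eY).a * hb' - ((bar α eY).b - 1) * ha'
    exact (mul_eq_zero.1 this).resolve_left hd
  have x2 : x.e.b = 0 := by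
    have : (((bar α eX).a - 1) * ((bar α eY).b - 1) - (bar α eX).b * (bar α eY).a) * x.e.b = 0 := by
      linear_combination (bar α eX).b * ha' - ((bar α eX).a - 1) * hb'
    exact (mul_eq_zero.1 this).resolve_left hd
  have x3 : x.e = ⟨0, 0, x.e.c⟩ := by
    ext
    · exact x1
    · exact x2
    · rfl
  rw [x3, bar_c, inv_mul_cancel] at he
  have := congrArg EE.c he
  simp [eZ] at this

theorem bd : BD JJ :=
  { fin := inferInstance
    gen := gen
    cen := cen
    com := com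
    usub := usub
    ax := ax
    tight := tight
    trc := trc
    f6 := f6 }

end JJ

end Pool.Agent.Helper218.Lk
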