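import Pool.Agent.Helper218.Lk13

set_option autoImplicit false
set_option linter.all false

namespace Pool.Agent.Helper218.Lk

open scoped commutatorElement

namespace JJ

/-- a homomorphism from a compatible pair -/
def mkHom (fU : UU → UU) (fE : EE → EE) (h1 : fE 1 = 1) (h0 : fU 0 = 0)
    (h2 : ∀ x y, fE (x * y) = fE x * fE y)
    (h3 : ∀ v w, fU (v + w) = fU v + fU w) (h4 : ∀ e v, fU (act e v) = act (fE e) (fU v)) :
    JJ →* JJ where
  toFun x := ⟨fU x.u, fE x.e⟩
  map_one' := by
    apply JJ.ext
    · exact h0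
    · exact h1
  map_mul' x y := by
    apply JJ.ext
    · simp only [mul_u, h3, h4]
    · simp only [mul_e, h2]

def u2 : (ZMod 5)ˣ := ⟨2, 3, by decide, by decide⟩
def u3 : (ZMod 5)ˣ := ⟨3, 2, by decide, by decide⟩

lemma five : (5 : ZMod 5) = 0 := rfl

/-- the first automorphism on the module -/
def epU (u : UU) : UU
  | .p j => u (.p (3 * j))
  | .q j => u (.q (u2 * j))
  | .r j => u (.r (u3 * j))

def epE (e : EE) : EE := ⟨2 * e.a, 3 * e.b, e.c⟩

def hep : JJ →* JJ := mkHom epU epE
  (by ext <;> simp [epE])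
  (by funext i; cases i <;> rfl)
  (by
    intro x y
    ext
    · simp [epE]; ring
    · simp [epE]; ring
    · simp [epE]
      linear_combination -(x.a * y.b) * five)
  (by intro v w; funext i; cases i <;> rfl)
  (by
    intro e v
    funext i
    cases i with
    | p j =>
      simp only [epU, act, wt, sh, epE]
      congr 1
      · congr 1; ring
      · congr 2
        linear_combination e.a * five
    | q j =>
      simp only [epU, act, wt, sh, epE]
      congr 2
      have : ((u2 * j : (ZMod 5)ˣ) : ZMod 5) = 2 * j := rfl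
      rw [this]; ring
    | r j =>
      simp only [epU, act, wt, sh, epE]
      congr 2
      have : ((u3 * j : (ZMod 5)ˣ) : ZMod 5) = 3 * j := rfl
      rw [this]; ring)

/-- the second automorphism on the module -/
def xiU (u : UU) : UU
  | .p k => 3 * ∑ j : ZMod 5, chi (-(j * k)) * u (.p j)
  | .q j => u (.r j)
  | .r j => u (.q (-j))

def xiE (e : EE) : EE := ⟨e.b, -e.a, e.c + e.a * e.b⟩

def hxi : JJ →* JJ := mkHom xiU xiE
  (by ext <;> simp [xiE])
  (by
    funext i; cases i with
    | p j => simp [xiU]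
    | q j => rfl
    | r j => rfl)
  (by
    intro x y
    ext
    · simp [xiE]
    · simp [xiE]; ring
    · simp [xiE]; ring)
  (by
    intro v w; funext i; cases i with
    | p j =>
      simp only [xiU, Pi.add_apply, mul_add, Finset.sum_add_distrib]
    | q j => rfl
    | r j => rfl)
  (by
    intro e v
    funext i
    cases i with
    | p k =>
      simp only [xiU, act, wt, sh, xiE]
      rw [mul_left_comm (chi _) 3]
      congr 1
      rw [Finset.mul_sum, ← Equiv.sum_comp (Equiv.addRight e.a)]
      apply Finset.sum_congr rfl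
      intro j _
      simp only [Equiv.coe_addRight, add_sub_cancel_right]
      rw [← mul_assoc, ← mul_assoc, ← chi_add, ← chi_add]
      congr 2
      ring
    | q j => rfl
    | r j =>
      simp only [xiU, act, wt, sh, xiE]
      congr 2
      have : ((-j : (ZMod 5)ˣ) : ZMod 5) = -j := rfl
      rw [this]; ring)

/-- the common square -/
def teU (u : UU) : UU
  | .p j => u (.p (-j))
  | .q j => u (.q (-j))
  | .r j => u (.r (-j))

def teE (e : EE) : EE := ⟨-e.a, -e.b, e.c⟩

lemma hep_apply (x : JJ) : hep x = ⟨epU x.u, epE x.e⟩ := rfl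
lemma hxi_apply (x : JJ) : hxi x = ⟨xiU x.u, xiE x.e⟩ := rfl

lemma four : (4 : ZMod 5) = -1 := rfl

lemma ep_ep (x : JJ) : hep (hep x) = ⟨teU x.u, teE x.e⟩ := by
  rw [hep_apply, hep_apply]
  apply JJ.ext
  · funext i
    cases i with
    | p j =>
      simp only [epU, teU]
      congr 2
      linear_combination 2 * j * five
    | q j =>
      simp only [epU, teU]
      congr 2
      apply Units.ext
      have : ((u2 * (u2 * j) : (ZMod 5)ˣ) : ZMod 5) = 2 * (2 * j) := rfl
      rw [this, Units.val_neg]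
      linear_combination j * five
    | r j =>
      simp only [epU, teU]
      congr 2
      apply Units.ext
      have : ((u3 * (u3 * j) : (ZMod 5)ˣ) : ZMod 5) = 3 * (3 * j) := rfl
      rw [this, Units.val_neg]
      linear_combination 2 * j * five
  · ext
    · simp only [epE, teE]; linear_combination x.e.a * five
    · simp only [epE, teE]; linear_combination 2 * x.e.b * five
    · rfl

lemma orth : ∀ m : ZMod 5, ∑ k : ZMod 5, chi (k * m) = if m = 0 then 5 else 0 := by decide

lemma xi_xi (x : JJ) : hxi (hxi x) = ⟨teU x.u, teE x.e⟩ := by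
  rw [hxi_apply, hxi_apply]
  apply JJ.ext
  · funext i
    cases i with
    | p l =>
      simp only [xiU, teU]
      have h1 : ∀ k : ZMod 5, chi (-(k * l)) * (3 * ∑ j : ZMod 5, chi (-(j * k)) * x.u (.p j)) =
          ∑ j : ZMod 5, 3 * (chi (k * (-(l + j))) * x.u (.p j)) := by
        intro k
        rw [mul_left_comm, Finset.mul_sum, Finset.mul_sum]
        apply Finset.sum_congr rfl
        intro j _
        rw [← mul_assoc, ← mul_assoc, mul_assoc 3, ← chi_add, mul_assoc]
        congr 3
        ring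
      simp only [h1]
      rw [Finset.sum_comm]
      have h2 : ∀ j : ZMod 5, ∑ k : ZMod 5, 3 * (chi (k * (-(l + j))) * x.u (.p j)) =
          if j = -l then 15 * x.u (.p j) else 0 := by
        intro j
        rw [← Finset.mul_sum, ← Finset.sum_mul, orth]
        by_cases hj : j = -l
        · rw [if_pos (by rw [hj]; ring), if_pos hj]; ring
        · rw [if_neg (by
            intro h
            apply hj
            linear_combination -h), if_neg hj]; ring
      simp only [h2]
      rw [Finset.sum_ite_eq' Finset.univ (-l)]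
      simp only [Finset.mem_univ, if_true]
      have h3 : (44 : ZMod 11) = 0 := rfl
      linear_combination x.u (.p (-l)) * h3
    | q j => rfl
    | r j => rfl
  · ext
    · rfl
    · rfl
    · simp only [xiE, teE]; ring

lemma te_te (x : JJ) : (⟨teU (teU x.u), teE (teE x.e)⟩ : JJ) = x := by
  apply JJ.ext
  · funext i
    cases i <;> simp [teU]
  · ext <;> simp [teE]

lemma hep_inj : Function.Injective hep := by
  intro x y h
  have h1 : hep (hep x) = hep (hep y) := by rw [h]
  rw [ep_ep, ep_ep] at h1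
  have h2 := congrArg JJ.u h1
  have h3 := congrArg JJ.e h1
  simp only at h2 h3
  rw [← te_te x, ← te_te y, h2, h3]

lemma hxi_inj : Function.Injective hxi := by
  intro x y h
  have h1 : hxi (hxi x) = hxi (hxi y) := by rw [h]
  rw [xi_xi, xi_xi] at h1
  have h2 := congrArg JJ.u h1
  have h3 := congrArg JJ.e h1
  simp only at h2 h3
  rw [← te_te x, ← te_te y, h2, h3]

/-- the automorphism `ε` -/
noncomputable def aE : MulAut JJ := MulEquiv.ofBijective hep (Finite.injective_iff_bijective.1 hep_inj)

/-- the automorphism `ξ` -/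
noncomputable def aX : MulAut JJ := MulEquiv.ofBijective hxi (Finite.injective_iff_bijective.1 hxi_inj)

lemma aE_apply (x : JJ) : aE x = ⟨epU x.u, epE x.e⟩ := rfl
lemma aX_apply (x : JJ) : aX x = ⟨xiU x.u, xiE x.e⟩ := rfl

lemma aE_aE : aE * aE = aX * aX := by
  apply MulEquiv.ext
  intro x
  exact (ep_ep x).trans (xi_xi x).symm

lemma aE4 : (aE * aE) * (aE * aE) = 1 := by
  apply MulEquiv.ext
  intro x
  have : ((aE * aE) * (aE * aE)) x = hep (hep (hep (hep x))) := rfl
  rw [this, ep_ep, ep_ep]
  exact te_te x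

lemma rel : aE * aX * aE = aX := by
  apply MulEquiv.ext
  intro x
  have h0 : (aE * aX * aE) x = aE (aX (aE x)) := rfl
  rw [h0, aE_apply, aX_apply, aE_apply, aX_apply]
  apply JJ.ext
  · funext i
    cases i with
    | p k =>
      simp only [epU, xiU]
      congr 1
      let σ : ZMod 5 ≃ ZMod 5 :=
        { toFun := fun j => 3 * j
          invFun := fun j => 2 * j
          left_inv := by intro j; simp only; linear_combination j * five
          right_inv := by intro j; simp only; linear_combination j * five }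
      rw [← Equiv.sum_comp σ (fun j => chi (-(j * k)) * x.u (.p j))]
      apply Finset.sum_congr rfl
      intro j _
      simp only [σ, Equiv.coe_fn_mk]
      congr 2
      ring
    | q j =>
      simp only [epU, xiU]
      congr 2
      apply Units.ext
      have : ((u3 * (u2 * j) : (ZMod 5)ˣ) : ZMod 5) = 3 * (2 * j) := rfl
      rw [this]
      linear_combination j * five
    | r j =>
      simp only [epU, xiU]
      congr 2
      apply Units.ext
      have : ((u2 * (-(u3 * j)) : (ZMod 5)ˣ) : ZMod 5) = 2 * (-(3 * j)) := rfl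
      rw [this, Units.val_neg]
      linear_combination -j * five
  · ext
    · simp only [epE, xiE]
      linear_combination x.e.b * five
    · simp only [epE, xiE]
      linear_combination -x.e.a * five
    · simp only [epE, xiE]
      linear_combination x.e.a * x.e.b * five

lemma mt_aE : mt aE = (2, 0, 0, 3) := by
  simp only [mt]
  have h1 : bar aE eX = epE eX := rfl
  have h2 : bar aE eY = epE eY := rfl
  rw [h1, h2]
  rfl

lemma mt_aX : mt aX = (0, 4, 1, 0) := by
  simp only [mt]
  have h1 : bar aX eX = xiE eX := rfl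
  have h2 : bar aX eY = xiE eY := rfl
  rw [h1, h2]
  rfl

lemma mt_aE2 : mt (aE * aE) = (4, 0, 0, 4) := by
  rw [mt_mul, mt_aE]; rfl

/-! ### types -/

/-- matrices inverse -/
def adj (m : ZMod 5 × ZMod 5 × ZMod 5 × ZMod 5) : ZMod 5 × ZMod 5 × ZMod 5 × ZMod 5 :=
  (m.2.2.2, -m.2.1, -m.2.2.1, m.1)

lemma adj_of (α : MulAut JJ) : mt α⁻¹ = adj (mt α) := by
  have h1 := mt_mul α α⁻¹
  rw [mul_inv_cancel, mt_one] at h1
  have h2 := mt_mem α
  have h3 := mt_mem α⁻¹
  revert h1 h2 h3
  generalize mt α = m
  generalize mt α⁻¹ = n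
  intro h1 h2 h3
  simp only [q8, List.mem_cons, List.not_mem_nil, or_false] at h2 h3
  rcases h2 with rfl | rfl | rfl | rfl | rfl | rfl | rfl | rfl <;>
  rcases h3 with rfl | rfl | rfl | rfl | rfl | rfl | rfl | rfl <;>
  first | rfl | exact absurd h1 (by decide)

lemma mt_conj' (α β : MulAut JJ) : mt (β * α * β⁻¹) = mm (mm (mt β) (mt α)) (adj (mt β)) := by
  rw [mt_mul, mt_mul, adj_of]

def lM : List (ZMod 5 × ZMod 5 × ZMod 5 × ZMod 5) :=
  [(1, 0, 0, 1), (2, 0, 0, 3), (3, 0, 0, 2), (4, 0, 0, 4)]

def lL : List (ZMod 5 × ZMod 5 × ZMod 5 × ZMod 5) :=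
  [(1, 0, 0, 1), (4, 0, 0, 4), (0, 4, 1, 0), (0, 1, 4, 0)]

def lF : List (ZMod 5 × ZMod 5 × ZMod 5 × ZMod 5) := [(1, 0, 0, 1), (4, 0, 0, 4)]

def TM (α : MulAut JJ) : Prop := mt α ∈ lM
def TL (α : MulAut JJ) : Prop := mt α ∈ lL
def TF (α : MulAut JJ) : Prop := mt α ∈ lF

lemma TM_td : TD TM := by
  refine ⟨?_, ?_, ?_⟩
  · intro α β h1 h2
    simp only [TM, mt_mul, lM, List.mem_cons, List.not_mem_nil, or_false] at h1 h2 ⊢
    rcases h1 with h1 | h1 | h1 | h1 <;> rcases h2 with h2 | h2 | h2 | h2 <;> rw [h1, h2] <;> decide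
  · intro α h
    simp [TM, mt_of_Tr h, lM]
  · intro α β h1
    have h2 := mt_mem β
    simp only [TM, mt_conj', lM, q8, List.mem_cons, List.not_mem_nil, or_false] at h1 h2 ⊢
    rcases h1 with h1 | h1 | h1 | h1 <;>
    rcases h2 with h2 | h2 | h2 | h2 | h2 | h2 | h2 | h2 <;> rw [h1, h2] <;> decide

lemma TL_td : TD TL := by
  refine ⟨?_, ?_, ?_⟩
  · intro α β h1 h2
    simp only [TL, mt_mul, lL, List.mem_cons, List.not_mem_nil, or_false] at h1 h2 ⊢
    rcases h1 with h1 | h1 | h1 | h1 <;> rcases h2 with h2 | h2 | h2 | h2 <;> rw [h1, h2] <;> decide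
  · intro α h
    simp [TL, mt_of_Tr h, lL]
  · intro α β h1
    have h2 := mt_mem β
    simp only [TL, mt_conj', lL, q8, List.mem_cons, List.not_mem_nil, or_false] at h1 h2 ⊢
    rcases h1 with h1 | h1 | h1 | h1 <;>
    rcases h2 with h2 | h2 | h2 | h2 | h2 | h2 | h2 | h2 <;> rw [h1, h2] <;> decide

lemma TF_td : TD TF := by
  refine ⟨?_, ?_, ?_⟩
  · intro α β h1 h2
    simp only [TF, mt_mul, lF, List.mem_cons, List.not_mem_nil, or_false] at h1 h2 ⊢
    rcases h1 with h1 | h1 <;> rcases h2 with h2 | h2 <;> rw [h1, h2] <;> decide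
  · intro α h
    simp [TF, mt_of_Tr h, lF]
  · intro α β h1
    have h2 := mt_mem β
    simp only [TF, mt_conj', lF, q8, List.mem_cons, List.not_mem_nil, or_false] at h1 h2 ⊢
    rcases h1 with h1 | h1 <;>
    rcases h2 with h2 | h2 | h2 | h2 | h2 | h2 | h2 | h2 <;> rw [h1, h2] <;> decide

lemma TF_of (α : MulAut JJ) (h1 : TM α) (h2 : TL α) : TF α := by
  simp only [TM, TL, TF, lM, lL, lF, List.mem_cons, List.not_mem_nil, or_false] at h1 h2 ⊢
  rcases h1 with h1 | h1 | h1 | h1 <;> rcases h2 with h2 | h2 | h2 | h2 <;>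
  first
  | exact Or.inl h1
  | exact Or.inr h1
  | exact absurd (h1.symm.trans h2) (by decide)

lemma TM_of (α : MulAut JJ) (h : TF α) : TM α := by
  simp only [TM, TF, lM, lF, List.mem_cons, List.not_mem_nil, or_false] at h ⊢
  rcases h with h | h
  · exact Or.inl h
  · exact Or.inr (Or.inr (Or.inr h))

lemma TL_of (α : MulAut JJ) (h : TF α) : TL α := by
  simp only [TL, TF, lL, lF, List.mem_cons, List.not_mem_nil, or_false] at h ⊢
  rcases h with h | h
  · exact Or.inl h
  · exact Or.inr (Or.inl h)

open Classical in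
/-- the sign -/
noncomputable def ss (α : MulAut JJ) : ℤˣ := if mt α = (1, 0, 0, 1) then 1 else -1

lemma ss_sd : SD TF ss := by
  refine ⟨?_, ?_, ?_⟩
  · intro α β h1 h2
    simp only [TF, lF, List.mem_cons, List.not_mem_nil, or_false] at h1 h2
    rcases h1 with h1 | h1 <;> rcases h2 with h2 | h2
    · rw [ss, ss, ss, mt_mul, h1, h2, if_pos (by decide), if_pos rfl]; rfl
    · rw [ss, ss, ss, mt_mul, h1, h2, if_neg (by decide), if_pos rfl, if_neg (by decide)]; rfl
    · rw [ss, ss, ss, mt_mul, h1, h2, if_neg (by decide), if_neg (by decide), if_pos rfl]; rfl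
    · rw [ss, ss, ss, mt_mul, h1, h2, if_pos (by decide), if_neg (by decide)]; rfl
  · intro α β h1
    have h2 := mt_mem β
    have h3 : mt (β * α * β⁻¹) = mt α := by
      simp only [TF, mt_conj', lF, q8, List.mem_cons, List.not_mem_nil, or_false] at h1 h2 ⊢
      rcases h1 with h1 | h1 <;>
      rcases h2 with h2 | h2 | h2 | h2 | h2 | h2 | h2 | h2 <;> rw [h1, h2] <;> decide
    rw [ss, ss, h3]
  · intro α h
    rw [ss, if_pos (mt_of_Tr h)]

lemma ss_t : ss (aE * aE) = -1 := by
  rw [ss, mt_aE2, if_neg (by decide)]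

end JJ

end Pool.Agent.Helper218.Lk
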