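import Pool.Agent.Helper218.Lk14

set_option autoImplicit false
set_option linter.all false

namespace Pool.Agent.Helper218.Lk

open scoped commutatorElement

/-! ### solubility -/

lemma EE.solv : Group.IsSolvable EE := by
  let f : Multiplicative (ZMod 5) →* EE :=
    { toFun := fun c => ⟨0, 0, c.toAdd⟩
      map_one' := rfl
      map_mul' := by
        intro x y
        ext <;> simp }
  let g : EE →* Multiplicative (ZMod 5 × ZMod 5) :=
    { toFun := fun e => Multiplicative.ofAdd (e.a, e.b)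
      map_one' := rfl
      map_mul' := by
        intro x y
        rfl }
  refine Group.isSolvable_of_ker_le_range f g ?_
  intro x hx
  have h1 : Multiplicative.ofAdd (x.a, x.b) = 1 := hx
  have h2 : (x.a, x.b) = ((0, 0) : ZMod 5 × ZMod 5) := congrArg Multiplicative.toAdd h1
  simp only [Prod.mk.injEq] at h2
  refine ⟨Multiplicative.ofAdd x.c, ?_⟩
  ext
  · exact h2.1.symm
  · exact h2.2.symm
  · rfl

lemma JJ.solv : Group.IsSolvable JJ := by
  haveI := EE.solv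
  let f : Multiplicative UU →* JJ :=
    { toFun := fun c => JJ.io c.toAdd
      map_one' := rfl
      map_mul' := by
        intro x y
        exact JJ.io_add _ _ }
  refine Group.isSolvable_of_ker_le_range f JJ.pr ?_
  intro x hx
  exact ⟨Multiplicative.ofAdd x.u, (JJ.eq_io hx).symm⟩

instance : Finite (MulAut JJ) := Finite.of_injective (fun α : MulAut JJ => (α : JJ → JJ))
  (fun α β h => MulEquiv.ext (congrFun h))

/-- the holomorph -/
abbrev HH := SemidirectProduct JJ (MulAut JJ) (MonoidHom.id (MulAut JJ))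

instance : Finite HH := Finite.of_equiv _ SemidirectProduct.equivProd.symm

open SemidirectProduct

/-- partial holomorphs -/
def SA (A : Subgroup (MulAut JJ)) : Subgroup HH := A.comap rightHom

/-- the block -/
def RJ : Subgroup HH := (inl : JJ →* HH).range

lemma mem_SA {A : Subgroup (MulAut JJ)} {g : HH} : g ∈ SA A ↔ g.right ∈ A := Iff.rfl

lemma RJ_le (A : Subgroup (MulAut JJ)) : RJ ≤ SA A := by
  rintro _ ⟨x, rfl⟩
  rw [mem_SA, right_inl]
  exact A.one_mem

lemma conj_inl (k : HH) (x : JJ) : k * inl x * k⁻¹ = inl ((MulAut.conj k.left * k.right) x) := by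
  have h1 : k = inl k.left * inr k.right := (inl_left_mul_inr_right k).symm
  have h2 : (inl (k.right x) : HH) = inr k.right * inl x * inr k.right⁻¹ :=
    inl_aut (φ := MonoidHom.id (MulAut JJ)) k.right x
  rw [MulAut.mul_apply, MulAut.conj_apply, map_mul, map_mul, h2, map_inv, map_inv]
  conv_lhs => rw [h1]
  group

/-- the standard identification -/
noncomputable def φ₀ : JJ ≃* RJ := MonoidHom.ofInjective inl_injective

lemma φ₀_apply (x : JJ) : ((φ₀ x : RJ) : HH) = inl x := rfl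

lemma rel₀ (k : HH) : Rel φ₀ k (MulAut.conj k.left * k.right) := by
  intro j
  rw [φ₀_apply, φ₀_apply, conj_inl]

lemma rel_inr (α : MulAut JJ) : Rel φ₀ (inr α : HH) α := by
  have := rel₀ (inr α)
  rw [left_inr, right_inr, map_one, one_mul] at this
  exact this

lemma SA_solv (A : Subgroup (MulAut JJ)) (hA : Group.IsSolvable A) : Group.IsSolvable (SA A) := by
  haveI := JJ.solv
  haveI := hA
  let f : JJ →* SA A := (inl : JJ →* HH).codRestrict (SA A) (fun x => RJ_le A ⟨x, rfl⟩)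
  let g : SA A →* A := (rightHom.comp (SA A).subtype).codRestrict A (fun x => x.2)
  refine Group.isSolvable_of_ker_le_range f g ?_
  intro x hx
  have h1 : (x : HH).right = 1 := congrArg Subtype.val (show g x = 1 from hx)
  refine ⟨(x : HH).left, Subtype.ext ?_⟩
  change inl (x : HH).left = (x : HH)
  conv_rhs => rw [← inl_left_mul_inr_right (x : HH), h1, map_one, mul_one]

lemma K5_conj {G : Type*} [Group G] {M : Subgroup G} {m x : G} (hm : m ∈ M) (hx : x ∈ K5 M) :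
    m * x * m⁻¹ ∈ K5 M := by
  have : K5 M ≤ (K5 M).comap (MulAut.conj m).toMonoidHom := by
    rw [K5, Subgroup.closure_le]
    rintro y ⟨hy, h⟩
    exact mem_K5 (M.mul_mem (M.mul_mem hm hy) (M.inv_mem hm)) (h.conj m)
  exact this hx

/-- the block lies in every subgroup normalised by it and containing the displacement of a proper
automorphism -/
lemma RJ_le_of {α : MulAut JJ} (hp : P5 α) (ht : ¬ Tr α) {N : Subgroup HH}
    (h1 : ∀ s ∈ RJ, ∀ n ∈ N, s * n * s⁻¹ ∈ N) (h2 : (inr α : HH) ∈ N) : RJ ≤ N := by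
  have hr := rel_inr α
  have hn : ∀ x ∈ RJ, (inr α : HH) * x * (inr α)⁻¹ ∈ RJ := by
    rintro _ ⟨x, rfl⟩
    exact ⟨_, (conj_inl _ x).symm⟩
  rcases JJ.bd.tightS φ₀ hn (hp.map inr) with h | h
  · exact absurd (hr.tr.2 h) ht
  · apply h N h1
    intro s hs
    have e : s⁻¹ * (inr α * s * (inr α)⁻¹) = (s⁻¹ * inr α * s⁻¹⁻¹) * (inr α)⁻¹ := by group
    rw [e]
    exact N.mul_mem (h1 _ (RJ.inv_mem hs) _ h2) (N.inv_mem h2)

theorem Fam_SA {T : MulAut JJ → Prop} (hT : TD T) (hin : ∀ g, T (MulAut.conj g))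
    (A : Subgroup (MulAut JJ)) (hA : ∀ α ∈ A, P5 α) (hAT : ∀ α ∈ A, T α)
    (hex : ∃ α ∈ A, ¬ Tr α) : Fam JJ T (K5 (SA A)) {RJ} := by
  have hn : ∀ (k : HH), ∀ x ∈ RJ, k * x * k⁻¹ ∈ RJ := by
    rintro k _ ⟨x, rfl⟩
    exact ⟨_, (conj_inl k x).symm⟩
  refine ⟨?_, ?_, ?_, ?_, ?_, ?_⟩
  · rintro S rfl
    obtain ⟨α, hα, ht⟩ := hex
    apply RJ_le_of (hA α hα) ht
    · intro s hs n hn
      exact K5_conj (RJ_le A hs) hn
    · apply mem_K5
      · rw [mem_SA, right_inr]; exact hα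
      · exact (hA α hα).map inr
  · rintro S rfl k _
    exact hn k
  · rintro S rfl
    exact ⟨φ₀⟩
  · rintro S rfl k hk φ α hα
    have h1 := (rel₀ k).change (ψ := φ)
    rw [hα.unique h1]
    apply hT.conj
    exact hT.mul _ _ (hin _) (hAT _ (mem_SA.1 (K5_le _ hk)))
  · rintro S rfl S' rfl hne
    exact absurd rfl hne
  · intro k hk h5
    rw [sSup_singleton]
    have h1 : E5 k.right := h5.map rightHom
    have h2 := hA _ (mem_SA.1 (K5_le _ hk))
    have h3 := h1.eq_one h2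
    refine ⟨k.left, ?_⟩
    conv_rhs => rw [← inl_left_mul_inr_right k, h3, map_one, mul_one]

theorem XC_SA {T : MulAut JJ → Prop} (hT : TD T) (hin : ∀ g, T (MulAut.conj g))
    (A : Subgroup (MulAut JJ)) (hA : ∀ α ∈ A, P5 α) (hAT : ∀ α ∈ A, T α)
    (hex : ∃ α ∈ A, ¬ Tr α) (hs : Group.IsSolvable A) : XC JJ T (SA A) :=
  (XC_iff _).2 ⟨inferInstance, SA_solv A hs, _, Fam_SA hT hin A hA hAT hex⟩

/-- membership in the lower star, via an automorphism of the square -/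
theorem lower_gen {F : Cls} (hF : Fit F) {H : Type} [Group H] [Finite H] {P Q : Subgroup H}
    (hFP : F P) (hQP : Q ≤ P) (hQn : ∀ p ∈ P, ∀ q ∈ Q, p * q * p⁻¹ ∈ Q) {x : H}
    (hx : ∀ g, g ∈ P ↔ x * g * x⁻¹ ∈ P) {a : H} (ha : a ∈ P)
    (hQ : ∀ R : Subgroup H, (∀ p ∈ P, ∀ n ∈ R, p * n * p⁻¹ ∈ R) → a * (x * a * x⁻¹)⁻¹ ∈ R → Q ≤ R) :
    lower F Q := by
  intro Y hY hs
  have h1 : star Y P := (hs _).2 (le_star hFP)
  obtain ⟨_, _, h2⟩ := (star_iff hY).1 h1
  let Θ : P ≃* P :=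
    { toFun := fun g => ⟨x * g * x⁻¹, (hx g).1 g.2⟩
      invFun := fun g => ⟨x⁻¹ * g * x, (hx _).2 (by
        have : x * (x⁻¹ * (g : H) * x) * x⁻¹ = g := by group
        rw [this]; exact g.2)⟩
      left_inv := by
        intro g
        apply Subtype.ext
        change x⁻¹ * (x * (g : H) * x⁻¹) * x = g
        group
      right_inv := by
        intro g
        apply Subtype.ext
        change x * (x⁻¹ * (g : H) * x) * x⁻¹ = g
        group
      map_mul' := by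
        intro g h
        apply Subtype.ext
        change x * ((g : H) * h) * x⁻¹ = (x * (g : H) * x⁻¹) * (x * (h : H) * x⁻¹)
        group }
  obtain ⟨r1, r2⟩ := hY.rad_spec P
  have h3 : ∀ g : P, g * (Θ g)⁻¹ ∈ rad Y P := by
    intro g
    rw [hY.mem_inr (G := P)]
    have h4 := h2 g
    have h5 := hY.rad_aut (MulEquiv.prodCongr (MulEquiv.refl _) Θ) h4
    have h6 := Subgroup.mul_mem _ (Subgroup.inv_mem _ h4) h5
    have h7 : ((g, g⁻¹) : P × P)⁻¹ * (MulEquiv.prodCongr (MulEquiv.refl _) Θ) (g, g⁻¹) =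
        (1, g * (Θ g)⁻¹) := by
      apply Prod.ext
      · change g⁻¹ * g = 1
        group
      · change (g⁻¹)⁻¹ * Θ g⁻¹ = g * (Θ g)⁻¹
        rw [inv_inv, map_inv]
    rwa [h7] at h6
  have h8 : Q ≤ (rad Y P).map P.subtype := by
    apply hQ
    · rintro p hp _ ⟨n, hn, rfl⟩
      exact ⟨⟨p, hp⟩ * n * ⟨p, hp⟩⁻¹, r1.conj_mem n hn _, rfl⟩
    · exact ⟨⟨a, ha⟩ * (Θ ⟨a, ha⟩)⁻¹, h3 ⟨a, ha⟩, rfl⟩
  have h12 : Q.subgroupOf P ≤ rad Y P := by
    rintro ⟨g, hg⟩ hgB
    obtain ⟨y, hy, hye⟩ := h8 hgB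
    have : y = ⟨g, hg⟩ := Subtype.ext hye
    rw [← this]; exact hy
  have h16 : (Q.subgroupOf P).Normal := by
    constructor
    rintro ⟨n, hn⟩ hnB ⟨g, hg⟩
    exact hQn _ hg _ hnB
  have h17 : Y (Q.subgroupOf P) := hY.of_le h16 h12 r2
  exact hY.iso _ _ (Subgroup.subgroupOfEquivOfLe hQP) h17

theorem lower_SA {F : Cls} (hF : Fit F) {A B : Subgroup (MulAut JJ)} (hFA : F (SA A)) (hBA : B ≤ A)
    (hBn : ∀ a ∈ A, ∀ b ∈ B, a * b * a⁻¹ ∈ B) {t : MulAut JJ} (hB : B ≤ Subgroup.zpowers t)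
    (htp : P5 t) (ht : ¬ Tr t) {ξ : MulAut JJ} (hξ : ∀ a, a ∈ A ↔ ξ * a * ξ⁻¹ ∈ A) {a : MulAut JJ}
    (ha : a ∈ A) (hat : a * (ξ * a * ξ⁻¹)⁻¹ = t) : lower F (SA B) := by
  refine lower_gen (P := SA A) (Q := SA B) (x := (inr ξ : HH)) (a := (inr a : HH)) hF hFA
    (fun g hg => hBA hg) (fun p hp q hq => hBn _ hp _ hq) ?_ ?_ ?_
  · intro g
    exact hξ g.right
  · rw [mem_SA, right_inr]; exact ha
  · intro R hR1 hR2
    rw [← map_inv, ← map_mul, ← map_mul, ← map_inv, ← map_mul, hat] at hR2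
    have h11 : RJ ≤ R := RJ_le_of htp ht (fun s hs => hR1 s (RJ_le A hs)) hR2
    intro g hg
    have h13 : (inl g.left : HH) ∈ R := h11 ⟨_, rfl⟩
    obtain ⟨n, hn⟩ := Subgroup.mem_zpowers_iff.1 (hB (mem_SA.1 hg))
    have h14 : (inr g.right : HH) ∈ R := by
      rw [← hn, map_zpow]
      exact R.zpow_mem hR2 _
    have h15 := R.mul_mem h13 h14
    rwa [inl_left_mul_inr_right] at h15

/-- uniqueness of the family for a subgroup -/
lemma uniq' {J : Type} [Group J] (hJ : BD J) {T : MulAut J → Prop} {G : Type*} [Group G] [Finite G]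
    {N : Subgroup G} {𝒥 𝒦 : Set (Subgroup G)} (F : Fam J T (K5 N) 𝒥) (F' : Fam J T (K5 N) 𝒦) :
    𝒥 = 𝒦 := by
  have e1 : (K5 (⊤ : Subgroup N)).map N.subtype = K5 N := by
    rw [← K5_map N.subtype N.subtype_injective, ← MonoidHom.range_eq_map, Subgroup.range_subtype]
  have hle : K5 N ≤ N.subtype.range := by rw [Subgroup.range_subtype]; exact K5_le N
  have h1 := Fam.comap N.subtype N.subtype_injective hle F
  have h2 := Fam.comap N.subtype N.subtype_injective hle F'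
  rw [← e1, Subgroup.comap_map_eq_self_of_injective N.subtype_injective] at h1 h2
  have h3 := Fam.uniq hJ (K5_normal inferInstance) (K5_gen ⊤) h1 h2
  have hmc : ∀ (𝒜 : Set (Subgroup G)), (∀ S ∈ 𝒜, S ≤ K5 N) →
      (fun S : Subgroup N => S.map N.subtype) '' ((fun S : Subgroup G => S.comap N.subtype) '' 𝒜) = 𝒜 := by
    intro 𝒜 h
    have hmc : ∀ S ∈ 𝒜, (S.comap N.subtype).map N.subtype = S := by
      intro S hS
      rw [Subgroup.map_comap_eq, inf_eq_right.2]
      rw [Subgroup.range_subtype]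
      exact (h S hS).trans (K5_le N)
    rw [Set.image_image]
    ext S
    constructor
    · rintro ⟨S', hS', rfl⟩
      simp only [hmc S' hS']; exact hS'
    · intro hS
      exact ⟨S, hS, hmc S hS⟩
  rw [← hmc 𝒥 F.le, h3, hmc 𝒦 F'.le]

open JJ in
/-- the final conclusion -/
theorem main : ∃ A B : Cls, Fit A ∧ Fit B ∧ LC A ∧ LC B ∧ ¬ LC (inter A B) := by
  set t : MulAut JJ := aE * aE with htdef
  have hinn : ∀ l : List (ZMod 5 × ZMod 5 × ZMod 5 × ZMod 5), (1, 0, 0, 1) ∈ l → ∀ g,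
      mt (MulAut.conj g) ∈ l := by
    intro l hl g; rw [mt_conj]; exact hl
  have hnt : ¬ Tr t := by
    intro h
    have h1 := mt_of_Tr h
    rw [htdef, mt_aE2] at h1
    exact absurd h1 (by decide)
  have ht2 : t * t = 1 := aE4
  have hE4 : aE ^ 4 = 1 := by
    have : aE ^ 4 = t * t := by rw [htdef]; simp only [pow_succ, pow_zero, one_mul, mul_assoc]
    rw [this, ht2]
  have hX4 : aX ^ 4 = 1 := by
    have : aX ^ 4 = t * t := by
      rw [htdef, aE_aE]; simp only [pow_succ, pow_zero, one_mul, mul_assoc]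
    rw [this, ht2]
  have hpz : ∀ x : MulAut JJ, x ^ 4 = 1 → ∀ α ∈ Subgroup.zpowers x, P5 α := by
    intro x hx α hα
    obtain ⟨n, rfl⟩ := Subgroup.mem_zpowers_iff.1 hα
    refine ⟨4, by norm_num, ?_⟩
    rw [← zpow_natCast, ← zpow_mul, mul_comm, zpow_mul, zpow_natCast, hx, one_zpow]
  have hTz : ∀ (T : MulAut JJ → Prop), TD T → ∀ x, x ^ 4 = 1 → T x → ∀ α ∈ Subgroup.zpowers x, T α := by
    intro T hT x hx hTx α hα
    have hpow : ∀ n : ℕ, T (x ^ n) := by
      intro n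
      induction n with
      | zero =>
        rw [pow_zero]
        exact hT.tr _ (by rw [Tr_iff]; intro e; rfl)
      | succ n ih => rw [pow_succ]; exact hT.mul _ _ ih hTx
    have hfin : IsOfFinOrder x := isOfFinOrder_iff_pow_eq_one.2 ⟨4, by norm_num, hx⟩
    obtain ⟨n, hn⟩ := Submonoid.mem_powers_iff _ _ |>.1 (hfin.mem_powers_iff_mem_zpowers.2 hα)
    rw [← hn]
    exact hpow n
  have hcomm : ∀ x : MulAut JJ, Group.IsSolvable (Subgroup.zpowers x) := by
    intro x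
    apply Group.isSolvable_of_comm
    rintro ⟨a, ha⟩ ⟨b, hb⟩
    obtain ⟨n, rfl⟩ := Subgroup.mem_zpowers_iff.1 ha
    obtain ⟨m, rfl⟩ := Subgroup.mem_zpowers_iff.1 hb
    apply Subtype.ext
    change x ^ n * x ^ m = x ^ m * x ^ n
    rw [← zpow_add, ← zpow_add, add_comm]
  have htE : t ∈ Subgroup.zpowers aE := by
    rw [htdef]
    exact Subgroup.mul_mem _ (Subgroup.mem_zpowers aE) (Subgroup.mem_zpowers aE)
  have htX : t ∈ Subgroup.zpowers aX := by
    rw [htdef, aE_aE]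
    exact Subgroup.mul_mem _ (Subgroup.mem_zpowers aX) (Subgroup.mem_zpowers aX)
  have htp : P5 t := hpz aE hE4 t htE
  -- relations
  have hXE : aX * aE * aX⁻¹ = aE⁻¹ := by
    rw [mul_inv_eq_iff_eq_mul, eq_inv_mul_iff_mul_eq, ← mul_assoc]
    exact rel
  have hEX : aE * aX * aE⁻¹ = aX⁻¹ := by
    have h1 : aE * aX = aX * aE⁻¹ := by
      rw [eq_mul_inv_iff_mul_eq]; exact rel
    rw [h1]
    have h2 : aE⁻¹ * aE⁻¹ = aX⁻¹ * aX⁻¹ := by
      rw [← mul_inv_rev, ← mul_inv_rev, aE_aE]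
    rw [mul_assoc, h2, ← mul_assoc, mul_inv_cancel, one_mul]
  have hnorm : ∀ x y : MulAut JJ, x * y * x⁻¹ = y⁻¹ → ∀ a, a ∈ Subgroup.zpowers y ↔
      x * a * x⁻¹ ∈ Subgroup.zpowers y := by
    intro x y hxy a
    have hz : ∀ n : ℤ, x * y ^ n * x⁻¹ = y ^ (-n) := by
      intro n
      rw [← conj_zpow, hxy, inv_zpow, zpow_neg]
    constructor
    · intro h
      obtain ⟨n, rfl⟩ := Subgroup.mem_zpowers_iff.1 h
      rw [hz]
      exact Subgroup.zpow_mem _ (Subgroup.mem_zpowers y) _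
    · intro h
      obtain ⟨n, hn⟩ := Subgroup.mem_zpowers_iff.1 h
      have : a = y ^ (-n) := by
        have h1 : x * a * x⁻¹ = x * y ^ (-n) * x⁻¹ := by rw [hz, neg_neg, hn]
        exact mul_left_cancel (mul_right_cancel h1)
      rw [this]
      exact Subgroup.zpow_mem _ (Subgroup.mem_zpowers y) _
  have hBn : ∀ x : MulAut JJ, t ∈ Subgroup.zpowers x → ∀ a ∈ Subgroup.zpowers x,
      ∀ b ∈ Subgroup.zpowers t, a * b * a⁻¹ ∈ Subgroup.zpowers t := by
    intro x hx a ha b hb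
    have hb' : b ∈ Subgroup.zpowers x := (Subgroup.zpowers_le.2 hx) hb
    obtain ⟨n, rfl⟩ := Subgroup.mem_zpowers_iff.1 ha
    obtain ⟨m, rfl⟩ := Subgroup.mem_zpowers_iff.1 hb'
    rw [← zpow_add, add_comm, zpow_add, mul_inv_cancel_right]
    exact hb
  have hBz : ∀ α ∈ Subgroup.zpowers t, P5 α := by
    apply hpz
    have : t ^ 4 = (t * t) * (t * t) := by simp only [pow_succ, pow_zero, one_mul, mul_assoc]
    rw [this, ht2, one_mul]
  -- the two upper classes
  have M1 : XC JJ TM (SA (Subgroup.zpowers aE)) :=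
    XC_SA TM_td (hinn lM (by decide)) _ (hpz aE hE4)
      (hTz TM TM_td aE hE4 (by rw [TM, mt_aE]; decide)) ⟨t, htE, hnt⟩ (hcomm _)
  have L1 : XC JJ TL (SA (Subgroup.zpowers aX)) :=
    XC_SA TL_td (hinn lL (by decide)) _ (hpz aX hX4)
      (hTz TL TL_td aX hX4 (by rw [TL, mt_aX]; decide)) ⟨t, htX, hnt⟩ (hcomm _)
  have g1 : lower (XC JJ TM) (SA (Subgroup.zpowers t)) := by
    refine lower_SA (XC_fit bd TM_td) M1 (Subgroup.zpowers_le.2 htE) (hBn aE htE) le_rfl htp hnt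
      (hnorm aX aE hXE) (Subgroup.mem_zpowers aE) ?_
    rw [hXE, inv_inv]
  have g2 : lower (XC JJ TL) (SA (Subgroup.zpowers t)) := by
    refine lower_SA (XC_fit bd TL_td) L1 (Subgroup.zpowers_le.2 htX) (hBn aX htX) le_rfl htp hnt
      (hnorm aE aX hEX) (Subgroup.mem_zpowers aX) ?_
    rw [hEX, inv_inv, htdef, aE_aE]
  have g3 : ¬ YC JJ TF ss (SA (Subgroup.zpowers t)) := by
    rintro ⟨_, _, h⟩
    rw [exFam_iff' bd ss_sd] at h
    obtain ⟨𝒥, F, hd⟩ := h
    have F0 := Fam_SA TF_td (hinn lF (by decide)) (Subgroup.zpowers t) hBz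
      (hTz TF TF_td t (by
        have : t ^ 4 = (t * t) * (t * t) := by simp only [pow_succ, pow_zero, one_mul, mul_assoc]
        rw [this, ht2, one_mul]) (by rw [TF, htdef, mt_aE2]; decide))
      ⟨t, Subgroup.mem_zpowers t, hnt⟩
    have hu := uniq' bd F F0
    subst hu
    have hk : (inr t : HH) ∈ K5 (SA (Subgroup.zpowers t)) := by
      apply mem_K5
      · rw [mem_SA, right_inr]; exact Subgroup.mem_zpowers t
      · exact htp.map inr
    have h1 := hd _ hk
    rw [dd, finprod_mem_singleton, sg_eq ss_sd (rel_inr t) (by rw [TF, htdef, mt_aE2]; decide),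
      htdef, ss_t] at h1
    exact absurd h1 (by decide)
  refine reduction (XC_fit bd TM_td) (XC_fit bd TL_td) (YC_fit bd TF_td ss_sd) (XC_lock bd TM_td)
    (XC_lock bd TL_td) ?_ ?_ (SA (Subgroup.zpowers t)) g1 g2 g3
  · rintro H _ ⟨h1, h2, 𝒥, F, _⟩
    exact ⟨⟨h1, h2, 𝒥, F.mono TM_of⟩, ⟨h1, h2, 𝒥, F.mono TL_of⟩⟩
  · intro H _ h1 h2
    obtain ⟨a1, a2, 𝒥, F⟩ := XC_inter bd h1 h2
    exact XC_le_star bd TF_td ss_sd ⟨a1, a2, 𝒥, F.mono (fun α h => TF_of α h.1 h.2)⟩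

end Pool.Agent.Helper218.Lk
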