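import Pool.Agent.Helper218.Lk1

set_option autoImplicit false
set_option linter.all false

namespace Pool.Agent.Helper218.Lk

variable {F : Cls}

lemma inl_range_normal {G H : Type} [Group G] [Group H] : (MonoidHom.inl G H).range.Normal := by
  constructor
  rintro _ ⟨x, rfl⟩ ⟨g, h⟩
  exact ⟨g * x * g⁻¹, by ext <;> simp⟩

lemma inr_range_normal {G H : Type} [Group G] [Group H] : (MonoidHom.inr G H).range.Normal := by
  constructor
  rintro _ ⟨x, rfl⟩ ⟨g, h⟩
  exact ⟨h * x * h⁻¹, by ext <;> simp⟩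

lemma inl_inj {G H : Type} [Group G] [Group H] : Function.Injective (MonoidHom.inl G H) := by
  intro x y h; exact congrArg Prod.fst h

lemma inr_inj {G H : Type} [Group G] [Group H] : Function.Injective (MonoidHom.inr G H) := by
  intro x y h; exact congrArg Prod.snd h

lemma Fit.mem_inl (hF : Fit F) {G H : Type} [Group G] [Group H] [Finite G] [Finite H] {x : G} :
    x ∈ rad F G ↔ ((x, 1) : G × H) ∈ rad F (G × H) :=
  hF.rad_emb _ inl_inj inl_range_normal

lemma Fit.mem_inr (hF : Fit F) {G H : Type} [Group G] [Group H] [Finite G] [Finite H] {x : H} :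
    x ∈ rad F H ↔ ((1, x) : G × H) ∈ rad F (G × H) :=
  hF.rad_emb _ inr_inj inr_range_normal

lemma Fit.prod_le_rad (hF : Fit F) {G H : Type} [Group G] [Group H] [Finite G] [Finite H] :
    (rad F G).prod (rad F H) ≤ rad F (G × H) := by
  rintro ⟨x, y⟩ ⟨hx, hy⟩
  have h1 := hF.mem_inl (H := H).1 hx
  have h2 := hF.mem_inr (G := G).1 hy
  have := Subgroup.mul_mem _ h1 h2
  simpa using this

lemma Fit.prod_mem (hF : Fit F) {G H : Type} [Group G] [Group H] (h1 : F G) (h2 : F H) :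
    F (G × H) := by
  haveI := (hF.sol G h1).1
  haveI := (hF.sol H h2).1
  apply hF.rad_eq_top
  rw [eq_top_iff]
  refine le_trans ?_ hF.prod_le_rad
  rw [hF.rad_top h1, hF.rad_top h2]
  intro x _
  exact ⟨trivial, trivial⟩

lemma lockA (hF : Fit F) {G H : Type} [Group G] [Group H] [Finite G] [Finite H] {g : G} {h : H}
    (hgh : (((g, h), (g, h)⁻¹) : (G × H) × (G × H)) ∈ rad F ((G × H) × (G × H))) :
    ((g, g⁻¹) : G × G) ∈ rad F (G × G) := by
  let f1 : (G × H) × (G × H) →* (G × G × G) × (H × H) :=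
    { toFun := fun x => ((x.1.1, 1, x.2.1), (x.1.2, x.2.2))
      map_one' := rfl
      map_mul' := by
        intro x y
        ext <;> simp }
  let f2 : (G × H) × (G × H) →* (G × G × G) × (H × H) :=
    { toFun := fun x => ((1, x.1.1, x.2.1), (x.1.2, x.2.2))
      map_one' := rfl
      map_mul' := by
        intro x y
        ext <;> simp }
  let f3 : G × G →* (G × G × G) × (H × H) :=
    { toFun := fun x => ((x.1, x.2, 1), (1, 1))
      map_one' := rfl
      map_mul' := by
        intro x y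
        ext <;> simp }
  have i1 : Function.Injective f1 := by
    rintro ⟨⟨a, b⟩, ⟨c, d⟩⟩ ⟨⟨a', b'⟩, ⟨c', d'⟩⟩ h
    simp only [f1, MonoidHom.coe_mk, OneHom.coe_mk, Prod.mk.injEq] at h ⊢
    tauto
  have i2 : Function.Injective f2 := by
    rintro ⟨⟨a, b⟩, ⟨c, d⟩⟩ ⟨⟨a', b'⟩, ⟨c', d'⟩⟩ h
    simp only [f2, MonoidHom.coe_mk, OneHom.coe_mk, Prod.mk.injEq] at h ⊢
    tauto
  have i3 : Function.Injective f3 := by
    rintro ⟨a, b⟩ ⟨a', b'⟩ h
    simp only [f3, MonoidHom.coe_mk, OneHom.coe_mk, Prod.mk.injEq] at h ⊢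
    tauto
  have n1 : f1.range.Normal := by
    constructor
    rintro _ ⟨⟨⟨a, b⟩, ⟨c, d⟩⟩, rfl⟩ ⟨⟨x, y, z⟩, ⟨u, v⟩⟩
    refine ⟨((x * a * x⁻¹, u * b * u⁻¹), (z * c * z⁻¹, v * d * v⁻¹)), ?_⟩
    ext <;> simp [f1]
  have n2 : f2.range.Normal := by
    constructor
    rintro _ ⟨⟨⟨a, b⟩, ⟨c, d⟩⟩, rfl⟩ ⟨⟨x, y, z⟩, ⟨u, v⟩⟩
    refine ⟨((y * a * y⁻¹, u * b * u⁻¹), (z * c * z⁻¹, v * d * v⁻¹)), ?_⟩
    ext <;> simp [f2]
  have n3 : f3.range.Normal := by
    constructor
    rintro _ ⟨⟨a, b⟩, rfl⟩ ⟨⟨x, y, z⟩, ⟨u, v⟩⟩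
    refine ⟨(x * a * x⁻¹, y * b * y⁻¹), ?_⟩
    ext <;> simp [f3]
  have m1 := (hF.rad_emb f1 i1 n1).1 hgh
  have m2 := (hF.rad_emb f2 i2 n2).1 hgh
  have m3 := Subgroup.mul_mem _ m1 (Subgroup.inv_mem _ m2)
  have e3 : f1 ((g, h), (g, h)⁻¹) * (f2 ((g, h), (g, h)⁻¹))⁻¹ = f3 (g, g⁻¹) := by
    ext <;> simp [f1, f2, f3]
  rw [e3] at m3
  exact (hF.rad_emb f3 i3 n3).2 m3

theorem dag_lock (hF : Fit F) : Lock (dag F) := by
  intro G H _ _ hG hGs hH hHs
  haveI := hG
  haveI := hH
  apply le_antisymm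
  · rintro ⟨g, h⟩ hgh
    have h1 := (mem_rad_dag hF (solv_prod hGs hHs)).1 hgh
    refine ⟨?_, ?_⟩
    · exact (mem_rad_dag hF hGs).2 (lockA hF h1)
    · apply (mem_rad_dag hF hHs).2
      have h2 := hF.rad_iso (MulEquiv.prodCongr (MulEquiv.prodComm (M := G) (N := H))
        (MulEquiv.prodComm (M := G) (N := H))) ⟨_, h1, rfl⟩
      exact lockA (g := h) (h := g) hF h2
  · exact (dag_fit hF).prod_le_rad

lemma le_dag (hF : Fit F) {G : Type} [Group G] (h : F G) : dag F G := by
  obtain ⟨h1, h2⟩ := hF.sol G h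
  haveI := h1
  refine ⟨h1, h2, ?_⟩
  intro g
  rw [hF.rad_top (hF.prod_mem h h)]
  trivial

lemma rad_mono {Y : Cls} (hF : Fit F) {G : Type} [Group G] [Finite G]
    (h : ∀ (H : Type) [Group H], F H → Y H) : rad F G ≤ rad Y G := by
  obtain ⟨h1, h2⟩ := hF.rad_spec G
  exact le_rad h1 (h _ h2)

lemma dag_le {Y : Cls} (hF : Fit F) (hY : Fit Y) (hL : Lock Y)
    (h : ∀ (H : Type) [Group H], F H → Y H) {G : Type} [Group G] (hG : dag F G) : Y G := by
  obtain ⟨h1, h2, h3⟩ := hG
  haveI := h1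
  apply hY.rad_eq_top
  rw [eq_top_iff]
  intro g _
  have h4 := rad_mono hF h (h3 g)
  rw [hL G G h1 h2 h1 h2] at h4
  exact h4.1

theorem star_iff (hF : Fit F) {G : Type} [Group G] : star F G ↔ dag F G :=
  ⟨fun h => h (dag F) (dag_fit hF) (dag_lock hF) (fun _ _ h => le_dag hF h),
    fun h Y hY hL hYF => dag_le hF hY hL hYF h⟩

lemma star_eq (hF : Fit F) : star F = dag F := by
  funext G i
  exact propext (star_iff hF)

theorem star_fit (hF : Fit F) : Fit (star F) := by
  rw [star_eq hF]; exact dag_fit hF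

theorem star_lock (hF : Fit F) : Lock (star F) := by
  rw [star_eq hF]; exact dag_lock hF

lemma le_star {G : Type} [Group G] (h : F G) : star F G := fun Y _ _ hYF => hYF G h

lemma star_le {Y : Cls} (hY : Fit Y) (hL : Lock Y) (h : ∀ (H : Type) [Group H], F H → Y H)
    {G : Type} [Group G] (hG : star F G) : Y G := hG Y hY hL h

theorem lower_fit (hF : Fit F) : Fit (lower F) := by
  have self : ∀ (H : Type) [Group H], star F H ↔ star F H := fun _ _ => Iff.rfl
  refine ⟨fun G _ h => hF.sol G (h F hF self), fun Y hY _ => hY.one, ?_, ?_, ?_⟩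
  · intro G H _ _ e h Y hY hs
    exact hY.iso _ _ e (h Y hY hs)
  · intro G _ N hN h Y hY hs
    exact hY.nrm _ _ hN (h Y hY hs)
  · intro G _ _ N M hN hM h1 h2 Y hY hs
    exact hY.prod _ _ _ hN hM (h1 Y hY hs) (h2 Y hY hs)

lemma lower_le (hF : Fit F) {G : Type} [Group G] (h : lower F G) : F G :=
  h F hF (fun _ _ => Iff.rfl)

/-- the normal closure of the antidiagonal -/
def AD (G : Type) [Group G] : Subgroup (G × G) :=
  Subgroup.normalClosure (Set.range (fun g : G => ((g, g⁻¹) : G × G)))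

lemma AD_normal (G : Type) [Group G] : (AD G).Normal := Subgroup.normalClosure_normal

lemma mem_AD {G : Type} [Group G] (g : G) : ((g, g⁻¹) : G × G) ∈ AD G :=
  Subgroup.subset_normalClosure ⟨g, rfl⟩

/-- if `G` is in `star Y` then the antidiagonal closure is in `Y` -/
lemma AD_mem {Y : Cls} (hY : Fit Y) {G : Type} [Group G] (h : star Y G) : Y (AD G) := by
  obtain ⟨h1, h2, h3⟩ := (star_iff hY).1 h
  haveI := h1
  obtain ⟨h4, h5⟩ := hY.rad_spec (G × G)
  refine hY.of_le (AD_normal G) ?_ h5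
  haveI := h4
  apply Subgroup.normalClosure_le_normal
  rintro _ ⟨g, rfl⟩
  exact h3 g

lemma star_of_AD {Y : Cls} (hY : Fit Y) {G : Type} [Group G] (h1 : Finite G)
    (h2 : Group.IsSolvable G) (h : Y (AD G)) : star Y G := by
  rw [star_iff hY]
  refine ⟨h1, h2, fun g => le_rad (AD_normal G) h (mem_AD g)⟩

theorem star_lower (hF : Fit F) {G : Type} [Group G] : star (lower F) G ↔ star F G := by
  constructor
  · intro h
    exact star_le (star_fit hF) (star_lock hF) (fun H _ hH => le_star (lower_le hF hH)) h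
  · intro h
    obtain ⟨h1, h2, _⟩ := (star_iff hF).1 h
    refine star_of_AD (lower_fit hF) h1 h2 ?_
    intro Y hY hs
    exact AD_mem hY ((hs G).2 h)

lemma star_sol {G : Type} [Group G] (h1 : Finite G) (h2 : Group.IsSolvable G) : star Sol G :=
  le_star ⟨h1, h2⟩

/-- monotonicity of the lower star towards the class of all groups -/
theorem lower_le_sol (hF : Fit F) {G : Type} [Group G] (h : lower F G) : lower Sol G := by
  intro Y hY hs
  have hY' : Fit (inter Y (star F)) := hY.inter (star_fit hF)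
  refine (h (inter Y (star F)) hY' ?_).1
  intro H _
  constructor
  · intro hH
    exact star_le (star_fit hF) (star_lock hF) (fun K _ hK => hK.2) hH
  · intro hH
    obtain ⟨h1, h2, _⟩ := (star_iff hF).1 hH
    haveI := h1
    refine star_of_AD hY' h1 h2 ⟨AD_mem hY ((hs H).2 (star_sol h1 h2)), ?_⟩
    exact (star_fit hF).nrm _ _ (AD_normal H) ((star_fit hF).prod_mem hH hH)

/-- every bottom member satisfies the Lockett condition -/
theorem LC_lower (hF : Fit F) : LC (lower F) := by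
  intro G _
  constructor
  · rintro ⟨h1, _⟩
    intro Y hY hs
    exact h1 Y hY (fun H _ => (hs H).trans (star_lower hF))
  · intro h
    have h1 : lower F G := lower_le (lower_fit hF) h
    exact ⟨h1, lower_le_sol hF h1⟩

/-- reduction of the question to Lockett classes -/
theorem reduction {M L Y : Cls} (hM : Fit M) (hL : Fit L) (hY : Fit Y) (lM : Lock M) (lL : Lock L)
    (hYM : ∀ (H : Type) [Group H], Y H → M H ∧ L H)
    (hstar : ∀ (H : Type) [Group H], M H → L H → star Y H)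
    (G : Type) [Group G] (g1 : lower M G) (g2 : lower L G) (g3 : ¬ Y G) :
    ∃ A B : Cls, Fit A ∧ Fit B ∧ LC A ∧ LC B ∧ ¬ LC (inter A B) := by
  have lML : Lock (inter M L) := by
    intro G H _ _ a1 a2 a3 a4
    haveI := a1
    haveI := a3
    apply le_antisymm
    · rintro ⟨g, h⟩ hgh
      have b1 := rad_mono (Y := M) (hM.inter hL) (fun _ _ h => h.1) hgh
      have b2 := rad_mono (Y := L) (hM.inter hL) (fun _ _ h => h.2) hgh
      rw [lM G H a1 a2 a3 a4] at b1
      rw [lL G H a1 a2 a3 a4] at b2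
      have key : ∀ (K : Type) [Group K] [Finite K] (x : K), x ∈ rad M K → x ∈ rad L K →
          x ∈ rad (inter M L) K := by
        intro K _ _ x h1 h2
        obtain ⟨c1, c2⟩ := hM.rad_spec K
        obtain ⟨c3, c4⟩ := hL.rad_spec K
        haveI := c1
        haveI := c3
        exact le_rad (N := rad M K ⊓ rad L K) inferInstance
          ⟨hM.of_le inferInstance inf_le_left c2, hL.of_le inferInstance inf_le_right c4⟩ ⟨h1, h2⟩
      exact ⟨key _ _ b1.1 b2.1, key _ _ b1.2 b2.2⟩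
    · exact (hM.inter hL).prod_le_rad
  refine ⟨lower M, lower L, lower_fit hM, lower_fit hL, LC_lower hM, LC_lower hL, ?_⟩
  intro hLC
  have h1 := (hLC G).1 ⟨⟨g1, g2⟩, lower_le_sol hM g1⟩
  apply g3
  apply h1 Y hY
  intro H _
  constructor
  · intro h
    -- `H` lies in `M ∩ L`
    have h2 : inter M L H := star_le (hM.inter hL) lML (fun K _ hK => hYM K hK) h
    obtain ⟨h3, h4⟩ := hM.sol H h2.1
    refine star_of_AD ((lower_fit hM).inter (lower_fit hL)) h3 h4 ⟨?_, ?_⟩
    · intro Z hZ hs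
      exact AD_mem hZ ((hs H).2 (le_star h2.1))
    · intro Z hZ hs
      exact AD_mem hZ ((hs H).2 (le_star h2.2))
  · intro h
    have h2 : inter M L H := star_le (hM.inter hL) lML
      (fun K _ hK => ⟨lower_le hM hK.1, lower_le hL hK.2⟩) h
    exact hstar H h2.1 h2.2

end Pool.Agent.Helper218.Lk
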