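import Pool.Agent.Helper218.Lk2

set_option autoImplicit false
set_option linter.all false

namespace Pool.Agent.Helper218.Lk

open Subgroup

section elems

variable {G : Type*} [Group G]

/-- elements of order a power of five -/
def E5 (g : G) : Prop := ∃ n, g ^ (5 ^ n) = 1

/-- elements of order coprime to five -/
def P5 (g : G) : Prop := ∃ m, Nat.Coprime 5 m ∧ g ^ m = 1

lemma pow_cop {N : Subgroup G} {g : G} {a b : ℕ} (h : Nat.Coprime a b) (ha : g ^ a ∈ N)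
    (hb : g ^ b ∈ N) : g ∈ N := by
  have h1 := Nat.gcd_eq_gcd_ab a b
  rw [Nat.Coprime] at h
  rw [h] at h1
  have h2 : g = g ^ (a * Nat.gcdA a b + b * Nat.gcdB a b : ℤ) := by
    rw [← h1]; simp
  rw [h2, zpow_add, zpow_mul, zpow_mul, zpow_natCast, zpow_natCast]
  exact N.mul_mem (N.zpow_mem ha _) (N.zpow_mem hb _)

lemma cop_pow {m n : ℕ} (h : Nat.Coprime 5 m) : Nat.Coprime (5 ^ n) m := Nat.Coprime.pow_left n h

lemma E5.mem_of {N : Subgroup G} {g : G} (h : E5 g) {m : ℕ} (hm : Nat.Coprime 5 m)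
    (hg : g ^ m ∈ N) : g ∈ N := by
  obtain ⟨n, hn⟩ := h
  exact pow_cop (cop_pow (n := n) hm) (by rw [hn]; exact N.one_mem) hg

lemma P5.mem_of {N : Subgroup G} {g : G} (h : P5 g) {n : ℕ} (hg : g ^ (5 ^ n) ∈ N) : g ∈ N := by
  obtain ⟨m, hm, hgm⟩ := h
  exact pow_cop (cop_pow (n := n) hm) hg (by rw [hgm]; exact N.one_mem)

lemma E5.eq_one {g : G} (h : E5 g) (h' : P5 g) : g = 1 := by
  obtain ⟨m, hm, hgm⟩ := h'
  exact Subgroup.mem_bot.1 (h.mem_of (N := ⊥) hm (by rw [hgm]; exact Subgroup.one_mem _))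

lemma E5.map {H : Type*} [Group H] (f : G →* H) {g : G} (h : E5 g) : E5 (f g) := by
  obtain ⟨n, hn⟩ := h
  exact ⟨n, by rw [← map_pow, hn, map_one]⟩

lemma P5.map {H : Type*} [Group H] (f : G →* H) {g : G} (h : P5 g) : P5 (f g) := by
  obtain ⟨n, hm, hn⟩ := h
  exact ⟨n, hm, by rw [← map_pow, hn, map_one]⟩

lemma E5.of_map {H : Type*} [Group H] {f : G →* H} (hf : Function.Injective f) {g : G}
    (h : E5 (f g)) : E5 g := by
  obtain ⟨n, hn⟩ := h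
  exact ⟨n, hf (by rw [map_pow, hn, map_one])⟩

lemma P5.of_map {H : Type*} [Group H] {f : G →* H} (hf : Function.Injective f) {g : G}
    (h : P5 (f g)) : P5 g := by
  obtain ⟨n, hm, hn⟩ := h
  exact ⟨n, hm, hf (by rw [map_pow, hn, map_one])⟩

lemma E5_coe {N : Subgroup G} {g : N} : E5 (g : G) ↔ E5 g :=
  ⟨fun h => E5.of_map (f := N.subtype) N.subtype_injective h, fun h => h.map N.subtype⟩

lemma P5_coe {N : Subgroup G} {g : N} : P5 (g : G) ↔ P5 g :=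
  ⟨fun h => P5.of_map (f := N.subtype) N.subtype_injective h, fun h => h.map N.subtype⟩

lemma E5.conj {g : G} (h : E5 g) (k : G) : E5 (k * g * k⁻¹) := by
  have := h.map (MulAut.conj k).toMonoidHom
  exact this

lemma P5.conj {g : G} (h : P5 g) (k : G) : P5 (k * g * k⁻¹) := by
  have := h.map (MulAut.conj k).toMonoidHom
  exact this

lemma E5.inv {g : G} (h : E5 g) : E5 g⁻¹ := by
  obtain ⟨n, hn⟩ := h
  exact ⟨n, by rw [inv_pow, hn, inv_one]⟩

lemma P5.inv {g : G} (h : P5 g) : P5 g⁻¹ := by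
  obtain ⟨n, hm, hn⟩ := h
  exact ⟨n, hm, by rw [inv_pow, hn, inv_one]⟩

lemma E5.pow {g : G} (h : E5 g) (k : ℕ) : E5 (g ^ k) := by
  obtain ⟨n, hn⟩ := h
  exact ⟨n, by rw [← pow_mul, mul_comm, pow_mul, hn, one_pow]⟩

lemma P5.pow {g : G} (h : P5 g) (k : ℕ) : P5 (g ^ k) := by
  obtain ⟨n, hm, hn⟩ := h
  exact ⟨n, hm, by rw [← pow_mul, mul_comm, pow_mul, hn, one_pow]⟩

lemma E5.mul {g h : G} (hg : E5 g) (hh : E5 h) (hc : Commute g h) : E5 (g * h) := by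
  obtain ⟨n, hn⟩ := hg
  obtain ⟨m, hm⟩ := hh
  refine ⟨n + m, ?_⟩
  rw [hc.mul_pow, pow_add, pow_mul, hn, one_pow, one_mul, mul_comm (5 ^ n), pow_mul, hm, one_pow]

lemma P5.one : P5 (1 : G) := ⟨1, by norm_num, by simp⟩

lemma E5.one : E5 (1 : G) := ⟨0, by simp⟩

/-- splitting the order -/
lemma split5 [Finite G] (g : G) : ∃ n m, Nat.Coprime 5 m ∧ E5 (g ^ m) ∧ P5 (g ^ (5 ^ n)) := by
  obtain ⟨n, m, hm, ho⟩ := Nat.exists_eq_pow_mul_and_not_dvd (orderOf_pos g).ne' 5 (by norm_num)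
  have hc : Nat.Coprime 5 m := (Nat.Prime.coprime_iff_not_dvd Nat.prime_five).2 hm
  refine ⟨n, m, hc, ⟨n, ?_⟩, ⟨m, hc, ?_⟩⟩
  · rw [← pow_mul, mul_comm m, ← ho, pow_orderOf_eq_one]
  · rw [← pow_mul, ← ho, pow_orderOf_eq_one]

lemma P5_of_no [Finite G] {N : Subgroup G} (h : ∀ g ∈ N, E5 g → g = 1) {g : G} (hg : g ∈ N) : P5 g := by
  obtain ⟨n, m, hc, h1, _⟩ := split5 g
  exact ⟨m, hc, h _ (N.pow_mem hg m) h1⟩

/-- the subgroup generated by the elements of order coprime to five -/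
def K5 (N : Subgroup G) : Subgroup G := Subgroup.closure {g | g ∈ N ∧ P5 g}

lemma K5_le (N : Subgroup G) : K5 N ≤ N := by
  rw [K5, Subgroup.closure_le]
  rintro g ⟨hg, _⟩; exact hg

lemma mem_K5 {N : Subgroup G} {g : G} (h : g ∈ N) (h' : P5 g) : g ∈ K5 N :=
  Subgroup.subset_closure ⟨h, h'⟩

lemma K5_mono {N M : Subgroup G} (h : N ≤ M) : K5 N ≤ K5 M := by
  apply Subgroup.closure_mono
  rintro g ⟨hg, hn⟩; exact ⟨h hg, hn⟩

lemma K5_map {H : Type*} [Group H] (f : H →* G) (hf : Function.Injective f) (N : Subgroup H) :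
    K5 (N.map f) = (K5 N).map f := by
  rw [K5, K5, MonoidHom.map_closure]
  congr 1
  ext g
  constructor
  · rintro ⟨⟨x, hx, rfl⟩, h⟩
    exact ⟨x, ⟨hx, h.of_map hf⟩, rfl⟩
  · rintro ⟨x, ⟨hx, h⟩, rfl⟩
    exact ⟨⟨x, hx, rfl⟩, h.map f⟩

lemma K5_normal {N : Subgroup G} (hN : N.Normal) : (K5 N).Normal := by
  constructor
  intro x hx g
  have : K5 N ≤ (K5 N).comap (MulAut.conj g).toMonoidHom := by
    rw [K5, Subgroup.closure_le]
    rintro y ⟨hy, h⟩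
    exact mem_K5 (hN.conj_mem y hy g) (h.conj g)
  exact this hx

lemma K5_pow [Finite G] {N : Subgroup G} {g : G} (hg : g ∈ N) : ∃ n, g ^ (5 ^ n) ∈ K5 N := by
  obtain ⟨n, m, _, _, h⟩ := split5 g
  exact ⟨n, mem_K5 (N.pow_mem hg _) h⟩

lemma K5_sup [Finite G] {A B : Subgroup G} (hA : A.Normal) (hB : B.Normal) :
    K5 (A ⊔ B) = K5 A ⊔ K5 B := by
  haveI : Fact (Nat.Prime 5) := ⟨Nat.prime_five⟩
  haveI := K5_normal hA
  haveI := K5_normal hB
  apply le_antisymm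
  · rw [K5, Subgroup.closure_le]
    rintro g ⟨hg, h⟩
    obtain ⟨n, hn⟩ := Modu.sup_pow (p := 5) (R := K5 A ⊔ K5 B) hA hB inferInstance
      (fun x hx => by
        obtain ⟨n, hn⟩ := K5_pow hx
        exact ⟨n, le_sup_left (b := K5 B) hn⟩)
      (fun x hx => by
        obtain ⟨n, hn⟩ := K5_pow hx
        exact ⟨n, le_sup_right (a := K5 A) hn⟩) g hg
    exact h.mem_of hn
  · exact sup_le (K5_mono le_sup_left) (K5_mono le_sup_right)

/-- coprime-to-five powers in a product of two normal subgroups -/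
lemma sup_pow' {A B R : Subgroup G} (hA : A.Normal) (hB : B.Normal)
    (hR : R.Normal) (h1 : ∀ x ∈ A, ∃ n, Nat.Coprime 5 n ∧ x ^ n ∈ R)
    (h2 : ∀ x ∈ B, ∃ n, Nat.Coprime 5 n ∧ x ^ n ∈ R) :
    ∀ x ∈ A ⊔ B, ∃ n, Nat.Coprime 5 n ∧ x ^ n ∈ R := by
  haveI := hA; haveI := hB; haveI := hR
  intro x hx
  obtain ⟨a, ha, b, hb, rfl⟩ := Subgroup.mem_sup_of_normal_right.1 hx
  obtain ⟨n, hn, hn'⟩ := h1 a ha
  have e1 : (a * b) ^ n ∈ B ⊔ R := by
    have h3 : ((a * b : G) : G ⧸ (B ⊔ R)) = (a : G ⧸ (B ⊔ R)) := by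
      rw [QuotientGroup.mk_mul, (QuotientGroup.eq_one_iff b).2 (le_sup_left (b := R) hb), mul_one]
    rw [← QuotientGroup.eq_one_iff, QuotientGroup.mk_pow, h3, ← QuotientGroup.mk_pow,
      QuotientGroup.eq_one_iff]
    exact le_sup_right (a := B) hn'
  obtain ⟨b', hb', r, hr, he⟩ := Subgroup.mem_sup_of_normal_right.1 e1
  obtain ⟨m, hm, hm'⟩ := h2 b' hb'
  refine ⟨n * m, Nat.Coprime.mul_right hn hm, ?_⟩
  have h3 : (((a * b) ^ n : G) : G ⧸ R) = (b' : G ⧸ R) := by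
    rw [← he, QuotientGroup.mk_mul, (QuotientGroup.eq_one_iff r).2 hr, mul_one]
  rw [pow_mul, ← QuotientGroup.eq_one_iff, QuotientGroup.mk_pow, h3, ← QuotientGroup.mk_pow,
    QuotientGroup.eq_one_iff]
  exact hm'

end elems

/-! ### commuting families of centreless subgroups -/

section families

variable {G : Type*} [Group G]

/-- pairwise commuting centreless subgroups -/
structure CF (𝒥 : Set (Subgroup G)) : Prop where
  comm : ∀ S ∈ 𝒥, ∀ S' ∈ 𝒥, S ≠ S' → ∀ x ∈ S, ∀ y ∈ S', x * y = y * x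
  cen : ∀ S ∈ 𝒥, ∀ z ∈ S, (∀ x ∈ S, z * x = x * z) → z = 1

lemma CF.sub {𝒥 𝒦 : Set (Subgroup G)} (h : CF 𝒥) (hK : 𝒦 ⊆ 𝒥) : CF 𝒦 :=
  ⟨fun S hS S' hS' => h.comm S (hK hS) S' (hK hS'), fun S hS => h.cen S (hK hS)⟩

lemma CF.center [Finite G] {𝒥 : Set (Subgroup G)} (h : CF 𝒥) {g : G} (hg : g ∈ sSup 𝒥)
    (hc : ∀ S ∈ 𝒥, ∀ y ∈ S, g * y = y * g) : g = 1 := by
  have key : ∀ A : Set (Subgroup G), A.Finite → CF A → ∀ g ∈ sSup A,
      (∀ S ∈ A, ∀ y ∈ S, g * y = y * g) → g = 1 := by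
    intro A hA
    induction A, hA using Set.Finite.induction_on with
    | empty =>
      intro _ g hg _
      rw [sSup_empty] at hg
      exact Subgroup.mem_bot.1 hg
    | @insert S A hSA _ ih =>
      intro hCF g hg hc
      rw [sSup_insert] at hg
      have c1 : ∀ x ∈ S, ∀ y ∈ sSup A, x * y = y * x := by
        intro x hx y hy
        exact Modu.comm_sSup (fun S' hS' z hz => hCF.comm S (Set.mem_insert _ _) S'
          (Set.mem_insert_of_mem _ hS') (fun e => hSA (e ▸ hS')) x hx z hz) hy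
      obtain ⟨x, hx, c, hc', rfl⟩ := Modu.mem_sup_comm c1 hg
      have hx1 : x = 1 := by
        apply hCF.cen S (Set.mem_insert _ _) x hx
        intro y hy
        have h1 := hc S (Set.mem_insert _ _) y hy
        have h2 := c1 y hy c hc'
        have h3 : x * y * c = y * x * c := by
          rw [mul_assoc, h2, ← mul_assoc, h1, mul_assoc]
        exact mul_right_cancel h3
      subst hx1
      rw [one_mul] at hc ⊢
      exact ih (hCF.sub (Set.subset_insert _ _)) c hc'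
        (fun S' hS' => hc S' (Set.mem_insert_of_mem _ hS'))
  exact key 𝒥 (Set.toFinite 𝒥) h g hg hc

lemma CF.sub_mem [Finite G] {𝒥 𝒦 : Set (Subgroup G)} (h : CF 𝒥) (hK : 𝒦 ⊆ 𝒥) {g : G}
    (hg : g ∈ sSup 𝒥) (hc : ∀ S ∈ 𝒥, S ∉ 𝒦 → ∀ y ∈ S, g * y = y * g) : g ∈ sSup 𝒦 := by
  have e : 𝒥 = 𝒦 ∪ (𝒥 \ 𝒦) := (Set.union_diff_cancel hK).symm
  rw [e, sSup_union] at hg
  have c1 : ∀ x ∈ sSup 𝒦, ∀ y ∈ sSup (𝒥 \ 𝒦), x * y = y * x := by
    intro x hx y hy
    refine Modu.comm_sSup (fun S' hS' z hz => ?_) hy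
    refine (Modu.comm_sSup (fun S hS w hw => ?_) hx).symm
    exact h.comm S' hS'.1 S (hK hS) (fun e => hS'.2 (e ▸ hS)) z hz w hw
  obtain ⟨x, hx, y, hy, rfl⟩ := Modu.mem_sup_comm c1 hg
  have hy1 : y = 1 := by
    apply (h.sub Set.diff_subset).center hy
    intro S hS z hz
    have h1 := hc S hS.1 hS.2 z hz
    have h2 : x * z = z * x := c1 x hx z (le_sSup hS hz)
    have h3 : x * (y * z) = x * (z * y) := by
      rw [← mul_assoc, h1, ← mul_assoc, ← h2, mul_assoc]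
    exact mul_left_cancel h3
  rw [hy1, mul_one]; exact hx

/-- splitting off a member -/
lemma CF.split {𝒥 : Set (Subgroup G)} (h : CF 𝒥) {S : Subgroup G} (hS : S ∈ 𝒥) {g : G}
    (hg : g ∈ sSup 𝒥) : ∃ x ∈ S, ∃ c ∈ sSup 𝒥, (∀ y ∈ S, c * y = y * c) ∧ g = x * c := by
  have e : 𝒥 = insert S (𝒥 \ {S}) := by
    rw [Set.insert_diff_singleton, Set.insert_eq_of_mem hS]
  rw [e, sSup_insert] at hg
  have c1 : ∀ x ∈ S, ∀ y ∈ sSup (𝒥 \ {S}), x * y = y * x := by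
    intro x hx y hy
    exact Modu.comm_sSup (fun S' hS' z hz => h.comm S hS S' hS'.1
      (fun e => hS'.2 e.symm) x hx z hz) hy
  obtain ⟨x, hx, c, hc, rfl⟩ := Modu.mem_sup_comm c1 hg
  have hle : sSup (𝒥 \ {S}) ≤ sSup 𝒥 := sSup_le_sSup Set.diff_subset
  exact ⟨x, hx, c, hle hc, fun y hy => (c1 y hy c hc).symm, rfl⟩

end families

end Pool.Agent.Helper218.Lk
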