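import Pool.Agent.Helper218.Lk3

set_option autoImplicit false
set_option linter.all false

namespace Pool.Agent.Helper218.Lk

open Subgroup

open scoped commutatorElement

/-- an automorphism moving every element by an element of order coprime to five -/
def Tr {J : Type} [Group J] (α : MulAut J) : Prop := ∀ x, P5 (x⁻¹ * α x)

/-- the properties of the block group which are used -/
structure BD (J : Type) [Group J] : Prop where
  fin : Finite J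
  gen : ∀ N : Subgroup J, (∀ x, E5 x → x ∈ N) → N = ⊤
  cen : ∀ c : J, (∀ x, c * x = x * c) → c = 1
  com : ∃ a b : J, E5 (a⁻¹ * b * a * b⁻¹) ∧ a⁻¹ * b * a * b⁻¹ ≠ 1
  usub : ∃ U : Subgroup J, ∀ x, x ∈ U ↔ P5 x
  ax : ∀ g g' : J, E5 g → g ≠ 1 → E5 g' → g' ≠ 1 →
    ∃ u u' : J, ⁅⁅u, g⁆, g⁆ = ⁅⁅u', g'⁆, g'⁆ ∧ ⁅⁅u, g⁆, g⁆ ≠ 1
  tight : ∀ α : MulAut J, P5 α →
    Tr α ∨ ∀ N : Subgroup J, N.Normal → (∀ x, x⁻¹ * α x ∈ N) → N = ⊤
  trc : ∀ α ∈ Subgroup.closure {α : MulAut J | P5 α ∧ Tr α}, P5 α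
  f6 : ∀ α : MulAut J, P5 α → ¬ Tr α → ∀ Q : Subgroup J, Q.Normal → (∀ x ∈ Q, α x ∈ Q) →
    (∀ N ≤ Q, (∀ x ∈ Q, ∀ y ∈ N, x * y * x⁻¹ ∈ N) → (∀ x ∈ Q, x⁻¹ * α x ∈ N) → Q ≤ N) →
    (∀ x ∈ Q, E5 x → x = 1) ∨ Q = ⊤

/-- admissible types of automorphisms -/
structure TD {J : Type} [Group J] (T : MulAut J → Prop) : Prop where
  mul : ∀ α β, T α → T β → T (α * β)
  tr : ∀ α, Tr α → T α
  conj : ∀ α β, T α → T (β * α * β⁻¹)

section rel

variable {J : Type} [Group J] {G : Type*} [Group G]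

/-- the element `k` acts on `S` as the automorphism `α` of `J` -/
def Rel {S : Subgroup G} (φ : J ≃* S) (k : G) (α : MulAut J) : Prop :=
  ∀ j, ((φ (α j) : S) : G) = k * (φ j : S) * k⁻¹

variable {S : Subgroup G} {φ : J ≃* S} {k k' : G} {α β : MulAut J}

lemma Rel.exists (hJ : Finite J) (φ : J ≃* S) {k : G} (hk : ∀ x ∈ S, k * x * k⁻¹ ∈ S) :
    ∃ α, Rel φ k α := by
  let f : J →* J :=
    { toFun := fun j => φ.symm ⟨k * (φ j : S) * k⁻¹, hk _ (φ j).2⟩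
      map_one' := by
        have : (⟨k * ((φ 1 : S) : G) * k⁻¹, hk _ (φ 1).2⟩ : S) = 1 := by
          apply Subtype.ext; simp
        rw [this, map_one]
      map_mul' := by
        intro a b
        rw [← map_mul]
        congr 1
        apply Subtype.ext
        simp [mul_assoc] }
  have hf : Function.Injective f := by
    intro a b h
    have h1 := φ.symm.injective h
    have h2 := congrArg Subtype.val h1
    simp only at h2
    have h3 := mul_left_cancel (mul_right_cancel h2)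
    exact φ.injective (Subtype.ext h3)
  have hb : Function.Bijective f := Finite.injective_iff_bijective.1 hf
  refine ⟨MulEquiv.ofBijective f hb, ?_⟩
  intro j
  change ((φ (φ.symm ⟨k * (φ j : S) * k⁻¹, hk _ (φ j).2⟩) : S) : G) = _
  rw [φ.apply_symm_apply]

lemma Rel.unique (h : Rel φ k α) (h' : Rel φ k β) : α = β := by
  apply MulEquiv.ext
  intro j
  apply φ.injective
  apply Subtype.ext
  rw [h j, h' j]

lemma Rel.one : Rel φ (1 : G) 1 := by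
  intro j; simp

lemma Rel.mul (h : Rel φ k α) (h' : Rel φ k' β) : Rel φ (k * k') (α * β) := by
  intro j
  rw [MulAut.mul_apply, h, h']
  group

lemma Rel.inv (h : Rel φ k α) : Rel φ k⁻¹ α⁻¹ := by
  intro j
  have := h (α⁻¹ j)
  rw [MulAut.apply_inv_self] at this
  rw [this]; group

lemma Rel.pow (h : Rel φ k α) (n : ℕ) : Rel φ (k ^ n) (α ^ n) := by
  induction n with
  | zero => simpa using (Rel.one (φ := φ))
  | succ n ih => rw [pow_succ, pow_succ]; exact ih.mul h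

lemma Rel.P5 (h : Rel φ k α) (hk : P5 k) : P5 α := by
  obtain ⟨m, hm, hk⟩ := hk
  refine ⟨m, hm, ?_⟩
  have := h.pow m
  rw [hk] at this
  exact this.unique Rel.one

lemma Rel.E5 (h : Rel φ k α) (hk : E5 k) : E5 α := by
  obtain ⟨m, hk⟩ := hk
  refine ⟨m, ?_⟩
  have := h.pow (5 ^ m)
  rw [hk] at this
  exact this.unique Rel.one

lemma Rel.change {ψ : J ≃* S} (h : Rel φ k α) :
    Rel ψ k ((φ.trans ψ.symm : MulAut J) * α * (φ.trans ψ.symm : MulAut J)⁻¹) := by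
  intro j
  set β : MulAut J := φ.trans ψ.symm with hβ
  have e : ∀ i, ψ (β i) = φ i := by
    intro i
    rw [hβ]
    exact ψ.apply_symm_apply _
  have h1 := h (β⁻¹ j)
  have h2 := e (β⁻¹ j)
  rw [MulAut.apply_inv_self] at h2
  rw [MulAut.mul_apply, MulAut.mul_apply, e, h1, h2]

/-- `k` moves the elements of `S` by elements of order coprime to five -/
def TrS (S : Subgroup G) (k : G) : Prop := ∀ x ∈ S, Lk.P5 (x⁻¹ * (k * x * k⁻¹))

lemma Rel.tr (h : Rel φ k α) : Tr α ↔ TrS S k := by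
  constructor
  · intro ht x hx
    have h1 := ht (φ.symm ⟨x, hx⟩)
    have h2 := (h1.map φ.toMonoidHom).map S.subtype
    have h3 : S.subtype (φ.toMonoidHom ((φ.symm ⟨x, hx⟩)⁻¹ * α (φ.symm ⟨x, hx⟩))) =
        x⁻¹ * (k * x * k⁻¹) := by
      change ((φ ((φ.symm ⟨x, hx⟩)⁻¹ * α (φ.symm ⟨x, hx⟩)) : S) : G) = _
      rw [map_mul, map_inv, φ.apply_symm_apply]
      have := h (φ.symm ⟨x, hx⟩)
      rw [φ.apply_symm_apply] at this
      rw [Subgroup.coe_mul, this]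
      rfl
    rw [h3] at h2
    exact h2
  · intro ht x
    have h1 := ht (φ x) (φ x).2
    rw [← h x] at h1
    have h2 : Lk.P5 ((φ (x⁻¹ * α x) : S) : G) := by
      rw [map_mul, map_inv]; exact h1
    exact (P5_coe.1 h2).of_map (f := φ.toMonoidHom) φ.injective

end rel

section blocks

variable {J : Type} [Group J] (hJ : BD J) {G : Type*} [Group G]

include hJ

lemma BD.genS {S : Subgroup G} (φ : J ≃* S) {N : Subgroup G} (h : ∀ x ∈ S, E5 x → x ∈ N) :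
    S ≤ N := by
  have := hJ.gen ((N.subgroupOf S).comap φ.toMonoidHom) (by
    intro x hx
    change ((φ x : S) : G) ∈ N
    exact h _ (φ x).2 ((hx.map φ.toMonoidHom).map S.subtype))
  intro x hx
  have h1 : φ.symm ⟨x, hx⟩ ∈ (N.subgroupOf S).comap φ.toMonoidHom := by rw [this]; trivial
  change ((φ (φ.symm ⟨x, hx⟩) : S) : G) ∈ N at h1
  rwa [φ.apply_symm_apply] at h1

lemma BD.cenS {S : Subgroup G} (φ : J ≃* S) {c : G} (hc : c ∈ S) (h : ∀ x ∈ S, c * x = x * c) :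
    c = 1 := by
  have h1 := hJ.cen (φ.symm ⟨c, hc⟩) (by
    intro x
    apply φ.injective
    rw [map_mul, map_mul, φ.apply_symm_apply]
    exact Subtype.ext (h _ (φ x).2))
  have h2 : (⟨c, hc⟩ : S) = 1 := by
    have := congrArg φ h1
    rwa [φ.apply_symm_apply, map_one] at this
  exact congrArg Subtype.val h2

lemma BD.comS {S : Subgroup G} (φ : J ≃* S) : ∃ a ∈ S, ∃ b ∈ S, E5 (a⁻¹ * b * a * b⁻¹) ∧
    a⁻¹ * b * a * b⁻¹ ≠ 1 := by
  obtain ⟨a, b, h1, h2⟩ := hJ.com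
  refine ⟨φ a, (φ a).2, φ b, (φ b).2, ?_, ?_⟩
  · have := (h1.map φ.toMonoidHom).map S.subtype
    have e : S.subtype (φ.toMonoidHom (a⁻¹ * b * a * b⁻¹)) =
        ((φ a : S) : G)⁻¹ * (φ b : S) * (φ a : S) * ((φ b : S) : G)⁻¹ := by
      change ((φ (a⁻¹ * b * a * b⁻¹) : S) : G) = _
      simp
    rwa [e] at this
  · intro h
    apply h2
    apply φ.injective
    apply Subtype.ext
    simpa using h

lemma BD.uS {S : Subgroup G} (φ : J ≃* S) : ∃ U : Subgroup G, ∀ x, x ∈ U ↔ x ∈ S ∧ P5 x := by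
  obtain ⟨U, hU⟩ := hJ.usub
  refine ⟨(U.map φ.toMonoidHom).map S.subtype, ?_⟩
  intro x
  constructor
  · rintro ⟨_, ⟨y, hy, rfl⟩, rfl⟩
    exact ⟨(φ y).2, (((hU y).1 hy).map φ.toMonoidHom).map S.subtype⟩
  · rintro ⟨hx, hp⟩
    refine ⟨⟨x, hx⟩, ⟨φ.symm ⟨x, hx⟩, ?_, φ.apply_symm_apply _⟩, rfl⟩
    rw [SetLike.mem_coe, hU]
    have : P5 (⟨x, hx⟩ : S) := P5_coe.1 hp
    exact this.map φ.symm.toMonoidHom

lemma BD.axS {S : Subgroup G} (φ : J ≃* S) {g g' : G} (hg : g ∈ S) (hg' : g' ∈ S) (h1 : E5 g)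
    (h2 : g ≠ 1) (h3 : E5 g') (h4 : g' ≠ 1) :
    ∃ u ∈ S, ∃ u' ∈ S, ⁅⁅u, g⁆, g⁆ = ⁅⁅u', g'⁆, g'⁆ ∧ ⁅⁅u, g⁆, g⁆ ≠ 1 := by
  have key : ∀ x (hx : x ∈ S), E5 x → E5 (φ.symm ⟨x, hx⟩) := by
    intro x hx h
    have : E5 (⟨x, hx⟩ : S) := E5_coe.1 h
    exact this.map φ.symm.toMonoidHom
  have key2 : ∀ x (hx : x ∈ S), x ≠ 1 → φ.symm ⟨x, hx⟩ ≠ 1 := by
    intro x hx h h'
    apply h
    have := congrArg φ h'
    rw [φ.apply_symm_apply, map_one] at this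
    exact congrArg Subtype.val this
  obtain ⟨u, u', h5, h6⟩ := hJ.ax _ _ (key g hg h1) (key2 g hg h2) (key g' hg' h3) (key2 g' hg' h4)
  have e : ∀ (u : J) (x : G) (hx : x ∈ S), ((φ ⁅⁅u, φ.symm ⟨x, hx⟩⁆, φ.symm ⟨x, hx⟩⁆ : S) : G) =
      ⁅⁅((φ u : S) : G), x⁆, x⁆ := by
    intro u x hx
    rw [map_commutatorElement, map_commutatorElement, φ.apply_symm_apply]
    rfl
  refine ⟨φ u, (φ u).2, φ u', (φ u').2, ?_, ?_⟩
  · rw [← e u g hg, ← e u' g' hg', h5]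
  · rw [← e u g hg]
    intro h
    apply h6
    apply φ.injective
    rw [map_one]
    exact Subtype.ext h

lemma BD.tightS {S : Subgroup G} (φ : J ≃* S) {k : G} (hk : ∀ x ∈ S, k * x * k⁻¹ ∈ S) (hp : P5 k) :
    TrS S k ∨ ∀ N : Subgroup G, (∀ s ∈ S, ∀ n ∈ N, s * n * s⁻¹ ∈ N) →
      (∀ s ∈ S, s⁻¹ * (k * s * k⁻¹) ∈ N) → S ≤ N := by
  obtain ⟨α, hα⟩ := Rel.exists hJ.fin φ hk
  rcases hJ.tight α (hα.P5 hp) with h | h
  · exact Or.inl (hα.tr.1 h)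
  · right
    intro N hN1 hN2
    have := h ((N.subgroupOf S).comap φ.toMonoidHom) (by
      constructor
      intro n hn g
      change ((φ (g * n * g⁻¹) : S) : G) ∈ N
      have hn' : ((φ n : S) : G) ∈ N := hn
      have := hN1 _ (φ g).2 _ hn'
      simpa using this) (by
      intro x
      change ((φ (x⁻¹ * α x) : S) : G) ∈ N
      rw [map_mul, map_inv, Subgroup.coe_mul, hα x]
      exact hN2 _ (φ x).2)
    intro x hx
    have h1 : φ.symm ⟨x, hx⟩ ∈ (N.subgroupOf S).comap φ.toMonoidHom := by rw [this]; trivial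
    change ((φ (φ.symm ⟨x, hx⟩) : S) : G) ∈ N at h1
    rwa [φ.apply_symm_apply] at h1

lemma BD.trcS {S : Subgroup G} (φ : J ≃* S) {Γ : Subgroup G} (hΓ : Γ ≤ K5 Γ)
    (hn : ∀ g ∈ Γ, P5 g → ∀ x ∈ S, g * x * g⁻¹ ∈ S) (ht : ∀ g ∈ Γ, P5 g → TrS S g) {g : G}
    (hg : g ∈ Γ) (hg5 : E5 g) {x : G} (hx : x ∈ S) : g * x = x * g := by
  have key : ∀ g ∈ K5 Γ, ∃ α ∈ Subgroup.closure {α : MulAut J | P5 α ∧ Tr α}, Rel φ g α := by
    intro g hg
    refine Subgroup.closure_induction (p := fun g _ =>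
      ∃ α ∈ Subgroup.closure {α : MulAut J | P5 α ∧ Tr α}, Rel φ g α) ?_ ?_ ?_ ?_ hg
    · rintro g ⟨hg, hp⟩
      obtain ⟨α, hα⟩ := Rel.exists hJ.fin φ (hn g hg hp)
      exact ⟨α, Subgroup.subset_closure ⟨hα.P5 hp, hα.tr.2 (ht g hg hp)⟩, hα⟩
    · exact ⟨1, Subgroup.one_mem _, Rel.one⟩
    · rintro a b _ _ ⟨α, h1, h2⟩ ⟨β, h3, h4⟩
      exact ⟨α * β, Subgroup.mul_mem _ h1 h3, h2.mul h4⟩
    · rintro a _ ⟨α, h1, h2⟩
      exact ⟨α⁻¹, Subgroup.inv_mem _ h1, h2.inv⟩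
  obtain ⟨α, h1, h2⟩ := key g (hΓ hg)
  have h3 := (h2.E5 hg5).eq_one (hJ.trc α h1)
  subst h3
  have h4 := h2 (φ.symm ⟨x, hx⟩)
  rw [MulAut.one_apply, φ.apply_symm_apply] at h4
  have h5 : x = g * x * g⁻¹ := h4
  calc g * x = g * x * g⁻¹ * g := by group
    _ = x * g := by rw [← h5]

lemma BD.f6S {S : Subgroup G} (φ : J ≃* S) {k : G} (hk : ∀ x ∈ S, k * x * k⁻¹ ∈ S) (hp : P5 k)
    (hk' : ¬ TrS S k) {Q : Subgroup G} (hQS : Q ≤ S) (hSQ : ∀ s ∈ S, ∀ x ∈ Q, s * x * s⁻¹ ∈ Q)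
    (hkQ : ∀ x ∈ Q, k * x * k⁻¹ ∈ Q)
    (hN : ∀ N ≤ Q, (∀ x ∈ Q, ∀ y ∈ N, x * y * x⁻¹ ∈ N) → (∀ x ∈ Q, x⁻¹ * (k * x * k⁻¹) ∈ N) → Q ≤ N) :
    (∀ x ∈ Q, E5 x → x = 1) ∨ S ≤ Q := by
  obtain ⟨α, hα⟩ := Rel.exists hJ.fin φ hk
  let Q' : Subgroup J := (Q.subgroupOf S).comap φ.toMonoidHom
  have hQ' : ∀ x, x ∈ Q' ↔ ((φ x : S) : G) ∈ Q := fun x => Iff.rfl
  rcases hJ.f6 α (hα.P5 hp) (fun h => hk' (hα.tr.1 h)) Q' (by
      constructor
      intro n hn g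
      rw [hQ'] at hn ⊢
      have := hSQ _ (φ g).2 _ hn
      simpa using this) (by
      intro x hx
      rw [hQ'] at hx ⊢
      rw [hα x]
      exact hkQ _ hx) (by
      intro N hNQ h1 h2
      -- push forward
      let N' : Subgroup G := (N.map φ.toMonoidHom).map S.subtype
      have hN' : ∀ y, y ∈ N' ↔ ∃ x ∈ N, ((φ x : S) : G) = y := by
        intro y
        constructor
        · rintro ⟨_, ⟨x, hx, rfl⟩, rfl⟩
          exact ⟨x, hx, rfl⟩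
        · rintro ⟨x, hx, rfl⟩
          exact ⟨_, ⟨x, hx, rfl⟩, rfl⟩
      have h3 := hN N' (by
        intro y hy
        obtain ⟨x, hx, rfl⟩ := (hN' y).1 hy
        exact hNQ hx) (by
        intro x hx y hy
        obtain ⟨y, hy', rfl⟩ := (hN' y).1 hy
        obtain ⟨x, rfl⟩ : ∃ x' : J, ((φ x' : S) : G) = x :=
          ⟨φ.symm ⟨x, hQS hx⟩, by rw [φ.apply_symm_apply]⟩
        rw [hN']
        exact ⟨x * y * x⁻¹, h1 x hx y hy', by simp⟩) (by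
        intro x hx
        obtain ⟨x, rfl⟩ : ∃ x' : J, ((φ x' : S) : G) = x :=
          ⟨φ.symm ⟨x, hQS hx⟩, by rw [φ.apply_symm_apply]⟩
        rw [hN']
        exact ⟨x⁻¹ * α x, h2 x hx, by rw [map_mul, map_inv, Subgroup.coe_mul, hα x]; rfl⟩)
      intro x hx
      obtain ⟨y, hy, he⟩ := (hN' _).1 (h3 hx)
      have : y = x := φ.injective (Subtype.ext he)
      rw [← this]; exact hy) with h | h
  · left
    intro x hx h5
    have h6 : φ.symm ⟨x, hQS hx⟩ ∈ Q' := by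
      rw [hQ', φ.apply_symm_apply]; exact hx
    have h7 : E5 (φ.symm ⟨x, hQS hx⟩) := by
      have : E5 (⟨x, hQS hx⟩ : S) := E5_coe.1 h5
      exact this.map φ.symm.toMonoidHom
    have h8 := congrArg φ (h _ h6 h7)
    rw [φ.apply_symm_apply, map_one] at h8
    exact congrArg Subtype.val h8
  · right
    intro x hx
    have h6 : φ.symm ⟨x, hx⟩ ∈ Q' := by rw [h]; trivial
    rw [hQ', φ.apply_symm_apply] at h6
    exact h6

end blocks

end Pool.Agent.Helper218.Lk
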