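import Pool.Agent.Helper218.Lk4

set_option autoImplicit false
set_option linter.all false

namespace Pool.Agent.Helper218.Lk

open Subgroup

open scoped commutatorElement

/-- a family of blocks for `K` -/
structure Fam (J : Type) [Group J] (T : MulAut J → Prop) {G : Type*} [Group G] (K : Subgroup G)
    (𝒥 : Set (Subgroup G)) : Prop where
  le : ∀ S ∈ 𝒥, S ≤ K
  nrm : ∀ S ∈ 𝒥, ∀ k ∈ K, ∀ x ∈ S, k * x * k⁻¹ ∈ S
  blk : ∀ S ∈ 𝒥, Nonempty (J ≃* S)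
  act : ∀ S ∈ 𝒥, ∀ k ∈ K, ∀ (φ : J ≃* S) (α : MulAut J), Rel φ k α → T α
  comm : ∀ S ∈ 𝒥, ∀ S' ∈ 𝒥, S ≠ S' → ∀ x ∈ S, ∀ y ∈ S', x * y = y * x
  quo : ∀ k ∈ K, E5 k → k ∈ sSup 𝒥

variable {J : Type} [Group J] (hJ : BD J) {T : MulAut J → Prop} {G : Type*} [Group G]

include hJ

lemma Fam.cf {K : Subgroup G} {𝒥 : Set (Subgroup G)} (F : Fam J T K 𝒥) : CF 𝒥 :=
  ⟨F.comm, fun S hS z hz hc => hJ.cenS (F.blk S hS).some hz hc⟩

/-- dichotomy for the action of `K` on a block -/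
lemma dich {K : Subgroup G} (hK : K.Normal) (hg : K ≤ K5 K) {S : Subgroup G} (φ : J ≃* S)
    (hn : ∀ k ∈ K, ∀ x ∈ S, k * x * k⁻¹ ∈ S) :
    (∀ g ∈ K, E5 g → ∀ x ∈ S, g * x = x * g) ∨
      (S ≤ K ∧ ∃ k ∈ K, P5 k ∧ ¬ TrS S k ∧ ∀ N : Subgroup G, (∀ s ∈ S, ∀ n ∈ N, s * n * s⁻¹ ∈ N) →
        (∀ s ∈ S, s⁻¹ * (k * s * k⁻¹) ∈ N) → S ≤ N) := by
  by_cases h : ∀ k ∈ K, P5 k → TrS S k
  · left
    intro g hgK hg5 x hx
    exact hJ.trcS φ hg (fun g hg _ => hn g hg) h hgK hg5 hx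
  · right
    push Not at h
    obtain ⟨k, hk, hp, ht⟩ := h
    rcases hJ.tightS φ (hn k hk) hp with h1 | h1
    · exact absurd h1 ht
    · refine ⟨h1 K (fun s _ n hn => hK.conj_mem n hn s) (fun s _ => ?_), k, hk, hp, ht, h1⟩
      have : s⁻¹ * (k * s * k⁻¹) = (s⁻¹ * k * s⁻¹⁻¹) * k⁻¹ := by group
      rw [this]
      exact K.mul_mem (hK.conj_mem k hk _) (K.inv_mem hk)

lemma Fam.two [Finite G] {K₁ K₂ : Subgroup G} {𝒥₁ 𝒥₂ : Set (Subgroup G)} (k1 : K₁.Normal)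
    (k2 : K₂.Normal) (g1 : K₁ ≤ K5 K₁) (g2 : K₂ ≤ K5 K₂) (F₁ : Fam J T K₁ 𝒥₁)
    (F₂ : Fam J T K₂ 𝒥₂) {S₁ S₂ : Subgroup G} (h1 : S₁ ∈ 𝒥₁) (h2 : S₂ ∈ 𝒥₂)
    (n1 : ∀ k ∈ K₂, ∀ x ∈ S₁, k * x * k⁻¹ ∈ S₁) (n2 : ∀ k ∈ K₁, ∀ x ∈ S₂, k * x * k⁻¹ ∈ S₂) :
    S₁ = S₂ ∨ ∀ x ∈ S₁, ∀ y ∈ S₂, x * y = y * x := by
  haveI := hJ.fin
  obtain ⟨φ₁⟩ := F₁.blk S₁ h1
  obtain ⟨φ₂⟩ := F₂.blk S₂ h2
  by_contra hcon
  push Not at hcon
  obtain ⟨hne, hnc⟩ := hcon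
  have hnc : ¬ ∀ x ∈ S₁, ∀ y ∈ S₂, x * y = y * x := by
    intro h
    obtain ⟨x, hx, y, hy, hxy⟩ := hnc
    exact hxy (h x hx y hy)
  -- `S₂ ≤ K₁`
  rcases dich hJ k1 g1 φ₂ n2 with h3 | ⟨h3, k, hk, hp, ht, tight⟩
  · apply hnc
    have : S₁ ≤ Subgroup.centralizer (S₂ : Set G) := hJ.genS φ₁ (by
      intro x hx h5
      rw [Subgroup.mem_centralizer_iff]
      intro y hy
      exact (h3 x (F₁.le S₁ h1 hx) h5 y hy).symm)
    intro x hx y hy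
    exact ((Subgroup.mem_centralizer_iff.1 (this hx)) y hy).symm
  have h4 : S₂ ≤ sSup 𝒥₁ := hJ.genS φ₂ (fun x hx h5 => F₁.quo x (h3 hx) h5)
  have c1 := F₁.cf hJ
  -- uniqueness of decompositions
  have uq : ∀ x ∈ S₁, ∀ x' ∈ S₁, ∀ c c' : G, (∀ y ∈ S₁, c * y = y * c) →
      (∀ y ∈ S₁, c' * y = y * c') → x * c = x' * c' → x = x' := by
    intro x hx x' hx' c c' hc hc' he
    have h5 : x'⁻¹ * x = c' * c⁻¹ := by
      rw [eq_mul_inv_iff_mul_eq, mul_assoc, he, inv_mul_cancel_left]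
    have h6 : x'⁻¹ * x = 1 := by
      apply hJ.cenS φ₁ (S₁.mul_mem (S₁.inv_mem hx') hx)
      intro y hy
      rw [h5]
      have h7 : c⁻¹ * y = y * c⁻¹ := by
        rw [inv_mul_eq_iff_eq_mul, ← mul_assoc, hc y hy, mul_inv_cancel_right]
      rw [mul_assoc, h7, ← mul_assoc, hc' y hy, mul_assoc]
    rw [inv_mul_eq_one] at h6
    exact h6.symm
  -- subgroups of the form `N * C(S₁)`
  have mk : ∀ N : Subgroup G, N ≤ S₁ → ∃ M : Subgroup G, ∀ g, g ∈ M ↔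
      ∃ x ∈ N, ∃ c, (∀ y ∈ S₁, c * y = y * c) ∧ g = x * c := by
    intro N hN
    refine ⟨{ carrier := {g | ∃ x ∈ N, ∃ c, (∀ y ∈ S₁, c * y = y * c) ∧ g = x * c}
              one_mem' := ⟨1, N.one_mem, 1, by simp, by simp⟩
              mul_mem' := ?_
              inv_mem' := ?_ }, fun g => Iff.rfl⟩
    · rintro _ _ ⟨x, hx, c, hc, rfl⟩ ⟨x', hx', c', hc', rfl⟩
      refine ⟨x * x', N.mul_mem hx hx', c * c', ?_, ?_⟩
      · intro y hy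
        rw [mul_assoc, hc' y hy, ← mul_assoc, hc y hy, mul_assoc]
      · calc x * c * (x' * c') = x * (c * x') * c' := by group
          _ = x * (x' * c) * c' := by rw [hc x' (hN hx')]
          _ = x * x' * (c * c') := by group
    · rintro _ ⟨x, hx, c, hc, rfl⟩
      refine ⟨x⁻¹, N.inv_mem hx, c⁻¹, ?_, ?_⟩
      · intro y hy
        rw [inv_mul_eq_iff_eq_mul, ← mul_assoc, hc y hy, mul_inv_cancel_right]
      · rw [← hc x (hN hx), mul_inv_rev]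
  -- the projection of `S₂`
  have dec : ∀ s ∈ S₂, ∃ x ∈ S₁, ∃ c ∈ sSup 𝒥₁, (∀ y ∈ S₁, c * y = y * c) ∧ s = x * c :=
    fun s hs => c1.split h1 (h4 hs)
  have dec5 : ∀ x ∈ S₁, ∀ c, (∀ y ∈ S₁, c * y = y * c) → E5 (x * c) → E5 x := by
    rintro x hx c hc ⟨n, hn⟩
    have hcm : Commute x c := (hc x hx).symm
    rw [hcm.mul_pow] at hn
    refine ⟨n, uq _ (S₁.pow_mem hx _) 1 S₁.one_mem (c ^ 5 ^ n) 1 ?_ (by simp) (by rw [hn, one_mul])⟩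
    intro y hy
    exact (show Commute c y from hc y hy).pow_left _
  have nocomm : ¬ ∀ s ∈ S₂, E5 s → ∀ y ∈ S₁, s * y = y * s := by
    intro h
    apply hnc
    have : S₂ ≤ Subgroup.centralizer (S₁ : Set G) := hJ.genS φ₂ (by
      intro x hx h5
      rw [Subgroup.mem_centralizer_iff]
      intro y hy
      exact (h x hx h5 y hy).symm)
    intro x hx y hy
    exact (Subgroup.mem_centralizer_iff.1 (this hy)) x hx
  -- conjugates of centralising elements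
  have cc : ∀ k ∈ K₁, ∀ c : G, (∀ y ∈ S₁, c * y = y * c) → ∀ y ∈ S₁, k * c * k⁻¹ * y = y * (k * c * k⁻¹) := by
    intro k hk c hc y hy
    have h5 := F₁.nrm S₁ h1 k⁻¹ (K₁.inv_mem hk) y hy
    rw [inv_inv] at h5
    have h6 := hc _ h5
    calc k * c * k⁻¹ * y = k * (c * (k⁻¹ * y * k)) * k⁻¹ := by group
      _ = k * ((k⁻¹ * y * k) * c) * k⁻¹ := by rw [h6]
      _ = y * (k * c * k⁻¹) := by group
  have commk : ∀ s x c : G, x ∈ S₁ → (∀ y ∈ S₁, c * y = y * c) → s = x * c →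
      s⁻¹ * (k * s * k⁻¹) = (x⁻¹ * (k * x * k⁻¹)) * (c⁻¹ * (k * c * k⁻¹)) := by
    intro s x c hx hc hs
    have h5 : x⁻¹ * (k * x * k⁻¹) ∈ S₁ := S₁.mul_mem (S₁.inv_mem hx) (F₁.nrm S₁ h1 k hk x hx)
    have h6 := hc _ h5
    rw [hs]
    calc (x * c)⁻¹ * (k * (x * c) * k⁻¹) = c⁻¹ * (x⁻¹ * (k * x * k⁻¹)) * (k * c * k⁻¹) := by group
      _ = c⁻¹ * (x⁻¹ * (k * x * k⁻¹) * c) * c⁻¹ * (k * c * k⁻¹) := by group
      _ = c⁻¹ * (c * (x⁻¹ * (k * x * k⁻¹))) * c⁻¹ * (k * c * k⁻¹) := by rw [h6]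
      _ = (x⁻¹ * (k * x * k⁻¹)) * (c⁻¹ * (k * c * k⁻¹)) := by group
  have cmul : ∀ c c' : G, (∀ y ∈ S₁, c * y = y * c) → (∀ y ∈ S₁, c' * y = y * c') →
      ∀ y ∈ S₁, c * c' * y = y * (c * c') := by
    intro c c' hc hc' y hy
    rw [mul_assoc, hc' y hy, ← mul_assoc, hc y hy, mul_assoc]
  have cinv : ∀ c : G, (∀ y ∈ S₁, c * y = y * c) → ∀ y ∈ S₁, c⁻¹ * y = y * c⁻¹ := by
    intro c hc y hy
    rw [inv_mul_eq_iff_eq_mul, ← mul_assoc, hc y hy, mul_inv_cancel_right]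
  -- `k` acts nontrivially on `S₁`
  have ht1 : ¬ TrS S₁ k := by
    intro htr
    obtain ⟨U, hU⟩ := hJ.uS φ₁
    obtain ⟨M, hM⟩ := mk U (fun x hx => ((hU x).1 hx).1)
    have h5 := tight M (by
      intro s hs n hn
      obtain ⟨x₀, hx₀, c₀, _, hc₀, rfl⟩ := dec s hs
      obtain ⟨x, hx, c, hc, rfl⟩ := (hM n).1 hn
      rw [hM]
      have hxS := ((hU x).1 hx).1
      refine ⟨x₀ * x * x₀⁻¹, ?_, c₀ * c * c₀⁻¹, cmul _ _ (cmul _ _ hc₀ hc) (cinv _ hc₀), ?_⟩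
      · rw [hU]
        exact ⟨S₁.mul_mem (S₁.mul_mem hx₀ hxS) (S₁.inv_mem hx₀), ((hU x).1 hx).2.conj x₀⟩
      · have h6 : c₀ * x = x * c₀ := hc₀ x hxS
        have h7 : c₀ * c * c₀⁻¹ * x₀⁻¹ = x₀⁻¹ * (c₀ * c * c₀⁻¹) :=
          cmul _ _ (cmul _ _ hc₀ hc) (cinv _ hc₀) _ (S₁.inv_mem hx₀)
        calc x₀ * c₀ * (x * c) * (x₀ * c₀)⁻¹ = x₀ * (c₀ * x) * c * c₀⁻¹ * x₀⁻¹ := by group
          _ = x₀ * x * (c₀ * c * c₀⁻¹ * x₀⁻¹) := by rw [h6]; group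
          _ = x₀ * x * x₀⁻¹ * (c₀ * c * c₀⁻¹) := by rw [h7]; group) (by
      intro s hs
      obtain ⟨x, hx, c, _, hc, he⟩ := dec s hs
      rw [commk s x c hx hc he, hM]
      refine ⟨_, (hU _).2 ⟨S₁.mul_mem (S₁.inv_mem hx) (F₁.nrm S₁ h1 k hk x hx), htr x hx⟩, _,
        cmul _ _ (cinv _ hc) (cc k hk c hc), rfl⟩)
    apply nocomm
    intro s hs hs5
    obtain ⟨x, hx, c, hc, rfl⟩ := (hM s).1 (h5 hs)
    have hx' := (hU x).1 hx
    have : x = 1 := (dec5 x hx'.1 c hc hs5).eq_one hx'.2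
    subst this
    rw [one_mul]; exact hc
  -- the subgroup `Q`
  let Q : Subgroup G :=
    { carrier := {x | x ∈ S₁ ∧ ∃ c, (∀ y ∈ S₁, c * y = y * c) ∧ x * c ∈ S₂}
      one_mem' := ⟨S₁.one_mem, 1, by simp, by simpa using S₂.one_mem⟩
      mul_mem' := by
        rintro x x' ⟨hx, c, hc, hs⟩ ⟨hx', c', hc', hs'⟩
        refine ⟨S₁.mul_mem hx hx', c * c', cmul _ _ hc hc', ?_⟩
        have := S₂.mul_mem hs hs'
        have e : x * c * (x' * c') = x * x' * (c * c') := by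
          calc x * c * (x' * c') = x * (c * x') * c' := by group
            _ = x * (x' * c) * c' := by rw [hc x' hx']
            _ = x * x' * (c * c') := by group
        rwa [e] at this
      inv_mem' := by
        rintro x ⟨hx, c, hc, hs⟩
        refine ⟨S₁.inv_mem hx, c⁻¹, cinv _ hc, ?_⟩
        have := S₂.inv_mem hs
        rwa [← hc x hx, mul_inv_rev] at this }
  have hQ : ∀ x, x ∈ Q ↔ x ∈ S₁ ∧ ∃ c, (∀ y ∈ S₁, c * y = y * c) ∧ x * c ∈ S₂ := fun x => Iff.rfl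
  rcases hJ.f6S φ₁ (F₁.nrm S₁ h1 k hk) hp ht1 (Q := Q) (fun x hx => hx.1) (by
      rintro s hs x ⟨hx, c, hc, hxc⟩
      refine ⟨S₁.mul_mem (S₁.mul_mem hs hx) (S₁.inv_mem hs), c, hc, ?_⟩
      have h5 := n2 s (F₁.le S₁ h1 hs) _ hxc
      have h6 := hc _ (S₁.inv_mem hs)
      have e : s * (x * c) * s⁻¹ = s * x * s⁻¹ * c := by
        rw [mul_assoc s (x * c), mul_assoc x c, h6]; group
      rwa [e] at h5) (by
      rintro x ⟨hx, c, hc, hxc⟩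
      refine ⟨F₁.nrm S₁ h1 k hk x hx, k * c * k⁻¹, cc k hk c hc, ?_⟩
      have h5 := n2 k hk _ hxc
      have e : k * (x * c) * k⁻¹ = k * x * k⁻¹ * (k * c * k⁻¹) := by group
      rwa [e] at h5) (by
      intro N hN hN1 hN2
      obtain ⟨M, hM⟩ := mk N (fun x hx => (hN hx).1)
      have h5 := tight M (by
        intro s hs n hn
        obtain ⟨x₀, hx₀, c₀, _, hc₀, rfl⟩ := dec s hs
        obtain ⟨x, hx, c, hc, rfl⟩ := (hM n).1 hn
        rw [hM]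
        have hxS := (hN hx).1
        refine ⟨x₀ * x * x₀⁻¹, hN1 x₀ ⟨hx₀, c₀, hc₀, hs⟩ x hx, c₀ * c * c₀⁻¹,
          cmul _ _ (cmul _ _ hc₀ hc) (cinv _ hc₀), ?_⟩
        have h6 : c₀ * x = x * c₀ := hc₀ x hxS
        have h7 : c₀ * c * c₀⁻¹ * x₀⁻¹ = x₀⁻¹ * (c₀ * c * c₀⁻¹) :=
          cmul _ _ (cmul _ _ hc₀ hc) (cinv _ hc₀) _ (S₁.inv_mem hx₀)
        calc x₀ * c₀ * (x * c) * (x₀ * c₀)⁻¹ = x₀ * (c₀ * x) * c * c₀⁻¹ * x₀⁻¹ := by group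
          _ = x₀ * x * (c₀ * c * c₀⁻¹ * x₀⁻¹) := by rw [h6]; group
          _ = x₀ * x * x₀⁻¹ * (c₀ * c * c₀⁻¹) := by rw [h7]; group) (by
        intro s hs
        obtain ⟨x, hx, c, _, hc, he⟩ := dec s hs
        rw [commk s x c hx hc he, hM]
        exact ⟨_, hN2 x ⟨hx, c, hc, he ▸ hs⟩, _, cmul _ _ (cinv _ hc) (cc k hk c hc), rfl⟩)
      rintro x ⟨hx, c, hc, hxc⟩
      obtain ⟨x', hx', c', hc', he⟩ := (hM _).1 (h5 hxc)
      have := uq x hx x' (hN hx').1 c c' hc hc' he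
      rw [this]; exact hx') with h5 | h5
  · apply nocomm
    intro s hs hs5
    obtain ⟨x, hx, c, _, hc, rfl⟩ := dec s hs
    have := h5 x ⟨hx, c, hc, hs⟩ (dec5 x hx c hc hs5)
    subst this
    rw [one_mul]; exact hc
  · -- `S₂` projects onto `S₁`
    have hex : ∀ x : S₁, ∃ s : S₂, ∃ c, (∀ y ∈ S₁, c * y = y * c) ∧ (s : G) = x * c := by
      rintro ⟨x, hx⟩
      obtain ⟨_, c, hc, hxc⟩ := h5 hx
      exact ⟨⟨x * c, hxc⟩, c, hc, rfl⟩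
    choose σ cσ hcσ hσ using hex
    have hinj : Function.Injective σ := by
      intro x x' h
      apply Subtype.ext
      apply uq x x.2 x' x'.2 (cσ x) (cσ x') (hcσ x) (hcσ x')
      rw [← hσ, ← hσ, h]
    haveI : Finite S₁ := Finite.of_equiv J φ₁.toEquiv
    haveI : Finite S₂ := Finite.of_equiv J φ₂.toEquiv
    have hcard : Nat.card S₁ = Nat.card S₂ := by
      rw [← Nat.card_congr φ₁.toEquiv, ← Nat.card_congr φ₂.toEquiv]
    have hbij : Function.Bijective σ := (Nat.bijective_iff_injective_and_card σ).2 ⟨hinj, hcard⟩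
    have hd : ∀ d ∈ S₂, (∀ y ∈ S₁, d * y = y * d) → d = 1 := by
      have aux : ∀ d ∈ S₂, (∀ y ∈ S₁, d * y = y * d) → d = σ 1 := by
        intro d hd hdc
        obtain ⟨x, hx⟩ := hbij.2 ⟨d, hd⟩
        have h6 : x = 1 := by
          apply Subtype.ext
          apply uq x x.2 1 S₁.one_mem (cσ x) d (hcσ x) hdc
          rw [← hσ x, hx, one_mul]
        rw [h6] at hx
        rw [hx]
      intro d hd hdc
      rw [aux d hd hdc, ← aux 1 S₂.one_mem (by simp)]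
    apply hne
    -- every element of `S₂` lies in `S₁`
    have h6 : S₂ ≤ S₁ := by
      intro s hs
      obtain ⟨x, hx, c, hcR, hc, rfl⟩ := dec s hs
      have hc1 : c = 1 := by
        apply c1.center hcR
        intro S hS y hy
        by_cases hSS : S = S₁
        · subst hSS; exact hc y hy
        · have hyx : y * x = x * y := F₁.comm S hS S₁ h1 hSS y hy x hx
          have hyS : y * (x * c) * y⁻¹ ∈ S₂ := n2 y (F₁.le S hS hy) _ hs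
          have h7 : (x * c)⁻¹ * (y * (x * c) * y⁻¹) ∈ S₂ := S₂.mul_mem (S₂.inv_mem hs) hyS
          have e : (x * c)⁻¹ * (y * (x * c) * y⁻¹) = c⁻¹ * (y * c * y⁻¹) := by
            calc (x * c)⁻¹ * (y * (x * c) * y⁻¹) = c⁻¹ * x⁻¹ * (y * x) * c * y⁻¹ := by group
              _ = c⁻¹ * x⁻¹ * (x * y) * c * y⁻¹ := by rw [hyx]
              _ = c⁻¹ * (y * c * y⁻¹) := by group
          rw [e] at h7
          have h8 := hd _ h7 (cmul _ _ (cinv _ hc) (cc y (F₁.le S hS hy) c hc))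
          rw [inv_mul_eq_one] at h8
          calc c * y = y * c * y⁻¹ * y := by rw [← h8]
            _ = y * c := by group
      rw [hc1, mul_one]; exact hx
    apply le_antisymm ?_ h6
    intro x hx
    obtain ⟨_, c, hc, hxc⟩ := h5 hx
    have h7 := h6 hxc
    have h8 : c ∈ S₁ := by
      have := S₁.mul_mem (S₁.inv_mem hx) h7
      rwa [inv_mul_cancel_left] at this
    have h9 := hJ.cenS φ₁ h8 hc
    rwa [h9, mul_one] at hxc

end Pool.Agent.Helper218.Lk
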