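import Pool.Agent.Helper218.Lk5

set_option autoImplicit false
set_option linter.all false

namespace Pool.Agent.Helper218.Lk

open Subgroup

open scoped commutatorElement

variable {J : Type} [Group J] {T : MulAut J → Prop} {G : Type*} [Group G]

/-! ### transport -/

lemma map_sSup' {H : Type*} [Group H] (f : H →* G) (𝒥 : Set (Subgroup H)) :
    (sSup 𝒥).map f = sSup ((fun J : Subgroup H => J.map f) '' 𝒥) := by
  rw [sSup_image]
  exact (Subgroup.gc_map_comap f).l_sSup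

lemma Fam.map {H : Type*} [Group H] (f : H →* G) (hf : Function.Injective f) {K : Subgroup H}
    {𝒥 : Set (Subgroup H)} (F : Fam J T K 𝒥) :
    Fam J T (K.map f) ((fun S : Subgroup H => S.map f) '' 𝒥) := by
  refine ⟨?_, ?_, ?_, ?_, ?_, ?_⟩
  · rintro _ ⟨S, hS, rfl⟩
    exact Subgroup.map_mono (F.le S hS)
  · rintro _ ⟨S, hS, rfl⟩ _ ⟨k, hk, rfl⟩ _ ⟨x, hx, rfl⟩
    exact ⟨k * x * k⁻¹, F.nrm S hS k hk x hx, by simp⟩
  · rintro _ ⟨S, hS, rfl⟩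
    exact ⟨(F.blk S hS).some.trans (S.equivMapOfInjective f hf)⟩
  · rintro _ ⟨S, hS, rfl⟩ _ ⟨k, hk, rfl⟩ φ α hα
    let e := S.equivMapOfInjective f hf
    refine F.act S hS k hk (φ.trans e.symm) α ?_
    intro j
    apply hf
    have h1 : ∀ y : S.map f, f ((e.symm y : S) : H) = y := by
      intro y
      have := congrArg Subtype.val (e.apply_symm_apply y)
      exact this
    rw [map_mul, map_mul, map_inv]
    change f ((e.symm (φ (α j)) : S) : H) = f k * f ((e.symm (φ j) : S) : H) * (f k)⁻¹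
    rw [h1, h1]
    exact hα j
  · rintro _ ⟨S, hS, rfl⟩ _ ⟨S', hS', rfl⟩ hne _ ⟨x, hx, rfl⟩ _ ⟨y, hy, rfl⟩
    rw [← map_mul, ← map_mul, F.comm S hS S' hS' (fun h => hne (by rw [h])) x hx y hy]
  · rintro _ ⟨k, hk, rfl⟩ h5
    rw [← map_sSup']
    exact ⟨k, F.quo k hk (h5.of_map hf), rfl⟩

lemma Fam.comap {H : Type*} [Group H] (f : H →* G) (hf : Function.Injective f) {K : Subgroup G}
    {𝒥 : Set (Subgroup G)} (hK : K ≤ f.range) (F : Fam J T K 𝒥) :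
    Fam J T (K.comap f) ((fun S : Subgroup G => S.comap f) '' 𝒥) := by
  have hmc : ∀ S ∈ 𝒥, (S.comap f).map f = S := by
    intro S hS
    rw [Subgroup.map_comap_eq, inf_eq_right.2 ((F.le S hS).trans hK)]
  refine ⟨?_, ?_, ?_, ?_, ?_, ?_⟩
  · rintro _ ⟨S, hS, rfl⟩
    exact Subgroup.comap_mono (F.le S hS)
  · rintro _ ⟨S, hS, rfl⟩ k hk x hx
    change f (k * x * k⁻¹) ∈ S
    rw [map_mul, map_mul, map_inv]
    exact F.nrm S hS (f k) hk (f x) hx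
  · rintro _ ⟨S, hS, rfl⟩
    obtain ⟨φ⟩ := F.blk S hS
    have e1 := (S.comap f).equivMapOfInjective f hf
    have e2 := MulEquiv.subgroupCongr (hmc S hS)
    exact ⟨(φ.trans e2.symm).trans e1.symm⟩
  · rintro _ ⟨S, hS, rfl⟩ k hk φ α hα
    have e1 := (S.comap f).equivMapOfInjective f hf
    let e := ((S.comap f).equivMapOfInjective f hf).trans (MulEquiv.subgroupCongr (hmc S hS))
    refine F.act S hS (f k) hk (φ.trans e) α ?_
    intro j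
    have h1 : ∀ y : S.comap f, ((e y : S) : G) = f y := fun y => rfl
    change ((e (φ (α j)) : S) : G) = f k * ((e (φ j) : S) : G) * (f k)⁻¹
    rw [h1, h1, hα j, map_mul, map_mul, map_inv]
  · rintro _ ⟨S, hS, rfl⟩ _ ⟨S', hS', rfl⟩ hne x hx y hy
    apply hf
    rw [map_mul, map_mul]
    exact F.comm S hS S' hS' (fun h => hne (by rw [h])) _ hx _ hy
  · intro k hk h5
    have h1 : (sSup ((fun S : Subgroup G => S.comap f) '' 𝒥)).map f = sSup 𝒥 := by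
      rw [map_sSup', Set.image_image]
      congr 1
      ext S
      constructor
      · rintro ⟨S', hS', rfl⟩
        simp only [hmc S' hS']; exact hS'
      · intro hS
        exact ⟨S, hS, hmc S hS⟩
    have h2 := F.quo (f k) hk (h5.map f)
    rw [← h1] at h2
    exact (Subgroup.mem_map_iff_mem hf).1 h2

variable (hJ : BD J)

include hJ

/-! ### uniqueness -/

lemma Fam.uniq_le [Finite G] {K : Subgroup G} {𝒥 𝒦 : Set (Subgroup G)} (hK : K.Normal)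
    (g : K ≤ K5 K) (F : Fam J T K 𝒥) (F' : Fam J T K 𝒦) : 𝒥 ⊆ 𝒦 := by
  intro S hS
  by_contra hcon
  obtain ⟨φ⟩ := F.blk S hS
  have h1 : ∀ S' ∈ 𝒦, ∀ x ∈ S, ∀ y ∈ S', x * y = y * x := by
    intro S' hS'
    rcases Fam.two hJ hK hK g g F F' hS hS' (F.nrm S hS) (F'.nrm S' hS') with h | h
    · rw [h] at hcon; exact absurd hS' hcon
    · exact h
  have h2 : ∀ x ∈ S, E5 x → x = 1 := by
    intro x hx h5
    exact (F'.cf hJ).center (F'.quo x (F.le S hS hx) h5) (fun S' hS' y hy => h1 S' hS' x hx y hy)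
  obtain ⟨a, ha, b, hb, h3, h4⟩ := hJ.comS φ
  exact h4 (h2 _ (S.mul_mem (S.mul_mem (S.mul_mem (S.inv_mem ha) hb) ha) (S.inv_mem hb)) h3)

lemma Fam.uniq [Finite G] {K : Subgroup G} {𝒥 𝒦 : Set (Subgroup G)} (hK : K.Normal)
    (g : K ≤ K5 K) (F : Fam J T K 𝒥) (F' : Fam J T K 𝒦) : 𝒥 = 𝒦 :=
  Set.Subset.antisymm (Fam.uniq_le hJ hK g F F') (Fam.uniq_le hJ hK g F' F)

lemma Fam.inv [Finite G] {K : Subgroup G} {𝒥 : Set (Subgroup G)} (hK : K.Normal)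
    (g : K ≤ K5 K) (F : Fam J T K 𝒥) (y : G) {S : Subgroup G} (hS : S ∈ 𝒥) :
    S.map (MulAut.conj y).toMonoidHom ∈ 𝒥 := by
  have h1 := F.map (MulAut.conj y).toMonoidHom (MulAut.conj y).injective
  have h2 : K.map (MulAut.conj y).toMonoidHom = K := by
    apply le_antisymm
    · rintro _ ⟨x, hx, rfl⟩
      exact hK.conj_mem x hx y
    · intro x hx
      refine ⟨y⁻¹ * x * y, ?_, ?_⟩
      · have := hK.conj_mem x hx y⁻¹
        rwa [inv_inv] at this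
      · change y * (y⁻¹ * x * y) * y⁻¹ = x
        group
  rw [h2] at h1
  rw [Fam.uniq hJ hK g F h1]
  exact ⟨S, hS, rfl⟩

lemma Fam.sup_normal [Finite G] {K : Subgroup G} {𝒥 : Set (Subgroup G)} (hK : K.Normal)
    (g : K ≤ K5 K) (F : Fam J T K 𝒥) : (sSup 𝒥).Normal := by
  constructor
  intro x hx y
  have h1 : (sSup 𝒥).map (MulAut.conj y).toMonoidHom ≤ sSup 𝒥 := by
    rw [map_sSup']
    apply sSup_le
    rintro _ ⟨S, hS, rfl⟩
    exact le_sSup (Fam.inv hJ hK g F y hS)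
  exact h1 ⟨x, hx, rfl⟩

/-! ### the other group normalises the blocks -/

lemma Fam.nrm2 [Finite G] {K₁ K₂ : Subgroup G} {𝒥₁ 𝒥₂ : Set (Subgroup G)} (k1 : K₁.Normal)
    (k2 : K₂.Normal) (g1 : K₁ ≤ K5 K₁) (g2 : K₂ ≤ K5 K₂) (F₁ : Fam J T K₁ 𝒥₁)
    (F₂ : Fam J T K₂ 𝒥₂) {S : Subgroup G} (hS : S ∈ 𝒥₁) :
    ∀ y ∈ K₂, ∀ x ∈ S, y * x * y⁻¹ ∈ S := by
  -- it suffices to consider a single element
  intro y hy
  by_contra hcon
  obtain ⟨φ⟩ := F₁.blk S hS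
  set S' := S.map (MulAut.conj y).toMonoidHom with hS'
  have hS'm : S' ∈ 𝒥₁ := Fam.inv hJ k1 g1 F₁ y hS
  have hmem : ∀ x ∈ S, y * x * y⁻¹ ∈ S' := fun x hx => ⟨x, hx, rfl⟩
  have hne : S ≠ S' := by
    intro h
    apply hcon
    intro x hx
    rw [h]; exact hmem x hx
  have hc : ∀ a ∈ S, ∀ b ∈ S', a * b = b * a := F₁.comm S hS S' hS'm hne
  have hint : ∀ τ ∈ S, τ ∈ S' → τ = 1 := by
    intro τ h1 h2
    exact hJ.cenS φ h1 (fun x hx => (hc x hx τ h2).symm)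
  -- commutators of `S` lie in `K₂`
  have hK2 : ∀ a ∈ S, ∀ b ∈ S, a⁻¹ * b * a * b⁻¹ ∈ K₂ := by
    intro a ha b hb
    have h1 : a⁻¹ * (y * a * y⁻¹) ∈ K₂ := by
      have : a⁻¹ * (y * a * y⁻¹) = (a⁻¹ * y * a⁻¹⁻¹) * y⁻¹ := by group
      rw [this]
      exact K₂.mul_mem (k2.conj_mem y hy _) (K₂.inv_mem hy)
    have h2 := K₂.mul_mem h1 (K₂.inv_mem (k2.conj_mem _ h1 b))
    have h3 := hc b hb _ (hmem a ha)
    have e : a⁻¹ * (y * a * y⁻¹) * (b * (a⁻¹ * (y * a * y⁻¹)) * b⁻¹)⁻¹ = a⁻¹ * b * a * b⁻¹ := by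
      calc a⁻¹ * (y * a * y⁻¹) * (b * (a⁻¹ * (y * a * y⁻¹)) * b⁻¹)⁻¹
          = a⁻¹ * ((y * a * y⁻¹) * b) * (y * a * y⁻¹)⁻¹ * a * b⁻¹ := by group
        _ = a⁻¹ * (b * (y * a * y⁻¹)) * (y * a * y⁻¹)⁻¹ * a * b⁻¹ := by rw [h3]
        _ = a⁻¹ * b * a * b⁻¹ := by group
    rwa [e] at h2
  obtain ⟨a, ha, b, hb, h5, h1⟩ := hJ.comS φ
  set z := a⁻¹ * b * a * b⁻¹ with hz
  have hzS : z ∈ S := S.mul_mem (S.mul_mem (S.mul_mem (S.inv_mem ha) hb) ha) (S.inv_mem hb)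
  have hzR2 : z ∈ sSup 𝒥₂ := F₂.quo z (hK2 a ha b hb) h5
  have hR1 := Fam.sup_normal hJ k1 g1 F₁
  have hzR1 : z ∈ sSup 𝒥₁ := le_sSup hS hzS
  -- a block of the second family moved by `z`
  have hex : ∃ S₂ ∈ 𝒥₂, ¬ ∀ w ∈ S₂, z * w = w * z := by
    by_contra hcc
    push Not at hcc
    exact h1 ((F₂.cf hJ).center hzR2 hcc)
  obtain ⟨S₂, hS₂, hnc⟩ := hex
  obtain ⟨ψ⟩ := F₂.blk S₂ hS₂
  obtain ⟨x, hx, c, _, hcx, he⟩ := (F₂.cf hJ).split hS₂ hzR2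
  -- `x` is a nontrivial 5-element
  have hx1 : x ≠ 1 := by
    intro h
    apply hnc
    intro w hw
    rw [he, h, one_mul]; exact hcx w hw
  have hx5 : E5 x := by
    obtain ⟨n, hn⟩ := h5
    have hcm : Commute x c := (hcx x hx).symm
    rw [he, hcm.mul_pow] at hn
    refine ⟨n, hJ.cenS ψ (S₂.pow_mem hx _) ?_⟩
    intro w hw
    have h6 : x ^ 5 ^ n = (c ^ 5 ^ n)⁻¹ := eq_inv_of_mul_eq_one_left hn
    rw [h6]
    exact ((show Commute c w from hcx w hw).pow_left _).inv_left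
  set x' := y * x * y⁻¹ with hx'
  have hx'S : x' ∈ S₂ := F₂.nrm S₂ hS₂ y hy x hx
  have hx'5 : E5 x' := hx5.conj y
  have hx'1 : x' ≠ 1 := by
    intro h
    apply hx1
    rw [hx', mul_inv_eq_one] at h
    exact mul_eq_left.1 h
  set c' := y * c * y⁻¹ with hc'
  have hcx' : ∀ w ∈ S₂, c' * w = w * c' := by
    intro w hw
    have h6 := F₂.nrm S₂ hS₂ y⁻¹ (K₂.inv_mem hy) w hw
    rw [inv_inv] at h6
    have h7 := hcx _ h6
    calc c' * w = y * (c * (y⁻¹ * w * y)) * y⁻¹ := by rw [hc']; group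
      _ = y * ((y⁻¹ * w * y) * c) * y⁻¹ := by rw [h7]
      _ = w * c' := by rw [hc']; group
  have he' : y * z * y⁻¹ = x' * c' := by rw [hx', hc', he]; group
  -- the axiom
  obtain ⟨u, hu, u', hu', h6, h7⟩ := hJ.axS ψ hx hx'S hx5 hx1 hx'5 hx'1
  -- brackets with `z` and with `x` agree on `S₂`
  have br : ∀ w ∈ S₂, ∀ (p d : G), p ∈ S₂ → (∀ v ∈ S₂, d * v = v * d) → ⁅w, p * d⁆ = ⁅w, p⁆ := by
    intro w hw p d hp hd
    have h8 := hd _ (S₂.inv_mem hw)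
    rw [commutatorElement_def, commutatorElement_def]
    calc w * (p * d) * w⁻¹ * (p * d)⁻¹ = w * p * (d * w⁻¹) * d⁻¹ * p⁻¹ := by group
      _ = w * p * (w⁻¹ * d) * d⁻¹ * p⁻¹ := by rw [h8]
      _ = w * p * w⁻¹ * p⁻¹ := by group
  have bm : ∀ w ∈ S₂, ∀ p ∈ S₂, ⁅w, p⁆ ∈ S₂ := by
    intro w hw p hp
    rw [commutatorElement_def]
    exact S₂.mul_mem (S₂.mul_mem (S₂.mul_mem hw hp) (S₂.inv_mem hw)) (S₂.inv_mem hp)
  have e1 : ⁅⁅u, x⁆, x⁆ = ⁅⁅u, z⁆, z⁆ := by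
    rw [he, br u hu x c hx hcx, br _ (bm u hu x hx) x c hx hcx]
  have e2 : ⁅⁅u', x'⁆, x'⁆ = ⁅⁅u', y * z * y⁻¹⁆, y * z * y⁻¹⁆ := by
    rw [he', br u' hu' x' c' hx'S hcx', br _ (bm u' hu' x' hx'S) x' c' hx'S hcx']
  -- membership
  have mm : ∀ (S₀ : Subgroup G) (p w : G), S₀ ∈ 𝒥₁ → p ∈ S₀ → ⁅⁅w, p⁆, p⁆ ∈ S₀ := by
    intro S₀ p w hS₀ hp
    have h8 : ⁅w, p⁆ ∈ sSup 𝒥₁ := by
      rw [commutatorElement_def]
      exact Subgroup.mul_mem _ (hR1.conj_mem p (le_sSup hS₀ hp) w)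
        (Subgroup.inv_mem _ (le_sSup hS₀ hp))
    have h9 : sSup 𝒥₁ ≤ K₁ := sSup_le (fun S hS => F₁.le S hS)
    rw [commutatorElement_def ⁅w, p⁆ p]
    exact S₀.mul_mem (F₁.nrm S₀ hS₀ _ (h9 h8) p hp) (S₀.inv_mem hp)
  have m1 := mm S z u hS hzS
  have m2 := mm S' (y * z * y⁻¹) u' hS'm (hmem z hzS)
  rw [← e1] at m1
  rw [← e2, ← h6] at m2
  exact h7 (hint _ m1 m2)

end Pool.Agent.Helper218.Lk
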