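import Pool.Agent.Helper218.Lk6

set_option autoImplicit false
set_option linter.all false

namespace Pool.Agent.Helper218.Lk

open Subgroup

open scoped commutatorElement

variable {J : Type} [Group J] {T : MulAut J → Prop} {G : Type*} [Group G]

lemma K5_gen (N : Subgroup G) : K5 N ≤ K5 (K5 N) := by
  rw [K5, Subgroup.closure_le]
  rintro g ⟨hg, h⟩
  exact mem_K5 (mem_K5 hg h) h

lemma Fam.mono {T' : MulAut J → Prop} (h : ∀ α, T α → T' α) {K : Subgroup G}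
    {𝒥 : Set (Subgroup G)} (F : Fam J T K 𝒥) : Fam J T' K 𝒥 :=
  ⟨F.le, F.nrm, F.blk, fun S hS k hk φ α hα => h α (F.act S hS k hk φ α hα), F.comm, F.quo⟩

lemma exFam_iff (N : Subgroup G) :
    (∃ 𝒥 : Set (Subgroup N), Fam J T (K5 (⊤ : Subgroup N)) 𝒥) ↔
      ∃ 𝒥 : Set (Subgroup G), Fam J T (K5 N) 𝒥 := by
  have e1 : (K5 (⊤ : Subgroup N)).map N.subtype = K5 N := by
    rw [← K5_map N.subtype N.subtype_injective, ← MonoidHom.range_eq_map, Subgroup.range_subtype]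
  constructor
  · rintro ⟨𝒥, F⟩
    have := Fam.map N.subtype N.subtype_injective F
    rw [e1] at this
    exact ⟨_, this⟩
  · rintro ⟨𝒥, F⟩
    have := Fam.comap N.subtype N.subtype_injective (K := K5 N) (by
      rw [Subgroup.range_subtype]; exact K5_le N) F
    rw [← e1, Subgroup.comap_map_eq_self_of_injective N.subtype_injective] at this
    exact ⟨_, this⟩

variable (hJ : BD J)

include hJ

lemma Fam.tr_of_not_mem [Finite G] {K₁ K₂ : Subgroup G} {𝒥₁ 𝒥₂ : Set (Subgroup G)} (k1 : K₁.Normal)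
    (k2 : K₂.Normal) (g1 : K₁ ≤ K5 K₁) (g2 : K₂ ≤ K5 K₂) (F₁ : Fam J T K₁ 𝒥₁)
    (F₂ : Fam J T K₂ 𝒥₂) {S : Subgroup G} (hS : S ∈ 𝒥₁) (hS' : S ∉ 𝒥₂) :
    ∀ k ∈ K₂, TrS S k := by
  have hc : ∀ S' ∈ 𝒥₂, ∀ x ∈ S, ∀ y ∈ S', x * y = y * x := by
    intro S' hS₂
    rcases Fam.two hJ k1 k2 g1 g2 F₁ F₂ hS hS₂ (Fam.nrm2 hJ k1 k2 g1 g2 F₁ F₂ hS)
      (Fam.nrm2 hJ k2 k1 g2 g1 F₂ F₁ hS₂) with h | h
    · rw [h] at hS'; exact absurd hS₂ hS'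
    · exact h
  have h5 : ∀ x ∈ S ⊓ K₂, E5 x → x = 1 := by
    rintro x ⟨hx, hxK⟩ h5
    exact (F₂.cf hJ).center (F₂.quo x hxK h5) (fun S' hS₂ y hy => hc S' hS₂ x hx y hy)
  intro k hk x hx
  apply P5_of_no h5
  constructor
  · exact S.mul_mem (S.inv_mem hx) (Fam.nrm2 hJ k1 k2 g1 g2 F₁ F₂ hS k hk x hx)
  · have : x⁻¹ * (k * x * k⁻¹) = (x⁻¹ * k * x⁻¹⁻¹) * k⁻¹ := by group
    rw [this]
    exact K₂.mul_mem (k2.conj_mem k hk _) (K₂.inv_mem hk)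

lemma Fam.sup_act (hT : TD T) [Finite G] {K₁ K₂ : Subgroup G} {𝒥₁ 𝒥₂ : Set (Subgroup G)}
    (k1 : K₁.Normal) (k2 : K₂.Normal) (g1 : K₁ ≤ K5 K₁) (g2 : K₂ ≤ K5 K₂) (F₁ : Fam J T K₁ 𝒥₁)
    (F₂ : Fam J T K₂ 𝒥₂) {S : Subgroup G} (hS : S ∈ 𝒥₁) (φ : J ≃* S) {k : G} (hk : k ∈ K₁ ⊔ K₂)
    {α : MulAut J} (hα : Rel φ k α) : T α := by
  haveI := k1
  haveI := k2
  obtain ⟨a, ha, b, hb, rfl⟩ := Subgroup.mem_sup_of_normal_right.1 hk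
  obtain ⟨α₁, h1⟩ := Rel.exists hJ.fin φ (F₁.nrm S hS a ha)
  obtain ⟨α₂, h2⟩ := Rel.exists hJ.fin φ (Fam.nrm2 hJ k1 k2 g1 g2 F₁ F₂ hS b hb)
  rw [hα.unique (h1.mul h2)]
  apply hT.mul _ _ (F₁.act S hS a ha φ α₁ h1)
  by_cases hS' : S ∈ 𝒥₂
  · exact F₂.act S hS' b hb φ α₂ h2
  · exact hT.tr _ (h2.tr.2 (Fam.tr_of_not_mem hJ k1 k2 g1 g2 F₁ F₂ hS hS' b hb))

theorem Fam.sup (hT : TD T) [Finite G] {K₁ K₂ : Subgroup G} {𝒥₁ 𝒥₂ : Set (Subgroup G)}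
    (k1 : K₁.Normal) (k2 : K₂.Normal) (g1 : K₁ ≤ K5 K₁) (g2 : K₂ ≤ K5 K₂) (F₁ : Fam J T K₁ 𝒥₁)
    (F₂ : Fam J T K₂ 𝒥₂) : Fam J T (K₁ ⊔ K₂) (𝒥₁ ∪ 𝒥₂) := by
  haveI := k1
  haveI := k2
  have hn1 : ∀ S ∈ 𝒥₁, ∀ k ∈ K₁ ⊔ K₂, ∀ x ∈ S, k * x * k⁻¹ ∈ S := by
    intro S hS k hk x hx
    obtain ⟨a, ha, b, hb, rfl⟩ := Subgroup.mem_sup_of_normal_right.1 hk
    have h1 := Fam.nrm2 hJ k1 k2 g1 g2 F₁ F₂ hS b hb x hx
    have h2 := F₁.nrm S hS a ha _ h1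
    have e : a * (b * x * b⁻¹) * a⁻¹ = a * b * x * (a * b)⁻¹ := by group
    rwa [e] at h2
  have hn2 : ∀ S ∈ 𝒥₂, ∀ k ∈ K₁ ⊔ K₂, ∀ x ∈ S, k * x * k⁻¹ ∈ S := by
    intro S hS k hk x hx
    obtain ⟨a, ha, b, hb, rfl⟩ := Subgroup.mem_sup_of_normal_right.1 hk
    have h1 := F₂.nrm S hS b hb x hx
    have h2 := Fam.nrm2 hJ k2 k1 g2 g1 F₂ F₁ hS a ha _ h1
    have e : a * (b * x * b⁻¹) * a⁻¹ = a * b * x * (a * b)⁻¹ := by group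
    rwa [e] at h2
  have h12 : ∀ S ∈ 𝒥₁, ∀ S' ∈ 𝒥₂, S ≠ S' → ∀ x ∈ S, ∀ y ∈ S', x * y = y * x := by
    intro S hS S' hS' hne
    rcases Fam.two hJ k1 k2 g1 g2 F₁ F₂ hS hS' (Fam.nrm2 hJ k1 k2 g1 g2 F₁ F₂ hS)
      (Fam.nrm2 hJ k2 k1 g2 g1 F₂ F₁ hS') with h | h
    · exact absurd h hne
    · exact h
  refine ⟨?_, ?_, ?_, ?_, ?_, ?_⟩
  · rintro S (hS | hS)
    · exact (F₁.le S hS).trans le_sup_left
    · exact (F₂.le S hS).trans le_sup_right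
  · rintro S (hS | hS)
    · exact hn1 S hS
    · exact hn2 S hS
  · rintro S (hS | hS)
    · exact F₁.blk S hS
    · exact F₂.blk S hS
  · rintro S (hS | hS) k hk φ α hα
    · exact Fam.sup_act hJ hT k1 k2 g1 g2 F₁ F₂ hS φ hk hα
    · rw [sup_comm] at hk
      exact Fam.sup_act hJ hT k2 k1 g2 g1 F₂ F₁ hS φ hk hα
  · rintro S (hS | hS) S' (hS' | hS') hne x hx y hy
    · exact F₁.comm S hS S' hS' hne x hx y hy
    · exact h12 S hS S' hS' hne x hx y hy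
    · exact (h12 S' hS' S hS (Ne.symm hne) y hy x hx).symm
    · exact F₂.comm S hS S' hS' hne x hx y hy
  · intro k hk h5
    rw [sSup_union]
    haveI := Fam.sup_normal hJ k1 g1 F₁
    haveI := Fam.sup_normal hJ k2 g2 F₂
    obtain ⟨n, hn, hkn⟩ := sup_pow' (R := sSup 𝒥₁ ⊔ sSup 𝒥₂) k1 k2 inferInstance (by
        intro x hx
        obtain ⟨_, m, hm, h1, _⟩ := split5 x
        exact ⟨m, hm, le_sup_left (b := sSup 𝒥₂) (F₁.quo _ (K₁.pow_mem hx m) h1)⟩) (by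
        intro x hx
        obtain ⟨_, m, hm, h1, _⟩ := split5 x
        exact ⟨m, hm, le_sup_right (a := sSup 𝒥₁) (F₂.quo _ (K₂.pow_mem hx m) h1)⟩) k hk
    exact h5.mem_of hn hkn

theorem Fam.sub [Finite G] {K K₀ : Subgroup G} {𝒥 : Set (Subgroup G)} (F : Fam J T K 𝒥)
    (k0 : K₀.Normal) (g0 : K₀ ≤ K5 K₀) (hle : K₀ ≤ K) : Fam J T K₀ {S | S ∈ 𝒥 ∧ S ≤ K₀} := by
  refine ⟨fun S hS => hS.2, fun S hS k hk => F.nrm S hS.1 k (hle hk), fun S hS => F.blk S hS.1,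
    fun S hS k hk => F.act S hS.1 k (hle hk), fun S hS S' hS' => F.comm S hS.1 S' hS'.1, ?_⟩
  intro k hk h5
  apply (F.cf hJ).sub_mem (fun S hS => hS.1) (F.quo k (hle hk) h5)
  intro S hS hS' y hy
  rcases dich hJ k0 g0 (F.blk S hS).some (fun k hk => F.nrm S hS k (hle hk)) with h | h
  · exact h k hk h5 y hy
  · exact absurd ⟨hS, h.1⟩ hS'

omit hJ in
/-- the class of groups with a family of blocks -/
def XC (J : Type) [Group J] (T : MulAut J → Prop) : Cls := fun G _ =>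
  Finite G ∧ Group.IsSolvable G ∧ ∃ 𝒥 : Set (Subgroup G), Fam J T (K5 (⊤ : Subgroup G)) 𝒥

omit hJ in
lemma XC_iff {T : MulAut J → Prop} {G : Type} [Group G] (N : Subgroup G) : XC J T N ↔
    Finite N ∧ Group.IsSolvable N ∧ ∃ 𝒥 : Set (Subgroup G), Fam J T (K5 N) 𝒥 := by
  rw [XC, exFam_iff]

theorem XC_fit (hT : TD T) : Fit (XC J T) := by
  refine ⟨fun G _ h => ⟨h.1, h.2.1⟩, ⟨inferInstance, inferInstance, ∅, ?_⟩, ?_, ?_, ?_⟩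
  · refine ⟨by simp, by simp, by simp, by simp, by simp, ?_⟩
    intro k _ _
    rw [Subsingleton.elim k 1]
    exact Subgroup.one_mem _
  · rintro G H _ _ e ⟨h1, h2, 𝒥, F⟩
    haveI := h1
    haveI := h2
    refine ⟨Finite.of_equiv G e.toEquiv, Group.isSolvable_of_surjective (f := e.toMonoidHom) e.surjective,
      ?_⟩
    have := Fam.map e.toMonoidHom e.injective F
    rw [← K5_map e.toMonoidHom e.injective, Subgroup.map_top_of_surjective _ e.surjective] at this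
    exact ⟨_, this⟩
  · rintro G _ N hN ⟨h1, h2, 𝒥, F⟩
    haveI := h1
    haveI := h2
    refine ⟨inferInstance, inferInstance, ?_⟩
    rw [exFam_iff]
    exact ⟨_, Fam.sub hJ F (K5_normal hN) (K5_gen N) (K5_mono le_top)⟩
  · rintro G _ _ N M hN hM ⟨h1, h2, h3⟩ ⟨h4, h5, h6⟩
    refine ⟨inferInstance, Modu.solv_sup hN h2 h5, ?_⟩
    rw [exFam_iff] at h3 h6 ⊢
    obtain ⟨𝒜, FA⟩ := h3
    obtain ⟨ℬ, FB⟩ := h6
    rw [K5_sup hN hM]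
    exact ⟨_, Fam.sup hJ hT (K5_normal hN) (K5_normal hM) (K5_gen N) (K5_gen M) FA FB⟩

theorem XC_inter {T₁ T₂ : MulAut J → Prop} {G : Type} [Group G] (h1 : XC J T₁ G)
    (h2 : XC J T₂ G) : XC J (fun α => T₁ α ∧ T₂ α) G := by
  obtain ⟨a1, a2, 𝒥, F⟩ := h1
  obtain ⟨_, _, 𝒦, F'⟩ := h2
  haveI := a1
  refine ⟨a1, a2, 𝒥, ?_⟩
  have e : 𝒥 = 𝒦 := Fam.uniq hJ (T := fun _ => True) (K5_normal inferInstance) (K5_gen ⊤)
    (F.mono (fun _ _ => trivial)) (F'.mono (fun _ _ => trivial))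
  subst e
  exact ⟨F.le, F.nrm, F.blk, fun S hS k hk φ α hα => ⟨F.act S hS k hk φ α hα,
    F'.act S hS k hk φ α hα⟩, F.comm, F.quo⟩

end Pool.Agent.Helper218.Lk
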