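import Pool.Agent.Helper218.Lk7

set_option autoImplicit false
set_option linter.all false

namespace Pool.Agent.Helper218.Lk

open Subgroup

open scoped commutatorElement

variable {J : Type} [Group J] {T : MulAut J → Prop}

section misc

variable {G : Type*} [Group G]

lemma TrS.mul (hJ : BD J) {S : Subgroup G} (φ : J ≃* S) {y y' : G}
    (hy : ∀ x ∈ S, y * x * y⁻¹ ∈ S) (hy' : ∀ x ∈ S, y' * x * y'⁻¹ ∈ S) (h : TrS S y)
    (h' : TrS S y') : TrS S (y * y') := by
  obtain ⟨U, hU⟩ := hJ.uS φ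
  intro x hx
  have e : x⁻¹ * (y * y' * x * (y * y')⁻¹) =
      (x⁻¹ * (y * x * y⁻¹)) * (y * (x⁻¹ * (y' * x * y'⁻¹)) * y⁻¹) := by group
  rw [e]
  have h1 : x⁻¹ * (y * x * y⁻¹) ∈ U := (hU _).2 ⟨S.mul_mem (S.inv_mem hx) (hy x hx), h x hx⟩
  have h2 : y * (x⁻¹ * (y' * x * y'⁻¹)) * y⁻¹ ∈ U :=
    (hU _).2 ⟨hy _ (S.mul_mem (S.inv_mem hx) (hy' x hx)), (h' x hx).conj y⟩
  exact ((hU _).1 (U.mul_mem h1 h2)).2

/-- some element of `K` acts properly on a block -/
lemma Fam.proper (hJ : BD J) {K : Subgroup G} {𝒥 : Set (Subgroup G)} (g : K ≤ K5 K)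
    (F : Fam J T K 𝒥) {S : Subgroup G} (hS : S ∈ 𝒥) : ∃ k ∈ K, P5 k ∧ ¬ TrS S k := by
  by_contra h
  push Not at h
  obtain ⟨φ⟩ := F.blk S hS
  obtain ⟨a, ha, b, hb, h3, h4⟩ := hJ.comS φ
  apply h4
  have h5 : S ≤ Subgroup.centralizer (S : Set G) := hJ.genS φ (by
    intro x hx hx5
    rw [Subgroup.mem_centralizer_iff]
    intro y hy
    exact (hJ.trcS φ g (fun g hg _ => F.nrm S hS g hg) h (F.le S hS hx) hx5 hy).symm)
  have h6 := (Subgroup.mem_centralizer_iff.1 (h5 ha)) b hb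
  calc a⁻¹ * b * a * b⁻¹ = a⁻¹ * (b * a) * b⁻¹ := by group
    _ = 1 := by rw [h6]; group

lemma Fam.nonab (hJ : BD J) {S : Subgroup G} (φ : J ≃* S) (h : ∀ x ∈ S, ∀ y ∈ S, x * y = y * x) :
    False := by
  obtain ⟨a, ha, b, hb, h3, h4⟩ := hJ.comS φ
  apply h4
  have h6 := h b hb a ha
  calc a⁻¹ * b * a * b⁻¹ = a⁻¹ * (b * a) * b⁻¹ := by group
    _ = 1 := by rw [h6]; group

end misc

section prod

variable {G H : Type} [Group G] [Group H] [Finite G] [Finite H]

lemma K5_fst (D : Subgroup (G × H)) :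
    K5 (D.map (MonoidHom.fst G H)) = (K5 D).map (MonoidHom.fst G H) := by
  apply le_antisymm
  · rw [K5, Subgroup.closure_le]
    rintro x ⟨⟨d, hd, rfl⟩, hx⟩
    obtain ⟨n, hn⟩ := K5_pow hd
    apply hx.mem_of (n := n)
    rw [← map_pow]
    exact ⟨_, hn, rfl⟩
  · rw [Subgroup.map_le_iff_le_comap, K5, Subgroup.closure_le]
    rintro x ⟨hx, hp⟩
    exact mem_K5 ⟨x, hx, rfl⟩ (hp.map _)

/-- every block of a normal subgroup of a direct product lies in a factor -/
lemma block_factor (hJ : BD J) {K : Subgroup (G × H)} {𝒥 : Set (Subgroup (G × H))}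
    (hK : K.Normal) (g : K ≤ K5 K) (F : Fam J T K 𝒥) {S : Subgroup (G × H)} (hS : S ∈ 𝒥) :
    (∀ x ∈ S, x.2 = 1) ∨ (∀ x ∈ S, x.1 = 1) := by
  obtain ⟨φ⟩ := F.blk S hS
  obtain ⟨k, hk, hp, ht⟩ := F.proper hJ g hS
  set y : G × H := (k.1, 1) with hy
  set y' : G × H := (1, k.2) with hy'
  have hyy : k = y * y' := by rw [hy, hy']; ext <;> simp
  have hyc : y * y' = y' * y := by rw [hy, hy']; ext <;> simp
  have py : P5 y := by
    have := hp.map ((MonoidHom.inl G H).comp (MonoidHom.fst G H))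
    exact this
  have py' : P5 y' := by
    have := hp.map ((MonoidHom.inr G H).comp (MonoidHom.snd G H))
    exact this
  -- conjugates
  have hconj : ∀ w : G × H, ¬ (∀ x ∈ S, w * x * w⁻¹ ∈ S) →
      ∀ a ∈ S, ∀ b ∈ S, (w * a * w⁻¹) * b = b * (w * a * w⁻¹) := by
    intro w hw a ha b hb
    have h1 := Fam.inv hJ hK g F w hS
    refine F.comm _ h1 S hS ?_ _ ⟨a, ha, rfl⟩ b hb
    intro h
    apply hw
    intro x hx
    rw [← h]
    exact ⟨x, hx, rfl⟩
  haveI : Finite S := inferInstance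
  -- inverse of a normalising element
  have hinv : ∀ w : G × H, (∀ x ∈ S, w * x * w⁻¹ ∈ S) → ∀ x ∈ S, w⁻¹ * x * w ∈ S := by
    intro w hw x hx
    let f : S → S := fun x => ⟨w * x * w⁻¹, hw x x.2⟩
    have hf : Function.Injective f := by
      intro a b h
      have h2 := congrArg Subtype.val h
      simp only [f] at h2
      exact Subtype.ext (mul_left_cancel (mul_right_cancel h2))
    obtain ⟨z, hz⟩ := (Finite.injective_iff_surjective.1 hf) ⟨x, hx⟩
    have h3 : w * (z : G × H) * w⁻¹ = x := congrArg Subtype.val hz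
    have h4 : w⁻¹ * x * w = z := by rw [← h3]; group
    rw [h4]; exact z.2
  have nk := F.nrm S hS k hk
  have n12 : (∀ x ∈ S, y * x * y⁻¹ ∈ S) ↔ (∀ x ∈ S, y' * x * y'⁻¹ ∈ S) := by
    constructor
    · intro h x hx
      have h1 := hinv y h _ (nk x hx)
      have e : y⁻¹ * (k * x * k⁻¹) * y = y' * x * y'⁻¹ := by
        rw [hyy]; group
      rwa [e] at h1
    · intro h x hx
      have h1 := hinv y' h _ (nk x hx)
      have e : y'⁻¹ * (k * x * k⁻¹) * y' = y * x * y⁻¹ := by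
        rw [hyy, hyc]; group
      rwa [e] at h1
  by_cases hn : ∀ x ∈ S, y * x * y⁻¹ ∈ S
  · have hn' := n12.1 hn
    rcases hJ.tightS φ hn py with h1 | h1
    · rcases hJ.tightS φ hn' py' with h2 | h2
      · exfalso
        apply ht
        rw [hyy]
        exact TrS.mul hJ φ hn hn' h1 h2
      · right
        have h3 := h2 (MonoidHom.inr G H).range (by
          intro s _ n hn
          exact inr_range_normal.conj_mem n hn s) (by
          intro s _
          refine ⟨s.2⁻¹ * (k.2 * s.2 * k.2⁻¹), ?_⟩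
          rw [hy']
          ext <;> simp)
        intro x hx
        obtain ⟨z, rfl⟩ := h3 hx
        rfl
    · left
      have h3 := h1 (MonoidHom.inl G H).range (by
        intro s _ n hn
        exact inl_range_normal.conj_mem n hn s) (by
        intro s _
        refine ⟨s.1⁻¹ * (k.1 * s.1 * k.1⁻¹), ?_⟩
        rw [hy]
        ext <;> simp)
      intro x hx
      obtain ⟨z, rfl⟩ := h3 hx
      rfl
  · exfalso
    have hn' : ¬ (∀ x ∈ S, y' * x * y'⁻¹ ∈ S) := fun h => hn (n12.2 h)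
    apply Fam.nonab hJ φ
    intro a ha b hb
    have h1 := hconj y hn a ha b hb
    have h2 := hconj y' hn' a ha b hb
    apply Prod.ext
    · have := congrArg Prod.fst h2
      simpa [hy'] using this
    · have := congrArg Prod.snd h1
      simpa [hy] using this

lemma Fam.fst (hJ : BD J) {K : Subgroup (G × H)} {𝒥 : Set (Subgroup (G × H))}
    (hK : K.Normal) (g : K ≤ K5 K) (F : Fam J T K 𝒥) :
    Fam J T (K.map (MonoidHom.fst G H))
      ((fun S : Subgroup (G × H) => S.map (MonoidHom.fst G H)) '' {S | S ∈ 𝒥 ∧ ∀ x ∈ S, x.2 = 1}) := by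
  refine ⟨?_, ?_, ?_, ?_, ?_, ?_⟩
  · rintro _ ⟨S, ⟨hS, _⟩, rfl⟩
    exact Subgroup.map_mono (F.le S hS)
  · rintro _ ⟨S, ⟨hS, _⟩, rfl⟩ _ ⟨k, hk, rfl⟩ _ ⟨x, hx, rfl⟩
    exact ⟨k * x * k⁻¹, F.nrm S hS k hk x hx, by simp⟩
  · rintro _ ⟨S, ⟨hS, h2⟩, rfl⟩
    obtain ⟨φ⟩ := F.blk S hS
    refine ⟨φ.trans (MulEquiv.ofBijective
      ((MonoidHom.fst G H).subgroupMap S) ⟨?_, ?_⟩)⟩
    · rintro ⟨a, ha⟩ ⟨b, hb⟩ h
      have h3 : a.1 = b.1 := congrArg Subtype.val h
      apply Subtype.ext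
      apply Prod.ext h3
      change a.2 = b.2
      rw [h2 a ha, h2 b hb]
    · exact MonoidHom.subgroupMap_surjective _ _
  · rintro _ ⟨S, ⟨hS, h2⟩, rfl⟩ _ ⟨k, hk, rfl⟩ φ α hα
    have hbij : Function.Bijective ((MonoidHom.fst G H).subgroupMap S) := by
      constructor
      · rintro ⟨a, ha⟩ ⟨b, hb⟩ h
        have h3 : a.1 = b.1 := congrArg Subtype.val h
        apply Subtype.ext
        apply Prod.ext h3
        change a.2 = b.2
        rw [h2 a ha, h2 b hb]
      · exact MonoidHom.subgroupMap_surjective _ _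
    let e : S ≃* S.map (MonoidHom.fst G H) := MulEquiv.ofBijective _ hbij
    refine F.act S hS k hk (φ.trans e.symm) α ?_
    intro j
    have h1 : ∀ y : S.map (MonoidHom.fst G H), ((e.symm y : S) : G × H) = ((y : G), 1) := by
      intro y
      apply Prod.ext
      · have h3 := congrArg Subtype.val (e.apply_symm_apply y)
        exact h3
      · exact h2 _ (e.symm y).2
    change ((e.symm (φ (α j)) : S) : G × H) = k * ((e.symm (φ j) : S) : G × H) * k⁻¹
    rw [h1, h1]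
    have h3 := hα j
    apply Prod.ext
    · simpa using h3
    · simp
  · rintro _ ⟨S, ⟨hS, _⟩, rfl⟩ _ ⟨S', ⟨hS', _⟩, rfl⟩ hne _ ⟨x, hx, rfl⟩ _ ⟨y, hy, rfl⟩
    rw [← map_mul, ← map_mul, F.comm S hS S' hS' (fun h => hne (by rw [h])) x hx y hy]
  · rintro _ ⟨k, hk, rfl⟩ h5
    obtain ⟨_, m, hm, h1, _⟩ := split5 k
    have h2 := F.quo _ (K.pow_mem hk m) h1
    apply h5.mem_of hm
    rw [← map_pow]
    have h3 : sSup 𝒥 ≤ (sSup ((fun S : Subgroup (G × H) => S.map (MonoidHom.fst G H)) ''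
        {S | S ∈ 𝒥 ∧ ∀ x ∈ S, x.2 = 1})).comap (MonoidHom.fst G H) := by
      apply sSup_le
      intro S hS
      rcases block_factor hJ hK g F hS with h | h
      · rw [← Subgroup.map_le_iff_le_comap]
        exact le_sSup ⟨S, ⟨hS, h⟩, rfl⟩
      · intro x hx
        rw [Subgroup.mem_comap]
        have : (MonoidHom.fst G H) x = 1 := h x hx
        rw [this]
        exact Subgroup.one_mem _
    exact h3 h2

lemma XC_fst (hJ : BD J) (hT : TD T) (hG : Group.IsSolvable G) (hH : Group.IsSolvable H)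
    {g : G} {h : H} (hgh : (g, h) ∈ rad (XC J T) (G × H)) : g ∈ rad (XC J T) G := by
  haveI := hG
  haveI := hH
  obtain ⟨h1, h2⟩ := (XC_fit hJ hT).rad_spec (G × H)
  set D := rad (XC J T) (G × H) with hD
  obtain ⟨_, _, 𝒥, F⟩ := (XC_iff D).1 h2
  have h3 := F.fst hJ (K5_normal h1) (K5_gen D)
  rw [← K5_fst] at h3
  have h4 : XC J T (D.map (MonoidHom.fst G H)) :=
    (XC_iff _).2 ⟨inferInstance, inferInstance, _, h3⟩
  exact le_rad (h1.map _ Prod.fst_surjective) h4 ⟨(g, h), hgh, rfl⟩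

end prod

theorem XC_lock (hJ : BD J) (hT : TD T) : Lock (XC J T) := by
  intro G H _ _ hG hGs hH hHs
  haveI := hG
  haveI := hH
  apply le_antisymm
  · rintro ⟨g, h⟩ hgh
    refine ⟨XC_fst hJ hT hGs hHs hgh, ?_⟩
    have h2 := (XC_fit hJ hT).rad_iso (MulEquiv.prodComm (M := G) (N := H)) ⟨_, hgh, rfl⟩
    exact XC_fst (g := h) (h := g) hJ hT hHs hGs h2
  · exact (XC_fit hJ hT).prod_le_rad

end Pool.Agent.Helper218.Lk
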