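import Pool.Agent.Helper218.Lk8

set_option autoImplicit false
set_option linter.all false

namespace Pool.Agent.Helper218.Lk

open Subgroup

open scoped commutatorElement

section transfer

/-- an invariant sign character of a normal subgroup of 5-power index extends -/
lemma ext_char {G : Type*} [Group G] [Finite G] {K : Subgroup G} (hK : K.Normal)
    (h5 : ∀ g : G, ∃ n, g ^ (5 ^ n) ∈ K) (d : K →* ℤˣ)
    (hd : ∀ (g : G) (k : K), d ⟨g * k * g⁻¹, hK.conj_mem k k.2 g⟩ = d k) :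
    ∃ τ : G →* ℤˣ, ∀ k : K, τ k = d k := by
  haveI := hK
  have hodd : Odd K.index := by
    rw [← Nat.not_even_iff_odd, even_iff_two_dvd]
    intro h2
    rw [Subgroup.index_eq_card] at h2
    haveI : Fact (Nat.Prime 2) := ⟨Nat.prime_two⟩
    obtain ⟨x, hx⟩ := exists_prime_orderOf_dvd_card' 2 h2
    obtain ⟨g, rfl⟩ := QuotientGroup.mk_surjective x
    obtain ⟨n, hn⟩ := h5 g
    have h1 : (g : G ⧸ K) ^ (5 ^ n) = 1 := by
      rw [← QuotientGroup.mk_pow]; exact (QuotientGroup.eq_one_iff _).2 hn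
    have h3 := orderOf_dvd_of_pow_eq_one h1
    rw [hx] at h3
    have h4 := Nat.Prime.dvd_of_dvd_pow Nat.prime_two h3
    norm_num at h4
  refine ⟨MonoidHom.transfer d, ?_⟩
  intro k
  let T : K.LeftTransversal := default
  rw [MonoidHom.transfer_def d T]
  let _ := K.fintypeQuotientOfFiniteIndex
  have h1 : Subgroup.leftTransversals.diff d T ((k : G) • T) = ∏ q : G ⧸ K, d k := by
    rw [Subgroup.leftTransversals.diff]
    apply Finset.prod_congr rfl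
    intro q _
    have h2 : (((k : G) • T).2.leftQuotientEquiv q : G) = (k : G) * (T.2.leftQuotientEquiv q : G) := by
      rw [Subgroup.smul_apply_eq_smul_apply_inv_smul]
      have h3 : (k : G)⁻¹ • q = q := by
        obtain ⟨x, rfl⟩ := QuotientGroup.mk_surjective q
        change ((((k : G)⁻¹ * x : G)) : G ⧸ K) = x
        rw [QuotientGroup.eq]
        have : ((k : G)⁻¹ * x)⁻¹ * x = x⁻¹ * k * x⁻¹⁻¹ := by group
        rw [this]
        exact hK.conj_mem k k.2 x⁻¹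
      rw [h3]; rfl
    have h3 := hd (T.2.leftQuotientEquiv q : G)⁻¹ k
    rw [← h3]
    congr 1
    apply Subtype.ext
    change ((T.2.leftQuotientEquiv q : G))⁻¹ * ((((k : G) • T).2.leftQuotientEquiv q : G)) =
      (T.2.leftQuotientEquiv q : G)⁻¹ * k * (T.2.leftQuotientEquiv q : G)⁻¹⁻¹
    rw [h2, inv_inv, mul_assoc]
  rw [h1, Finset.prod_const, Finset.card_univ, ← Nat.card_eq_fintype_card, ← Subgroup.index_eq_card]
  obtain ⟨m, hm⟩ := hodd
  rw [hm, pow_succ, pow_mul]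
  have : d k ^ 2 = 1 := Int.units_sq _
  rw [this, one_pow, one_mul]

end transfer

variable {J : Type} [Group J] {T : MulAut J → Prop}

/-- a sign on the automorphisms of type `T` -/
structure SD {J : Type} [Group J] (T : MulAut J → Prop) (s : MulAut J → ℤˣ) : Prop where
  mul : ∀ α β, T α → T β → s (α * β) = s α * s β
  conj : ∀ α β, T α → s (β * α * β⁻¹) = s α
  tr : ∀ α, Tr α → s α = 1

section sg

variable {G : Type*} [Group G] {s : MulAut J → ℤˣ}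

open Classical in
/-- the sign of the action of `k` on the block `S` -/
noncomputable def sg (s : MulAut J → ℤˣ) (S : Subgroup G) (k : G) : ℤˣ :=
  if h : ∃ α : MulAut J, ∃ φ : J ≃* S, Rel φ k α then s h.choose else 1

lemma sg_eq (hs : SD T s) {S : Subgroup G} {φ : J ≃* S} {k : G} {α : MulAut J} (hα : Rel φ k α)
    (hT : T α) : sg s S k = s α := by
  have h : ∃ α : MulAut J, ∃ φ : J ≃* S, Rel φ k α := ⟨α, φ, hα⟩
  rw [sg, dif_pos h]
  obtain ⟨ψ, hψ⟩ := h.choose_spec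
  have h1 := hα.change (ψ := ψ)
  rw [hψ.unique h1]
  exact hs.conj _ _ hT

lemma sg_mul (hJ : BD J) (hs : SD T s) {S : Subgroup G} (φ : J ≃* S) {k k' : G}
    (hk : ∀ x ∈ S, k * x * k⁻¹ ∈ S) (hk' : ∀ x ∈ S, k' * x * k'⁻¹ ∈ S)
    (h1 : ∀ α, Rel φ k α → T α) (h2 : ∀ α, Rel φ k' α → T α) (h3 : ∀ α, Rel φ (k * k') α → T α) :
    sg s S (k * k') = sg s S k * sg s S k' := by
  obtain ⟨α, hα⟩ := Rel.exists hJ.fin φ hk
  obtain ⟨β, hβ⟩ := Rel.exists hJ.fin φ hk'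
  rw [sg_eq hs hα (h1 α hα), sg_eq hs hβ (h2 β hβ), sg_eq hs (hα.mul hβ) (h3 _ (hα.mul hβ)),
    hs.mul α β (h1 α hα) (h2 β hβ)]

lemma sg_tr (hJ : BD J) (hT : TD T) (hs : SD T s) {S : Subgroup G} (φ : J ≃* S) {k : G}
    (hk : ∀ x ∈ S, k * x * k⁻¹ ∈ S) (h : TrS S k) : sg s S k = 1 := by
  obtain ⟨α, hα⟩ := Rel.exists hJ.fin φ hk
  have h1 := hα.tr.2 h
  rw [sg_eq hs hα (hT.tr _ h1), hs.tr α h1]

lemma sg_map {H : Type*} [Group H] (f : H →* G) (hf : Function.Injective f) (hJ : BD J)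
    (hs : SD T s) {S : Subgroup H} (φ : J ≃* S) {k : H} (hk : ∀ x ∈ S, k * x * k⁻¹ ∈ S)
    (h1 : ∀ α, Rel φ k α → T α) : sg s (S.map f) (f k) = sg s S k := by
  obtain ⟨α, hα⟩ := Rel.exists hJ.fin φ hk
  rw [sg_eq hs hα (h1 α hα)]
  have h2 : Rel (φ.trans (S.equivMapOfInjective f hf)) (f k) α := by
    intro j
    change f (φ (α j) : S) = f k * f (φ j : S) * (f k)⁻¹
    rw [hα j, map_mul, map_mul, map_inv]
  exact sg_eq hs h2 (h1 α hα)

/-- the product of all signs -/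
noncomputable def dd (s : MulAut J → ℤˣ) (𝒥 : Set (Subgroup G)) (k : G) : ℤˣ :=
  ∏ᶠ S ∈ 𝒥, sg s S k

variable (hJ : BD J) (hT : TD T) (hs : SD T s)

include hJ hs

lemma Fam.dd_mul [Finite G] {K : Subgroup G} {𝒥 : Set (Subgroup G)} (F : Fam J T K 𝒥) {k k' : G}
    (hk : k ∈ K) (hk' : k' ∈ K) : dd s 𝒥 (k * k') = dd s 𝒥 k * dd s 𝒥 k' := by
  rw [dd, dd, dd, ← finprod_mem_mul_distrib (Set.toFinite 𝒥)]
  apply finprod_mem_congr rfl
  intro S hS
  obtain ⟨φ⟩ := F.blk S hS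
  exact sg_mul hJ hs φ (F.nrm S hS k hk) (F.nrm S hS k' hk') (F.act S hS k hk φ)
    (F.act S hS k' hk' φ) (F.act S hS _ (K.mul_mem hk hk') φ)

lemma Fam.dd_map {H : Type*} [Group H] (f : H →* G) (hf : Function.Injective f) {K : Subgroup H}
    {𝒥 : Set (Subgroup H)} (F : Fam J T K 𝒥) {k : H} (hk : k ∈ K) :
    dd s ((fun S : Subgroup H => S.map f) '' 𝒥) (f k) = dd s 𝒥 k := by
  rw [dd, dd, finprod_mem_image ((Subgroup.map_injective hf).injOn)]
  apply finprod_mem_congr rfl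
  intro S hS
  obtain ⟨φ⟩ := F.blk S hS
  exact sg_map f hf hJ hs φ (F.nrm S hS k hk) (F.act S hS k hk φ)

include hT

/-- blocks outside a normal subgroup are not inverted -/
lemma Fam.sg_out [Finite G] {K K₀ : Subgroup G} {𝒥 : Set (Subgroup G)} (F : Fam J T K 𝒥)
    (k0 : K₀.Normal) (g0 : K₀ ≤ K5 K₀) (hle : K₀ ≤ K) {S : Subgroup G} (hS : S ∈ 𝒥)
    (hS' : ¬ S ≤ K₀) {k : G} (hk : k ∈ K₀) : sg s S k = 1 := by
  obtain ⟨φ⟩ := F.blk S hS
  have h1 : ∀ k ∈ K₀, P5 k → TrS S k := by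
    intro k hk hp
    rcases hJ.tightS φ (F.nrm S hS k (hle hk)) hp with h | h
    · exact h
    · exfalso
      apply hS'
      apply h K₀ (fun s _ n hn => k0.conj_mem n hn s) (fun s _ => ?_)
      have : s⁻¹ * (k * s * k⁻¹) = (s⁻¹ * k * s⁻¹⁻¹) * k⁻¹ := by group
      rw [this]
      exact K₀.mul_mem (k0.conj_mem k hk _) (K₀.inv_mem hk)
  let f : K₀ →* ℤˣ :=
    { toFun := fun k => sg s S k
      map_one' := sg_tr hJ hT hs φ (F.nrm S hS 1 K.one_mem) (h1 1 K₀.one_mem P5.one)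
      map_mul' := by
        rintro ⟨a, ha⟩ ⟨b, hb⟩
        exact sg_mul hJ hs φ (F.nrm S hS a (hle ha)) (F.nrm S hS b (hle hb))
          (F.act S hS a (hle ha) φ) (F.act S hS b (hle hb) φ)
          (F.act S hS _ (hle (K₀.mul_mem ha hb)) φ) }
  have h2 : K5 K₀ ≤ (f.ker).map K₀.subtype := by
    rw [K5, Subgroup.closure_le]
    rintro k ⟨hk, hp⟩
    exact ⟨⟨k, hk⟩, sg_tr hJ hT hs φ (F.nrm S hS k (hle hk)) (h1 k hk hp), rfl⟩
  obtain ⟨⟨k', hk'⟩, h3, rfl⟩ := h2 (g0 hk)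
  exact h3

lemma Fam.dd_sub [Finite G] {K K₀ : Subgroup G} {𝒥 : Set (Subgroup G)} (F : Fam J T K 𝒥)
    (k0 : K₀.Normal) (g0 : K₀ ≤ K5 K₀) (hle : K₀ ≤ K) {k : G} (hk : k ∈ K₀) :
    dd s {S | S ∈ 𝒥 ∧ S ≤ K₀} k = dd s 𝒥 k := by
  have e : 𝒥 = {S | S ∈ 𝒥 ∧ S ≤ K₀} ∪ {S | S ∈ 𝒥 ∧ ¬ S ≤ K₀} := by
    ext S
    constructor
    · intro h
      by_cases h' : S ≤ K₀
      · exact Or.inl ⟨h, h'⟩
      · exact Or.inr ⟨h, h'⟩
    · rintro (h | h)
      · exact h.1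
      · exact h.1
  have h1 : dd s 𝒥 k = dd s ({S | S ∈ 𝒥 ∧ S ≤ K₀} ∪ {S | S ∈ 𝒥 ∧ ¬ S ≤ K₀}) k := by rw [← e]
  rw [h1, dd, dd, finprod_mem_union _ (Set.toFinite _) (Set.toFinite _)]
  · have h2 : ∏ᶠ S ∈ {S | S ∈ 𝒥 ∧ ¬ S ≤ K₀}, sg s S k = 1 := by
      apply finprod_mem_eq_one_of_forall_eq_one
      rintro S ⟨hS, hS'⟩
      exact Fam.sg_out hJ hT hs F k0 g0 hle hS hS' hk
    rw [h2, mul_one]
  · rw [Set.disjoint_left]
    rintro S ⟨_, h⟩ ⟨_, h'⟩
    exact h' h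

lemma Fam.dd_sup [Finite G] {K₁ K₂ : Subgroup G} {𝒥₁ 𝒥₂ : Set (Subgroup G)}
    (k1 : K₁.Normal) (k2 : K₂.Normal) (g1 : K₁ ≤ K5 K₁) (g2 : K₂ ≤ K5 K₂) (F₁ : Fam J T K₁ 𝒥₁)
    (F₂ : Fam J T K₂ 𝒥₂) {k : G} (hk : k ∈ K₂) : dd s (𝒥₁ ∪ 𝒥₂) k = dd s 𝒥₂ k := by
  have e : 𝒥₁ ∪ 𝒥₂ = (𝒥₁ \ 𝒥₂) ∪ 𝒥₂ := Set.diff_union_self.symm
  rw [e, dd, dd, finprod_mem_union Set.disjoint_sdiff_left (Set.toFinite _) (Set.toFinite _)]
  have h2 : ∏ᶠ S ∈ 𝒥₁ \ 𝒥₂, sg s S k = 1 := by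
    apply finprod_mem_eq_one_of_forall_eq_one
    rintro S ⟨hS, hS'⟩
    obtain ⟨φ⟩ := F₁.blk S hS
    exact sg_tr hJ hT hs φ (Fam.nrm2 hJ k1 k2 g1 g2 F₁ F₂ hS k hk)
      (Fam.tr_of_not_mem hJ k1 k2 g1 g2 F₁ F₂ hS hS' k hk)
  rw [h2, one_mul]

end sg

/-- the class of groups for which the number of inverted blocks is even -/
def YC (J : Type) [Group J] (T : MulAut J → Prop) (s : MulAut J → ℤˣ) : Cls := fun G _ =>
  Finite G ∧ Group.IsSolvable G ∧ ∃ 𝒥 : Set (Subgroup G), Fam J T (K5 (⊤ : Subgroup G)) 𝒥 ∧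
    ∀ k ∈ K5 (⊤ : Subgroup G), dd s 𝒥 k = 1

section YC

variable {s : MulAut J → ℤˣ} (hJ : BD J) (hT : TD T) (hs : SD T s)

include hJ hs

lemma exFam_iff' {G : Type*} [Group G] (N : Subgroup G) :
    (∃ 𝒥 : Set (Subgroup N), Fam J T (K5 (⊤ : Subgroup N)) 𝒥 ∧
        ∀ k ∈ K5 (⊤ : Subgroup N), dd s 𝒥 k = 1) ↔
      ∃ 𝒥 : Set (Subgroup G), Fam J T (K5 N) 𝒥 ∧ ∀ k ∈ K5 N, dd s 𝒥 k = 1 := by
  have e1 : (K5 (⊤ : Subgroup N)).map N.subtype = K5 N := by
    rw [← K5_map N.subtype N.subtype_injective, ← MonoidHom.range_eq_map, Subgroup.range_subtype]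
  constructor
  · rintro ⟨𝒥, F, h⟩
    have h1 := Fam.map N.subtype N.subtype_injective F
    rw [e1] at h1
    refine ⟨_, h1, ?_⟩
    intro k hk
    rw [← e1] at hk
    obtain ⟨k, hk, rfl⟩ := hk
    rw [Fam.dd_map hJ hs N.subtype N.subtype_injective F hk]
    exact h k hk
  · rintro ⟨𝒥, F, h⟩
    have h1 := Fam.comap N.subtype N.subtype_injective (K := K5 N) (by
      rw [Subgroup.range_subtype]; exact K5_le N) F
    rw [← e1, Subgroup.comap_map_eq_self_of_injective N.subtype_injective] at h1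
    refine ⟨_, h1, ?_⟩
    intro k hk
    rw [← Fam.dd_map hJ hs N.subtype N.subtype_injective h1 hk]
    have h2 : (fun S : Subgroup N => S.map N.subtype) '' ((fun S : Subgroup G => S.comap N.subtype) '' 𝒥)
        = 𝒥 := by
      have hmc : ∀ S ∈ 𝒥, (S.comap N.subtype).map N.subtype = S := by
        intro S hS
        rw [Subgroup.map_comap_eq, inf_eq_right.2]
        rw [Subgroup.range_subtype]
        exact (F.le S hS).trans (K5_le N)
      rw [Set.image_image]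
      ext S
      constructor
      · rintro ⟨S', hS', rfl⟩
        simp only [hmc S' hS']; exact hS'
      · intro hS
        exact ⟨S, hS, hmc S hS⟩
    rw [h2]
    apply h
    rw [← e1]
    exact ⟨k, hk, rfl⟩

include hT

theorem YC_fit : Fit (YC J T s) := by
  refine ⟨fun G _ h => ⟨h.1, h.2.1⟩, ⟨inferInstance, inferInstance, ∅, ?_, ?_⟩, ?_, ?_, ?_⟩
  · refine ⟨by simp, by simp, by simp, by simp, by simp, ?_⟩
    intro k _ _
    rw [Subsingleton.elim k 1]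
    exact Subgroup.one_mem _
  · intro k _
    rw [dd]
    exact finprod_mem_empty
  · rintro G H _ _ e ⟨h1, h2, 𝒥, F, h3⟩
    haveI := h1
    haveI := h2
    refine ⟨Finite.of_equiv G e.toEquiv, Group.isSolvable_of_surjective (f := e.toMonoidHom) e.surjective,
      ?_⟩
    have := Fam.map e.toMonoidHom e.injective F
    rw [← K5_map e.toMonoidHom e.injective, Subgroup.map_top_of_surjective _ e.surjective] at this
    refine ⟨_, this, ?_⟩
    intro k hk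
    rw [← Subgroup.map_top_of_surjective e.toMonoidHom e.surjective,
      K5_map e.toMonoidHom e.injective] at hk
    obtain ⟨k, hk, rfl⟩ := hk
    rw [Fam.dd_map hJ hs e.toMonoidHom e.injective F hk]
    exact h3 k hk
  · rintro G _ N hN ⟨h1, h2, 𝒥, F, h3⟩
    haveI := h1
    haveI := h2
    refine ⟨inferInstance, inferInstance, ?_⟩
    rw [exFam_iff' hJ hs]
    refine ⟨_, Fam.sub hJ F (K5_normal hN) (K5_gen N) (K5_mono le_top), ?_⟩
    intro k hk
    rw [Fam.dd_sub hJ hT hs F (K5_normal hN) (K5_gen N) (K5_mono le_top) hk]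
    exact h3 k (K5_mono le_top hk)
  · rintro G _ _ N M hN hM ⟨h1, h2, h3⟩ ⟨h4, h5, h6⟩
    refine ⟨inferInstance, Modu.solv_sup hN h2 h5, ?_⟩
    rw [exFam_iff' hJ hs] at h3 h6 ⊢
    obtain ⟨𝒜, FA, hA⟩ := h3
    obtain ⟨ℬ, FB, hB⟩ := h6
    rw [K5_sup hN hM]
    have F := Fam.sup hJ hT (K5_normal hN) (K5_normal hM) (K5_gen N) (K5_gen M) FA FB
    refine ⟨_, F, ?_⟩
    intro k hk
    haveI := K5_normal hN
    haveI := K5_normal hM
    obtain ⟨a, ha, b, hb, rfl⟩ := Subgroup.mem_sup_of_normal_right.1 hk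
    rw [Fam.dd_mul hJ hs F (le_sup_left (b := K5 M) ha) (le_sup_right (a := K5 N) hb),
      Fam.dd_sup hJ hT hs (K5_normal hN) (K5_normal hM) (K5_gen N) (K5_gen M) FA FB hb, hB b hb,
      Set.union_comm, Fam.dd_sup hJ hT hs (K5_normal hM) (K5_normal hN) (K5_gen M) (K5_gen N) FB FA ha,
      hA a ha, mul_one]

/-- the class `XC` is contained in the upper star of the parity class -/
theorem XC_le_star {G : Type} [Group G] (h : XC J T G) : star (YC J T s) G := by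
  have hYF := YC_fit hJ hT hs
  obtain ⟨h1, h2, _⟩ := id h
  rw [star_iff hYF]
  haveI := h1
  haveI := h2
  refine ⟨h1, h2, ?_⟩
  obtain ⟨_, _, 𝒥, F⟩ := (XC_fit hJ hT).prod_mem h h
  set K : Subgroup (G × G) := K5 ⊤ with hKdef
  have hK : K.Normal := K5_normal inferInstance
  have gK : K ≤ K5 K := K5_gen ⊤
  -- invariance
  have inv : ∀ (θ : (G × G) ≃* (G × G)) (k : G × G), k ∈ K → dd s 𝒥 (θ k) = dd s 𝒥 k := by
    intro θ k hk
    have F' := Fam.map θ.toMonoidHom θ.injective F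
    rw [hKdef, ← K5_map θ.toMonoidHom θ.injective, Subgroup.map_top_of_surjective _ θ.surjective,
      ← hKdef] at F'
    have h3 := Fam.dd_map hJ hs θ.toMonoidHom θ.injective F hk
    rw [← Fam.uniq hJ hK gK F F'] at h3
    exact h3
  let d : K →* ℤˣ :=
    { toFun := fun k => dd s 𝒥 k
      map_one' := by
        have h4 := Fam.dd_mul hJ hs F K.one_mem K.one_mem
        rw [mul_one] at h4
        exact (mul_eq_left.1 h4.symm)
      map_mul' := fun a b => Fam.dd_mul hJ hs F a.2 b.2 }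
  obtain ⟨τ, hτ⟩ := ext_char hK (fun g => K5_pow (N := ⊤) trivial) d (by
    intro g k
    exact inv (MulAut.conj g) k k.2)
  have hτ' : ∀ k ∈ K, τ k = dd s 𝒥 k := fun k hk => hτ ⟨k, hk⟩
  have hker : YC J T s τ.ker := by
    refine ⟨inferInstance, inferInstance, ?_⟩
    rw [exFam_iff' hJ hs]
    have hn : (K5 τ.ker).Normal := K5_normal inferInstance
    refine ⟨_, Fam.sub hJ F hn (K5_gen _) (K5_mono le_top), ?_⟩
    intro k hk
    rw [Fam.dd_sub hJ hT hs F hn (K5_gen _) (K5_mono le_top) hk, ← hτ' k (K5_mono le_top hk)]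
    exact K5_le _ hk
  intro g
  refine le_rad inferInstance hker ?_
  rw [MonoidHom.mem_ker]
  have e1 : ((g, g⁻¹) : G × G) = (g, 1) * (1, g)⁻¹ := by ext <;> simp
  rw [e1, map_mul, map_inv]
  have key : τ (g, 1) = τ (1, g) := by
    obtain ⟨n, hn⟩ : ∃ n, ((g, 1) : G × G) ^ (5 ^ n) ∈ K := K5_pow (N := ⊤) trivial
    have hsw := inv (MulEquiv.prodComm (M := G) (N := G)) _ hn
    have h3 : (MulEquiv.prodComm (M := G) (N := G)) (((g, 1) : G × G) ^ (5 ^ n)) =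
        ((1, g) : G × G) ^ (5 ^ n) := by rw [map_pow]; rfl
    rw [h3] at hsw
    have hn' : ((1, g) : G × G) ^ (5 ^ n) ∈ K := by
      have h5 : K.map (MulEquiv.prodComm (M := G) (N := G)).toMonoidHom = K := by
        rw [hKdef, ← K5_map _ (MulEquiv.injective _), Subgroup.map_top_of_surjective _ (MulEquiv.surjective _)]
      rw [← h5, ← h3]
      exact ⟨_, hn, rfl⟩
    have h4 : ∀ u : ℤˣ, u ^ (5 ^ n) = u := by
      intro u
      have hodd : Odd (5 ^ n) := Odd.pow (by decide)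
      obtain ⟨m, hm⟩ := hodd
      rw [hm, pow_succ, pow_mul, Int.units_sq, one_pow, one_mul]
    rw [← h4 (τ (g, 1)), ← h4 (τ (1, g)), ← map_pow, ← map_pow, hτ' _ hn, hτ' _ hn', hsw]
  rw [key, mul_inv_cancel]

end YC

end Pool.Agent.Helper218.Lk
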