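import Pool.Agent.Helper218.Ex3

set_option autoImplicit false
set_option linter.all false

namespace Pool.Agent.Helper218

open Subgroup

open scoped commutatorElement

variable {D G : Type*} [Group D] [Group G] {p q m : ℕ} [hp : Fact p.Prime] [hq : Fact q.Prime]

lemma Base_map_hom {K P : Subgroup D} (h : Base p q K P) (f : D →* G) :
    Base p q (K.map f) (P.map f) := by
  refine { fin := ?_, le := ?_, nrm := ?_, pP := ?_, qK := ?_, gen := ?_ }
  · haveI := h.fin
    exact ((Set.toFinite (K : Set D)).image f).to_subtype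
  · exact Subgroup.map_mono h.le
  · rintro _ ⟨k, hk, rfl⟩ _ ⟨u, hu, rfl⟩
    exact ⟨k * u * k⁻¹, h.nrm k hk u hu, by simp⟩
  · rintro _ ⟨u, hu, rfl⟩
    obtain ⟨n, hn⟩ := h.pP u hu
    exact ⟨n, by rw [← map_pow, hn, map_one]⟩
  · rintro _ ⟨k, hk, rfl⟩
    obtain ⟨n, hn⟩ := h.qK k hk
    exact ⟨n, by rw [← map_pow]; exact ⟨_, hn, rfl⟩⟩
  · refine (Subgroup.map_mono h.gen).trans ?_
    rw [MonoidHom.map_closure]
    apply Subgroup.closure_mono
    rintro _ ⟨x, ⟨hx, n, hn⟩, rfl⟩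
    exact ⟨⟨x, hx, rfl⟩, n, by rw [← map_pow, hn, map_one]⟩

/-- projections to direct factors preserve the class for normal subgroups -/
theorem lock (hpq : Nat.Coprime p q) (f : D →* G) (i : G →* D) (hfi : ∀ g, f (i g) = g)
    (hc : ∀ n u, n * i u * n⁻¹ = i (f n * u * (f n)⁻¹)) {N : Subgroup D} (hN : N.Normal)
    (h : SCls p q m N) : SCls p q m (N.map f) := by
  have hi : Function.Injective i := fun x y hxy => by rw [← hfi x, ← hfi y, hxy]
  obtain ⟨P, hP⟩ := h.core
  have nK : (Kq q N).Normal := ⟨fun x hx g => Kq_conj q (fun s hs => hN.conj_mem s hs g) hx⟩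
  have hKq : Kq q (N.map f) = (Kq q N).map f := by
    apply le_antisymm
    · rw [Kq, Subgroup.closure_le]
      rintro _ ⟨⟨x, hx, rfl⟩, n, hn⟩
      obtain ⟨k, hk⟩ := h.ppow x hx
      apply mem_of_pows (Nat.Coprime.pow k n hpq)
      · exact ⟨_, hk, by rw [map_pow]⟩
      · rw [hn]; exact Subgroup.one_mem _
    · rw [Kq, MonoidHom.map_closure]
      apply Subgroup.closure_mono
      rintro _ ⟨x, ⟨hx, n, hn⟩, rfl⟩
      exact ⟨⟨x, hx, rfl⟩, n, by rw [← map_pow, hn, map_one]⟩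
  have hB := Base_map_hom hP.toBase f
  have hB2 := (Base_map i hi).2 hB
  -- the section maps `P'` into `P`
  have key : ∀ u ∈ P.map f, i u ∈ P := by
    have h1 : (P.map f).map i ≤ (P.map f).map i ⊓ P := by
      apply hB2.le_of_comm hpq inf_le_left
      rintro _ ⟨_, ⟨n, hn, rfl⟩, rfl⟩ _ ⟨u, hu, rfl⟩
      have hmem : (i u)⁻¹ * (i (f n) * i u * (i (f n))⁻¹) ∈ (P.map f).map i :=
        Subgroup.mul_mem _ (Subgroup.inv_mem _ ⟨u, hu, rfl⟩)
          (hB2.nrm _ ⟨f n, ⟨n, hn, rfl⟩, rfl⟩ _ ⟨u, hu, rfl⟩)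
      refine ⟨hmem, ?_⟩
      obtain ⟨k, hk⟩ := hB2.pP _ hmem
      refine hP.mem_of_p hpq ?_ hk
      have e : (i u)⁻¹ * (i (f n) * i u * (i (f n))⁻¹) = ((i u)⁻¹ * n * (i u)⁻¹⁻¹) * n⁻¹ := by
        have e1 : i (f n) * i u * (i (f n))⁻¹ = n * i u * n⁻¹ := by
          rw [hc n, map_mul, map_mul, map_inv]
        rw [e1]; group
      rw [e]
      exact (Kq q N).mul_mem (nK.conj_mem n hn _) ((Kq q N).inv_mem hn)
    intro u hu
    exact (h1 ⟨u, hu, rfl⟩).2
  have hcomm : ∀ (x : D) (u : G), ⁅x, i u⁆ = i ⁅f x, u⁆ := by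
    intro x u
    rw [commutatorElement_def, hc, ← map_inv i u, ← map_mul i, commutatorElement_def]
  have hcomm' : ∀ (x : D) (u : G), ⁅i u, x⁆ = i ⁅u, f x⁆ := by
    intro x u
    rw [← comm_symm, hcomm, ← map_inv, comm_symm]
  have hBr : ∀ v ∈ P.map f, Br P (i v) = i '' Br (P.map f) v := by
    intro v hv
    ext w
    constructor
    · rintro ⟨x, hx, rfl⟩
      exact ⟨⁅v, f x⁆, ⟨f x, ⟨x, hx, rfl⟩, rfl⟩, (hcomm' x v).symm⟩
    · rintro ⟨_, ⟨u, hu, rfl⟩, rfl⟩
      exact ⟨i u, key u hu, by rw [hcomm', hfi]⟩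
  have hBrc : ∀ v ∈ P.map f, (Br P (i v)).ncard = (Br (P.map f) v).ncard := by
    intro v hv
    rw [hBr v hv, Set.ncard_image_of_injective _ hi]
  have hfinP : Finite P := finite_of_le hP.fin hP.le
  have hcore : Core p q m ((Kq q N).map f) (P.map f) := by
    have hb : ∀ v ∈ P.map f, (∃ u ∈ P.map f, u * v ≠ v * u) →
        p ^ m ≤ (Br (P.map f) v).ncard := by
      rintro v hv ⟨u, hu, huv⟩
      rw [← hBrc v hv]
      refine hP.b (i v) (key v hv) ⟨i u, key u hu, ?_⟩
      rw [← map_mul, ← map_mul]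
      intro e
      exact huv (hi e)
    refine { toBase := hB, a1 := ?_, a2 := ?_, b := hb, c := ?_, d := ?_ }
    · rintro u hu v hv _ ⟨n, hn, rfl⟩
      have h1 := hP.a1 (i u) (key u hu) (i v) (key v hv) n hn
      have h2 := congrArg f h1
      rw [map_mul, map_mul, map_commutatorElement, hfi, hfi] at h2
      exact h2
    · rintro z hz hcz _ ⟨n, hn, rfl⟩
      have h1 := hP.a2 (i z) (key z hz) (by
        intro x hx
        have h3 := hc x z
        rw [conj_eq_of_comm (hcz (f x) ⟨x, hx, rfl⟩)] at h3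
        exact mul_inv_eq_iff_eq_mul.1 h3) n hn
      have h2 := congrArg f h1
      rw [map_mul, map_mul, hfi] at h2
      exact h2
    · refine (Subgroup.map_mono hP.c).trans ?_
      rw [MonoidHom.map_closure]
      apply Subgroup.closure_mono
      rintro _ ⟨x, ⟨hx, hx2⟩, rfl⟩
      refine ⟨⟨x, hx, rfl⟩, ?_⟩
      by_cases hcen : ∀ u ∈ P.map f, u * f x = f x * u
      · exact Or.inl hcen
      · right
        have h1 : (Br P x).ncard = p ^ m := by
          rcases hx2 with hx2 | hx2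
          · exfalso
            apply hcen
            intro u hu
            have h3 := congrArg f (hx2 (i u) (key u hu))
            rw [map_mul, map_mul, hfi] at h3
            exact h3
          · exact hx2
        push Not at hcen
        have h2 := hb (f x) ⟨x, hx, rfl⟩ hcen
        have h3 : Br P (i (f x)) ⊆ Br P x := by
          rw [hBr (f x) ⟨x, hx, rfl⟩]
          rintro _ ⟨_, ⟨u, hu, rfl⟩, rfl⟩
          exact ⟨i u, key u hu, (hcomm x u).symm⟩
        have h4 := Set.ncard_le_ncard h3 (Br_finite hfinP x)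
        rw [hBrc (f x) ⟨x, hx, rfl⟩] at h4
        omega
    · intro u hu v hv h1 h2
      rw [← hBrc u hu] at h1
      rw [← hBrc v hv] at h2
      rcases hP.d (i u) (key u hu) (i v) (key v hv) h1 h2 with h3 | h3
      · left
        rw [hBr u hu, hBr v hv] at h3
        exact hi.image_injective h3
      · right
        rw [← map_mul, ← map_mul] at h3
        exact hi h3
  refine ⟨?_, ?_, ⟨P.map f, by rw [hKq]; exact hcore⟩⟩
  · haveI := h.fin
    exact ((Set.toFinite (N : Set D)).image f).to_subtype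
  · obtain ⟨R, hR1, hR2, hR3, hR4⟩ := h.rad
    refine ⟨R.map f, Subgroup.map_mono hR1, ?_, ?_, ?_⟩
    · rintro _ ⟨g, hg, rfl⟩ _ ⟨u, hu, rfl⟩
      exact ⟨g * u * g⁻¹, hR2 g hg u hu, by simp⟩
    · rintro _ ⟨u, hu, rfl⟩
      obtain ⟨n, hn⟩ := hR3 u hu
      exact ⟨n, by rw [← map_pow, hn, map_one]⟩
    · rintro _ ⟨g, hg, rfl⟩
      obtain ⟨n, hn⟩ := hR4 g hg
      exact ⟨n, by rw [← map_pow]; exact ⟨_, hn, rfl⟩⟩

/-- trivial group -/
lemma SCls_bot : SCls p q m (⊥ : Subgroup G) := by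
  have hK : Kq q (⊥ : Subgroup G) = ⊥ := le_bot_iff.1 (Kq_le q ⊥)
  refine ⟨inferInstance, ⟨⊥, le_rfl, ?_, ?_, ?_⟩, ⟨⊥, ?_⟩⟩
  · intro g _ u hu
    rw [Subgroup.mem_bot] at hu ⊢
    rw [hu]; group
  · intro u hu
    rw [Subgroup.mem_bot] at hu
    exact ⟨0, by rw [hu, one_pow]⟩
  · intro g hg
    rw [Subgroup.mem_bot] at hg
    exact ⟨0, by rw [hg, one_pow]; exact Subgroup.one_mem _⟩
  · rw [hK]
    refine { fin := inferInstance, le := le_rfl, nrm := ?_, pP := ?_, qK := ?_, gen := bot_le,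
             a1 := ?_, a2 := ?_, b := ?_, c := bot_le, d := ?_ }
    · intro k hk u hu
      rw [Subgroup.mem_bot] at hu ⊢
      rw [hu]; group
    · intro u hu
      rw [Subgroup.mem_bot] at hu
      exact ⟨0, by rw [hu, one_pow]⟩
    · intro u hu
      rw [Subgroup.mem_bot] at hu
      exact ⟨0, by rw [hu, one_pow]; exact Subgroup.one_mem _⟩
    · intro u hu v hv k hk
      rw [Subgroup.mem_bot] at hk
      rw [hk, one_mul, mul_one]
    · intro z hz _ k hk
      rw [Subgroup.mem_bot] at hk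
      rw [hk, one_mul, mul_one]
    · rintro v hv ⟨u, hu, huv⟩
      exfalso
      apply huv
      rw [Subgroup.mem_bot] at hu
      rw [hu, one_mul, mul_one]
    · intro u hu v hv _ _
      right
      rw [Subgroup.mem_bot] at hu
      rw [hu, one_mul, mul_one]

end Pool.Agent.Helper218
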