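import Pool.Agent.Helper218.Core6

set_option autoImplicit false
set_option linter.all false

namespace Pool.Agent.Helper218.Modu

open Subgroup Pool.Agent.Helper218

variable {G : Type*} [Group G]

/-- `J` is a tetrahedral subgroup (isomorphic to the alternating group of degree four), given by
elementwise axioms -/
structure Tet (J : Subgroup G) : Prop where
  ab : ∀ x ∈ J, ∀ y ∈ J, x * x = 1 → y * y = 1 → x * y = y * x
  ord : ∀ x ∈ J, x * x = 1 ∨ x * x * x = 1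
  fpf : ∀ a ∈ J, ∀ x ∈ J, a * a ≠ 1 → x * x = 1 → a * x = x * a → x = 1
  quo : ∀ a ∈ J, ∀ b ∈ J, a * a ≠ 1 → b * b ≠ 1 → (a⁻¹ * b) * (a⁻¹ * b) = 1 ∨ (a * b) * (a * b) = 1
  four : ∀ e ∈ J, ∀ f ∈ J, ∀ x ∈ J, e * e = 1 → f * f = 1 → x * x = 1 → e ≠ 1 → f ≠ 1 → e ≠ f →
    x = 1 ∨ x = e ∨ x = f ∨ x = e * f
  exa : ∃ a ∈ J, a * a ≠ 1
  exu : ∃ u ∈ J, u * u = 1 ∧ u ≠ 1

lemma conj_sq {g x : G} (h : x * x = 1) : (g * x * g⁻¹) * (g * x * g⁻¹) = 1 := by
  calc (g * x * g⁻¹) * (g * x * g⁻¹) = g * (x * x) * g⁻¹ := by group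
    _ = 1 := by rw [h]; group

lemma inv_sq' {x : G} (h : x * x = 1) : x⁻¹ = x := inv_eq_of_mul_eq_one_left h

lemma mul_sq {x y : G} (hx : x * x = 1) (hy : y * y = 1) (h : x * y = y * x) :
    (x * y) * (x * y) = 1 := by
  calc (x * y) * (x * y) = x * (y * x) * y := by group
    _ = x * (x * y) * y := by rw [h]
    _ = (x * x) * (y * y) := by group
    _ = 1 := by rw [hx, hy, one_mul]

lemma mul_cube {x y : G} (hx : x * x * x = 1) (hy : y * y * y = 1) (h : x * y = y * x) :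
    (x * y) * (x * y) * (x * y) = 1 := by
  have hc : Commute x y := h
  have := hc.mul_pow 3
  rw [pow_three', pow_three', pow_three', hx, hy, one_mul] at this
  exact this

lemma eq_one_of_sq_cube {x : G} (h2 : x * x = 1) (h3 : x * x * x = 1) : x = 1 := by
  rwa [h2, one_mul] at h3

namespace Tet

variable {J : Subgroup G} (h : Tet J)
include h

lemma comm_one {z : G} (hz : z ∈ J) (hc : ∀ x ∈ J, z * x = x * z) : z = 1 := by
  obtain ⟨a, ha, ha2⟩ := h.exa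
  obtain ⟨u, hu, hu2, hu1⟩ := h.exu
  by_cases h2 : z * z = 1
  · exact h.fpf a ha z hz ha2 h2 (hc a ha).symm
  · exact absurd (h.fpf z hz u hu h2 hu2 (hc u hu)) hu1

lemma cube {a : G} (ha : a ∈ J) (ha2 : a * a ≠ 1) : a * a * a = 1 :=
  (h.ord a ha).resolve_left ha2

lemma le_of {L : Subgroup G} (hL : ∀ a ∈ J, a * a ≠ 1 → a ∈ L) : J ≤ L := by
  intro x hx
  by_cases h2 : x * x = 1
  · obtain ⟨a, ha, ha2⟩ := h.exa
    have h3 : (a * x) * (a * x) ≠ 1 := by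
      intro h4
      apply ha2
      have h5 : (a * x) * x = x * (a * x) := h.ab _ (J.mul_mem ha hx) _ hx h4 h2
      have h6 := mul_sq h4 h2 h5
      have h7 : a * x * x = a := by rw [mul_assoc, h2, mul_one]
      rwa [h7] at h6
    have h4 := hL _ (J.mul_mem ha hx) h3
    have h5 := L.mul_mem (L.inv_mem (hL a ha ha2)) h4
    rwa [inv_mul_cancel_left] at h5
  · exact hL x hx h2

/-- a second involution -/
lemma conj_ne {a x : G} (ha : a ∈ J) (hx : x ∈ J) (ha2 : a * a ≠ 1) (hx2 : x * x = 1)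
    (hx1 : x ≠ 1) : a * x * a⁻¹ ≠ x := by
  intro h1
  apply hx1
  apply h.fpf a ha x hx ha2 hx2
  rw [← h1]
  calc a * (a * x * a⁻¹) = a * (a * x * a⁻¹) := rfl
    _ = (a * x * a⁻¹) * a := by
      rw [h1]
      calc a * x = (a * x * a⁻¹) * a := by group
        _ = x * a := by rw [h1]

lemma inv_le {L : Subgroup G} (hL : ∀ a ∈ J, ∀ l ∈ L, a * l * a⁻¹ ∈ L) {d : G} (hd : d ∈ J)
    (hdL : d ∈ L) (hd1 : d ≠ 1) : ∀ u ∈ J, u * u = 1 → u ∈ L := by
  have case1 : ∀ d ∈ J, d ∈ L → d ≠ 1 → d * d = 1 → ∀ u ∈ J, u * u = 1 → u ∈ L := by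
    intro d hd hdL hd1 hd2 u hu hu2
    obtain ⟨a, ha, ha2⟩ := h.exa
    have hf : a * d * a⁻¹ ∈ J := J.mul_mem (J.mul_mem ha hd) (J.inv_mem ha)
    have hfL : a * d * a⁻¹ ∈ L := hL a ha d hdL
    have hf1 : a * d * a⁻¹ ≠ 1 := by
      intro h1
      apply hd1
      have : d = a⁻¹ * (a * d * a⁻¹) * a := by group
      rw [this, h1]; group
    rcases h.four d hd _ hf u hu hd2 (conj_sq hd2) hu2 hd1 hf1
      (h.conj_ne ha hd ha2 hd2 hd1).symm with h1 | h1 | h1 | h1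
    · rw [h1]; exact L.one_mem
    · rw [h1]; exact hdL
    · rw [h1]; exact hfL
    · rw [h1]; exact L.mul_mem hdL hfL
  by_cases hd2 : d * d = 1
  · exact case1 d hd hdL hd1 hd2
  · obtain ⟨u0, hu0, hu02, hu01⟩ := h.exu
    have hc : d * u0⁻¹ * d⁻¹ ∈ J := J.mul_mem (J.mul_mem hd (J.inv_mem hu0)) (J.inv_mem hd)
    have hu0i : u0⁻¹ * u0⁻¹ = 1 := by rw [inv_sq' hu02]; exact hu02
    refine case1 (u0 * (d * u0⁻¹ * d⁻¹)) (J.mul_mem hu0 hc) ?_ ?_ ?_
    · have : u0 * (d * u0⁻¹ * d⁻¹) = (u0 * d * u0⁻¹) * d⁻¹ := by group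
      rw [this]
      exact L.mul_mem (hL u0 hu0 d hdL) (L.inv_mem hdL)
    · intro h1
      apply hu01
      apply h.fpf d hd u0 hu0 hd2 hu02
      have h2 : u0 * d * u0⁻¹ * d⁻¹ = 1 := by rw [← h1]; group
      have h3 : u0 * d * u0⁻¹ = d := mul_inv_eq_one.1 h2
      calc d * u0 = (u0 * d * u0⁻¹) * u0 := by rw [h3]
        _ = u0 * d := by group
    · exact mul_sq hu02 (conj_sq hu0i) (h.ab _ hu0 _ hc hu02 (conj_sq hu0i))

/-- if a non-involution of `J` lies in `L` and all involutions do, then `J ≤ L` -/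
lemma le_of_mem {L : Subgroup G} (hu : ∀ u ∈ J, u * u = 1 → u ∈ L) {d : G} (hd : d ∈ J)
    (hd2 : d * d ≠ 1) (hdL : d ∈ L) : J ≤ L := by
  apply h.le_of
  intro b hb hb2
  rcases h.quo d hd b hb hd2 hb2 with h1 | h1
  · have h2 := hu _ (J.mul_mem (J.inv_mem hd) hb) h1
    have h3 := L.mul_mem hdL h2
    rwa [mul_inv_cancel_left] at h3
  · have h2 := hu _ (J.mul_mem hd hb) h1
    have h3 := L.mul_mem (L.inv_mem hdL) h2
    rwa [inv_mul_cancel_left] at h3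

/-- the twisted commutation lemma -/
lemma two_comm {x a : G} {n : ℕ} (hx : x ^ (2 ^ n) = 1) (hn : ∀ y ∈ J, x * y * x⁻¹ ∈ J)
    (ha : a ∈ J) (ha2 : a * a ≠ 1)
    (hc : ∀ u ∈ J, u * u = 1 → (a⁻¹ * x * a * x⁻¹) * u = u * (a⁻¹ * x * a * x⁻¹)) :
    ∀ u ∈ J, u * u = 1 → x * u = u * x := by
  -- the actions commute
  have hcc : ∀ u ∈ J, u * u = 1 → x * (a * u * a⁻¹) * x⁻¹ = a * (x * u * x⁻¹) * a⁻¹ := by
    intro u hu hu2
    have h1 := hc _ (hn u hu) (conj_sq hu2)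
    -- a⁻¹ x a x⁻¹ (x u x⁻¹) = (x u x⁻¹) a⁻¹ x a x⁻¹
    have h2 : a⁻¹ * x * a * u * x⁻¹ = x * u * x⁻¹ * a⁻¹ * x * a * x⁻¹ := by
      calc a⁻¹ * x * a * u * x⁻¹ = (a⁻¹ * x * a * x⁻¹) * (x * u * x⁻¹) := by group
        _ = (x * u * x⁻¹) * (a⁻¹ * x * a * x⁻¹) := h1
        _ = _ := by group
    calc x * (a * u * a⁻¹) * x⁻¹ = a * (a⁻¹ * x * a * u * x⁻¹) * x * a⁻¹ * x⁻¹ := by group
      _ = a * (x * u * x⁻¹ * a⁻¹ * x * a * x⁻¹) * x * a⁻¹ * x⁻¹ := by rw [h2]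
      _ = a * (x * u * x⁻¹) * a⁻¹ := by group
  have ha3 := h.cube ha ha2
  intro u hu hu2
  by_cases hu1 : u = 1
  · rw [hu1]; simp
  set v := a * u * a⁻¹ with hv
  set w := a * v * a⁻¹ with hw
  have hvJ : v ∈ J := J.mul_mem (J.mul_mem ha hu) (J.inv_mem ha)
  have hwJ : w ∈ J := J.mul_mem (J.mul_mem ha hvJ) (J.inv_mem ha)
  have hv2 : v * v = 1 := conj_sq hu2
  have hw2 : w * w = 1 := conj_sq hv2
  have hv1 : v ≠ 1 := by
    intro h1; apply hu1
    have : u = a⁻¹ * v * a := by rw [hv]; group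
    rw [this, h1]; group
  have hw1 : w ≠ 1 := by
    intro h1; apply hv1
    have : v = a⁻¹ * w * a := by rw [hw]; group
    rw [this, h1]; group
  have hvu : v ≠ u := h.conj_ne ha hu ha2 hu2 hu1
  have hwv : w ≠ v := h.conj_ne ha hvJ ha2 hv2 hv1
  have hwu : a * w * a⁻¹ = u := by
    rw [hw, hv]
    calc a * (a * (a * u * a⁻¹) * a⁻¹) * a⁻¹ = (a * a * a) * u * (a * a * a)⁻¹ := by group
      _ = u := by rw [ha3]; group
  have hwu' : w ≠ u := by
    intro h1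
    have h2 : a * u * a⁻¹ = u := by rw [← h1]; rw [hwu, h1]
    exact hvu h2
  have huv : u * v = w := by
    rcases h.four u hu v hvJ w hwJ hu2 hv2 hw2 hu1 hv1 hvu.symm with h1 | h1 | h1 | h1
    · exact absurd h1 hw1
    · exact absurd h1 hwu'
    · exact absurd h1 hwv
    · exact h1.symm
  have hxu := hn u hu
  have hxu2 : (x * u * x⁻¹) * (x * u * x⁻¹) = 1 := conj_sq hu2
  have hxu1 : x * u * x⁻¹ ≠ 1 := by
    intro h1; apply hu1
    have : u = x⁻¹ * (x * u * x⁻¹) * x := by group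
    rw [this, h1]; group
  -- third power
  have h3 : x * (x * (x * u * x⁻¹) * x⁻¹) * x⁻¹ = u := by
    rcases h.four u hu v hvJ _ hxu hu2 hv2 hxu2 hu1 hv1 hvu.symm with h1 | h1 | h1 | h1
    · exact absurd h1 hxu1
    · rw [h1, h1, h1]
    · -- x u x⁻¹ = v
      have e2 : x * v * x⁻¹ = w := by
        rw [hv, hcc u hu hu2, h1]
      have e3 : x * w * x⁻¹ = u := by
        rw [hw, hcc v hvJ hv2, e2, hwu]
      rw [h1, e2, e3]
    · rw [huv] at h1
      have e2 : x * v * x⁻¹ = u := by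
        rw [hv, hcc u hu hu2, h1, hwu]
      have e3 : x * w * x⁻¹ = v := by
        rw [hw, hcc v hvJ hv2, e2]
      rw [h1, e3, e2]
  have h4 : x ^ 3 * u = u * x ^ 3 := by
    calc x ^ 3 * u = (x * (x * (x * u * x⁻¹) * x⁻¹) * x⁻¹) * x ^ 3 := by
          rw [pow_succ, pow_succ, pow_one]; group
      _ = u * x ^ 3 := by rw [h3]
  exact commute_of_pows (a := 3) (b := 2 ^ n) (Nat.Coprime.pow_right n (by norm_num)) h4
    (by rw [hx]; simp)

end Tet

lemma Tet_map {H : Type*} [Group H] (f : H →* G) (hf : Function.Injective f) {J : Subgroup H} :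
    Tet (J.map f) ↔ Tet J := by
  have e1 : ∀ x : H, f x = 1 ↔ x = 1 := fun x => by
    rw [← map_one f]; exact hf.eq_iff
  constructor
  · intro h
    refine ⟨?_, ?_, ?_, ?_, ?_, ?_, ?_⟩
    · intro x hx y hy hx2 hy2
      apply hf
      rw [map_mul, map_mul]
      exact h.ab _ ⟨x, hx, rfl⟩ _ ⟨y, hy, rfl⟩ (by rw [← map_mul, hx2, map_one])
        (by rw [← map_mul, hy2, map_one])
    · intro x hx
      rcases h.ord _ ⟨x, hx, rfl⟩ with h1 | h1
      · left; apply (e1 _).1; rw [map_mul]; exact h1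
      · right; apply (e1 _).1; rw [map_mul, map_mul]; exact h1
    · intro a ha x hx ha2 hx2 hc
      apply (e1 _).1
      exact h.fpf _ ⟨a, ha, rfl⟩ _ ⟨x, hx, rfl⟩ (by rw [← map_mul]; exact fun h1 => ha2 ((e1 _).1 h1))
        (by rw [← map_mul, hx2, map_one]) (by rw [← map_mul, ← map_mul, hc])
    · intro a ha b hb ha2 hb2
      rcases h.quo _ ⟨a, ha, rfl⟩ _ ⟨b, hb, rfl⟩ (by rw [← map_mul]; exact fun h1 => ha2 ((e1 _).1 h1))
        (by rw [← map_mul]; exact fun h1 => hb2 ((e1 _).1 h1)) with h1 | h1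
      · left; apply (e1 _).1; simpa using h1
      · right; apply (e1 _).1; simpa using h1
    · intro e he f' hf' x hx he2 hf2 hx2 he1 hf1 hef
      rcases h.four _ ⟨e, he, rfl⟩ _ ⟨f', hf', rfl⟩ _ ⟨x, hx, rfl⟩ (by rw [← map_mul, he2, map_one])
        (by rw [← map_mul, hf2, map_one]) (by rw [← map_mul, hx2, map_one])
        (fun h1 => he1 ((e1 _).1 h1)) (fun h1 => hf1 ((e1 _).1 h1)) (fun h1 => hef (hf h1))
        with h1 | h1 | h1 | h1
      · left; exact (e1 _).1 h1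
      · right; left; exact hf h1
      · right; right; left; exact hf h1
      · right; right; right; exact hf (by rw [map_mul]; exact h1)
    · obtain ⟨_, ⟨a, ha, rfl⟩, ha2⟩ := h.exa
      exact ⟨a, ha, fun h1 => ha2 (by rw [← map_mul, h1, map_one])⟩
    · obtain ⟨_, ⟨a, ha, rfl⟩, ha2, ha1⟩ := h.exu
      exact ⟨a, ha, (e1 _).1 (by rw [map_mul]; exact ha2), fun h1 => ha1 (by rw [h1, map_one])⟩
  · intro h
    refine ⟨?_, ?_, ?_, ?_, ?_, ?_, ?_⟩
    · rintro _ ⟨x, hx, rfl⟩ _ ⟨y, hy, rfl⟩ hx2 hy2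
      rw [← map_mul, h.ab x hx y hy ((e1 _).1 (by rw [map_mul]; exact hx2))
        ((e1 _).1 (by rw [map_mul]; exact hy2)), map_mul]
    · rintro _ ⟨x, hx, rfl⟩
      rcases h.ord x hx with h1 | h1
      · left; rw [← map_mul, h1, map_one]
      · right; rw [← map_mul, ← map_mul, h1, map_one]
    · rintro _ ⟨a, ha, rfl⟩ _ ⟨x, hx, rfl⟩ ha2 hx2 hc
      apply (e1 _).2
      refine h.fpf a ha x hx (fun h1 => ha2 (by rw [← map_mul, h1, map_one]))
        ((e1 _).1 (by rw [map_mul]; exact hx2)) (hf (by rw [map_mul, map_mul]; exact hc))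
    · rintro _ ⟨a, ha, rfl⟩ _ ⟨b, hb, rfl⟩ ha2 hb2
      rcases h.quo a ha b hb (fun h1 => ha2 (by rw [← map_mul, h1, map_one]))
        (fun h1 => hb2 (by rw [← map_mul, h1, map_one])) with h1 | h1
      · left; rw [← map_inv, ← map_mul, ← map_mul, h1, map_one]
      · right; rw [← map_mul, ← map_mul, h1, map_one]
    · rintro _ ⟨e, he, rfl⟩ _ ⟨f', hf', rfl⟩ _ ⟨x, hx, rfl⟩ he2 hf2 hx2 he1 hf1 hef
      rcases h.four e he f' hf' x hx ((e1 _).1 (by rw [map_mul]; exact he2))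
        ((e1 _).1 (by rw [map_mul]; exact hf2)) ((e1 _).1 (by rw [map_mul]; exact hx2))
        (fun h1 => he1 (by rw [h1, map_one])) (fun h1 => hf1 (by rw [h1, map_one]))
        (fun h1 => hef (by rw [h1])) with h1 | h1 | h1 | h1
      · left; rw [h1, map_one]
      · right; left; rw [h1]
      · right; right; left; rw [h1]
      · right; right; right; rw [h1, map_mul]
    · obtain ⟨a, ha, ha2⟩ := h.exa
      exact ⟨f a, ⟨a, ha, rfl⟩, fun h1 => ha2 ((e1 _).1 (by rw [map_mul]; exact h1))⟩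
    · obtain ⟨a, ha, ha2, ha1⟩ := h.exu
      exact ⟨f a, ⟨a, ha, rfl⟩, by rw [← map_mul, ha2, map_one], fun h1 => ha1 ((e1 _).1 h1)⟩

end Pool.Agent.Helper218.Modu
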