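import Pool.Agent.Helper218.Mod1

set_option autoImplicit false
set_option linter.all false

namespace Pool.Agent.Helper218.Modu

open Subgroup Pool.Agent.Helper218

variable {G : Type*} [Group G]

lemma mem_sup_comm {H K : Subgroup G} (hc : ∀ x ∈ H, ∀ y ∈ K, x * y = y * x) {g : G}
    (hg : g ∈ H ⊔ K) : ∃ x ∈ H, ∃ y ∈ K, g = x * y := by
  let S : Subgroup G :=
    { carrier := {g | ∃ x ∈ H, ∃ y ∈ K, g = x * y}
      one_mem' := ⟨1, H.one_mem, 1, K.one_mem, by simp⟩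
      mul_mem' := by
        rintro _ _ ⟨x, hx, y, hy, rfl⟩ ⟨x', hx', y', hy', rfl⟩
        refine ⟨x * x', H.mul_mem hx hx', y * y', K.mul_mem hy hy', ?_⟩
        calc x * y * (x' * y') = x * (y * x') * y' := by group
          _ = x * (x' * y) * y' := by rw [hc x' hx' y hy]
          _ = x * x' * (y * y') := by group
      inv_mem' := by
        rintro _ ⟨x, hx, y, hy, rfl⟩
        refine ⟨x⁻¹, H.inv_mem hx, y⁻¹, K.inv_mem hy, ?_⟩
        rw [hc x hx y hy, mul_inv_rev] }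
  have h1 : H ⊔ K ≤ S := sup_le (fun x hx => ⟨x, hx, 1, K.one_mem, by simp⟩)
    (fun y hy => ⟨1, H.one_mem, y, hy, by simp⟩)
  exact h1 hg

lemma comm_sSup {𝒥 : Set (Subgroup G)} {x : G} (h : ∀ J ∈ 𝒥, ∀ y ∈ J, x * y = y * x) {g : G}
    (hg : g ∈ sSup 𝒥) : x * g = g * x := by
  have h1 : sSup 𝒥 ≤ Subgroup.centralizer {x} := by
    apply sSup_le
    intro J hJ y hy
    rw [Subgroup.mem_centralizer_singleton_iff]
    exact (h J hJ y hy).symm
  have h2 := h1 hg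
  rw [Subgroup.mem_centralizer_singleton_iff] at h2
  exact h2.symm

/-- a family of pairwise commuting tetrahedral normal subgroups of `K` whose join has 2-power
index -/
structure Fam (K : Subgroup G) (𝒥 : Set (Subgroup G)) : Prop where
  le : ∀ J ∈ 𝒥, J ≤ K
  nrm : ∀ J ∈ 𝒥, ∀ k ∈ K, ∀ x ∈ J, k * x * k⁻¹ ∈ J
  tet : ∀ J ∈ 𝒥, Tet J
  comm : ∀ J ∈ 𝒥, ∀ J' ∈ 𝒥, J ≠ J' → ∀ x ∈ J, ∀ y ∈ J', x * y = y * x
  quo : ∀ k ∈ K, ∃ n, k ^ (2 ^ n) ∈ sSup 𝒥

/-- conjugate subgroup -/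
def cj (g : G) (J : Subgroup G) : Subgroup G := J.map (MulAut.conj g).toMonoidHom

lemma mem_cj {g x : G} {J : Subgroup G} : x ∈ cj g J ↔ g⁻¹ * x * g ∈ J := by
  constructor
  · rintro ⟨y, hy, rfl⟩
    have : g⁻¹ * (g * y * g⁻¹) * g = y := by group
    change g⁻¹ * (g * y * g⁻¹) * g ∈ J
    rw [this]; exact hy
  · intro h
    exact ⟨_, h, by change g * (g⁻¹ * x * g) * g⁻¹ = x; group⟩

lemma conj_mem_cj {g x : G} {J : Subgroup G} (hx : x ∈ J) : g * x * g⁻¹ ∈ cj g J := ⟨x, hx, rfl⟩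

lemma cj_cj {g h : G} {J : Subgroup G} : cj g (cj h J) = cj (g * h) J := by
  ext x
  rw [mem_cj, mem_cj, mem_cj]
  have : h⁻¹ * (g⁻¹ * x * g) * h = (g * h)⁻¹ * x * (g * h) := by group
  rw [this]

lemma cj_one {J : Subgroup G} : cj 1 J = J := by
  ext x; rw [mem_cj]; simp

lemma Tet_cj {g : G} {J : Subgroup G} : Tet (cj g J) ↔ Tet J :=
  Tet_map _ (MulAut.conj g).injective

namespace Fam

variable {K : Subgroup G} {𝒥 : Set (Subgroup G)} (F : Fam K 𝒥)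
include F

lemma odd_mem {k : G} (hk : k ∈ K) {m : ℕ} (hm : Nat.Coprime 2 m) (h : k ^ m = 1) :
    k ∈ sSup 𝒥 := by
  obtain ⟨n, hn⟩ := F.quo k hk
  exact mem_of_pows (Nat.Coprime.pow_left n hm) hn (by rw [h]; exact Subgroup.one_mem _)

lemma cube_mem {k : G} (hk : k ∈ K) (h : k * k * k = 1) : k ∈ sSup 𝒥 :=
  F.odd_mem hk (m := 3) (by norm_num) (by rw [pow_three']; exact h)

lemma inter {J J' : Subgroup G} (hJ : J ∈ 𝒥) (hJ' : J' ∈ 𝒥) (hne : J ≠ J') {x : G} (hx : x ∈ J)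
    (hx' : x ∈ J') : x = 1 :=
  (F.tet J hJ).comm_one hx (fun y hy => (F.comm J hJ J' hJ' hne y hy x hx').symm)

lemma centerless [Finite G] {g : G} (hg : g ∈ sSup 𝒥) (hc : ∀ J ∈ 𝒥, ∀ x ∈ J, g * x = x * g) :
    g = 1 := by
  have key : ∀ S : Set (Subgroup G), S.Finite → S ⊆ 𝒥 → ∀ g ∈ sSup S,
      (∀ J ∈ S, ∀ x ∈ J, g * x = x * g) → g = 1 := by
    intro S hS
    induction S, hS using Set.Finite.induction_on with
    | empty =>
      intro _ g hg _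
      rw [sSup_empty] at hg
      exact Subgroup.mem_bot.1 hg
    | @insert J S hJS _ ih =>
      intro hsub g hg hc
      rw [sSup_insert] at hg
      have hJ : J ∈ 𝒥 := hsub (Set.mem_insert _ _)
      have hcomm : ∀ x ∈ J, ∀ y ∈ sSup S, x * y = y * x := by
        intro x hx y hy
        refine comm_sSup (𝒥 := S) ?_ hy
        intro J' hJ' z hz
        exact F.comm J hJ J' (hsub (Set.mem_insert_of_mem _ hJ'))
          (fun h => hJS (h ▸ hJ')) x hx z hz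
      obtain ⟨x, hx, h, hh, rfl⟩ := mem_sup_comm hcomm hg
      have hx1 : x = 1 := by
        apply (F.tet J hJ).comm_one hx
        intro y hy
        have h1 := hc J (Set.mem_insert _ _) y hy
        have h2 := hcomm y hy h hh
        have h3 : x * y * h = y * x * h := by
          calc x * y * h = x * (y * h) := by group
            _ = x * (h * y) := by rw [h2]
            _ = x * h * y := by group
            _ = y * (x * h) := h1
            _ = y * x * h := by group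
        exact mul_right_cancel h3
      rw [hx1, one_mul]
      apply ih (fun s hs => hsub (Set.mem_insert_of_mem _ hs)) h hh
      intro J' hJ' z hz
      have := hc J' (Set.mem_insert_of_mem _ hJ') z hz
      rwa [hx1, one_mul] at this
  exact key 𝒥 (Set.toFinite _) (Set.Subset.refl _) g hg hc

/-- decompose with respect to one member -/
lemma split {J : Subgroup G} (hJ : J ∈ 𝒥) {g : G} (hg : g ∈ sSup 𝒥) :
    ∃ x ∈ J, ∃ h ∈ sSup (𝒥 \ {J}), g = x * h ∧ ∀ y ∈ J, y * h = h * y := by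
  have hcomm : ∀ x ∈ J, ∀ y ∈ sSup (𝒥 \ {J}), x * y = y * x := by
    intro x hx y hy
    refine comm_sSup ?_ hy
    rintro J' ⟨hJ', hne⟩ z hz
    exact F.comm J hJ J' hJ' (fun h => hne h.symm) x hx z hz
  have h1 : sSup 𝒥 = J ⊔ sSup (𝒥 \ {J}) := by
    rw [← sSup_insert, Set.insert_diff_singleton, Set.insert_eq_of_mem hJ]
  rw [h1] at hg
  obtain ⟨x, hx, h, hh, rfl⟩ := mem_sup_comm hcomm hg
  exact ⟨x, hx, h, hh, rfl, fun y hy => hcomm y hy h hh⟩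

/-- uniqueness: tetrahedral normal subgroups of `K` are in the family -/
lemma uniq [Finite G] {L : Subgroup G} (hLK : L ≤ K) (hL : ∀ k ∈ K, ∀ x ∈ L, k * x * k⁻¹ ∈ L)
    (hT : Tet L) : L ∈ 𝒥 := by
  -- noncommuting member
  have step : ∀ a ∈ L, a * a ≠ 1 → ∀ J ∈ 𝒥, (¬ ∀ x ∈ J, a * x = x * a) →
      (∀ u ∈ J, u * u = 1 → u ∈ L) ∧ (∀ u ∈ L, u * u = 1 → u ∈ J) := by
    intro a ha ha2 J hJ hnc
    push Not at hnc
    obtain ⟨x, hx, hne⟩ := hnc
    set d := a * x * a⁻¹ * x⁻¹ with hd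
    have hdJ : d ∈ J := J.mul_mem (F.nrm J hJ a (hLK ha) x hx) (J.inv_mem hx)
    have hdL : d ∈ L := by
      have : d = a * (x * a⁻¹ * x⁻¹) := by rw [hd]; group
      rw [this]
      exact L.mul_mem ha (hL x (F.le J hJ hx) _ (L.inv_mem ha))
    have hd1 : d ≠ 1 := by
      intro h1
      apply hne
      have h2 : a * x * a⁻¹ = x := mul_inv_eq_one.1 h1
      calc a * x = (a * x * a⁻¹) * a := by group
        _ = x * a := by rw [h2]
    refine ⟨(F.tet J hJ).inv_le (fun b hb l hl => hL b (F.le J hJ hb) l hl) hdJ hdL hd1,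
      hT.inv_le (fun b hb l hl => F.nrm J hJ b (hLK hb) l hl) hdL hdJ hd1⟩
  have exJ : ∀ a ∈ L, a * a ≠ 1 → ∃ J ∈ 𝒥, ¬ ∀ x ∈ J, a * x = x * a := by
    intro a ha ha2
    by_contra hcon
    push Not at hcon
    have := F.centerless (F.cube_mem (hLK ha) (hT.cube ha ha2)) hcon
    exact ha2 (by rw [this, one_mul])
  obtain ⟨a0, ha0, ha02⟩ := hT.exa
  obtain ⟨J0, hJ0, hnc0⟩ := exJ a0 ha0 ha02
  obtain ⟨h01, h02⟩ := step a0 ha0 ha02 J0 hJ0 hnc0
  obtain ⟨u, hu, hu2, hu1⟩ := hT.exu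
  have hLJ : ∀ a ∈ L, a * a ≠ 1 → a ∈ J0 := by
    intro a ha ha2
    have hcm : ∀ J ∈ 𝒥, J ≠ J0 → ∀ x ∈ J, a * x = x * a := by
      intro J hJ hne
      by_contra hnc
      obtain ⟨_, h2⟩ := step a ha ha2 J hJ hnc
      exact hu1 (F.inter hJ hJ0 hne (h2 u hu hu2) (h02 u hu hu2))
    obtain ⟨x, hx, h, hh, hxh, hJh⟩ := F.split hJ0 (F.cube_mem (hLK ha) (hT.cube ha ha2))
    have hh1 : h = 1 := by
      have hle : sSup (𝒥 \ {J0}) ≤ sSup 𝒥 := sSup_le_sSup Set.diff_subset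
      apply F.centerless (hle hh)
      intro J hJ y hy
      by_cases hne : J = J0
      · subst hne; exact (hJh y hy).symm
      · have e1 := hcm J hJ hne y hy
        have e2 : x * y = y * x := F.comm J0 hJ0 J hJ (Ne.symm hne) x hx y hy
        rw [hxh] at e1
        have e3 : x * (h * y) = x * (y * h) := by
          calc x * (h * y) = x * h * y := by group
            _ = y * (x * h) := e1
            _ = (y * x) * h := by group
            _ = (x * y) * h := by rw [e2]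
            _ = x * (y * h) := by group
        exact mul_left_cancel e3
    rw [hxh, hh1, mul_one]; exact hx
  have h1 : L ≤ J0 := hT.le_of hLJ
  have h2 : J0 ≤ L := (F.tet J0 hJ0).le_of_mem h01 (hLJ a0 ha0 ha02) ha02 ha0
  rw [le_antisymm h1 h2]; exact hJ0

lemma cj_mem [Finite G] (hK : K.Normal) {J : Subgroup G} (hJ : J ∈ 𝒥) (g : G) : cj g J ∈ 𝒥 := by
  apply F.uniq
  · intro x hx
    rw [mem_cj] at hx
    have := hK.conj_mem _ (F.le J hJ hx) g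
    have e : g * (g⁻¹ * x * g) * g⁻¹ = x := by group
    rwa [e] at this
  · intro k hk x hx
    rw [mem_cj] at hx ⊢
    have hk' : g⁻¹ * k * g ∈ K := by
      have := hK.conj_mem k hk g⁻¹
      simpa using this
    have := F.nrm J hJ _ hk' _ hx
    have e : g⁻¹ * k * g * (g⁻¹ * x * g) * (g⁻¹ * k * g)⁻¹ = g⁻¹ * (k * x * k⁻¹) * g := by group
    rwa [e] at this
  · exact Tet_cj.2 (F.tet J hJ)

end Fam

section two

variable [Finite G] {A B : Subgroup G} {𝒜 ℬ : Set (Subgroup G)}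

/-- (i) involutions of members of `𝒜` normalise members of `ℬ` -/
lemma star1 (hA : A.Normal) (hB : B.Normal) (FA : Fam A 𝒜) (FB : Fam B ℬ) {J J' : Subgroup G}
    (hJ : J ∈ 𝒜) (hJ' : J' ∈ ℬ) {u : G} (hu : u ∈ J) (hu2 : u * u = 1) : cj u J' = J' := by
  by_contra hne
  obtain ⟨g, hg, hg2⟩ := (FB.tet J' hJ').exa
  have hg3 := (FB.tet J' hJ').cube hg hg2
  have hJ'' : cj u J' ∈ ℬ := FB.cj_mem hB hJ' u
  set α := u * g⁻¹ * u⁻¹ with hα
  have hαm : α ∈ cj u J' := conj_mem_cj (J'.inv_mem hg)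
  have hcomm : α * g = g * α := FB.comm _ hJ'' _ hJ' hne α hαm g hg
  have hgi3 : g⁻¹ * g⁻¹ * g⁻¹ = 1 := by
    have : g⁻¹ * g⁻¹ * g⁻¹ = (g * g * g)⁻¹ := by group
    rw [this, hg3, inv_one]
  have hα3 : α * α * α = 1 := by
    have : α * α * α = u * (g⁻¹ * g⁻¹ * g⁻¹) * u⁻¹ := by rw [hα]; group
    rw [this, hgi3]; group
  have h3 := mul_cube hα3 hg3 hcomm
  -- the square
  set β := g⁻¹ * u⁻¹ * g with hβ
  have hui2 : u⁻¹ * u⁻¹ = 1 := by rw [inv_sq' hu2]; exact hu2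
  have hβ2 : β * β = 1 := by
    have : β * β = g⁻¹ * (u⁻¹ * u⁻¹) * g := by rw [hβ]; group
    rw [this, hui2]; group
  have hβm : β ∈ cj g⁻¹ J := by
    rw [mem_cj]
    have : (g⁻¹)⁻¹ * β * g⁻¹ = u⁻¹ := by rw [hβ]; group
    rw [this]; exact J.inv_mem hu
  have hJ2 : cj g⁻¹ J ∈ 𝒜 := FA.cj_mem hA hJ g⁻¹
  have hub : u * β = β * u := by
    by_cases hJe : J = cj g⁻¹ J
    · rw [← hJe] at hβm
      exact (FA.tet J hJ).ab u hu β hβm hu2 hβ2
    · exact FA.comm J hJ _ hJ2 hJe u hu β hβm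
  have h2 := mul_sq hu2 hβ2 hub
  have he : u * β = α * g := by rw [hα, hβ]; group
  rw [he] at h2
  have h1 : α * g = 1 := eq_one_of_sq_cube h2 h3
  have h4 : α = g⁻¹ := mul_eq_one_iff_eq_inv.1 h1
  have h5 : g⁻¹ = 1 := FB.inter hJ'' hJ' hne (h4 ▸ hαm) (J'.inv_mem hg)
  apply hg2
  rw [inv_eq_one] at h5
  rw [h5, one_mul]

/-- the commutator of an involution of `J ∈ 𝒜` and an element of `J' ∈ ℬ` -/
lemma star_e (hA : A.Normal) (hB : B.Normal) (FA : Fam A 𝒜) (FB : Fam B ℬ) {J J' : Subgroup G}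
    (hJ : J ∈ 𝒜) (hJ' : J' ∈ ℬ) {u g : G} (hu : u ∈ J) (hu2 : u * u = 1) (hg : g ∈ J') :
    u * (g⁻¹ * u⁻¹ * g) ∈ J' ∧ (u * (g⁻¹ * u⁻¹ * g)) * (u * (g⁻¹ * u⁻¹ * g)) = 1 := by
  constructor
  · have h1 := star1 hA hB FA FB hJ hJ' hu hu2
    have h2 : u * g⁻¹ * u⁻¹ ∈ J' := by
      rw [← h1]; exact conj_mem_cj (J'.inv_mem hg)
    have : u * (g⁻¹ * u⁻¹ * g) = (u * g⁻¹ * u⁻¹) * g := by group
    rw [this]
    exact J'.mul_mem h2 hg
  · have hui2 : u⁻¹ * u⁻¹ = 1 := by rw [inv_sq' hu2]; exact hu2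
    have hβ2 : (g⁻¹ * u⁻¹ * g) * (g⁻¹ * u⁻¹ * g) = 1 := by
      have : (g⁻¹ * u⁻¹ * g) * (g⁻¹ * u⁻¹ * g) = g⁻¹ * (u⁻¹ * u⁻¹) * g := by group
      rw [this, hui2]; group
    have hβm : g⁻¹ * u⁻¹ * g ∈ cj g⁻¹ J := by
      rw [mem_cj]
      have : (g⁻¹)⁻¹ * (g⁻¹ * u⁻¹ * g) * g⁻¹ = u⁻¹ := by group
      rw [this]; exact J.inv_mem hu
    have hJ2 : cj g⁻¹ J ∈ 𝒜 := FA.cj_mem hA hJ g⁻¹
    have hub : u * (g⁻¹ * u⁻¹ * g) = (g⁻¹ * u⁻¹ * g) * u := by
      by_cases hJe : J = cj g⁻¹ J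
      · rw [← hJe] at hβm
        exact (FA.tet J hJ).ab u hu _ hβm hu2 hβ2
      · exact FA.comm J hJ _ hJ2 hJe u hu _ hβm
    exact mul_sq hu2 hβ2 hub

/-- (ii) elements of order three of members of `ℬ` normalise members of `𝒜` -/
lemma star2 (hA : A.Normal) (hB : B.Normal) (FA : Fam A 𝒜) (FB : Fam B ℬ) {J J' : Subgroup G}
    (hJ : J ∈ 𝒜) (hJ' : J' ∈ ℬ) {g : G} (hg : g ∈ J') (hg2 : g * g ≠ 1) : cj g⁻¹ J = J := by
  by_contra hne
  have hg3 := (FB.tet J' hJ').cube hg hg2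
  have hJ2 : cj g⁻¹ J ∈ 𝒜 := FA.cj_mem hA hJ g⁻¹
  have hJ3 : cj g⁻¹ (cj g⁻¹ J) ∈ 𝒜 := FA.cj_mem hA hJ2 g⁻¹
  have hgi3 : g⁻¹ * (g⁻¹ * g⁻¹) = 1 := by
    have : g⁻¹ * (g⁻¹ * g⁻¹) = (g * g * g)⁻¹ := by group
    rw [this, hg3, inv_one]
  have e3 : cj g⁻¹ (cj g⁻¹ (cj g⁻¹ J)) = J := by
    rw [cj_cj, cj_cj, mul_assoc, hgi3, cj_one]
  have h31 : J ≠ cj g⁻¹ (cj g⁻¹ J) := by
    intro h
    apply hne
    rw [← h] at e3
    exact e3
  have h32 : cj g⁻¹ J ≠ cj g⁻¹ (cj g⁻¹ J) := by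
    intro h
    apply hne
    have h1 := congrArg (cj g) h
    rw [cj_cj, cj_cj, mul_inv_cancel, cj_one, cj_one] at h1
    exact h1.symm
  have hT := FA.tet J hJ
  obtain ⟨u, hu, hu2, hu1⟩ := hT.exu
  obtain ⟨a, ha, ha2⟩ := hT.exa
  set u' := a * u * a⁻¹ with hu'
  have hu'J : u' ∈ J := J.mul_mem (J.mul_mem ha hu) (J.inv_mem ha)
  have hu'2 : u' * u' = 1 := conj_sq hu2
  have hu'ne : u' ≠ u := hT.conj_ne ha hu ha2 hu2 hu1
  obtain ⟨he, he2⟩ := star_e hA hB FA FB hJ hJ' hu hu2 hg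
  obtain ⟨hf, hf2⟩ := star_e hA hB FA FB hJ hJ' hu'J hu'2 hg
  have hvm : ∀ u ∈ J, g⁻¹ * u⁻¹ * g ∈ cj g⁻¹ J := by
    intro u hu
    rw [mem_cj]
    have : (g⁻¹)⁻¹ * (g⁻¹ * u⁻¹ * g) * g⁻¹ = u⁻¹ := by group
    rw [this]; exact J.inv_mem hu
  have hdisj : ∀ u u' : G, u ∈ J → u' ∈ J →
      u * (g⁻¹ * u⁻¹ * g) = u' * (g⁻¹ * u'⁻¹ * g) → u = u' := by
    intro u u' hu hu' h
    have h1 : u'⁻¹ * u = (g⁻¹ * u'⁻¹ * g) * (g⁻¹ * u⁻¹ * g)⁻¹ := by
      calc u'⁻¹ * u = u'⁻¹ * (u * (g⁻¹ * u⁻¹ * g)) * (g⁻¹ * u⁻¹ * g)⁻¹ := by group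
        _ = u'⁻¹ * (u' * (g⁻¹ * u'⁻¹ * g)) * (g⁻¹ * u⁻¹ * g)⁻¹ := by rw [h]
        _ = _ := by group
    have h2 : u'⁻¹ * u ∈ cj g⁻¹ J := by
      rw [h1]
      exact Subgroup.mul_mem _ (hvm u' hu') (Subgroup.inv_mem _ (hvm u hu))
    have h3 := FA.inter hJ hJ2 (Ne.symm hne) (J.mul_mem (J.inv_mem hu') hu) h2
    exact (inv_mul_eq_one.1 h3).symm
  have he1 : u * (g⁻¹ * u⁻¹ * g) ≠ 1 := by
    intro h
    apply hu1
    apply hdisj u 1 hu J.one_mem
    rw [h]; group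
  have hf1 : u' * (g⁻¹ * u'⁻¹ * g) ≠ 1 := by
    intro h
    have : u' = 1 := by
      apply hdisj u' 1 hu'J J.one_mem
      rw [h]; group
    apply hu1
    have e : u = a⁻¹ * u' * a := by rw [hu']; group
    rw [e, this]; group
  have hef : u * (g⁻¹ * u⁻¹ * g) ≠ u' * (g⁻¹ * u'⁻¹ * g) := fun h =>
    hu'ne (hdisj u u' hu hu'J h).symm
  -- third element
  set e := u * (g⁻¹ * u⁻¹ * g) with hedef
  have hxJ : g⁻¹ * e * g ∈ J' := J'.mul_mem (J'.mul_mem (J'.inv_mem hg) he) hg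
  have hx2 : (g⁻¹ * e * g) * (g⁻¹ * e * g) = 1 := by
    have : (g⁻¹ * e * g) * (g⁻¹ * e * g) = g⁻¹ * (e * e) * g := by group
    rw [this, he2]; group
  -- w
  set w := g⁻¹ * (g⁻¹ * u⁻¹ * g) * g with hw
  have hwm : w ∈ cj g⁻¹ (cj g⁻¹ J) := by
    rw [mem_cj]
    have : (g⁻¹)⁻¹ * w * g⁻¹ = g⁻¹ * u⁻¹ * g := by rw [hw]; group
    rw [this]; exact hvm u hu
  have hwx : w = (g⁻¹ * u⁻¹ * g) * (g⁻¹ * e * g) := by
    have : g⁻¹ * e * g = (g⁻¹ * u⁻¹ * g)⁻¹ * w := by rw [hedef, hw]; group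
    rw [this]; group
  have c1 : ∀ y ∈ cj g⁻¹ (cj g⁻¹ J), ∀ x ∈ J, x * y = y * x := fun y hy x hx =>
    FA.comm J hJ _ hJ3 h31 x hx y hy
  have c2 : ∀ y ∈ cj g⁻¹ (cj g⁻¹ J), ∀ x ∈ cj g⁻¹ J, x * y = y * x := fun y hy x hx =>
    FA.comm _ hJ2 _ hJ3 h32 x hx y hy
  have hw1 : w = 1 := by
    apply (FA.tet _ hJ3).comm_one hwm
    intro y hy
    have cC : Subgroup.centralizer {y} ≤ Subgroup.centralizer {y} := le_rfl
    have m1 : ∀ x ∈ J, x ∈ Subgroup.centralizer {y} := fun x hx => by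
      rw [Subgroup.mem_centralizer_singleton_iff]; exact c1 y hy x hx
    have m2 : ∀ x ∈ cj g⁻¹ J, x ∈ Subgroup.centralizer {y} := fun x hx => by
      rw [Subgroup.mem_centralizer_singleton_iff]; exact c2 y hy x hx
    have me : e ∈ Subgroup.centralizer {y} := Subgroup.mul_mem _ (m1 u hu) (m2 _ (hvm u hu))
    have mf : u' * (g⁻¹ * u'⁻¹ * g) ∈ Subgroup.centralizer {y} :=
      Subgroup.mul_mem _ (m1 u' hu'J) (m2 _ (hvm u' hu'J))
    have mx : g⁻¹ * e * g ∈ Subgroup.centralizer {y} := by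
      rcases (FB.tet J' hJ').four e he _ hf _ hxJ he2 hf2 hx2 he1 hf1 hef with h | h | h | h
      · rw [h]; exact Subgroup.one_mem _
      · rw [h]; exact me
      · rw [h]; exact mf
      · rw [h]; exact Subgroup.mul_mem _ me mf
    have mw : w ∈ Subgroup.centralizer {y} := by
      rw [hwx]; exact Subgroup.mul_mem _ (m2 _ (hvm u hu)) mx
    rwa [Subgroup.mem_centralizer_singleton_iff] at mw
  apply hu1
  have : u⁻¹ = g * (g * w * g⁻¹) * g⁻¹ := by rw [hw]; group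
  rw [hw1] at this
  have h5 : u⁻¹ = 1 := by rw [this]; group
  rwa [inv_eq_one] at h5

/-- (iii) -/
lemma star3 (hA : A.Normal) (hB : B.Normal) (FA : Fam A 𝒜) (FB : Fam B ℬ) {J J' : Subgroup G}
    (hJ : J ∈ 𝒜) (hJ' : J' ∈ ℬ) :
    (∀ u ∈ J, u * u = 1 → ∀ g ∈ J', g * u = u * g) ∨
    (∀ x, x * x = 1 → (x ∈ J ↔ x ∈ J')) := by
  by_cases hcase : ∀ u ∈ J, u * u = 1 → ∀ g ∈ J', g * g ≠ 1 → g * u = u * g
  · left
    intro u hu hu2
    have h1 : J' ≤ Subgroup.centralizer {u} := by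
      apply (FB.tet J' hJ').le_of
      intro g hg hg2
      rw [Subgroup.mem_centralizer_singleton_iff]
      exact hcase u hu hu2 g hg hg2
    intro g hg
    have := h1 hg
    rwa [Subgroup.mem_centralizer_singleton_iff] at this
  · right
    push Not at hcase
    obtain ⟨u, hu, hu2, g, hg, hg2, hne⟩ := hcase
    obtain ⟨he, he2⟩ := star_e hA hB FA FB hJ hJ' hu hu2 hg
    have hcjJ := star2 hA hB FA FB hJ hJ' hg hg2
    have hgJ : ∀ x ∈ J, g⁻¹ * x * g ∈ J := by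
      intro x hx
      have : g⁻¹ * x * g = g⁻¹ * x * (g⁻¹)⁻¹ := by group
      rw [this, ← hcjJ]
      exact conj_mem_cj hx
    have hvJ : g⁻¹ * u⁻¹ * g ∈ J := hgJ _ (J.inv_mem hu)
    set e := u * (g⁻¹ * u⁻¹ * g) with hedef
    have heJ : e ∈ J := J.mul_mem hu hvJ
    have he1 : e ≠ 1 := by
      intro h
      apply hne
      have h1 : u = (g⁻¹ * u⁻¹ * g)⁻¹ := mul_eq_one_iff_eq_inv.1 h
      have h2 : u = g⁻¹ * u * g := by
        calc u = (g⁻¹ * u⁻¹ * g)⁻¹ := h1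
          _ = g⁻¹ * u * g := by group
      calc g * u = g * (g⁻¹ * u * g) := by rw [← h2]
        _ = u * g := by group
    set f := g⁻¹ * e * g with hfdef
    have hfJ : f ∈ J := hgJ _ heJ
    have hfJ' : f ∈ J' := J'.mul_mem (J'.mul_mem (J'.inv_mem hg) he) hg
    have hf2 : f * f = 1 := by
      have : f * f = g⁻¹ * (e * e) * g := by rw [hfdef]; group
      rw [this, he2]; group
    have hf1 : f ≠ 1 := by
      intro h; apply he1
      have : e = g * f * g⁻¹ := by rw [hfdef]; group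
      rw [this, h]; group
    have hef : e ≠ f := by
      intro h
      apply he1
      apply (FB.tet J' hJ').fpf g hg e he hg2 he2
      calc g * e = g * f := by rw [← h]
        _ = e * g := by rw [hfdef]; group
    intro x hx2
    constructor
    · intro hx
      rcases (FA.tet J hJ).four e heJ f hfJ x hx he2 hf2 hx2 he1 hf1 hef with h | h | h | h
      · rw [h]; exact J'.one_mem
      · rw [h]; exact he
      · rw [h]; exact hfJ'
      · rw [h]; exact J'.mul_mem he hfJ'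
    · intro hx
      rcases (FB.tet J' hJ').four e he f hfJ' x hx he2 hf2 hx2 he1 hf1 hef with h | h | h | h
      · rw [h]; exact J.one_mem
      · rw [h]; exact heJ
      · rw [h]; exact hfJ
      · rw [h]; exact J.mul_mem heJ hfJ

/-- members of `ℬ` normalise members of `𝒜` -/
lemma star4 (hA : A.Normal) (hB : B.Normal) (FA : Fam A 𝒜) (FB : Fam B ℬ) {J J' : Subgroup G}
    (hJ : J ∈ 𝒜) (hJ' : J' ∈ ℬ) : ∀ g ∈ J', ∀ x ∈ J, g * x * g⁻¹ ∈ J := by
  have h1 : J' ≤ Subgroup.normalizer (J : Set G) := by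
    apply (FB.tet J' hJ').le_of
    intro g hg hg2
    have h2 := star2 hA hB FA FB hJ hJ' hg hg2
    rw [Subgroup.mem_normalizer_iff]
    intro x
    constructor
    · intro hx
      rw [← h2] at hx
      rw [mem_cj] at hx
      have : (g⁻¹)⁻¹ * x * g⁻¹ = g * x * g⁻¹ := by group
      rwa [this] at hx
    · intro hx
      rw [← h2, mem_cj]
      have : (g⁻¹)⁻¹ * x * g⁻¹ = g * x * g⁻¹ := by group
      rw [this]; exact hx
  intro g hg x hx
  exact (Subgroup.mem_normalizer_iff.1 (h1 hg) x).1 hx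

/-- members commute unless they have the same involutions -/
lemma star5 (hA : A.Normal) (hB : B.Normal) (FA : Fam A 𝒜) (FB : Fam B ℬ) {J J' : Subgroup G}
    (hJ : J ∈ 𝒜) (hJ' : J' ∈ ℬ) :
    (∀ x ∈ J, ∀ y ∈ J', x * y = y * x) ∨ (∀ x, x * x = 1 → (x ∈ J ↔ x ∈ J')) := by
  rcases star3 hA hB FA FB hJ hJ' with h | h
  · left
    intro x hx y hy
    by_contra hne
    set d := x * y * x⁻¹ * y⁻¹ with hd
    have hdJ : d ∈ J := by
      have : d = x * (y * x⁻¹ * y⁻¹) := by rw [hd]; group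
      rw [this]
      exact J.mul_mem hx (star4 hA hB FA FB hJ hJ' y hy _ (J.inv_mem hx))
    have hdJ' : d ∈ J' :=
      J'.mul_mem (star4 hB hA FB FA hJ' hJ x hx y hy) (J'.inv_mem hy)
    have hd1 : d ≠ 1 := by
      intro h1
      apply hne
      have h2 : x * y * x⁻¹ = y := mul_inv_eq_one.1 h1
      calc x * y = (x * y * x⁻¹) * x := by group
        _ = y * x := by rw [h2]
    have h3 := (FA.tet J hJ).inv_le (L := J')
      (fun a ha l hl => star4 hB hA FB FA hJ' hJ a ha l hl) hdJ hdJ' hd1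
    obtain ⟨u, hu, hu2, hu1⟩ := (FA.tet J hJ).exu
    apply hu1
    apply (FB.tet J' hJ').comm_one (h3 u hu hu2)
    intro z hz
    exact (h u hu hu2 z hz).symm
  · right; exact h

/-- `B` normalises members of `𝒜` -/
lemma star6 (hA : A.Normal) (hB : B.Normal) (FA : Fam A 𝒜) (FB : Fam B ℬ) {J : Subgroup G}
    (hJ : J ∈ 𝒜) : ∀ y ∈ B, cj y J = J := by
  intro y hy
  by_contra hne
  have hJ2 : cj y J ∈ 𝒜 := FA.cj_mem hA hJ y
  obtain ⟨a, ha, ha2⟩ := (FA.tet J hJ).exa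
  obtain ⟨u, hu, hu2, hu1⟩ := (FA.tet J hJ).exu
  have ha3 := (FA.tet J hJ).cube ha ha2
  set a2 := y * a * y⁻¹ with ha2'
  have ha2m : a2 ∈ cj y J := conj_mem_cj ha
  have hai3 : a⁻¹ * a⁻¹ * a⁻¹ = 1 := by
    have : a⁻¹ * a⁻¹ * a⁻¹ = (a * a * a)⁻¹ := by group
    rw [this, ha3, inv_one]
  have ha23 : a2 * a2 * a2 = 1 := by
    have : a2 * a2 * a2 = y * (a * a * a) * y⁻¹ := by rw [ha2']; group
    rw [this, ha3]; group
  have hcm : ∀ x ∈ J, ∀ z ∈ cj y J, x * z = z * x := FA.comm J hJ _ hJ2 (Ne.symm hne)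
  have hc3 := mul_cube hai3 ha23 (hcm _ (J.inv_mem ha) _ ha2m)
  have hcB : a⁻¹ * a2 ∈ B := by
    have : a⁻¹ * a2 = (a⁻¹ * y * (a⁻¹)⁻¹) * y⁻¹ := by rw [ha2']; group
    rw [this]
    exact B.mul_mem (hB.conj_mem y hy a⁻¹) (B.inv_mem hy)
  have hcR := FB.cube_mem hcB hc3
  -- some member of ℬ has the same involutions
  have hex : ∃ J' ∈ ℬ, ∀ x, x * x = 1 → (x ∈ J ↔ x ∈ J') := by
    by_contra hcon
    push Not at hcon
    have hall : ∀ J' ∈ ℬ, ∀ g ∈ J', u * g = g * u := by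
      intro J' hJ' g hg
      rcases star3 hA hB FA FB hJ hJ' with h | h
      · exact (h u hu hu2 g hg).symm
      · exfalso
        obtain ⟨x, hx2, hx⟩ := hcon J' hJ'
        have := h x hx2
        tauto
    have h1 := comm_sSup hall hcR
    -- u commutes with a⁻¹ a2 and with a2
    have h2 : u * a2 = a2 * u := hcm u hu _ ha2m
    apply hu1
    apply (FA.tet J hJ).fpf a ha u hu ha2 hu2
    have h3 : u * a⁻¹ = a⁻¹ * u := by
      have : u * a⁻¹ * a2 = a⁻¹ * u * a2 := by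
        calc u * a⁻¹ * a2 = u * (a⁻¹ * a2) := by group
          _ = (a⁻¹ * a2) * u := h1
          _ = a⁻¹ * (a2 * u) := by group
          _ = a⁻¹ * (u * a2) := by rw [h2]
          _ = a⁻¹ * u * a2 := by group
      exact mul_right_cancel this
    calc a * u = a * (u * a⁻¹) * a := by group
      _ = a * (a⁻¹ * u) * a := by rw [h3]
      _ = u * a := by group
  obtain ⟨J', hJ', hsame⟩ := hex
  apply hu1
  have h1 : u ∈ J' := (hsame u hu2).1 hu
  have h2 : y * u * y⁻¹ ∈ J' := FB.nrm J' hJ' y hy u h1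
  have h3 : y * u * y⁻¹ ∈ J := (hsame _ (conj_sq hu2)).2 h2
  have h4 := FA.inter hJ hJ2 (Ne.symm hne) h3 (conj_mem_cj hu)
  have : u = y⁻¹ * (y * u * y⁻¹) * y := by group
  rw [this, h4]; group

/-- members with the same involutions are equal -/
lemma star7 (hA : A.Normal) (hB : B.Normal) (FA : Fam A 𝒜) (FB : Fam B ℬ)
    (genA : A ≤ Subgroup.closure {g | g ∈ A ∧ ∃ n, g ^ (2 ^ n) = 1}) {J J' : Subgroup G}
    (hJ : J ∈ 𝒜) (hJ' : J' ∈ ℬ) (hsame : ∀ x, x * x = 1 → (x ∈ J ↔ x ∈ J')) : J = J' := by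
  have hT := FA.tet J hJ
  have hT' := FB.tet J' hJ'
  have hAJ' : ∀ y ∈ A, ∀ x ∈ J', y * x * y⁻¹ ∈ J' := by
    intro y hy x hx
    have := star6 hB hA FB FA hJ' y hy
    rw [← this]; exact conj_mem_cj hx
  obtain ⟨a, ha, ha2⟩ := hT'.exa
  have hex : ∃ x ∈ A, (∃ n, x ^ (2 ^ n) = 1) ∧
      ¬ ∀ u ∈ J', u * u = 1 → (a⁻¹ * x * a * x⁻¹) * u = u * (a⁻¹ * x * a * x⁻¹) := by
    by_contra hcon
    push Not at hcon
    obtain ⟨u, hu, hu2, hu1⟩ := hT.exu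
    have h1 : A ≤ Subgroup.centralizer {u} := by
      refine genA.trans ?_
      rw [Subgroup.closure_le]
      rintro x ⟨hx, n, hn⟩
      rw [SetLike.mem_coe, Subgroup.mem_centralizer_singleton_iff]
      exact hT'.two_comm hn (hAJ' x hx) ha ha2 (hcon x hx ⟨n, hn⟩) u ((hsame u hu2).1 hu) hu2
    obtain ⟨b, hb, hb2⟩ := hT.exa
    apply hu1
    apply hT.fpf b hb u hu hb2 hu2
    have := h1 (FA.le J hJ hb)
    rwa [Subgroup.mem_centralizer_singleton_iff] at this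
  obtain ⟨x, hx, -, hnc⟩ := hex
  set d := a⁻¹ * x * a * x⁻¹ with hd
  have hdJ' : d ∈ J' := by
    have : d = a⁻¹ * (x * a * x⁻¹) := by rw [hd]; group
    rw [this]
    exact J'.mul_mem (J'.inv_mem ha) (hAJ' x hx a ha)
  have hdA : d ∈ A := by
    have : d = (a⁻¹ * x * (a⁻¹)⁻¹) * x⁻¹ := by rw [hd]; group
    rw [this]
    exact A.mul_mem (hA.conj_mem x hx a⁻¹) (A.inv_mem hx)
  have hd2 : d * d ≠ 1 := by
    intro h
    apply hnc
    intro u hu hu2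
    exact hT'.ab d hdJ' u hu h hu2
  have hJ'A : J' ≤ A := hT'.le_of_mem (fun u hu hu2 => FA.le J hJ ((hsame u hu2).2 hu)) hdJ' hd2 hdA
  have hJ'm : J' ∈ 𝒜 := FA.uniq hJ'A hAJ' hT'
  by_contra hne
  obtain ⟨u, hu, hu2, hu1⟩ := hT.exu
  exact hu1 (FA.inter hJ hJ'm hne hu ((hsame u hu2).1 hu))

end two

end Pool.Agent.Helper218.Modu
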