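import Pool.Agent.Helper218.Mod2

set_option autoImplicit false
set_option linter.all false

namespace Pool.Agent.Helper218.Modu

open Subgroup Pool.Agent.Helper218

variable {G : Type*} [Group G]

/-- powers into a normal subgroup of a product of two normal subgroups -/
lemma sup_pow {p : ℕ} [Fact p.Prime] {A B R : Subgroup G} (hA : A.Normal) (hB : B.Normal)
    (hR : R.Normal) (h1 : ∀ x ∈ A, ∃ n, x ^ (p ^ n) ∈ R) (h2 : ∀ x ∈ B, ∃ n, x ^ (p ^ n) ∈ R) :
    ∀ x ∈ A ⊔ B, ∃ n, x ^ (p ^ n) ∈ R := by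
  haveI := hA; haveI := hB; haveI := hR
  intro x hx
  obtain ⟨a, ha, b, hb, rfl⟩ := Subgroup.mem_sup_of_normal_right.1 hx
  obtain ⟨n, hn⟩ := h1 a ha
  obtain ⟨m, hm⟩ := h2 b hb
  -- in G / (B ⊔ R)
  have e1 : (a * b) ^ (p ^ n) ∈ B ⊔ R := by
    have h3 : ((a * b : G) : G ⧸ (B ⊔ R)) = (a : G ⧸ (B ⊔ R)) := by
      rw [QuotientGroup.mk_mul, (QuotientGroup.eq_one_iff b).2 (le_sup_left (b := R) hb), mul_one]
    rw [← QuotientGroup.eq_one_iff, QuotientGroup.mk_pow, h3, ← QuotientGroup.mk_pow,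
      QuotientGroup.eq_one_iff]
    exact le_sup_right (a := B) hn
  obtain ⟨b', hb', r, hr, hbr⟩ := Subgroup.mem_sup_of_normal_right.1 e1
  obtain ⟨k, hk⟩ := h2 b' hb'
  refine ⟨n + k, ?_⟩
  rw [pow_add, pow_mul, ← hbr, ← QuotientGroup.eq_one_iff, QuotientGroup.mk_pow,
    QuotientGroup.mk_mul, (QuotientGroup.eq_one_iff r).2 hr, mul_one, ← QuotientGroup.mk_pow,
    QuotientGroup.eq_one_iff]
  exact hk

theorem Fam.sup [Finite G] {A B : Subgroup G} {𝒜 ℬ : Set (Subgroup G)} (hA : A.Normal)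
    (hB : B.Normal) (FA : Fam A 𝒜) (FB : Fam B ℬ)
    (genA : A ≤ Subgroup.closure {g | g ∈ A ∧ ∃ n, g ^ (2 ^ n) = 1}) :
    Fam (A ⊔ B) (𝒜 ∪ ℬ) := by
  have nn : ∀ (S : Subgroup G), S.Normal → ∀ (k : G), ∀ J : Subgroup G, cj k J = J →
      ∀ x ∈ J, k * x * k⁻¹ ∈ J := by
    intro S _ k J hJ x hx
    rw [← hJ]; exact conj_mem_cj hx
  refine ⟨?_, ?_, ?_, ?_, ?_⟩
  · rintro J (hJ | hJ)
    · exact (FA.le J hJ).trans le_sup_left
    · exact (FB.le J hJ).trans le_sup_right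
  · have key : ∀ J : Subgroup G, (∀ k ∈ A, ∀ x ∈ J, k * x * k⁻¹ ∈ J) →
        (∀ k ∈ B, ∀ x ∈ J, k * x * k⁻¹ ∈ J) → ∀ k ∈ A ⊔ B, ∀ x ∈ J, k * x * k⁻¹ ∈ J := by
      intro J h1 h2 k hk x hx
      haveI := hB
      obtain ⟨a, ha, b, hb, rfl⟩ := Subgroup.mem_sup_of_normal_right.1 hk
      have : a * b * x * (a * b)⁻¹ = a * (b * x * b⁻¹) * a⁻¹ := by group
      rw [this]
      exact h1 a ha _ (h2 b hb x hx)
    rintro J (hJ | hJ)
    · refine key J (FA.nrm J hJ) (fun k hk x hx => ?_)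
      have := star6 hA hB FA FB hJ k hk
      rw [← this]; exact conj_mem_cj hx
    · refine key J (fun k hk x hx => ?_) (FB.nrm J hJ)
      have := star6 hB hA FB FA hJ k hk
      rw [← this]; exact conj_mem_cj hx
  · rintro J (hJ | hJ)
    · exact FA.tet J hJ
    · exact FB.tet J hJ
  · rintro J (hJ | hJ) J' (hJ' | hJ') hne
    · exact FA.comm J hJ J' hJ' hne
    · rcases star5 hA hB FA FB hJ hJ' with h | h
      · exact h
      · exact absurd (star7 hA hB FA FB genA hJ hJ' h) hne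
    · rcases star5 hA hB FA FB hJ' hJ with h | h
      · intro x hx y hy; exact (h y hy x hx).symm
      · exact absurd (star7 hA hB FA FB genA hJ' hJ h).symm hne
    · exact FB.comm J hJ J' hJ' hne
  · have hR : (sSup (𝒜 ∪ ℬ)).Normal := by
      constructor
      intro x hx g
      have h1 : sSup (𝒜 ∪ ℬ) ≤ (sSup (𝒜 ∪ ℬ)).comap (MulAut.conj g).toMonoidHom := by
        apply sSup_le
        rintro J hJ y hy
        rw [Subgroup.mem_comap]
        have h2 : cj g J ∈ 𝒜 ∪ ℬ := by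
          rcases hJ with hJ | hJ
          · left; exact FA.cj_mem hA hJ g
          · right; exact FB.cj_mem hB hJ g
        exact (le_sSup h2) (conj_mem_cj hy)
      exact h1 hx
    haveI : Fact (Nat.Prime 2) := ⟨Nat.prime_two⟩
    refine sup_pow hA hB hR ?_ ?_
    · intro x hx
      obtain ⟨n, hn⟩ := FA.quo x hx
      exact ⟨n, (sSup_le_sSup (Set.subset_union_left (s := 𝒜) (t := ℬ)) :
        sSup 𝒜 ≤ sSup (𝒜 ∪ ℬ)) hn⟩
    · intro x hx
      obtain ⟨n, hn⟩ := FB.quo x hx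
      exact ⟨n, (sSup_le_sSup (Set.subset_union_right (s := 𝒜) (t := ℬ)) :
        sSup ℬ ≤ sSup (𝒜 ∪ ℬ)) hn⟩

lemma Kq_normal (q : ℕ) {N : Subgroup G} (hN : N.Normal) : (Kq q N).Normal :=
  ⟨fun x hx g => Kq_conj q (fun s hs => hN.conj_mem s hs g) hx⟩

/-- every element has an odd power which is a 2-element -/
lemma exists_odd_pow [Finite G] (x : G) : ∃ m n : ℕ, Nat.Coprime 2 m ∧ (x ^ m) ^ (2 ^ n) = 1 := by
  obtain ⟨n, m, hm, hx⟩ := Nat.exists_eq_two_pow_mul_odd (orderOf_pos x).ne'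
  refine ⟨m, n, hm.coprime_two_left, ?_⟩
  rw [← pow_mul, mul_comm m, ← hx, pow_orderOf_eq_one]

lemma Kq_sup [Finite G] {N M : Subgroup G} (hN : N.Normal) (hM : M.Normal) :
    Kq 2 (N ⊔ M) = Kq 2 N ⊔ Kq 2 M := by
  apply le_antisymm
  · have hL : (Kq 2 N ⊔ Kq 2 M).Normal := by
      haveI := Kq_normal 2 hN
      haveI := Kq_normal 2 hM
      infer_instance
    haveI := hN; haveI := hM; haveI := hL
    set L := Kq 2 N ⊔ Kq 2 M with hLdef
    rw [Kq, Subgroup.closure_le]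
    rintro g ⟨hg, n, hn⟩
    obtain ⟨x, hx, y, hy, rfl⟩ := Subgroup.mem_sup_of_normal_right.1 hg
    obtain ⟨m, k, hm, hk⟩ := exists_odd_pow x
    have hxm : x ^ m ∈ L := by
      have : x ^ m ∈ Kq 2 N := Subgroup.subset_closure ⟨N.pow_mem hx m, k, hk⟩
      exact le_sup_left (b := Kq 2 M) this
    have h1 : (x * y) ^ m ∈ M ⊔ L := by
      have h3 : ((x * y : G) : G ⧸ (M ⊔ L)) = (x : G ⧸ (M ⊔ L)) := by
        rw [QuotientGroup.mk_mul, (QuotientGroup.eq_one_iff y).2 (le_sup_left (b := L) hy), mul_one]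
      rw [← QuotientGroup.eq_one_iff, QuotientGroup.mk_pow, h3, ← QuotientGroup.mk_pow,
        QuotientGroup.eq_one_iff]
      exact le_sup_right (a := M) hxm
    have h2 : x * y ∈ M ⊔ L :=
      mem_of_pows (Nat.Coprime.pow_left n hm) (by rw [hn]; exact Subgroup.one_mem _) h1
    obtain ⟨y', hy', l, hl, hyl⟩ := Subgroup.mem_sup_of_normal_right.1 h2
    obtain ⟨m', k', hm', hk'⟩ := exists_odd_pow y'
    have hym : y' ^ m' ∈ L := by
      have : y' ^ m' ∈ Kq 2 M := Subgroup.subset_closure ⟨M.pow_mem hy' m', k', hk'⟩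
      exact le_sup_right (a := Kq 2 N) this
    have h4 : (x * y) ^ m' ∈ L := by
      have h3 : ((x * y : G) : G ⧸ L) = (y' : G ⧸ L) := by
        rw [← hyl, QuotientGroup.mk_mul, (QuotientGroup.eq_one_iff l).2 hl, mul_one]
      rw [← QuotientGroup.eq_one_iff, QuotientGroup.mk_pow, h3, ← QuotientGroup.mk_pow,
        QuotientGroup.eq_one_iff]
      exact hym
    exact mem_of_pows (Nat.Coprime.pow_left n hm') (by rw [hn]; exact Subgroup.one_mem _) h4
  · exact sup_le (Kq_mono 2 le_sup_left) (Kq_mono 2 le_sup_right)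

/-- a centralising `2`-element acts trivially; used for `K_N` -/
theorem Fam.sub [Finite G] {K : Subgroup G} {𝒥 : Set (Subgroup G)} (F : Fam K 𝒥)
    {N : Subgroup G} (hN : N.Normal) (hNK : Kq 2 N ≤ K) :
    Fam (Kq 2 N) {J ∈ 𝒥 | J ≤ Kq 2 N} := by
  have hKN := Kq_normal 2 hN
  refine ⟨fun J hJ => hJ.2, fun J hJ k hk => F.nrm J hJ.1 k (hNK hk), fun J hJ => F.tet J hJ.1,
    fun J hJ J' hJ' => F.comm J hJ.1 J' hJ'.1, ?_⟩
  intro k hk
  obtain ⟨n1, hn1⟩ := F.quo k (hNK hk)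
  obtain ⟨n2, m, hm, hord⟩ := Nat.exists_eq_two_pow_mul_odd (orderOf_pos k).ne'
  refine ⟨n1 + n2, ?_⟩
  set h := k ^ (2 ^ (n1 + n2)) with hh
  have hR : h ∈ sSup 𝒥 := by
    rw [hh, pow_add, pow_mul]; exact Subgroup.pow_mem _ hn1 _
  have hhN : h ∈ Kq 2 N := Subgroup.pow_mem _ hk _
  have hm1 : h ^ m = 1 := by
    rw [hh, ← pow_mul]
    have : 2 ^ (n1 + n2) * m = orderOf k * 2 ^ n1 := by rw [hord]; ring
    rw [this, pow_mul, pow_orderOf_eq_one, one_pow]
  -- claim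
  have claim : ∀ J ∈ 𝒥, ¬ J ≤ Kq 2 N → ∀ x ∈ J, h * x = x * h := by
    intro J hJ hJN
    by_contra hnc
    push Not at hnc
    obtain ⟨x, hx, hne⟩ := hnc
    have hT := F.tet J hJ
    set d := h * x * h⁻¹ * x⁻¹ with hd
    have hdJ : d ∈ J := J.mul_mem (F.nrm J hJ h (hNK hhN) x hx) (J.inv_mem hx)
    have hdN : d ∈ Kq 2 N := by
      have : d = h * (x * h⁻¹ * x⁻¹) := by rw [hd]; group
      rw [this]
      exact Subgroup.mul_mem _ hhN (hKN.conj_mem _ (Subgroup.inv_mem _ hhN) x)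
    have hd1 : d ≠ 1 := by
      intro h1
      apply hne
      have h2 : h * x * h⁻¹ = x := mul_inv_eq_one.1 h1
      calc h * x = (h * x * h⁻¹) * h := by group
        _ = x * h := by rw [h2]
    have hinv := hT.inv_le (L := Kq 2 N) (fun a _ l hl => hKN.conj_mem l hl a) hdJ hdN hd1
    have hno : ∀ b ∈ J, b * b ≠ 1 → b ∉ Kq 2 N := fun b hb hb2 hbN =>
      hJN (hT.le_of_mem hinv hb hb2 hbN)
    obtain ⟨a, ha, ha2⟩ := hT.exa
    -- K_N centralises the involutions of J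
    have hcent : ∀ u ∈ J, u * u = 1 → ∀ y ∈ Kq 2 N, y * u = u * y := by
      intro u hu hu2
      have h1 : Kq 2 N ≤ Subgroup.centralizer {u} := by
        refine (Kq_gen 2 N).trans ?_
        rw [Subgroup.closure_le]
        rintro y ⟨hy, n, hn⟩
        rw [SetLike.mem_coe, Subgroup.mem_centralizer_singleton_iff]
        refine hT.two_comm hn (F.nrm J hJ y (hNK hy)) ha ha2 ?_ u hu hu2
        intro v hv hv2
        have hcJ : a⁻¹ * y * a * y⁻¹ ∈ J := by
          have : a⁻¹ * y * a * y⁻¹ = a⁻¹ * (y * a * y⁻¹) := by group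
          rw [this]
          exact J.mul_mem (J.inv_mem ha) (F.nrm J hJ y (hNK hy) a ha)
        have hcN : a⁻¹ * y * a * y⁻¹ ∈ Kq 2 N := by
          have : a⁻¹ * y * a * y⁻¹ = (a⁻¹ * y * (a⁻¹)⁻¹) * y⁻¹ := by group
          rw [this]
          exact Subgroup.mul_mem _ (hKN.conj_mem y hy a⁻¹) (Subgroup.inv_mem _ hy)
        have hc2 : (a⁻¹ * y * a * y⁻¹) * (a⁻¹ * y * a * y⁻¹) = 1 := by
          by_contra h3
          exact hno _ hcJ h3 hcN
        exact hT.ab _ hcJ v hv hc2 hv2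
      intro y hy
      have := h1 hy
      rwa [Subgroup.mem_centralizer_singleton_iff] at this
    obtain ⟨z, hz, g, hg, hzg, hJg⟩ := F.split hJ hR
    have hz2 : z * z = 1 := by
      by_contra h2
      obtain ⟨u, hu, hu2, hu1⟩ := hT.exu
      apply hu1
      apply hT.fpf z hz u hu h2 hu2
      have e1 := hcent u hu hu2 h hhN
      have e2 := hJg u hu
      rw [hzg] at e1
      have : z * u * g = u * z * g := by
        calc z * u * g = z * (u * g) := by group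
          _ = z * (g * u) := by rw [e2]
          _ = z * g * u := by group
          _ = u * (z * g) := e1
          _ = u * z * g := by group
      exact mul_right_cancel this
    have hzm : z ^ m = 1 := by
      have hc : Commute z g := hJg z hz
      have e1 : z ^ m * g ^ m = 1 := by rw [← hc.mul_pow, ← hzg]; exact hm1
      apply hT.comm_one (J.pow_mem hz m)
      intro y hy
      have e2 : z ^ m = (g ^ m)⁻¹ := mul_eq_one_iff_eq_inv.1 e1
      have e3 : Commute y g := hJg y hy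
      rw [e2]
      exact ((e3.pow_right m).inv_right).eq.symm
    have hz1 : z = 1 := eq_one_of_pows (a := 2) (b := m) hm.coprime_two_left
      (by rw [pow_two]; exact hz2) hzm
    apply hne
    rw [hzg, hz1, one_mul]
    exact (hJg x hx).symm
  -- decomposition
  have hun : sSup 𝒥 = sSup {J ∈ 𝒥 | J ≤ Kq 2 N} ⊔ sSup {J ∈ 𝒥 | ¬ J ≤ Kq 2 N} := by
    rw [← sSup_union]
    congr 1
    ext J
    simp only [Set.mem_union, Set.mem_setOf_eq]
    tauto
  have hcm : ∀ x ∈ sSup {J ∈ 𝒥 | J ≤ Kq 2 N}, ∀ y ∈ sSup {J ∈ 𝒥 | ¬ J ≤ Kq 2 N},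
      x * y = y * x := by
    intro x hx y hy
    refine (comm_sSup (x := x) (𝒥 := {J ∈ 𝒥 | ¬ J ≤ Kq 2 N}) ?_ hy)
    intro J' hJ' z hz
    refine (comm_sSup (x := z) (𝒥 := {J ∈ 𝒥 | J ≤ Kq 2 N}) ?_ hx).symm
    intro J hJ w hw
    exact F.comm J' hJ'.1 J hJ.1 (fun he => hJ'.2 (he ▸ hJ.2)) z hz w hw
  have hR' := hR
  rw [hun] at hR'
  obtain ⟨x, hx, y, hy, hxy⟩ := mem_sup_comm hcm hR'
  have hy1 : y = 1 := by
    have hyR : y ∈ sSup 𝒥 := by rw [hun]; exact le_sup_right (a := sSup {J ∈ 𝒥 | J ≤ Kq 2 N}) hy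
    apply F.centerless hyR
    intro J hJ z hz
    by_cases hJN : J ≤ Kq 2 N
    · have hzm : z ∈ sSup {J ∈ 𝒥 | J ≤ Kq 2 N} :=
        (le_sSup (show J ∈ {J ∈ 𝒥 | J ≤ Kq 2 N} from ⟨hJ, hJN⟩)) hz
      exact (hcm z hzm y hy).symm
    · have e1 := claim J hJ hJN z hz
      have hzm : z ∈ sSup {J ∈ 𝒥 | ¬ J ≤ Kq 2 N} :=
        (le_sSup (show J ∈ {J ∈ 𝒥 | ¬ J ≤ Kq 2 N} from ⟨hJ, hJN⟩)) hz
      have e2 := hcm x hx z hzm
      rw [hxy] at e1
      have : x * (y * z) = x * (z * y) := by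
        calc x * (y * z) = x * y * z := by group
          _ = z * (x * y) := e1
          _ = (z * x) * y := by group
          _ = (x * z) * y := by rw [e2]
          _ = x * (z * y) := by group
      exact mul_left_cancel this
  rw [hxy, hy1, mul_one]
  exact hx

/-- normal 3-subgroups are centralised -/
theorem Fam.three [Finite G] {K : Subgroup G} {𝒥 : Set (Subgroup G)} (F : Fam K 𝒥)
    (hK : K.Normal) {T : Subgroup G} (hT : T.Normal) (hT3 : ∀ t ∈ T, ∃ n, t ^ (3 ^ n) = 1) :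
    (∀ s ∈ T, s ∈ K → s = 1) ∧ ∀ t ∈ T, ∀ y ∈ K, t * y = y * t := by
  have h1 : ∀ s ∈ T, s ∈ K → s = 1 := by
    intro s hs hsK
    obtain ⟨n, hn⟩ := hT3 s hs
    have hsR : s ∈ sSup 𝒥 := F.odd_mem hsK (m := 3 ^ n) (Nat.Coprime.pow_right n (by norm_num)) hn
    apply F.centerless hsR
    intro J hJ x hx
    by_contra hne
    set d := s * x * s⁻¹ * x⁻¹ with hd
    have hdJ : d ∈ J := J.mul_mem (F.nrm J hJ s hsK x hx) (J.inv_mem hx)
    have hdT : d ∈ T := by
      have : d = s * (x * s⁻¹ * x⁻¹) := by rw [hd]; group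
      rw [this]
      exact T.mul_mem hs (hT.conj_mem _ (T.inv_mem hs) x)
    have hd1 : d ≠ 1 := by
      intro h1
      apply hne
      have h2 : s * x * s⁻¹ = x := mul_inv_eq_one.1 h1
      calc s * x = (s * x * s⁻¹) * s := by group
        _ = x * s := by rw [h2]
    have hinv := (F.tet J hJ).inv_le (L := T) (fun a _ l hl => hT.conj_mem l hl a) hdJ hdT hd1
    obtain ⟨u, hu, hu2, hu1⟩ := (F.tet J hJ).exu
    obtain ⟨k, hk⟩ := hT3 u (hinv u hu hu2)
    apply hu1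
    exact eq_one_of_pows (a := 2) (b := 3 ^ k) (Nat.Coprime.pow_right k (by norm_num))
      (by rw [pow_two]; exact hu2) hk
  refine ⟨h1, ?_⟩
  intro t ht y hy
  have h2 : t * y * t⁻¹ * y⁻¹ = 1 := by
    apply h1
    · have : t * y * t⁻¹ * y⁻¹ = t * (y * t⁻¹ * y⁻¹) := by group
      rw [this]
      exact T.mul_mem ht (hT.conj_mem _ (T.inv_mem ht) y)
    · exact K.mul_mem (hK.conj_mem y hy t) (K.inv_mem hy)
  have h3 : t * y * t⁻¹ = y := mul_inv_eq_one.1 h2
  calc t * y = (t * y * t⁻¹) * t := by group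
    _ = y * t := by rw [h3]

end Pool.Agent.Helper218.Modu
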