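import Pool.Agent.Helper218.Mod3

set_option autoImplicit false
set_option linter.all false

namespace Pool.Agent.Helper218.Modu

open Subgroup Pool.Agent.Helper218

/-! ### transfer of families -/

section transfer

variable {G H : Type*} [Group G] [Group H] (f : H →* G) (hf : Function.Injective f)

lemma map_sSup' (𝒥 : Set (Subgroup H)) :
    (sSup 𝒥).map f = sSup ((fun J : Subgroup H => J.map f) '' 𝒥) := by
  rw [sSup_image]
  exact (Subgroup.gc_map_comap f).l_sSup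

include hf

theorem Fam_map {K : Subgroup H} {𝒥 : Set (Subgroup H)} (F : Fam K 𝒥) :
    Fam (K.map f) ((fun J : Subgroup H => J.map f) '' 𝒥) := by
  refine ⟨?_, ?_, ?_, ?_, ?_⟩
  · rintro _ ⟨J, hJ, rfl⟩
    exact Subgroup.map_mono (F.le J hJ)
  · rintro _ ⟨J, hJ, rfl⟩ _ ⟨k, hk, rfl⟩ _ ⟨x, hx, rfl⟩
    exact ⟨k * x * k⁻¹, F.nrm J hJ k hk x hx, by simp⟩
  · rintro _ ⟨J, hJ, rfl⟩
    exact (Tet_map f hf).2 (F.tet J hJ)
  · rintro _ ⟨J, hJ, rfl⟩ _ ⟨J', hJ', rfl⟩ hne _ ⟨x, hx, rfl⟩ _ ⟨y, hy, rfl⟩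
    rw [← map_mul, ← map_mul, F.comm J hJ J' hJ' (fun h => hne (by rw [h])) x hx y hy]
  · rintro _ ⟨k, hk, rfl⟩
    obtain ⟨n, hn⟩ := F.quo k hk
    refine ⟨n, ?_⟩
    rw [← map_sSup', ← map_pow]
    exact ⟨_, hn, rfl⟩

theorem Fam_comap {K : Subgroup G} {𝒥 : Set (Subgroup G)} (hK : K ≤ f.range) (F : Fam K 𝒥) :
    Fam (K.comap f) ((fun J : Subgroup G => J.comap f) '' 𝒥) := by
  have hmc : ∀ J ∈ 𝒥, (J.comap f).map f = J := by
    intro J hJ
    rw [Subgroup.map_comap_eq, inf_eq_right.2 ((F.le J hJ).trans hK)]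
  refine ⟨?_, ?_, ?_, ?_, ?_⟩
  · rintro _ ⟨J, hJ, rfl⟩
    exact Subgroup.comap_mono (F.le J hJ)
  · rintro _ ⟨J, hJ, rfl⟩ k hk x hx
    change f (k * x * k⁻¹) ∈ J
    rw [map_mul, map_mul, map_inv]
    exact F.nrm J hJ (f k) hk (f x) hx
  · rintro _ ⟨J, hJ, rfl⟩
    apply (Tet_map f hf).1
    simp only [hmc J hJ]
    exact F.tet J hJ
  · rintro _ ⟨J, hJ, rfl⟩ _ ⟨J', hJ', rfl⟩ hne x hx y hy
    apply hf
    rw [map_mul, map_mul]
    exact F.comm J hJ J' hJ' (fun h => hne (by rw [h])) _ hx _ hy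
  · intro k hk
    obtain ⟨n, hn⟩ := F.quo (f k) hk
    refine ⟨n, ?_⟩
    have h1 : (sSup ((fun J : Subgroup G => J.comap f) '' 𝒥)).map f = sSup 𝒥 := by
      rw [map_sSup', Set.image_image]
      congr 1
      ext J
      constructor
      · rintro ⟨J', hJ', rfl⟩
        simp only [hmc J' hJ']; exact hJ'
      · intro hJ
        exact ⟨J, hJ, hmc J hJ⟩
    rw [← map_pow, ← h1] at hn
    exact (Subgroup.mem_map_iff_mem hf).1 hn

end transfer

lemma exFam_iff {G : Type*} [Group G] (N : Subgroup G) :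
    (∃ 𝒥 : Set (Subgroup N), Fam (Kq 2 (⊤ : Subgroup N)) 𝒥) ↔
      ∃ 𝒥 : Set (Subgroup G), Fam (Kq 2 N) 𝒥 := by
  have e1 : (Kq 2 (⊤ : Subgroup N)).map N.subtype = Kq 2 N := by
    rw [← Kq_map N.subtype N.subtype_injective, ← MonoidHom.range_eq_map, Subgroup.range_subtype]
  constructor
  · rintro ⟨𝒥, F⟩
    have := Fam_map N.subtype N.subtype_injective F
    rw [e1] at this
    exact ⟨_, this⟩
  · rintro ⟨𝒥, F⟩
    have := Fam_comap N.subtype N.subtype_injective (K := Kq 2 N) (by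
      rw [Subgroup.range_subtype]; exact Kq_le 2 N) F
    rw [← e1, Subgroup.comap_map_eq_self_of_injective N.subtype_injective] at this
    exact ⟨_, this⟩

/-! ### solvability of joins -/

lemma solv_sup {G : Type*} [Group G] {N M : Subgroup G} (hN : N.Normal) (h1 : Group.IsSolvable N)
    (h2 : Group.IsSolvable M) : Group.IsSolvable ↥(N ⊔ M) := by
  haveI := hN
  haveI := h1
  haveI := h2
  rw [sup_comm]
  rw [Group.isSolvable_iff_subgroup_quotient (N.subgroupOf (M ⊔ N))]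
  constructor
  · exact Group.isSolvable_of_isSolvable_injective
      (f := (Subgroup.subgroupOfEquivOfLe (le_sup_right : N ≤ M ⊔ N)).toMonoidHom)
      (Subgroup.subgroupOfEquivOfLe (le_sup_right : N ≤ M ⊔ N)).injective
  · exact Group.isSolvable_of_surjective
      (f := (QuotientGroup.quotientInfEquivProdNormalQuotient M N).toMonoidHom)
      (QuotientGroup.quotientInfEquivProdNormalQuotient M N).surjective

/-! ### the largest normal 3-subgroup -/

/-- a 3-subgroup, elementwise -/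
def Three {G : Type*} [Group G] (T : Subgroup G) : Prop := ∀ t ∈ T, ∃ n, t ^ (3 ^ n) = 1

lemma Three.sup {G : Type*} [Group G] {A B : Subgroup G} (hA : A.Normal) (hB : B.Normal)
    (h1 : Three A) (h2 : Three B) : Three (A ⊔ B) := by
  haveI : Fact (Nat.Prime 3) := ⟨Nat.prime_three⟩
  intro x hx
  obtain ⟨n, hn⟩ := sup_pow (p := 3) (R := ⊥) hA hB inferInstance
    (fun x hx => by obtain ⟨n, hn⟩ := h1 x hx; exact ⟨n, by rw [Subgroup.mem_bot]; exact hn⟩)
    (fun x hx => by obtain ⟨n, hn⟩ := h2 x hx; exact ⟨n, by rw [Subgroup.mem_bot]; exact hn⟩) x hx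
  exact ⟨n, Subgroup.mem_bot.1 hn⟩

lemma O3_exists (H : Type*) [Group H] [Finite H] :
    ∃ T : Subgroup H, T.Normal ∧ Three T ∧ ∀ T' : Subgroup H, T'.Normal → Three T' → T' ≤ T := by
  let S : Set (Subgroup H) := {T | T.Normal ∧ Three T}
  have key : ∀ F : Set (Subgroup H), F.Finite → F ⊆ S → (sSup F).Normal ∧ Three (sSup F) := by
    intro F hF
    induction F, hF using Set.Finite.induction_on with
    | empty =>
      intro _
      rw [sSup_empty]
      refine ⟨inferInstance, ?_⟩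
      intro t ht
      exact ⟨0, by rw [Subgroup.mem_bot.1 ht]; simp⟩
    | @insert J F _ _ ih =>
      intro hsub
      obtain ⟨h1, h2⟩ := ih (fun s hs => hsub (Set.mem_insert_of_mem _ hs))
      obtain ⟨h3, h4⟩ := hsub (Set.mem_insert J F)
      rw [sSup_insert]
      haveI := h1
      haveI := h3
      exact ⟨inferInstance, Three.sup h3 h1 h4 h2⟩
  obtain ⟨h1, h2⟩ := key S (Set.toFinite S) (Set.Subset.refl S)
  exact ⟨sSup S, h1, h2, fun T' hT' hT3 => le_sSup ⟨hT', hT3⟩⟩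

lemma big3 {G : Type*} [Group G] [Finite G] {N : Subgroup G} (hN : N.Normal) :
    ∃ T : Subgroup G, T.Normal ∧ T ≤ N ∧ Three T ∧
      ∀ T' : Subgroup N, T'.Normal → Three T' → ∀ t ∈ T', (t : G) ∈ T := by
  obtain ⟨T, hTn, hT3, hmax⟩ := O3_exists N
  have hle : T.map N.subtype ≤ N := by
    rintro _ ⟨x, _, rfl⟩; exact x.2
  refine ⟨T.map N.subtype, ?_, hle, ?_, ?_⟩
  · constructor
    rintro _ ⟨x, hx, rfl⟩ g
    -- the conjugate of `T` by `g`
    let c : N ≃* N := (MulAut.conjNormal g : MulAut N)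
    have hc : ∀ y : N, ((c y : N) : G) = g * y * g⁻¹ := fun y => MulAut.conjNormal_apply g y
    have h1 : (T.map c.toMonoidHom).Normal := by
      exact hTn.map c.toMonoidHom c.surjective
    have h2 : Three (T.map c.toMonoidHom) := by
      rintro _ ⟨y, hy, rfl⟩
      obtain ⟨n, hn⟩ := hT3 y hy
      exact ⟨n, by rw [← map_pow, hn, map_one]⟩
    refine ⟨c x, hmax _ h1 h2 ⟨x, hx, rfl⟩, hc x⟩
  · rintro _ ⟨x, hx, rfl⟩
    obtain ⟨n, hn⟩ := hT3 x hx
    exact ⟨n, by rw [← map_pow, hn, map_one]⟩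
  · intro T' hT' hT'3 t ht
    exact ⟨t, hmax T' hT' hT'3 ht, rfl⟩

/-! ### the three classes -/

/-- the class `X` -/
def XC (H : Type) [Group H] : Prop :=
  Finite H ∧ Group.IsSolvable H ∧ ∃ 𝒥 : Set (Subgroup H), Fam (Kq 2 (⊤ : Subgroup H)) 𝒥

/-- the class `Y` of 3-by-2 groups -/
def YC (H : Type) [Group H] : Prop :=
  Finite H ∧ Group.IsSolvable H ∧ ∃ T : Subgroup H, T.Normal ∧ Three T ∧ ∀ g : H, ∃ n, g ^ (2 ^ n) ∈ T

/-- the class `Z` of groups whose normal 3-subgroups are centralised by the 2-elements -/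
def ZC (H : Type) [Group H] : Prop :=
  Finite H ∧ Group.IsSolvable H ∧ ∀ T : Subgroup H, T.Normal → Three T →
    ∀ t ∈ T, ∀ y : H, (∃ n, y ^ (2 ^ n) = 1) → t * y = y * t

/-- solvable Fitting classes, as in the frozen statement -/
def SFc (F : (G : Type) → [Group G] → Prop) : Prop :=
  (∀ (G : Type) [Group G], F G → Finite G ∧ Group.IsSolvable G) ∧
  (∃ (G : Type) (_ : Group G), F G) ∧
  (∀ (G H : Type) [Group G] [Group H], (G ≃* H) → F G → F H) ∧
  (∀ (G : Type) [Group G] (N : Subgroup G), N.Normal → F G → F N) ∧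
  (∀ (G : Type) [Group G] [Finite G] (N M : Subgroup G),
    N.Normal → M.Normal → F N → F M → F ↥(N ⊔ M))

lemma unit_fin : Finite Unit ∧ Group.IsSolvable Unit := ⟨inferInstance, inferInstance⟩

theorem SF_X : SFc XC := by
  refine ⟨fun G _ h => ⟨h.1, h.2.1⟩, ⟨Unit, inferInstance, inferInstance, inferInstance, ∅, ?_⟩,
    ?_, ?_, ?_⟩
  · refine ⟨by simp, by simp, by simp, by simp, ?_⟩
    intro k _
    exact ⟨0, by rw [Subsingleton.elim k 1]; simp⟩
  · rintro G H _ _ e ⟨h1, h2, 𝒥, F⟩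
    haveI := h1
    haveI := h2
    refine ⟨Finite.of_equiv G e.toEquiv, Group.isSolvable_of_surjective (f := e.toMonoidHom) e.surjective,
      ?_⟩
    have := Fam_map e.toMonoidHom e.injective F
    rw [← Kq_map e.toMonoidHom e.injective, Subgroup.map_top_of_surjective _ e.surjective] at this
    exact ⟨_, this⟩
  · rintro G _ N hN ⟨h1, h2, 𝒥, F⟩
    haveI := h1
    haveI := h2
    refine ⟨inferInstance, inferInstance, ?_⟩
    rw [exFam_iff]
    exact ⟨_, F.sub hN (Kq_mono 2 le_top)⟩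
  · rintro G _ _ N M hN hM ⟨h1, h2, h3⟩ ⟨h4, h5, h6⟩
    refine ⟨inferInstance, solv_sup hN h2 h5, ?_⟩
    rw [exFam_iff] at h3 h6 ⊢
    obtain ⟨𝒜, FA⟩ := h3
    obtain ⟨ℬ, FB⟩ := h6
    rw [Kq_sup hN hM]
    exact ⟨_, Fam.sup (Kq_normal 2 hN) (Kq_normal 2 hM) FA FB (Kq_gen 2 N)⟩

theorem SF_Y : SFc YC := by
  refine ⟨fun G _ h => ⟨h.1, h.2.1⟩, ⟨Unit, inferInstance, inferInstance, inferInstance, ⊥,
    inferInstance, ?_, ?_⟩, ?_, ?_, ?_⟩
  · intro t _
    exact ⟨0, Subsingleton.elim _ _⟩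
  · intro g
    exact ⟨0, by rw [Subsingleton.elim (g ^ 2 ^ 0) 1]; exact Subgroup.one_mem _⟩
  · rintro G H _ _ e ⟨h1, h2, T, hT, hT3, hq⟩
    haveI := h1
    haveI := h2
    refine ⟨Finite.of_equiv G e.toEquiv, Group.isSolvable_of_surjective (f := e.toMonoidHom) e.surjective,
      T.map e.toMonoidHom, hT.map e.toMonoidHom e.surjective, ?_, ?_⟩
    · rintro _ ⟨x, hx, rfl⟩
      obtain ⟨n, hn⟩ := hT3 x hx
      exact ⟨n, by rw [← map_pow, hn, map_one]⟩
    · intro g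
      obtain ⟨n, hn⟩ := hq (e.symm g)
      refine ⟨n, ⟨_, hn, ?_⟩⟩
      simp
  · rintro G _ N hN ⟨h1, h2, T, hT, hT3, hq⟩
    haveI := h1
    haveI := h2
    haveI := hT
    refine ⟨inferInstance, inferInstance, T.subgroupOf N, inferInstance, ?_, ?_⟩
    · intro t ht
      obtain ⟨n, hn⟩ := hT3 t.1 ht
      exact ⟨n, Subtype.ext (by simpa using hn)⟩
    · intro g
      obtain ⟨n, hn⟩ := hq g.1
      exact ⟨n, by rw [Subgroup.mem_subgroupOf]; simpa using hn⟩
  · rintro G _ _ N M hN hM ⟨h1, h2, T, hT, hT3, hTq⟩ ⟨h4, h5, S, hS, hS3, hSq⟩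
    obtain ⟨T', hT'n, hT'N, hT'3, hT'm⟩ := big3 hN
    obtain ⟨S', hS'n, hS'M, hS'3, hS'm⟩ := big3 hM
    haveI := hT'n
    haveI := hS'n
    refine ⟨inferInstance, solv_sup hN h2 h5, (T' ⊔ S').subgroupOf (N ⊔ M), inferInstance, ?_, ?_⟩
    · intro t ht
      obtain ⟨n, hn⟩ := Three.sup hT'n hS'n hT'3 hS'3 t.1 ht
      exact ⟨n, Subtype.ext (by simpa using hn)⟩
    · intro g
      haveI : Fact (Nat.Prime 2) := ⟨Nat.prime_two⟩
      obtain ⟨n, hn⟩ := sup_pow (p := 2) (R := T' ⊔ S') hN hM inferInstance (by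
          intro x hx
          obtain ⟨n, hn⟩ := hTq ⟨x, hx⟩
          have := hT'm T hT hT3 _ hn
          exact ⟨n, le_sup_left (b := S') (by simpa using this)⟩) (by
          intro x hx
          obtain ⟨n, hn⟩ := hSq ⟨x, hx⟩
          have := hS'm S hS hS3 _ hn
          exact ⟨n, le_sup_right (a := T') (by simpa using this)⟩) g.1 g.2
      exact ⟨n, by rw [Subgroup.mem_subgroupOf]; simpa using hn⟩

theorem SF_Z : SFc ZC := by
  refine ⟨fun G _ h => ⟨h.1, h.2.1⟩, ⟨Unit, inferInstance, inferInstance, inferInstance, ?_⟩,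
    ?_, ?_, ?_⟩
  · intro T _ _ t _ y _
    exact Subsingleton.elim _ _
  · rintro G H _ _ e ⟨h1, h2, h3⟩
    haveI := h1
    haveI := h2
    refine ⟨Finite.of_equiv G e.toEquiv, Group.isSolvable_of_surjective (f := e.toMonoidHom) e.surjective,
      ?_⟩
    rintro T hT hT3 t ht y ⟨n, hn⟩
    haveI := hT
    have := h3 (T.comap e.toMonoidHom) inferInstance (by
      intro x hx
      obtain ⟨n, hn⟩ := hT3 (e x) hx
      exact ⟨n, e.injective (by rw [map_pow, hn, map_one])⟩) (e.symm t) (by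
      rw [Subgroup.mem_comap]; simpa using ht) (e.symm y) ⟨n, by rw [← map_pow, hn, map_one]⟩
    rw [← map_mul, ← map_mul] at this
    exact e.symm.injective this
  · rintro G _ N hN ⟨h1, h2, h3⟩
    haveI := h1
    haveI := h2
    refine ⟨inferInstance, inferInstance, ?_⟩
    rintro T hT hT3 t ht y ⟨n, hn⟩
    obtain ⟨T', hT'n, hT'N, hT'3, hT'm⟩ := big3 hN
    have := h3 T' hT'n hT'3 t.1 (hT'm T hT hT3 t ht) y.1 ⟨n, by
      have := congrArg Subtype.val hn; simpa using this⟩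
    exact Subtype.ext this
  · rintro G _ _ N M hN hM ⟨h1, h2, h3⟩ ⟨h4, h5, h6⟩
    refine ⟨inferInstance, solv_sup hN h2 h5, ?_⟩
    rintro T hT hT3 t ht y ⟨n, hn⟩
    -- one factor
    have key : ∀ L : Subgroup G, L.Normal → L ≤ N ⊔ M → (∀ T : Subgroup L, T.Normal → Three T →
        ∀ t ∈ T, ∀ y : L, (∃ n, y ^ (2 ^ n) = 1) → t * y = y * t) →
        Kq 2 L ≤ Subgroup.centralizer {t.1} := by
      intro L hL hLle hLZ
      rw [Kq, Subgroup.closure_le]
      rintro z ⟨hz, k, hk⟩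
      rw [SetLike.mem_coe, Subgroup.mem_centralizer_singleton_iff]
      -- T ∩ L
      let TL : Subgroup L := (T.map (N ⊔ M).subtype).subgroupOf L
      have hTLn : TL.Normal := by
        constructor
        rintro x hx g
        rw [Subgroup.mem_subgroupOf] at hx ⊢
        obtain ⟨w, hw, hwx⟩ := hx
        refine ⟨⟨g.1, hLle g.2⟩ * w * ⟨g.1, hLle g.2⟩⁻¹, hT.conj_mem w hw _, ?_⟩
        have : (w : G) = x := hwx
        simp [this]
      have hTL3 : Three TL := by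
        intro x hx
        rw [Subgroup.mem_subgroupOf] at hx
        obtain ⟨w, hw, hwx⟩ := hx
        obtain ⟨n, hn⟩ := hT3 w hw
        refine ⟨n, Subtype.ext ?_⟩
        have h7 : (w : G) = x := hwx
        have h8 := congrArg Subtype.val hn
        simpa [h7] using h8
      have hdN : t.1⁻¹ * (z * t.1 * z⁻¹) ∈ L := by
        have : t.1⁻¹ * (z * t.1 * z⁻¹) = (t.1⁻¹ * z * (t.1⁻¹)⁻¹) * z⁻¹ := by group
        rw [this]
        exact L.mul_mem (hL.conj_mem z hz _) (L.inv_mem hz)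
      have hzM : z ∈ N ⊔ M := hLle hz
      have hdT : t⁻¹ * (⟨z, hzM⟩ * t * ⟨z, hzM⟩⁻¹) ∈ T :=
        T.mul_mem (T.inv_mem ht) (hT.conj_mem t ht _)
      have hdTL : (⟨t.1⁻¹ * (z * t.1 * z⁻¹), hdN⟩ : L) ∈ TL := by
        rw [Subgroup.mem_subgroupOf]
        exact ⟨_, hdT, rfl⟩
      have h7 := hLZ TL hTLn hTL3 _ hdTL ⟨z, hz⟩ ⟨k, Subtype.ext (by simpa using hk)⟩
      have h8 := congrArg Subtype.val h7
      obtain ⟨m, hm⟩ := hT3 _ hdT
      have h9 := congrArg Subtype.val hm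
      exact cc (p := 3) (q := 2) (by norm_num) (z := t.1) (y := z) (n := k) (k := m) hk
        (by simpa using h9) (by simpa using h8.symm)
    have h7 : Kq 2 (N ⊔ M) ≤ Subgroup.centralizer {t.1} := by
      rw [Kq_sup hN hM]
      exact sup_le (key N hN le_sup_left h3) (key M hM le_sup_right h6)
    have h8 : y.1 ∈ Kq 2 (N ⊔ M) := Subgroup.subset_closure ⟨y.2, n, by
      have := congrArg Subtype.val hn; simpa using this⟩
    have h9 := h7 h8
    rw [Subgroup.mem_centralizer_singleton_iff] at h9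
    exact Subtype.ext h9.symm

theorem X_sub_Z (H : Type) [Group H] (h : XC H) : ZC H := by
  obtain ⟨h1, h2, 𝒥, F⟩ := h
  haveI := h1
  refine ⟨h1, h2, ?_⟩
  rintro T hT hT3 t ht y ⟨n, hn⟩
  exact (F.three (Kq_normal 2 inferInstance) hT hT3).2 t ht y
    (Subgroup.subset_closure ⟨trivial, n, hn⟩)

theorem YZ_sub_X (H : Type) [Group H] (h : YC H) (h' : ZC H) : XC H := by
  obtain ⟨h1, h2, T, hT, hT3, hq⟩ := h
  haveI := h1
  haveI : Fact (Nat.Prime 2) := ⟨Nat.prime_two⟩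
  haveI : Fact (Nat.Prime 3) := ⟨Nat.prime_three⟩
  refine ⟨h1, h2, ∅, by simp, by simp, by simp, by simp, ?_⟩
  have hB : Base 3 2 (Kq 2 (⊤ : Subgroup H)) (T ⊓ Kq 2 (⊤ : Subgroup H)) := by
    refine ⟨inferInstance, inf_le_right, ?_, fun u hu => hT3 u hu.1, ?_, Kq_gen 2 ⊤⟩
    · intro k hk u hu
      exact ⟨hT.conj_mem u hu.1 k, Subgroup.mul_mem _ (Subgroup.mul_mem _ hk hu.2)
        (Subgroup.inv_mem _ hk)⟩
    · intro k hk
      obtain ⟨n, hn⟩ := hq k
      exact ⟨n, hn, Subgroup.pow_mem _ hk _⟩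
  obtain ⟨Q, hQK, hQ2, hQ⟩ := hB.exists_sylow
  have hKQ : Kq 2 (⊤ : Subgroup H) ≤ Q := by
    refine (Kq_gen 2 ⊤).trans ?_
    rw [Subgroup.closure_le]
    rintro g ⟨hg, n, hn⟩
    obtain ⟨u, hu, y, hy, rfl⟩ := hQ g hg
    obtain ⟨m, hm⟩ := hQ2 y hy
    have hc : Commute u y := h'.2.2 T hT hT3 u hu.1 y ⟨m, hm⟩
    obtain ⟨k, hk⟩ := hT3 u hu.1
    have e1 : (u * y) ^ (2 ^ (n + m)) = 1 := by rw [pow_add, pow_mul, hn, one_pow]
    have e2 : y ^ (2 ^ (n + m)) = 1 := by rw [add_comm, pow_add, pow_mul, hm, one_pow]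
    rw [hc.mul_pow, e2, mul_one] at e1
    have : u = 1 := eq_one_of_pows (a := 3 ^ k) (b := 2 ^ (n + m))
      (Nat.Coprime.pow k (n + m) (by norm_num)) hk e1
    rw [this, one_mul]; exact hy
  intro k hk
  obtain ⟨n, hn⟩ := hQ2 k (hKQ hk)
  exact ⟨n, by rw [hn]; exact Subgroup.one_mem _⟩

end Pool.Agent.Helper218.Modu
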