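import Pool.Agent.Helper218.Mod4
import Pool.Agent.Helper218.LF3

set_option autoImplicit false
set_option linter.all false
set_option maxRecDepth 100000
set_option synthInstance.maxSize 10000

namespace Pool.Agent.Helper218.Modu

open Subgroup Pool.Agent.Helper218

/-- the symmetric group of degree four -/
abbrev P4 := Equiv.Perm (Fin 4)

/-- the pairing table -/
def kk (i j : Fin 4) : ZMod 3 :=
  (![![0,0,1,2],![0,0,2,1],![1,2,0,0],![2,1,0,0]] : Fin 4 → Fin 4 → ZMod 3) i j

/-- translation part of the action on the three pairings -/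
def ss (m : P4) : ZMod 3 := kk (m 0) (m 1)

/-- linear part of the action on the three pairings -/
def aa (m : P4) : ZMod 3 := LF.sg (Equiv.Perm.sign m)

lemma kk_aff : ∀ m : P4, ∀ i j : Fin 4, i ≠ j →
    kk (m i) (m j) = ss m + (kk (m 0) (m 2) - kk (m 0) (m 1)) * kk i j := by
  decide +kernel

lemma aa_eq : ∀ m : P4, aa m = kk (m 0) (m 2) - kk (m 0) (m 1) := by decide +kernel

lemma aa_mul (m m' : P4) : aa (m * m') = aa m * aa m' := by
  unfold aa; rw [map_mul, map_mul]

lemma aa_one : aa 1 = 1 := by unfold aa; rw [map_one, map_one]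

lemma aa_sq (m : P4) : aa m * aa m = 1 := LF.sg_sq _

lemma aa_inv (m : P4) : aa m⁻¹ = aa m := by
  unfold aa; rw [map_inv, LF.sg_inv]

lemma ss_mul (m m' : P4) : ss (m * m') = ss m + aa m * ss m' := by
  have h := kk_aff m (m' 0) (m' 1) (fun h => by
    have := m'.injective h
    revert this; decide)
  rw [← aa_eq] at h
  exact h

lemma ss_one : ss 1 = 0 := by decide

/-! ### the symmetric group of degree four belongs to `X` -/

lemma q1 : ∀ a : P4, a * a ≠ 1 → Equiv.Perm.sign a = 1 →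
    ∀ b : P4, (b * b ≠ 1 ∧ Equiv.Perm.sign b = 1) →
    (a⁻¹ * b) * (a⁻¹ * b) = 1 ∨ (a * b) * (a * b) = 1 := by
  decide +kernel

lemma q2 : ∀ e f : P4, Equiv.Perm.sign e = 1 → Equiv.Perm.sign f = 1 →
    (e * e = 1 ∧ f * f = 1 ∧ e ≠ 1 ∧ f ≠ 1 ∧ e ≠ f) → ∀ x : P4, Equiv.Perm.sign x = 1 → x * x = 1 →
    x = 1 ∨ x = e ∨ x = f ∨ x = e * f := by
  decide +kernel

lemma tetA4 : Tet (alternatingGroup (Fin 4)) := by
  refine ⟨?_, ?_, ?_, ?_, ?_, ?_, ?_⟩
  · simp only [Equiv.Perm.mem_alternatingGroup]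
    decide +kernel
  · simp only [Equiv.Perm.mem_alternatingGroup]
    decide +kernel
  · simp only [Equiv.Perm.mem_alternatingGroup]
    decide +kernel
  · simp only [Equiv.Perm.mem_alternatingGroup]
    intro a ha b hb ha2 hb2
    exact q1 a ha2 ha b ⟨hb2, hb⟩
  · simp only [Equiv.Perm.mem_alternatingGroup]
    intro e he f hf x hx he2 hf2 hx2 he1 hf1 hef
    exact q2 e f he hf ⟨he2, hf2, he1, hf1, hef⟩ x hx hx2
  · refine ⟨Equiv.swap 0 1 * Equiv.swap 1 2, ?_, ?_⟩
    · rw [Equiv.Perm.mem_alternatingGroup]; decide +kernel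
    · decide +kernel
  · refine ⟨Equiv.swap 0 1 * Equiv.swap 2 3, ?_, ?_, ?_⟩
    · rw [Equiv.Perm.mem_alternatingGroup]; decide +kernel
    · decide +kernel
    · decide +kernel

lemma KqP4 : Kq 2 (⊤ : Subgroup P4) = ⊤ := by
  rw [eq_top_iff, ← Equiv.Perm.closure_isSwap, Kq]
  apply Subgroup.closure_mono
  rintro s ⟨x, y, hxy, rfl⟩
  exact ⟨Subgroup.subset_closure ⟨x, y, hxy, rfl⟩, 1, by rw [pow_one, pow_two, Equiv.swap_mul_self]⟩

lemma famP4 : Fam (Kq 2 (⊤ : Subgroup P4)) {alternatingGroup (Fin 4)} := by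
  refine ⟨?_, ?_, ?_, ?_, ?_⟩
  · rintro J rfl
    rw [KqP4]; exact le_top
  · rintro J rfl k _ x hx
    rw [Equiv.Perm.mem_alternatingGroup] at hx ⊢
    rw [map_mul, map_mul, map_inv, hx, mul_one, mul_inv_cancel]
  · rintro J rfl
    exact tetA4
  · rintro J rfl J' rfl h
    exact absurd rfl h
  · intro k _
    refine ⟨1, ?_⟩
    rw [sSup_singleton, Equiv.Perm.mem_alternatingGroup, pow_one, map_pow, Int.units_sq]

/-- solvability from a homomorphism with abelian kernel -/
lemma solv_of_hom {G H : Type*} [Group G] [Group H] (f : G →* H) (hH : Group.IsSolvable H)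
    (hk : ∀ x y : G, f x = 1 → f y = 1 → x * y = y * x) : Group.IsSolvable G := by
  haveI := hH
  haveI : Group.IsSolvable f.ker := Group.isSolvable_of_comm (by
    rintro ⟨x, hx⟩ ⟨y, hy⟩
    exact Subtype.ext (hk x y hx hy))
  exact Group.isSolvable_of_ker_le_range f.ker.subtype f (by rw [Subgroup.range_subtype])

lemma solvS3 : Group.IsSolvable LF.S3 := by
  refine solv_of_hom LF.S3.proj (Group.isSolvable_of_comm (fun a b => mul_comm a b)) ?_
  intro x y hx hy
  have hx' : x.t = 1 := hx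
  have hy' : y.t = 1 := hy
  ext
  · simp [hx', hy']
  · simp [hx', hy', add_comm]

/-- the action of `P4` on the three pairings -/
def toS3 : P4 →* LF.S3 where
  toFun m := ⟨Equiv.Perm.sign m, ss m⟩
  map_one' := by
    ext
    · simp
    · simp [ss_one]
  map_mul' m m' := by
    ext
    · simp
    · simp only [LF.S3_mul_a]; exact ss_mul m m'

lemma solvP4 : Group.IsSolvable P4 := by
  refine solv_of_hom toS3 solvS3 ?_
  have key : ∀ x y : P4, (Equiv.Perm.sign x = 1 ∧ ss x = 0) → (Equiv.Perm.sign y = 1 ∧ ss y = 0) →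
      x * y = y * x := by decide +kernel
  intro x y hx hy
  exact key x y ⟨congrArg LF.S3.t hx, congrArg LF.S3.a hx⟩ ⟨congrArg LF.S3.t hy, congrArg LF.S3.a hy⟩

theorem X_P4 : XC P4 := ⟨inferInstance, solvP4, _, famP4⟩

theorem Y_S3 : YC LF.S3 := by
  refine ⟨inferInstance, solvS3, LF.S3.proj.ker, LF.S3_str.1, ?_, ?_⟩
  · exact LF.S3_str.2
  · exact LF.S3_str.3

end Pool.Agent.Helper218.Modu
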