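import Pool.Agent.Helper218.Mod5

set_option autoImplicit false
set_option linter.all false
set_option maxRecDepth 100000
set_option synthInstance.maxSize 10000

namespace Pool.Agent.Helper218.Modu

open Subgroup Pool.Agent.Helper218

/-- an extension of `P4 × P4` by a group of order three -/
@[ext] structure Gam where
  p : P4
  q : P4
  w : ZMod 3

instance : Mul Gam := ⟨fun x y => ⟨x.p * y.p, x.q * y.q,
  x.w + aa x.p * aa x.q * y.w + ss x.p * aa x.q * ss y.q⟩⟩
instance : One Gam := ⟨⟨1, 1, 0⟩⟩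
instance : Inv Gam := ⟨fun x => ⟨x.p⁻¹, x.q⁻¹, -(aa x.p * aa x.q * x.w) - ss x.p⁻¹ * aa x.q * ss x.q⟩⟩

@[simp] lemma Gam_mul_p (x y : Gam) : (x * y).p = x.p * y.p := rfl
@[simp] lemma Gam_mul_q (x y : Gam) : (x * y).q = x.q * y.q := rfl
@[simp] lemma Gam_mul_w (x y : Gam) : (x * y).w =
  x.w + aa x.p * aa x.q * y.w + ss x.p * aa x.q * ss y.q := rfl
@[simp] lemma Gam_one_p : (1 : Gam).p = 1 := rfl
@[simp] lemma Gam_one_q : (1 : Gam).q = 1 := rfl
@[simp] lemma Gam_one_w : (1 : Gam).w = 0 := rfl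
@[simp] lemma Gam_inv_p (x : Gam) : (x⁻¹).p = x.p⁻¹ := rfl
@[simp] lemma Gam_inv_q (x : Gam) : (x⁻¹).q = x.q⁻¹ := rfl
@[simp] lemma Gam_inv_w (x : Gam) : (x⁻¹).w =
  -(aa x.p * aa x.q * x.w) - ss x.p⁻¹ * aa x.q * ss x.q := rfl

instance : Group Gam := Group.ofLeftAxioms
  (by
    intro x y z; ext : 1
    · simp [mul_assoc]
    · simp [mul_assoc]
    · simp only [Gam_mul_w, Gam_mul_q, Gam_mul_p, aa_mul, ss_mul]
      ring)
  (by
    intro x; ext : 1
    · simp
    · simp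
    · simp [aa_one, ss_one])
  (by
    intro x; ext : 1
    · simp
    · simp
    · simp only [Gam_mul_w, Gam_inv_w, Gam_inv_p, Gam_inv_q, Gam_one_w, aa_inv]
      ring)

instance : Finite Gam := Finite.of_injective (fun x : Gam => (x.p, x.q, x.w)) (by
    intro x y h
    simp only [Prod.mk.injEq] at h
    exact Gam.ext h.1 h.2.1 h.2.2)

/-- first projection -/
def pr1 : Gam →* P4 where
  toFun := Gam.p
  map_one' := rfl
  map_mul' _ _ := rfl

/-- second projection -/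
def pr2 : Gam →* P4 where
  toFun := Gam.q
  map_one' := rfl
  map_mul' _ _ := rfl

/-- the homomorphism on `P4 × S3` comparing signs -/
def phi : P4 × LF.S3 →* ℤˣ where
  toFun x := Equiv.Perm.sign x.1 * x.2.t
  map_one' := by simp
  map_mul' x y := by
    simp only [Prod.fst_mul, Prod.snd_mul, map_mul, LF.S3_mul_t]
    exact mul_mul_mul_comm _ _ _ _

/-- the homomorphism on `Gam` comparing signs -/
def psi : Gam →* ℤˣ where
  toFun x := Equiv.Perm.sign x.p * Equiv.Perm.sign x.q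
  map_one' := by simp
  map_mul' x y := by
    simp only [Gam_mul_p, Gam_mul_q, map_mul]
    exact mul_mul_mul_comm _ _ _ _

lemma unit_mul_eq_one {a b : ℤˣ} : a * b = 1 ↔ b = a := by
  rw [mul_eq_one_iff_eq_inv', Int.units_inv_eq_self]

/-- the first component -/
def iso1 : phi.ker ≃* pr2.ker where
  toFun x := ⟨⟨x.1.1, 1, x.1.2.a⟩, rfl⟩
  invFun x := ⟨(x.1.p, ⟨Equiv.Perm.sign x.1.p, x.1.w⟩), by
    change Equiv.Perm.sign x.1.p * Equiv.Perm.sign x.1.p = 1
    exact Int.units_mul_self _⟩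
  left_inv := by
    rintro ⟨⟨m, ⟨t, a⟩⟩, h⟩
    have h1 : Equiv.Perm.sign m * t = 1 := h
    rw [unit_mul_eq_one] at h1
    subst h1
    rfl
  right_inv := by
    rintro ⟨⟨p, q, w⟩, h⟩
    have h1 : q = 1 := h
    subst h1
    rfl
  map_mul' := by
    rintro ⟨⟨m, ⟨t, a⟩⟩, h⟩ ⟨⟨m', ⟨t', a'⟩⟩, h'⟩
    have h1 : Equiv.Perm.sign m * t = 1 := h
    rw [unit_mul_eq_one] at h1
    subst h1
    apply Subtype.ext
    apply Gam.ext
    · rfl
    · exact (one_mul _).symm
    · change a + LF.sg (Equiv.Perm.sign m) * a' = a + aa m * aa 1 * a' + ss m * aa 1 * ss 1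
      rw [aa_one, ss_one, mul_one, mul_zero, add_zero]
      rfl

/-- the second component -/
def iso2 : phi.ker ≃* pr1.ker where
  toFun x := ⟨⟨1, x.1.1, x.1.2.a⟩, rfl⟩
  invFun x := ⟨(x.1.q, ⟨Equiv.Perm.sign x.1.q, x.1.w⟩), by
    change Equiv.Perm.sign x.1.q * Equiv.Perm.sign x.1.q = 1
    exact Int.units_mul_self _⟩
  left_inv := by
    rintro ⟨⟨m, ⟨t, a⟩⟩, h⟩
    have h1 : Equiv.Perm.sign m * t = 1 := h
    rw [unit_mul_eq_one] at h1
    subst h1
    rfl
  right_inv := by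
    rintro ⟨⟨p, q, w⟩, h⟩
    have h1 : p = 1 := h
    subst h1
    rfl
  map_mul' := by
    rintro ⟨⟨m, ⟨t, a⟩⟩, h⟩ ⟨⟨m', ⟨t', a'⟩⟩, h'⟩
    have h1 : Equiv.Perm.sign m * t = 1 := h
    rw [unit_mul_eq_one] at h1
    subst h1
    apply Subtype.ext
    apply Gam.ext
    · exact (one_mul _).symm
    · rfl
    · change a + LF.sg (Equiv.Perm.sign m) * a' = a + aa 1 * aa m * a' + ss 1 * aa m * ss m'
      rw [aa_one, ss_one, one_mul, zero_mul, zero_mul, add_zero]
      rfl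

lemma sup_pr : pr2.ker ⊔ pr1.ker = ⊤ := by
  rw [eq_top_iff]
  rintro ⟨p, q, w⟩ _
  have h : (⟨p, q, w⟩ : Gam) = ⟨p, 1, w - ss p * ss q⟩ * ⟨1, q, 0⟩ := by
    apply Gam.ext
    · exact (mul_one _).symm
    · exact (one_mul _).symm
    · change w = (w - ss p * ss q) + aa p * aa 1 * 0 + ss p * aa 1 * ss q
      rw [aa_one]; ring
  rw [h]
  exact Subgroup.mul_mem_sup rfl rfl

/-- a class containing `P4` and `S3` contains `Gam` -/
theorem F_Gam {F : (G : Type) → [Group G] → Prop} (hF : SFc F) (h1 : F P4) (h2 : F LF.S3) :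
    F Gam := by
  obtain ⟨_, _, fi, fn, fs⟩ := hF
  -- the direct product
  have e1 : P4 ≃* (MonoidHom.snd P4 LF.S3).ker :=
    { toFun := fun x => ⟨(x, 1), rfl⟩
      invFun := fun x => x.1.1
      left_inv := fun x => rfl
      right_inv := by
        rintro ⟨⟨x, y⟩, h⟩
        have h1 : y = 1 := h
        subst h1
        rfl
      map_mul' := fun x y => Subtype.ext (Prod.ext rfl (mul_one _).symm) }
  have e2 : LF.S3 ≃* (MonoidHom.fst P4 LF.S3).ker :=
    { toFun := fun x => ⟨(1, x), rfl⟩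
      invFun := fun x => x.1.2
      left_inv := fun x => rfl
      right_inv := by
        rintro ⟨⟨x, y⟩, h⟩
        have h1 : x = 1 := h
        subst h1
        rfl
      map_mul' := fun x y => Subtype.ext (Prod.ext (mul_one _).symm rfl) }
  have h3 := fs (P4 × LF.S3) _ _ inferInstance inferInstance (fi _ _ e1 h1) (fi _ _ e2 h2)
  have h4 : (MonoidHom.snd P4 LF.S3).ker ⊔ (MonoidHom.fst P4 LF.S3).ker = ⊤ := by
    rw [eq_top_iff]
    rintro ⟨x, y⟩ _
    have h : ((x, y) : P4 × LF.S3) = (x, 1) * (1, y) := by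
      rw [Prod.mk_mul_mk, mul_one, one_mul]
    rw [h]
    exact Subgroup.mul_mem_sup rfl rfl
  have h5 : F (P4 × LF.S3) := by
    rw [h4] at h3
    exact fi _ _ Subgroup.topEquiv h3
  have h6 : F phi.ker := fn _ _ inferInstance h5
  have h7 := fs Gam _ _ inferInstance inferInstance (fi _ _ iso1 h6) (fi _ _ iso2 h6)
  rw [sup_pr] at h7
  exact fi _ _ Subgroup.topEquiv h7

theorem SF_all : SFc (fun (G : Type) [Group G] => Finite G ∧ Group.IsSolvable G) := by
  refine ⟨fun G _ h => h, ⟨Unit, inferInstance, inferInstance, inferInstance⟩, ?_, ?_, ?_⟩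
  · rintro G H _ _ e ⟨h1, h2⟩
    haveI := h1
    haveI := h2
    exact ⟨Finite.of_equiv G e.toEquiv, Group.isSolvable_of_surjective (f := e.toMonoidHom) e.surjective⟩
  · rintro G _ N hN ⟨h1, h2⟩
    haveI := h1
    haveI := h2
    exact ⟨inferInstance, inferInstance⟩
  · rintro G _ _ N M hN hM ⟨h1, h2⟩ ⟨h3, h4⟩
    exact ⟨inferInstance, solv_sup hN h2 h4⟩

lemma solvGam : Group.IsSolvable Gam :=
  (F_Gam SF_all ⟨inferInstance, solvP4⟩ ⟨inferInstance, solvS3⟩).2

/-- the group of the example -/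
abbrev Zed := psi.ker

lemma pr1_surj : ∀ m : P4, ∃ x : Zed, pr1 x.1 = m := by
  intro m
  exact ⟨⟨⟨m, m, 0⟩, Int.units_mul_self _⟩, rfl⟩

lemma pr2_surj : ∀ m : P4, ∃ x : Zed, pr2 x.1 = m := by
  intro m
  exact ⟨⟨⟨m, m, 0⟩, Int.units_mul_self _⟩, rfl⟩

lemma triv3 (f : Gam →* P4) (hf : ∀ m : P4, ∃ x : Zed, f x.1 = m) {T : Subgroup Zed}
    (hT : T.Normal) (hT3 : Three T) : ∀ t ∈ T, f t.1 = 1 := by
  let g : Zed →* P4 := f.comp psi.ker.subtype
  have hg : Function.Surjective g := hf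
  have h1 : (T.map g).Normal := hT.map g hg
  have h2 : ∀ t ∈ T.map g, ∃ n, t ^ (3 ^ n) = 1 := by
    rintro _ ⟨x, hx, rfl⟩
    obtain ⟨n, hn⟩ := hT3 x hx
    exact ⟨n, by rw [← map_pow, hn, map_one]⟩
  have h3 := (famP4.three (Kq_normal 2 inferInstance) h1 h2).1
  intro t ht
  exact h3 (g t) ⟨t, ht, rfl⟩ (by rw [KqP4]; trivial)

theorem Z_Zed : ZC Zed := by
  haveI := solvGam
  refine ⟨inferInstance, inferInstance, ?_⟩
  rintro T hT hT3 t ht y _
  have h1 : t.1.p = 1 := triv3 pr1 pr1_surj hT hT3 t ht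
  have h2 : t.1.q = 1 := triv3 pr2 pr2_surj hT hT3 t ht
  have h3 : Equiv.Perm.sign y.1.p * Equiv.Perm.sign y.1.q = 1 := y.2
  rw [unit_mul_eq_one] at h3
  have h4 : aa y.1.q = aa y.1.p := by
    unfold aa; rw [h3]
  apply Subtype.ext
  apply Gam.ext
  · change t.1.p * y.1.p = y.1.p * t.1.p
    rw [h1, one_mul, mul_one]
  · change t.1.q * y.1.q = y.1.q * t.1.q
    rw [h2, one_mul, mul_one]
  · change t.1.w + aa t.1.p * aa t.1.q * y.1.w + ss t.1.p * aa t.1.q * ss y.1.q =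
      y.1.w + aa y.1.p * aa y.1.q * t.1.w + ss y.1.p * aa y.1.q * ss t.1.q
    rw [h1, h2, h4, aa_one, ss_one]
    linear_combination (-t.1.w) * aa_sq y.1.p

theorem nX_Zed : ¬ XC Zed := by
  rintro ⟨_, _, 𝒥, FJ⟩
  -- the central subgroup of order three
  let T : Subgroup Zed := (pr1.comp psi.ker.subtype).ker ⊓ (pr2.comp psi.ker.subtype).ker
  have hTn : T.Normal := inferInstance
  have hT3 : ∀ t ∈ T, ∃ n, t ^ (3 ^ n) = 1 := by
    rintro ⟨⟨p, q, w⟩, h⟩ ⟨hp, hq⟩
    have hp1 : p = 1 := hp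
    have hq1 : q = 1 := hq
    subst hp1; subst hq1
    refine ⟨1, ?_⟩
    rw [pow_one, pow_three']
    apply Subtype.ext
    apply Gam.ext
    · rfl
    · rfl
    · change w + aa 1 * aa 1 * w + ss 1 * aa 1 * ss 1 + aa (1 * 1) * aa (1 * 1) * w +
        ss (1 * 1) * aa (1 * 1) * ss 1 = 0
      rw [mul_one, aa_one, ss_one]
      have : ∀ w : ZMod 3, w + 1 * 1 * w + 0 * 1 * 0 + 1 * 1 * w + 0 * 1 * 0 = 0 := by decide
      exact this w
  have key := (FJ.three (Kq_normal 2 inferInstance) hTn hT3).1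
  let y1 : Zed := ⟨⟨Equiv.swap 0 1, Equiv.swap 0 1, 0⟩, by
    change (_ : ℤˣ) = 1
    decide +kernel⟩
  let y2 : Zed := ⟨⟨Equiv.swap 1 2, Equiv.swap 0 1, 0⟩, by
    change (_ : ℤˣ) = 1
    decide +kernel⟩
  let y3 : Zed := ⟨⟨Equiv.swap 0 1, Equiv.swap 1 2, 0⟩, by
    change (_ : ℤˣ) = 1
    decide +kernel⟩
  have m1 : y1 ∈ Kq 2 (⊤ : Subgroup Zed) := Subgroup.subset_closure ⟨trivial, 1, by
    rw [pow_one, pow_two]
    apply Subtype.ext
    apply Gam.ext
    · change (_ : P4) = _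
      decide +kernel
    · change (_ : P4) = _
      decide +kernel
    · change (_ : ZMod 3) = _
      decide +kernel⟩
  have m2 : y2 ∈ Kq 2 (⊤ : Subgroup Zed) := Subgroup.subset_closure ⟨trivial, 1, by
    rw [pow_one, pow_two]
    apply Subtype.ext
    apply Gam.ext
    · change (_ : P4) = _
      decide +kernel
    · change (_ : P4) = _
      decide +kernel
    · change (_ : ZMod 3) = _
      decide +kernel⟩
  have m3 : y3 ∈ Kq 2 (⊤ : Subgroup Zed) := Subgroup.subset_closure ⟨trivial, 1, by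
    rw [pow_one, pow_two]
    apply Subtype.ext
    apply Gam.ext
    · change (_ : P4) = _
      decide +kernel
    · change (_ : P4) = _
      decide +kernel
    · change (_ : ZMod 3) = _
      decide +kernel⟩
  let c : Zed := (y1 * y2) * (y1 * y3) * ((y1 * y3) * (y1 * y2))⁻¹
  have hc : c ∈ Kq 2 (⊤ : Subgroup Zed) :=
    Subgroup.mul_mem _ (Subgroup.mul_mem _ (Subgroup.mul_mem _ m1 m2) (Subgroup.mul_mem _ m1 m3))
      (Subgroup.inv_mem _ (Subgroup.mul_mem _ (Subgroup.mul_mem _ m1 m3) (Subgroup.mul_mem _ m1 m2)))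
  have hcp : c.1.p = 1 := by
    change (_ : P4) = _
    decide +kernel
  have hcq : c.1.q = 1 := by
    change (_ : P4) = _
    decide +kernel
  have hcw : c.1.w ≠ 0 := by
    change (_ : ZMod 3) ≠ _
    decide +kernel
  have hcT : c ∈ T := ⟨hcp, hcq⟩
  have h1 := key c hcT hc
  exact hcw (by rw [h1]; rfl)

end Pool.Agent.Helper218.Modu
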