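import Mathlib

set_option autoImplicit false
set_option linter.all false

namespace Pool.Agent.Helper218.PG

open Subgroup

/-- closure properties, for finite groups -/
def FitP (C : (G : Type) → [Group G] → Prop) : Prop :=
  ((∀ (G K : Type) [Group G] [Group K], Nonempty (G ≃* K) → C G → C K) ∧
       (∀ (G : Type) [Group G] [Finite G] (N : Subgroup G), N.Normal → C G → C ↥N) ∧
       (∀ (G : Type) [Group G] [Finite G] (N K : Subgroup G),
          N.Normal → K.Normal → C ↥N → C ↥K → C ↥(N ⊔ K)))

section

variable {X : (G : Type) → [Group G] → Prop} (hX : FitP X)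
include hX

lemma triv {K : Type} [Group K] [Finite K] (hK : X K) {T : Type} [Group T] (hT : ∀ x : T, x = 1) :
    X T := by
  have h1 := hX.2.1 K ⊥ inferInstance hK
  haveI : Unique T := ⟨⟨1⟩, hT⟩
  exact hX.1 _ _ ⟨MulEquiv.ofUnique⟩ h1

lemma radical_exists {K : Type} [Group K] [Finite K] (hK : X K) (G : Type) [Group G] [Finite G] :
    ∃ N : Subgroup G, N.Normal ∧ X N ∧ ∀ M : Subgroup G, M.Normal → X M → M ≤ N := by
  have hbot : X (⊥ : Subgroup G) := triv hX hK (fun x => Subtype.ext (Subgroup.mem_bot.1 x.2))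
  have hfin : (({N : Subgroup G | N.Normal ∧ X N} : Set (Subgroup G))).Finite := Set.toFinite _
  obtain ⟨N, hN⟩ := hfin.exists_maximal ⟨⊥, inferInstance, hbot⟩
  refine ⟨N, hN.1.1, hN.1.2, ?_⟩
  intro M hM hXM
  haveI := hN.1.1
  haveI := hM
  have h1 : (N ⊔ M) ∈ {N : Subgroup G | N.Normal ∧ X N} :=
    ⟨inferInstance, hX.2.2 G N M hN.1.1 hM hN.1.2 hXM⟩
  exact le_sup_right.trans (hN.2 h1 le_sup_left)

lemma of_top {G : Type} [Group G] (h : X (⊤ : Subgroup G)) : X G :=
  hX.1 _ _ ⟨Subgroup.topEquiv⟩ h

lemma of_sub {G : Type} [Group G] {A B : Subgroup G} (hAB : A ≤ B) (h : X (A.subgroupOf B)) :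
    X A := hX.1 _ _ ⟨Subgroup.subgroupOfEquivOfLe hAB⟩ h

lemma prod2 {H K : Type} [Group H] [Group K] [Finite H] [Finite K] (h1 : X H) (h2 : X K) :
    X (H × K) := by
  have n1 : (MonoidHom.inl H K).range.Normal := by
    constructor
    rintro _ ⟨x, rfl⟩ g
    exact ⟨g.1 * x * g.1⁻¹, by ext <;> simp⟩
  have n2 : (MonoidHom.inr H K).range.Normal := by
    constructor
    rintro _ ⟨x, rfl⟩ g
    exact ⟨g.2 * x * g.2⁻¹, by ext <;> simp⟩
  have h3 := hX.2.2 (H × K) _ _ n1 n2
    (hX.1 _ _ ⟨MonoidHom.ofInjective (f := MonoidHom.inl H K) (fun x y h => congrArg Prod.fst h)⟩ h1)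
    (hX.1 _ _ ⟨MonoidHom.ofInjective (f := MonoidHom.inr H K) (fun x y h => congrArg Prod.snd h)⟩ h2)
  have htop : (MonoidHom.inl H K).range ⊔ (MonoidHom.inr H K).range = ⊤ := by
    rw [eq_top_iff]
    rintro ⟨x, y⟩ _
    have e : ((x, y) : H × K) = MonoidHom.inl H K x * MonoidHom.inr H K y := by
      ext <;> simp
    rw [e]
    exact Subgroup.mul_mem _ (Subgroup.mem_sup_left ⟨x, rfl⟩) (Subgroup.mem_sup_right ⟨y, rfl⟩)
  rw [htop] at h3
  exact of_top hX h3

/-- groups generated by elements of order `p` -/
theorem gen_p {p : ℕ} [hp : Fact p.Prime] {C : Type} [Group C] [Finite C] (hC : Nat.card C = p)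
    (h : X C) : ∀ (n : ℕ) (P : Type) [Group P] [Finite P], Nat.card P = n → IsPGroup p P →
      Subgroup.closure {g : P | g ^ p = 1} = ⊤ → X P := by
  intro n
  induction n using Nat.strong_induction_on with
  | _ n ih =>
  intro P _ _ hn hP hgen
  obtain ⟨N, hN, hXN, hmax⟩ := radical_exists hX h P
  have hall : ∀ g : P, g ^ p = 1 → g ∈ N := by
    intro g hg
    by_cases htop : Subgroup.normalClosure {g} = ⊤
    · -- `P` is cyclic generated by `g`
      have hz : Subgroup.zpowers g = ⊤ := by
        by_contra hne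
        obtain ⟨M, hM, hle⟩ := (eq_top_or_exists_le_coatom (Subgroup.zpowers g)).resolve_left hne
        haveI : Group.IsNilpotent P := hP.isNilpotent
        haveI hMn : M.Normal := NormalizerCondition.normal_of_coatom M
          Group.normalizerCondition_of_isNilpotent hM
        have h1 : Subgroup.normalClosure {g} ≤ M := by
          apply Subgroup.normalClosure_le_normal
          rintro _ rfl
          exact hle (Subgroup.mem_zpowers _)
        rw [htop] at h1
        exact hM.1 (top_le_iff.1 h1)
      have hXP : X P := by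
        by_cases hg1 : g = 1
        · apply triv hX h
          intro x
          have hx : x ∈ Subgroup.zpowers g := by rw [hz]; trivial
          rw [hg1, Subgroup.zpowers_one_eq_bot] at hx
          exact Subgroup.mem_bot.1 hx
        · have ho : orderOf g = p := orderOf_eq_prime hg hg1
          have hcard : Nat.card P = p := by
            rw [← ho, ← Nat.card_zpowers, hz, Subgroup.card_top]
          haveI : IsCyclic P := isCyclic_of_prime_card hcard
          haveI : IsCyclic C := isCyclic_of_prime_card hC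
          exact hX.1 _ _ ⟨mulEquivOfCyclicCardEq (by rw [hC, hcard])⟩ h
      have h2 : X (⊤ : Subgroup P) := hX.1 _ _ ⟨Subgroup.topEquiv.symm⟩ hXP
      exact hmax ⊤ inferInstance h2 trivial
    · -- the normal closure is a smaller group
      have hlt : Nat.card (Subgroup.normalClosure {g}) < n := by
        rw [← hn]
        have h1 : Nat.card (Subgroup.normalClosure {g}) ≤ Nat.card P := Subgroup.card_le_card_group _
        refine lt_of_le_of_ne h1 ?_
        intro he
        exact htop (Subgroup.eq_top_of_card_eq _ he)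
      have hXN' : X (Subgroup.normalClosure {g}) := by
        refine ih _ hlt (Subgroup.normalClosure {g}) rfl (hP.to_subgroup _) ?_
        rw [eq_top_iff]
        rintro ⟨x, hx⟩ _
        have key : ∀ y ∈ Subgroup.closure (Group.conjugatesOfSet {g}),
            ∃ hy : y ∈ Subgroup.normalClosure {g}, (⟨y, hy⟩ : Subgroup.normalClosure {g}) ∈
              Subgroup.closure {g : Subgroup.normalClosure {g} | g ^ p = 1} := by
          intro y hy
          induction hy using Subgroup.closure_induction with
          | mem y hy =>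
            have hy' : y ∈ Subgroup.normalClosure {g} := Subgroup.subset_closure hy
            refine ⟨hy', Subgroup.subset_closure ?_⟩
            rw [Group.mem_conjugatesOfSet_iff] at hy
            obtain ⟨a, ha, hay⟩ := hy
            rw [Set.mem_singleton_iff] at ha
            subst ha
            obtain ⟨c, hc⟩ := isConj_iff.1 hay
            apply Subtype.ext
            change y ^ p = 1
            rw [← hc, conj_pow, hg]
            group
          | one => exact ⟨Subgroup.one_mem _, Subgroup.one_mem _⟩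
          | mul a b _ _ iha ihb =>
            obtain ⟨ha, ha'⟩ := iha
            obtain ⟨hb, hb'⟩ := ihb
            exact ⟨Subgroup.mul_mem _ ha hb, Subgroup.mul_mem _ ha' hb'⟩
          | inv a _ iha =>
            obtain ⟨ha, ha'⟩ := iha
            exact ⟨Subgroup.inv_mem _ ha, Subgroup.inv_mem _ ha'⟩
        obtain ⟨_, h3⟩ := key x hx
        exact h3
      exact hmax _ inferInstance hXN' (Subgroup.subset_normalClosure rfl)
  have hNt : N = ⊤ := by
    rw [eq_top_iff, ← hgen, Subgroup.closure_le]
    exact fun g hg => hall g hg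
  rw [hNt] at hXN
  exact of_top hX hXN

/-- subgroups of `p`-groups -/
theorem sub_p {p : ℕ} [hp : Fact p.Prime] : ∀ (n : ℕ) (P : Type) [Group P] [Finite P],
    Nat.card P = n → IsPGroup p P → X P → ∀ A : Subgroup P, X A := by
  intro n
  induction n using Nat.strong_induction_on with
  | _ n ih =>
  intro P _ _ hn hP hXP A
  by_cases hA : A = ⊤
  · subst hA
    exact hX.1 _ _ ⟨Subgroup.topEquiv.symm⟩ hXP
  · obtain ⟨M, hM, hle⟩ := (eq_top_or_exists_le_coatom A).resolve_left hA
    haveI : Group.IsNilpotent P := hP.isNilpotent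
    haveI hMn : M.Normal := NormalizerCondition.normal_of_coatom M
      Group.normalizerCondition_of_isNilpotent hM
    have hXM : X M := hX.2.1 P M hMn hXP
    have hlt : Nat.card M < n := by
      rw [← hn]
      have h1 : Nat.card M ≤ Nat.card P := Subgroup.card_le_card_group _
      refine lt_of_le_of_ne h1 ?_
      intro he
      exact hM.1 (Subgroup.eq_top_of_card_eq _ he)
    exact of_sub hX hle (ih _ hlt M rfl (hP.to_subgroup _) hXM (A.subgroupOf M))

end

/-! ### iterated wreath products -/

lemma pi_gen {p : ℕ} {D Q : Type} [Group D] [Group Q] [Finite Q]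
    (hD : Subgroup.closure {g : D | g ^ p = 1} = ⊤) (f : Q → D) :
    (⟨f, 1⟩ : D ≀ᵣ Q) ∈ Subgroup.closure {g : D ≀ᵣ Q | g ^ p = 1} := by
  classical
  let e : (Q → D) →* D ≀ᵣ Q :=
    { toFun := fun f => ⟨f, 1⟩
      map_one' := rfl
      map_mul' := fun x y => by
        ext
        · simp
        · simp }
  have h1 : ∀ (x : Q) (d : D), e (Pi.mulSingle x d) ∈ Subgroup.closure {g : D ≀ᵣ Q | g ^ p = 1} := by
    intro x d
    have hd : d ∈ Subgroup.closure {g : D | g ^ p = 1} := by rw [hD]; trivial
    have h2 : (Subgroup.closure {g : D | g ^ p = 1}).map (e.comp (MonoidHom.mulSingle (fun _ => D) x))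
        ≤ Subgroup.closure {g : D ≀ᵣ Q | g ^ p = 1} := by
      rw [MonoidHom.map_closure]
      apply Subgroup.closure_mono
      rintro _ ⟨g, hg, rfl⟩
      have hg' : g ^ p = 1 := hg
      change (e.comp (MonoidHom.mulSingle (fun _ => D) x) g) ^ p = 1
      rw [← map_pow, hg', map_one]
    exact h2 ⟨d, hd, rfl⟩
  have h3 : (Subgroup.closure {g : D ≀ᵣ Q | g ^ p = 1}).comap e = ⊤ := by
    rw [eq_top_iff]
    have h4 := Subgroup.pi_le_iff (H := fun _ : Q => (⊤ : Subgroup D))
      (J := (Subgroup.closure {g : D ≀ᵣ Q | g ^ p = 1}).comap e)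
    rw [← Subgroup.pi_top (I := Set.univ)]
    rw [h4]
    rintro x _ ⟨d, _, rfl⟩
    exact h1 x d
  have h5 : f ∈ (Subgroup.closure {g : D ≀ᵣ Q | g ^ p = 1}).comap e := by rw [h3]; trivial
  exact h5

lemma wreath_gen {p : ℕ} {C : Type} [Group C] [Finite C] (hC : ∀ c : C, c ^ p = 1) (n : ℕ) :
    Subgroup.closure {g : IteratedWreathProduct C n | g ^ p = 1} = ⊤ := by
  induction n with
  | zero =>
    rw [eq_top_iff]
    intro x _
    have : x = 1 := Subsingleton.elim (α := PUnit) _ _
    rw [this]; exact Subgroup.one_mem _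
  | succ n ih =>
    rw [eq_top_iff]
    intro x _
    have h1 : x = (⟨RegularWreathProduct.left x, 1⟩ : (IteratedWreathProduct C n) ≀ᵣ C) *
        RegularWreathProduct.inl (RegularWreathProduct.right x) := by
      apply RegularWreathProduct.ext
      · funext y
        simp
      · simp
    rw [h1]
    refine Subgroup.mul_mem _ (pi_gen ih _) (Subgroup.subset_closure ?_)
    change (RegularWreathProduct.inl (RegularWreathProduct.right x) :
      (IteratedWreathProduct C n) ≀ᵣ C) ^ p = 1
    rw [← map_pow, hC, map_one]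

/-- a Fitting class containing a group of order `p` contains all finite `p`-groups -/
theorem all_p {X : (G : Type) → [Group G] → Prop} (hX : FitP X) {p : ℕ} [hp : Fact p.Prime]
    {C : Type} [Group C] [Finite C] (hC : Nat.card C = p) (h : X C) (P : Type) [Group P] [Finite P]
    (hP : IsPGroup p P) : X P := by
  obtain ⟨n, hn⟩ := (IsPGroup.iff_card (p := p) (G := P)).1 hP
  let φ : P →* Equiv.Perm P := MulAction.toPermHom P P
  have hφ : Function.Injective φ := MulAction.toPerm_injective
  have hr : IsPGroup p φ.range := by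
    rintro ⟨_, y, rfl⟩
    obtain ⟨k, hk⟩ := hP y
    exact ⟨k, Subtype.ext (by
      change (φ y) ^ p ^ k = 1
      rw [← map_pow, hk, map_one])⟩
  obtain ⟨S, hS⟩ := hr.exists_le_sylow
  have e : S ≃* IteratedWreathProduct C n :=
    Sylow.mulEquivIteratedWreathProduct p n P hn C hC S
  have hexp : ∀ c : C, c ^ p = 1 := by
    intro c
    rw [← hC]; exact pow_card_eq_one'
  have hgen := wreath_gen hexp n
  have hpW : IsPGroup p (IteratedWreathProduct C n) := S.2.of_equiv e
  have hXW : X (IteratedWreathProduct C n) := gen_p hX hC h _ _ rfl hpW hgen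
  have hXS : X S := hX.1 _ _ ⟨e.symm⟩ hXW
  have hXr : X (φ.range.subgroupOf (S : Subgroup (Equiv.Perm P))) :=
    sub_p hX _ S rfl S.2 hXS _
  have hXr' : X φ.range := of_sub hX hS hXr
  exact hX.1 _ _ ⟨(MonoidHom.ofInjective hφ).symm⟩ hXr'

end Pool.Agent.Helper218.PG
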